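import Pool.Agent.H.MP_4bad09_co.Y7

set_option autoImplicit false
set_option maxRecDepth 100000

/-!
# Explicit decompositions: lifts (MP_4bad09_co, helper11)
-/

namespace Wr

/-- the cyclic order `x_0, x_1, …` modulo `n` that begins with the list `l` of length `d` and has `x_(t + d) = x_t + s` -/
def lft (n s : ℕ) (l : List ℕ) : List ℕ :=
  (List.range (n / l.length)).flatMap fun k => l.map fun x => (x + k * s) % n

/-- the first `d` translates of a cyclic order -/
def trd (d n : ℕ) (l : List ℕ) : List (List ℕ) := (List.range d).map fun s => l.map (tr n s)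

/-- the translates of the lifts -/
def lfts (n : ℕ) (F : List (ℕ × List ℕ)) : List (List ℕ) :=
  F.flatMap fun p => trd p.2.length n (lft n p.1 p.2)

end Wr
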