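import Pool.Agent.H.MP_4bad09_co.B0

set_option autoImplicit false
set_option maxRecDepth 100000

/-!
# Explicit decompositions: 4, 5, 7, 10, 11, 13, 17, 19 (MP_4bad09_co, helper11)
-/

namespace Wr
theorem TH4 : TH (Fin 4) 4 := TH_of_chk (by norm_num) [[0, 1, 2, 3]] (by decide +kernel)

theorem TH5 : TH (Fin 5) 5 :=
  TH_of_chk (by norm_num) [[0, 1, 2, 3, 4], [0, 2, 4, 1, 3]] (by decide +kernel)

theorem TH7 : TH (Fin 7) 7 :=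
  TH_of_chk (by norm_num) (trs 5 [4, 1, 5, 0, 6, 2, 3]) (by decide +kernel)

theorem TH10 : TH (Fin 10) 10 :=
  TH_of_chk (by norm_num) [[1, 0, 3, 9, 6, 7, 8, 4, 5, 2],
  [2, 1, 4, 5, 7, 8, 9, 0, 6, 3],
  [3, 2, 0, 6, 8, 9, 5, 1, 7, 4],
  [4, 3, 1, 7, 9, 5, 6, 2, 8, 0],
  [0, 4, 2, 8, 5, 6, 7, 3, 9, 1],
  [3, 4, 8, 1, 9, 2, 6, 7, 0, 5],
  [4, 0, 9, 2, 5, 3, 7, 8, 1, 6],
  [0, 1, 5, 3, 6, 4, 8, 9, 2, 7],
  [1, 2, 6, 4, 7, 0, 9, 5, 3, 8],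
  [2, 3, 7, 0, 8, 1, 5, 6, 4, 9],
  [0, 6, 1, 7, 2, 8, 3, 9, 4, 5],
  [0, 5, 2, 7, 4, 9, 1, 6, 3, 8]] (by decide +kernel)

/-- the cyclic orders for `11` points -/
def L11 : List (List ℕ) := List.flatMap (trs 11) [[2, 1, 9, 3, 10, 8, 7, 6, 4, 0, 5]] ++
    List.map (apc 11) [2, 3, 4, 5]

theorem chk11 : chk 11 L11 = true := by decide +kernel

theorem TH11 : TH (Fin 11) 11 := TH_of_chk (by norm_num) L11 chk11

theorem THe5 : THe 5 :=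
  THe_of_chk (by norm_num) L11 chk11 [1, 2, 3, 4, 5]
    [4, 5, 3, 7, 9, 12, 1, 13, 2, 0] (by decide +kernel)

/-- the cyclic orders for `13` points -/
def L13 : List (List ℕ) := List.flatMap (trs 11) [[9, 5, 11, 3, 2, 4, 8, 1, 7, 0, 10, 12, 6],
  [2, 11, 5, 10, 4, 8, 6, 3, 0, 1, 9, 7, 12]]

theorem chk13 : chk 13 L13 = true := by decide +kernel

theorem TH13 : TH (Fin 13) 13 := TH_of_chk (by norm_num) L13 chk13

theorem THe6 : THe 6 :=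
  THe_of_chk (by norm_num) L13 chk13 [4, 7, 3, 8, 11, 12]
    [3, 4, 0, 2, 11, 13, 16, 19, 6, 8, 5, 1] (by decide +kernel)

theorem TH19 : TH (Fin 19) 19 := TH_of_chk (by norm_num) (List.flatMap (trs 17) [[3, 1, 0, 11, 2, 10, 16, 4, 17, 5, 15, 7, 12, 13, 18, 8, 14, 9, 6],
  [14, 11, 16, 12, 4, 6, 7, 5, 3, 9, 0, 2, 13, 17, 10, 8, 18, 1, 15],
  [12, 11, 4, 6, 16, 3, 13, 9, 5, 17, 14, 18, 10, 2, 15, 8, 1, 0, 7]])
  (by decide +kernel)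

theorem TH17 : TH (Fin 17) 17 := TH_of_chk (by norm_num)
  (List.flatMap (fun l => trs 17 (symc 17 l)) ([[1, 8, 12, 6, 15, 4, 3, 10],
  [2, 12, 10, 13, 14, 1, 9, 6]]) ++
    List.map (apc 17) [3, 4, 5, 6, 7, 8])
  (by decide +kernel)

end Wr
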