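import Pool.Agent.H.MP_4bad09_co.B0

set_option autoImplicit false
set_option maxRecDepth 100000

/-!
# Explicit decompositions: 23 (MP_4bad09_co, helper11)
-/

namespace Wr

theorem TH23 : TH (Fin 23) 23 := TH_of_chk (by norm_num)
  (List.flatMap (fun l => trs 23 (symc 23 l)) ([[11, 14, 10, 22, 4, 5, 17, 21, 8, 7, 3],
  [4, 18, 20, 7, 12, 10, 17, 22, 14, 21, 15],
  [22, 20, 14, 18, 11, 21, 13, 4, 7, 15, 6]]) ++
    List.map (apc 23) [2, 3, 5, 6, 7, 8, 9, 10])
  (by decide +kernel)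

end Wr
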