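import Pool.Agent.H.MP_4bad09_co.B0

set_option autoImplicit false
set_option maxRecDepth 100000

/-!
# Explicit decompositions: 25 (MP_4bad09_co, helper11)
-/

namespace Wr

theorem TH25 : TH (Fin 25) 25 := TH_of_chk (by norm_num)
  (List.flatMap (fun l => trs 25 (symc 25 l)) ([[5, 22, 10, 17, 7, 4, 6, 16, 12, 1, 2, 11],
  [10, 8, 13, 6, 5, 1, 21, 2, 16, 7, 22, 14]]) ++
    (lfts 25 [(5, [0, 3, 7, 21, 9]),
    (20, [0, 22, 18, 4, 16]),
    (5, [0, 11, 2, 3, 19]),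
    (5, [0, 1, 12, 18, 4]),
    (5, [0, 3, 9, 21, 2]),
    (10, [0, 6, 23, 19, 17]),
    (15, [0, 19, 2, 6, 8])] ++
    List.map (apc 25) [2, 4, 6, 7, 8, 9, 12]))
  (by decide +kernel)

end Wr
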