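import Pool.Agent.H.MP_4bad09_co.B0

set_option autoImplicit false
set_option maxRecDepth 100000

/-!
# Explicit decompositions: 29 (MP_4bad09_co, helper11)
-/

namespace Wr

theorem TH29 : TH (Fin 29) 29 := TH_of_chk (by norm_num)
  (List.flatMap (fun l => trs 29 (symc 29 l)) ([[14, 6, 16, 27, 11, 25, 22, 1, 8, 26, 5, 17, 19, 20],
  [5, 4, 21, 22, 6, 15, 10, 1, 3, 27, 20, 17, 13, 11],
  [17, 6, 15, 18, 24, 4, 8, 22, 27, 28, 20, 19, 26, 13],
  [19, 20, 23, 8, 27, 4, 14, 26, 18, 13, 7, 5, 17, 1]]) ++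
    List.map (apc 29) [1, 2, 3, 4, 6, 7, 8, 9, 11, 13])
  (by decide +kernel)

end Wr
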