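import Pool.Agent.H.MP_4bad09_co.B0

set_option autoImplicit false
set_option maxRecDepth 100000

/-!
# Explicit decompositions: 35 (MP_4bad09_co, helper11)
-/

namespace Wr

theorem TH35 : TH (Fin 35) 35 := TH_of_chk (by norm_num)
  (List.flatMap (fun l => trs 35 (symc 35 l)) ([[16, 21, 10, 9, 15, 31, 3, 18, 24, 8, 7, 30, 34, 6, 2, 22, 23],
  [8, 28, 25, 17, 19, 23, 20, 30, 26, 13, 1, 33, 3, 24, 6, 4, 14],
  [5, 12, 14, 1, 31, 3, 9, 29, 17, 13, 27, 2, 11, 7, 20, 10, 19]]) ++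
    (lfts 35 [(10, [0, 28, 34, 11, 17]),
    (10, [0, 21, 13, 32, 24]),
    (14, [0, 25, 23, 22, 27, 26, 24]),
    (7, [0, 15, 10, 2, 5, 32, 27]),
    (14, [0, 6, 24, 16, 33, 25, 8]),
    (14, [0, 2, 18, 13, 1, 31, 12]),
    (14, [0, 22, 2, 3, 11, 12, 27]),
    (7, [0, 26, 11, 22, 20, 31, 16]),
    (15, [0, 1, 28, 22, 14]),
    (15, [0, 9, 28, 6, 27]),
    (20, [0, 26, 7, 29, 8]),
    (5, [0, 14, 3, 21, 7]),
    (30, [0, 21, 32, 14, 28])] ++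
    List.map (apc 35) [3, 4, 11, 12, 17]))
  (by decide +kernel)

end Wr
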