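import Pool.Agent.H.MP_4bad09_co.B0

set_option autoImplicit false
set_option maxRecDepth 100000

/-!
# Explicit decompositions: 41 (MP_4bad09_co, helper11)
-/

namespace Wr

theorem TH41 : TH (Fin 41) 41 := TH_of_chk (by norm_num)
  (List.flatMap (fun l => trs 41 (symc 41 l)) ([[4, 11, 22, 39, 36, 35, 9, 38, 34, 17, 18, 40, 12, 15, 33, 27, 31, 16, 13, 20],
  [24, 1, 16, 11, 13, 14, 19, 10, 36, 12, 2, 32, 4, 8, 18, 15, 35, 3, 34, 21],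
  [35, 19, 4, 25, 20, 27, 39, 32, 38, 28, 36, 1, 26, 23, 34, 24, 12, 11, 33, 31],
  [36, 17, 34, 23, 37, 28, 40, 14, 19, 30, 39, 32, 26, 12, 10, 38, 33, 21, 35, 16],
  [11, 9, 21, 17, 35, 3, 7, 8, 37, 26, 18, 1, 36, 31, 39, 12, 28, 27, 19, 25],
  [28, 7, 36, 20, 16, 38, 23, 1, 14, 6, 37, 9, 29, 2, 19, 11, 26, 17, 10, 33]]) ++
    List.map (apc 41) [1, 2, 3, 7, 8, 9, 10, 12, 14, 15, 16, 18, 19, 20])
  (by decide +kernel)

end Wr
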