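import Pool.Agent.H.MP_4bad09_co.B0

set_option autoImplicit false
set_option maxRecDepth 100000

/-!
# Explicit decompositions: 49 (MP_4bad09_co, helper11)
-/

namespace Wr

theorem TH49 : TH (Fin 49) 49 := TH_of_chk (by norm_num)
  (List.flatMap (fun l => trs 49 (symc 49 l)) ([[28, 1, 24, 45, 47, 37, 30, 32, 18, 26, 3, 22, 15, 40, 8, 11, 43, 29, 5, 42, 14, 36, 39, 16],
  [7, 48, 43, 31, 17, 13, 4, 20, 16, 8, 26, 15, 22, 25, 14, 12, 21, 47, 39, 11, 46, 44, 19, 40],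
  [5, 25, 46, 27, 6, 38, 26, 7, 40, 39, 20, 13, 19, 33, 41, 4, 48, 18, 21, 14, 37, 47, 34, 32],
  [14, 9, 42, 21, 41, 6, 2, 23, 48, 13, 12, 27, 20, 5, 38, 16, 3, 31, 34, 45, 24, 30, 17, 10]]) ++
    (lfts 49 [(14, [0, 6, 19, 2, 43, 24, 39]),
    (35, [0, 43, 30, 47, 6, 25, 10]),
    (21, [0, 1, 18, 37, 34, 19, 31]),
    (28, [0, 48, 31, 12, 15, 30, 18]),
    (21, [0, 2, 11, 3, 22, 20, 26]),
    (28, [0, 47, 38, 46, 27, 29, 23]),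
    (21, [0, 3, 8, 19, 4, 48, 30]),
    (28, [0, 46, 41, 30, 45, 1, 19]),
    (14, [0, 6, 44, 32, 45, 5, 22]),
    (35, [0, 43, 5, 17, 4, 44, 27]),
    (21, [0, 12, 9, 45, 29, 20, 39]),
    (28, [0, 37, 40, 4, 20, 29, 10]),
    (21, [0, 4, 3, 1, 27, 40, 16]),
    (28, [0, 45, 46, 48, 22, 9, 33]),
    (21, [0, 4, 24, 20, 30, 8, 26]),
    (28, [0, 45, 25, 29, 19, 41, 23]),
    (21, [0, 16, 15, 39, 31, 6, 5]),
    (14, [0, 19, 39, 8, 6, 24, 44]),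
    (14, [0, 31, 2, 29, 34, 12, 32]),
    (7, [0, 25, 34, 40, 16, 22, 31]),
    (14, [0, 23, 34, 24, 39, 29, 40]),
    (14, [0, 1, 23, 17, 46, 40, 13]),
    (14, [0, 10, 16, 27, 36, 47, 4]),
    (7, [0, 38, 1, 23, 33, 6, 18])] ++
    List.map (apc 49) [2, 3, 4, 6, 8, 9, 12, 13, 15, 17, 20, 22]))
  (by decide +kernel)

end Wr
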