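import Pool.Agent.H.MP_4bad09_co.B0

set_option autoImplicit false
set_option maxRecDepth 100000

/-!
# Explicit decompositions: 53 (MP_4bad09_co, helper11)
-/

namespace Wr

theorem TH53 : TH (Fin 53) 53 := TH_of_chk (by norm_num)
  (List.flatMap (fun l => trs 53 (symc 53 l)) ([[24, 6, 35, 5, 51, 36, 1, 26, 32, 33, 13, 39, 45, 34, 4, 44, 50, 25, 10, 22, 46, 30, 42, 12, 38, 37],
  [18, 46, 5, 45, 2, 30, 47, 44, 43, 38, 22, 32, 52, 27, 50, 41, 42, 25, 36, 33, 16, 29, 13, 4, 14, 19],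
  [12, 19, 3, 4, 43, 9, 22, 17, 15, 27, 1, 23, 37, 25, 42, 40, 18, 21, 45, 20, 24, 6, 46, 39, 51, 48],
  [5, 34, 14, 35, 31, 7, 17, 11, 33, 38, 24, 13, 3, 49, 28, 23, 10, 37, 12, 1, 27, 44, 51, 47, 45, 32],
  [22, 32, 10, 9, 7, 33, 23, 15, 47, 17, 34, 49, 28, 40, 39, 5, 37, 45, 18, 29, 51, 1, 12, 11, 26, 3],
  [43, 51, 9, 28, 46, 1, 21, 5, 35, 26, 29, 47, 30, 38, 37, 42, 12, 45, 33, 17, 50, 31, 34, 39, 4, 13],
  [11, 13, 16, 39, 35, 48, 29, 20, 27, 38, 23, 52, 3, 45, 12, 19, 43, 6, 28, 36, 22, 32, 51, 49, 7, 44],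
  [9, 40, 4, 10, 24, 2, 20, 41, 17, 26, 22, 34, 16, 14, 8, 52, 18, 3, 11, 23, 38, 5, 7, 21, 28, 47]]) ++
    List.map (apc 53) [1, 2, 3, 4, 6, 7, 8, 13, 14, 15, 16, 17, 19, 20, 21, 23, 25, 26])
  (by decide +kernel)

end Wr
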