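import Mathlib

/-!
# Tight Hamilton decompositions of complete 3-uniform hypergraphs: definitions

A tight Hamilton cycle on a finite set `V` is given by a permutation `σ` of `V` with one orbit;
its edges are the windows `{w, σ w, σ (σ w)}`.  `HD V`: there are tight Hamilton cycles, in the
number `choose N 3 / N`, whose windows cover all 3-subsets of `V`.
-/

namespace Pool.Agent.H.MP_4bad09_co

/-- one orbit (a cyclic ordering of all of `V`) -/
def Trans {V : Type*} (σ : Equiv.Perm V) : Prop := ∀ x y : V, ∃ i : ℕ, (σ ^ i) x = y

/-- tight Hamilton decomposition of the complete 3-uniform hypergraph on `V` -/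
def HD (V : Type) [Fintype V] [DecidableEq V] : Prop :=
  ∃ (ι : Type) (_ : Fintype ι) (σ : ι → Equiv.Perm V), (∀ k, Trans (σ k)) ∧
    Fintype.card ι * Fintype.card V = (Fintype.card V).choose 3 ∧
    ∀ s : Finset V, s.card = 3 → ∃ (k : ι) (w : V), s = {w, σ k w, σ k (σ k w)}

/-- the auxiliary family for the triples containing a pair: transitive permutations of `V` with a
choice of the entrance in each pair, covering every ordered pair and every bit -/
def RP (V : Type) [Fintype V] [DecidableEq V] : Prop :=
  ∃ (κ : Type) (_ : Fintype κ) (π : κ → Equiv.Perm V) (en : κ → V → Bool),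
    (∀ k, Trans (π k)) ∧ Fintype.card κ + 1 = Fintype.card V ∧
    ∀ v w : V, v ≠ w → ∀ b : Bool,
      ∃ k, (π k v = w ∧ en k w = b) ∨ (π k w = v ∧ en k w ≠ b)

end Pool.Agent.H.MP_4bad09_co
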