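import Pool.Agent.H.MP_4bad09_co.W1

set_option autoImplicit false

/-!
# The recursion from `N` to `4 N - 3`: the lifts (MP_4bad09_co, helper80)

Points: `none` and `m` groups of four points.  A cyclic order `g` of `none` and the `m` groups that begins with
`none` has `16` lifts, cyclic orders of the `4 m + 1` points.  Every lift runs through the positions `1, …, m` of `g`
four times: strand `0` forwards (positions `1, …, m`), then the points `b2` (position `m`) and `c1` (position `1`),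
strand `1` forwards, strand `2` backwards (it has the point of the position `m` in common with strand `1`),
strand `3` forwards (it has the point of the position `1` in common with strand `2`), and then `none`.
-/

namespace WrQ

open Wr

/-- the set `{a, b}` is the set `{x, y}` -/
def pr (a b x y : Fin 4) : Prop := (a = x ∧ b = y) ∨ (a = y ∧ b = x)

instance (a b x y : Fin 4) : Decidable (pr a b x y) := by
  unfold pr
  infer_instance

/-- The labels of the `16` lifts of a cyclic order with `m` groups: strand `s` has the label `lab q s p` at the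
position `p`.  `L x y z`: the triples with labels `x, y` in one group and `z` in another group are not needed. -/
structure Tem (m : ℕ) (L : Fin 4 → Fin 4 → Fin 4 → Prop) where
  lab : Fin 16 → Fin 4 → ℕ → Fin 4
  b2 : Fin 16 → Fin 4
  c1 : Fin 16 → Fin 4
  sh1 : ∀ q, lab q 2 1 = lab q 3 1
  shm : ∀ q, lab q 1 m = lab q 2 m
  s1 : ∀ q x, lab q 0 1 = x ∨ lab q 1 1 = x ∨ lab q 3 1 = x ∨ c1 q = x
  sm : ∀ q x, lab q 0 m = x ∨ b2 q = x ∨ lab q 1 m = x ∨ lab q 3 m = x
  si : ∀ q p x, 2 ≤ p → p + 1 ≤ m → ∃ s, lab q s p = x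
  w : ∀ p x y z, 1 ≤ p → p + 2 ≤ m → ∃ q s, lab q s p = x ∧ lab q s (p + 1) = y ∧ lab q s (p + 2) = z
  bc : ∀ x y, ∃ q, lab q 3 m = x ∧ lab q 0 1 = y
  cd : ∀ x y, ∃ q, lab q 0 1 = x ∧ lab q 0 2 = y
  ab : ∀ x y, ∃ q, lab q 3 (m - 1) = x ∧ lab q 3 m = y
  u1 : ∀ x y z, x ≠ y → ¬ L x y z → ∃ q, pr (lab q 0 m) (b2 q) x y ∧ lab q 0 (m - 1) = z
  u2 : ∀ x y z, x ≠ y → ¬ L x y z → ∃ q, pr (lab q 0 m) (b2 q) x y ∧ c1 q = z
  u3 : ∀ x y z, x ≠ y → ¬ L x y z → ∃ q, pr (c1 q) (lab q 1 1) x y ∧ b2 q = z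
  u4 : ∀ x y z, x ≠ y → ¬ L x y z → ∃ q, pr (c1 q) (lab q 1 1) x y ∧ lab q 1 2 = z
  u5 : ∀ x y z, x ≠ y → ¬ L x y z → ∃ q, pr (lab q 1 (m - 1)) (lab q 2 (m - 1)) x y ∧ lab q 1 m = z
  u6 : ∀ x y z, x ≠ y → ¬ L x y z → ∃ q, pr (lab q 2 2) (lab q 3 2) x y ∧ lab q 3 1 = z

section mk

variable {V : Type} {n : ℕ}

/-- the cyclic order `h 0, …, h (n - 1)` -/
def mkc (h : ℕ → V) (_hn : 0 < n) (hs : ∀ v, ∃ t < n, h t = v) : Cyc V n where
  f t := h (t % n)
  per t := by rw [Nat.add_mod_right]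
  surj v := by
    obtain ⟨t, ht, rfl⟩ := hs v
    exact ⟨t, by rw [Nat.mod_eq_of_lt ht]⟩

variable (h : ℕ → V) (hn : 0 < n) (hs : ∀ v, ∃ t < n, h t = v)

theorem mkc_win (t : ℕ) (ht : t + 2 < n) (x y z : V) (hx : h t = x) (hy : h (t + 1) = y)
    (hz : h (t + 2) = z) : (mkc h hn hs).Win x y z := by
  refine ⟨t, ?_, ?_, ?_⟩
  · change h (t % n) = x
    rw [Nat.mod_eq_of_lt (by omega), hx]
  · change h ((t + 1) % n) = y
    rw [Nat.mod_eq_of_lt (by omega), hy]
  · change h ((t + 2) % n) = z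
    rw [Nat.mod_eq_of_lt (by omega), hz]

theorem mkc_win1 (t : ℕ) (ht : t + 2 = n) (x y z : V) (hx : h t = x) (hy : h (t + 1) = y)
    (hz : h 0 = z) : (mkc h hn hs).Win x y z := by
  refine ⟨t, ?_, ?_, ?_⟩
  · change h (t % n) = x
    rw [Nat.mod_eq_of_lt (by omega), hx]
  · change h ((t + 1) % n) = y
    rw [Nat.mod_eq_of_lt (by omega), hy]
  · change h ((t + 2) % n) = z
    rw [ht, Nat.mod_self, hz]

theorem mkc_win2 (t : ℕ) (ht : t + 1 = n) (h1 : 1 < n) (x y z : V) (hx : h t = x) (hy : h 0 = y)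
    (hz : h 1 = z) : (mkc h hn hs).Win x y z := by
  refine ⟨t, ?_, ?_, ?_⟩
  · change h (t % n) = x
    rw [Nat.mod_eq_of_lt (by omega), hx]
  · change h ((t + 1) % n) = y
    rw [ht, Nat.mod_self, hy]
  · change h ((t + 2) % n) = z
    rw [show t + 2 = 1 + n by omega, Nat.add_mod_right, Nat.mod_eq_of_lt h1, hz]

end mk

section lift

variable {W : Type} {m : ℕ} {L : Fin 4 → Fin 4 → Fin 4 → Prop}

/-- the point with the label `x` of the group at the position `p` -/
def pt (g : Cyc (Option W) (m + 1)) (p : ℕ) (x : Fin 4) : Option (W × Fin 4) :=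
  (g.f p).map fun w => (w, x)

/-- the points of the lift number `q` -/
def hh (T : Tem m L) (g : Cyc (Option W) (m + 1)) (q : Fin 16) (r : ℕ) : Option (W × Fin 4) :=
  if r = 0 then none
  else if r ≤ m then pt g r (T.lab q 0 r)
  else if r = m + 1 then pt g m (T.b2 q)
  else if r = m + 2 then pt g 1 (T.c1 q)
  else if r ≤ 2 * m + 2 then pt g (r - (m + 2)) (T.lab q 1 (r - (m + 2)))
  else if r ≤ 3 * m + 1 then pt g (3 * m + 2 - r) (T.lab q 2 (3 * m + 2 - r))
  else pt g (r - 3 * m) (T.lab q 3 (r - 3 * m))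

variable (T : Tem m L) (g : Cyc (Option W) (m + 1)) (q : Fin 16)

theorem hh_zero : hh T g q 0 = none := by
  unfold hh
  rw [if_pos rfl]

theorem hh_s0 (p : ℕ) (h1 : 1 ≤ p) (h2 : p ≤ m) : hh T g q p = pt g p (T.lab q 0 p) := by
  unfold hh
  rw [if_neg (by omega), if_pos h2]

theorem hh_b2 (r : ℕ) (hr : r = m + 1) : hh T g q r = pt g m (T.b2 q) := by
  unfold hh
  rw [if_neg (by omega), if_neg (by omega), if_pos hr]

theorem hh_c1 (r : ℕ) (hr : r = m + 2) : hh T g q r = pt g 1 (T.c1 q) := by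
  unfold hh
  rw [if_neg (by omega), if_neg (by omega), if_neg (by omega), if_pos hr]

theorem hh_s1 (p r : ℕ) (h1 : 1 ≤ p) (h2 : p ≤ m) (hr : r = m + 2 + p) :
    hh T g q r = pt g p (T.lab q 1 p) := by
  unfold hh
  rw [if_neg (by omega), if_neg (by omega), if_neg (by omega), if_neg (by omega), if_pos (by omega),
    show r - (m + 2) = p by omega]

theorem hh_s2 (p r : ℕ) (h1 : 1 ≤ p) (h2 : p ≤ m) (hr : r + p = 3 * m + 2) :
    hh T g q r = pt g p (T.lab q 2 p) := by
  by_cases h3 : p = m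
  · subst h3
    rw [hh_s1 T g q p r h1 h2 (by omega), T.shm]
  · unfold hh
    rw [if_neg (by omega), if_neg (by omega), if_neg (by omega), if_neg (by omega),
      if_neg (by omega), if_pos (by omega), show 3 * m + 2 - r = p by omega]

theorem hh_s3 (p r : ℕ) (h1 : 1 ≤ p) (h2 : p ≤ m) (hr : r = 3 * m + p) :
    hh T g q r = pt g p (T.lab q 3 p) := by
  by_cases h3 : p = 1
  · subst h3
    rw [hh_s2 T g q 1 r h1 h2 (by omega), T.sh1]
  · unfold hh
    rw [if_neg (by omega), if_neg (by omega), if_neg (by omega), if_neg (by omega),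
      if_neg (by omega), if_neg (by omega), show r - 3 * m = p by omega]

/-- Proof. `some (w, x)`: the group `w` is at a position `p`, `1 ≤ p ≤ m`; `p = 1`: `T.s1`; `p = m`: `T.sm`; otherwise `T.si`. -/
theorem hh_surj (hm : 4 ≤ m) (h0 : g.f 0 = none) (v : Option (W × Fin 4)) :
    ∃ t < 4 * m + 1, hh T g q t = v := by
  cases v with
  | none => exact ⟨0, by omega, hh_zero T g q⟩
  | some wx =>
    obtain ⟨w, x⟩ := wx
    obtain ⟨p, hp, hw⟩ := g.exists_lt (by omega) (some w)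
    have hp0 : p ≠ 0 := by
      rintro rfl
      rw [h0] at hw
      exact absurd hw (by simp)
    have hpt : ∀ y, pt g p y = some (w, y) := by
      intro y
      unfold pt
      rw [hw]
      rfl
    by_cases h1 : p = 1
    · subst h1
      rcases T.s1 q x with h | h | h | h
      · exact ⟨1, by omega, by rw [hh_s0 T g q 1 (by omega) (by omega), h, hpt]⟩
      · exact ⟨m + 2 + 1, by omega, by rw [hh_s1 T g q 1 _ (by omega) (by omega) rfl, h, hpt]⟩
      · exact ⟨3 * m + 1, by omega, by rw [hh_s3 T g q 1 _ (by omega) (by omega) rfl, h, hpt]⟩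
      · exact ⟨m + 2, by omega, by rw [hh_c1 T g q _ rfl, h, hpt]⟩
    by_cases h2 : p = m
    · subst h2
      rcases T.sm q x with h | h | h | h
      · exact ⟨p, by omega, by rw [hh_s0 T g q p (by omega) (by omega), h, hpt]⟩
      · exact ⟨p + 1, by omega, by rw [hh_b2 T g q _ rfl, h, hpt]⟩
      · exact ⟨p + 2 + p, by omega, by rw [hh_s1 T g q p _ (by omega) (by omega) rfl, h, hpt]⟩
      · exact ⟨3 * p + p, by omega, by rw [hh_s3 T g q p _ (by omega) (by omega) rfl, h, hpt]⟩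
    · obtain ⟨s, hs⟩ := T.si q p x (by omega) (by omega)
      fin_cases s
      · exact ⟨p, by omega, by rw [hh_s0 T g q p (by omega) (by omega)]; rw [← hpt, ← hs]; rfl⟩
      · exact ⟨m + 2 + p, by omega, by
          rw [hh_s1 T g q p _ (by omega) (by omega) rfl]; rw [← hpt, ← hs]; rfl⟩
      · exact ⟨3 * m + 2 - p, by omega, by
          rw [hh_s2 T g q p _ (by omega) (by omega) (by omega)]; rw [← hpt, ← hs]; rfl⟩
      · exact ⟨3 * m + p, by omega, by
          rw [hh_s3 T g q p _ (by omega) (by omega) rfl]; rw [← hpt, ← hs]; rfl⟩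

/-- the lift number `q` of the cyclic order `g` -/
def lft4 (hm : 4 ≤ m) (h0 : g.f 0 = none) : Cyc (Option (W × Fin 4)) (4 * m + 1) :=
  mkc (hh T g q) (by omega) (hh_surj T g q hm h0)

variable (hm : 4 ≤ m) (h0 : g.f 0 = none)

theorem lft4_strand (s : Fin 4) (p : ℕ) (h1 : 1 ≤ p) (h2 : p + 2 ≤ m) :
    (lft4 T g q hm h0).Has (pt g p (T.lab q s p)) (pt g (p + 1) (T.lab q s (p + 1)))
      (pt g (p + 2) (T.lab q s (p + 2))) := by
  fin_cases s
  · refine Or.inl (mkc_win _ _ _ p (by omega) _ _ _ ?_ ?_ ?_)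
    · exact hh_s0 T g q _ (by omega) (by omega)
    · exact hh_s0 T g q _ (by omega) (by omega)
    · exact hh_s0 T g q _ (by omega) (by omega)
  · refine Or.inl (mkc_win _ _ _ (m + 2 + p) (by omega) _ _ _ ?_ ?_ ?_)
    · exact hh_s1 T g q _ _ (by omega) (by omega) (by omega)
    · exact hh_s1 T g q _ _ (by omega) (by omega) (by omega)
    · exact hh_s1 T g q _ _ (by omega) (by omega) (by omega)
  · refine Or.inr (Or.inr (Or.inr (Or.inr (Or.inr (mkc_win _ _ _ (3 * m - p) (by omega) _ _ _ ?_ ?_ ?_)))))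
    · exact hh_s2 T g q _ _ (by omega) (by omega) (by omega)
    · exact hh_s2 T g q _ _ (by omega) (by omega) (by omega)
    · exact hh_s2 T g q _ _ (by omega) (by omega) (by omega)
  · refine Or.inl (mkc_win _ _ _ (3 * m + p) (by omega) _ _ _ ?_ ?_ ?_)
    · exact hh_s3 T g q _ _ (by omega) (by omega) (by omega)
    · exact hh_s3 T g q _ _ (by omega) (by omega) (by omega)
    · exact hh_s3 T g q _ _ (by omega) (by omega) (by omega)

theorem lft4_cd : (lft4 T g q hm h0).Has none (pt g 1 (T.lab q 0 1)) (pt g 2 (T.lab q 0 2)) := by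
  refine Or.inl (mkc_win _ _ _ 0 (by omega) _ _ _ ?_ ?_ ?_)
  · exact hh_zero T g q
  · exact hh_s0 T g q _ (by omega) (by omega)
  · exact hh_s0 T g q _ (by omega) (by omega)

theorem lft4_bc : (lft4 T g q hm h0).Has none (pt g m (T.lab q 3 m)) (pt g 1 (T.lab q 0 1)) := by
  refine Or.inr (Or.inr (Or.inl (mkc_win2 _ _ _ (4 * m) (by omega) (by omega) _ _ _ ?_ ?_ ?_)))
  · exact hh_s3 T g q _ _ (by omega) (by omega) (by omega)
  · exact hh_zero T g q
  · exact hh_s0 T g q _ (by omega) (by omega)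

theorem lft4_ab : (lft4 T g q hm h0).Has none (pt g (m - 1) (T.lab q 3 (m - 1)))
    (pt g m (T.lab q 3 m)) := by
  refine Or.inr (Or.inr (Or.inr (Or.inl (mkc_win1 _ _ _ (4 * m - 1) (by omega) _ _ _ ?_ ?_ ?_))))
  · exact hh_s3 T g q _ _ (by omega) (by omega) (by omega)
  · exact hh_s3 T g q _ _ (by omega) (by omega) (by omega)
  · exact hh_zero T g q

theorem lft4_u1 : (lft4 T g q hm h0).Has (pt g m (T.lab q 0 m)) (pt g m (T.b2 q))
    (pt g (m - 1) (T.lab q 0 (m - 1))) := by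
  refine Or.inr (Or.inr (Or.inr (Or.inr (Or.inl (mkc_win _ _ _ (m - 1) (by omega) _ _ _ ?_ ?_ ?_)))))
  · exact hh_s0 T g q _ (by omega) (by omega)
  · rw [show m - 1 + 1 = m by omega]
    exact hh_s0 T g q _ (by omega) (by omega)
  · exact hh_b2 T g q _ (by omega)

theorem lft4_u2 : (lft4 T g q hm h0).Has (pt g m (T.lab q 0 m)) (pt g m (T.b2 q))
    (pt g 1 (T.c1 q)) := by
  refine Or.inl (mkc_win _ _ _ m (by omega) _ _ _ ?_ ?_ ?_)
  · exact hh_s0 T g q _ (by omega) (by omega)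
  · exact hh_b2 T g q _ (by omega)
  · exact hh_c1 T g q _ (by omega)

theorem lft4_u3 : (lft4 T g q hm h0).Has (pt g 1 (T.c1 q)) (pt g 1 (T.lab q 1 1))
    (pt g m (T.b2 q)) := by
  refine Or.inr (Or.inr (Or.inr (Or.inr (Or.inl (mkc_win _ _ _ (m + 1) (by omega) _ _ _ ?_ ?_ ?_)))))
  · exact hh_b2 T g q _ (by omega)
  · exact hh_c1 T g q _ (by omega)
  · exact hh_s1 T g q _ _ (by omega) (by omega) (by omega)

theorem lft4_u4 : (lft4 T g q hm h0).Has (pt g 1 (T.c1 q)) (pt g 1 (T.lab q 1 1))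
    (pt g 2 (T.lab q 1 2)) := by
  refine Or.inl (mkc_win _ _ _ (m + 2) (by omega) _ _ _ ?_ ?_ ?_)
  · exact hh_c1 T g q _ (by omega)
  · exact hh_s1 T g q _ _ (by omega) (by omega) (by omega)
  · exact hh_s1 T g q _ _ (by omega) (by omega) (by omega)

theorem lft4_u5 : (lft4 T g q hm h0).Has (pt g (m - 1) (T.lab q 1 (m - 1)))
    (pt g (m - 1) (T.lab q 2 (m - 1))) (pt g m (T.lab q 1 m)) := by
  refine Or.inr (Or.inl (mkc_win _ _ _ (2 * m + 1) (by omega) _ _ _ ?_ ?_ ?_))
  · exact hh_s1 T g q _ _ (by omega) (by omega) (by omega)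
  · exact hh_s1 T g q _ _ (by omega) (by omega) (by omega)
  · exact hh_s2 T g q _ _ (by omega) (by omega) (by omega)

theorem lft4_u6 : (lft4 T g q hm h0).Has (pt g 2 (T.lab q 2 2)) (pt g 2 (T.lab q 3 2))
    (pt g 1 (T.lab q 3 1)) := by
  refine Or.inr (Or.inl (mkc_win _ _ _ (3 * m) (by omega) _ _ _ ?_ ?_ ?_))
  · exact hh_s2 T g q _ _ (by omega) (by omega) (by omega)
  · exact hh_s3 T g q _ _ (by omega) (by omega) (by omega)
  · exact hh_s3 T g q _ _ (by omega) (by omega) (by omega)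

end lift

end WrQ
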