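import Pool.Agent.H.MP_4bad09_co.Q1

set_option autoImplicit false

/-!
# The recursion from `N` to `4 N - 3`: the triples (MP_4bad09_co, helper80)
-/

namespace WrQ

open Wr

variable {W : Type} {m : ℕ} {L : Fin 4 → Fin 4 → Fin 4 → Prop}

theorem none_mod (g : Cyc (Option W) (m + 1)) (hV : Nat.card (Option W) = m + 1) (h0 : g.f 0 = none)
    {t : ℕ} (ht : g.f t = none) (k : ℕ) : g.f (t + k) = g.f k := by
  have h1 : t % (m + 1) = 0 % (m + 1) := (g.eq_iff (by omega) hV t 0).1 (by rw [ht, h0])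
  rw [g.eq_iff (by omega) hV, Nat.add_mod, h1, ← Nat.add_mod, zero_add]

/-- the groups `u`, `v` are neighbours at one of the three places next to `none` -/
def Near (g : Cyc (Option W) (m + 1)) (u v : W) : Prop :=
  (g.f 1 = some u ∧ g.f 2 = some v) ∨ (g.f m = some u ∧ g.f 1 = some v) ∨
    (g.f (m - 1) = some u ∧ g.f m = some v)

theorem near_of_has (g : Cyc (Option W) (m + 1)) (hV : Nat.card (Option W) = m + 1) (hm : 1 ≤ m)
    (h0 : g.f 0 = none) {u v : W} (h : g.Has none (some u) (some v)) : Near g u v ∨ Near g v u := by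
  have key1 : ∀ x y : W, g.Win none (some x) (some y) → Near g x y := by
    rintro x y ⟨t, h1, h2, h3⟩
    refine Or.inl ⟨?_, ?_⟩
    · rw [← none_mod g hV h0 h1, h2]
    · rw [← none_mod g hV h0 h1, h3]
  have key2 : ∀ x y : W, g.Win (some x) none (some y) → Near g x y := by
    rintro x y ⟨t, h1, h2, h3⟩
    refine Or.inr (Or.inl ⟨?_, ?_⟩)
    · rw [← none_mod g hV h0 h2, show t + 1 + m = t + (m + 1) by omega, g.per, h1]
    · rw [← none_mod g hV h0 h2, h3]
  have key3 : ∀ x y : W, g.Win (some x) (some y) none → Near g x y := by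
    rintro x y ⟨t, h1, h2, h3⟩
    refine Or.inr (Or.inr ⟨?_, ?_⟩)
    · rw [← none_mod g hV h0 h3, show t + 2 + (m - 1) = t + (m + 1) by omega, g.per, h1]
    · rw [← none_mod g hV h0 h3, show t + 2 + m = t + 1 + (m + 1) by omega, g.per, h2]
  rcases h with h | h | h | h | h | h
  · exact Or.inl (key1 _ _ h)
  · exact Or.inr (key1 _ _ h)
  · exact Or.inl (key2 _ _ h)
  · exact Or.inl (key3 _ _ h)
  · exact Or.inr (key2 _ _ h)
  · exact Or.inr (key3 _ _ h)

theorem pt_eq {g : Cyc (Option W) (m + 1)} {p : ℕ} {u : W} (h : g.f p = some u) (x : Fin 4) :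
    pt g p x = some (u, x) := by
  unfold pt
  rw [h]
  rfl

section

variable (T : Tem m L) (g : Cyc (Option W) (m + 1)) (hm : 4 ≤ m) (h0 : g.f 0 = none)

theorem cov_inf {u v : W} (h : Near g u v) (x y : Fin 4) :
    ∃ q, (lft4 T g q hm h0).Has none (some (u, x)) (some (v, y)) := by
  rcases h with ⟨h1, h2⟩ | ⟨h1, h2⟩ | ⟨h1, h2⟩
  · obtain ⟨q, h3, h4⟩ := T.cd x y
    refine ⟨q, ?_⟩
    have h5 := lft4_cd T g q hm h0
    rwa [h3, h4, pt_eq h1, pt_eq h2] at h5
  · obtain ⟨q, h3, h4⟩ := T.bc x y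
    refine ⟨q, ?_⟩
    have h5 := lft4_bc T g q hm h0
    rwa [h3, h4, pt_eq h1, pt_eq h2] at h5
  · obtain ⟨q, h3, h4⟩ := T.ab x y
    refine ⟨q, ?_⟩
    have h5 := lft4_ab T g q hm h0
    rwa [h3, h4, pt_eq h1, pt_eq h2] at h5

theorem has_pr {V : Type} {n : ℕ} (c : Cyc V n) (f : Fin 4 → V) {a b x y : Fin 4} (h : pr a b x y)
    {z : V} (h1 : c.Has (f a) (f b) z) : c.Has (f x) (f y) z := by
  rcases h with ⟨rfl, rfl⟩ | ⟨rfl, rfl⟩
  · exact h1
  · exact h1.swap

theorem cov_R1 {u v : W} (h : Near g u v) (x y z : Fin 4) (hxy : x ≠ y) (hL : ¬ L x y z) :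
    ∃ q, (lft4 T g q hm h0).Has (some (u, x)) (some (u, y)) (some (v, z)) := by
  rcases h with ⟨h1, h2⟩ | ⟨h1, h2⟩ | ⟨h1, h2⟩
  · obtain ⟨q, h3, h4⟩ := T.u4 x y z hxy hL
    refine ⟨q, ?_⟩
    have h5 := lft4_u4 T g q hm h0
    rw [h4, pt_eq h1, pt_eq h1, pt_eq h2] at h5
    exact has_pr _ (fun i => some (u, i)) h3 h5
  · obtain ⟨q, h3, h4⟩ := T.u2 x y z hxy hL
    refine ⟨q, ?_⟩
    have h5 := lft4_u2 T g q hm h0
    rw [h4, pt_eq h1, pt_eq h1, pt_eq h2] at h5
    exact has_pr _ (fun i => some (u, i)) h3 h5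
  · obtain ⟨q, h3, h4⟩ := T.u5 x y z hxy hL
    refine ⟨q, ?_⟩
    have h5 := lft4_u5 T g q hm h0
    rw [h4, pt_eq h1, pt_eq h1, pt_eq h2] at h5
    exact has_pr _ (fun i => some (u, i)) h3 h5

theorem cov_R2 {u v : W} (h : Near g u v) (x y z : Fin 4) (hxy : x ≠ y) (hL : ¬ L x y z) :
    ∃ q, (lft4 T g q hm h0).Has (some (v, x)) (some (v, y)) (some (u, z)) := by
  rcases h with ⟨h1, h2⟩ | ⟨h1, h2⟩ | ⟨h1, h2⟩
  · obtain ⟨q, h3, h4⟩ := T.u6 x y z hxy hL
    refine ⟨q, ?_⟩
    have h5 := lft4_u6 T g q hm h0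
    rw [h4, pt_eq h1, pt_eq h2, pt_eq h2] at h5
    exact has_pr _ (fun i => some (v, i)) h3 h5
  · obtain ⟨q, h3, h4⟩ := T.u3 x y z hxy hL
    refine ⟨q, ?_⟩
    have h5 := lft4_u3 T g q hm h0
    rw [h4, pt_eq h1, pt_eq h2, pt_eq h2] at h5
    exact has_pr _ (fun i => some (v, i)) h3 h5
  · obtain ⟨q, h3, h4⟩ := T.u1 x y z hxy hL
    refine ⟨q, ?_⟩
    have h5 := lft4_u1 T g q hm h0
    rw [h4, pt_eq h1, pt_eq h2, pt_eq h2] at h5
    exact has_pr _ (fun i => some (v, i)) h3 h5

theorem cov_win {u v w : W} (h : g.Win (some u) (some v) (some w)) (x y z : Fin 4) :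
    ∃ q, (lft4 T g q hm h0).Has (some (u, x)) (some (v, y)) (some (w, z)) := by
  obtain ⟨t, h1, h2, h3⟩ := h
  obtain ⟨r, hr⟩ : ∃ r, r = t % (m + 1) := ⟨_, rfl⟩
  have hlt : r < m + 1 := by
    rw [hr]
    exact Nat.mod_lt _ (by omega)
  have ht : t = r + t / (m + 1) * (m + 1) := by
    rw [hr, Nat.mod_add_div']
  have hj : ∀ j, g.f (t + j) = g.f (r + j) := by
    intro j
    rw [ht, show r + t / (m + 1) * (m + 1) + j = r + j + t / (m + 1) * (m + 1) by omega, g.per_mul]
  have hj0 : g.f t = g.f r := hj 0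
  have hend : g.f (m + 1) = none := by
    have h4 := g.per 0
    rw [zero_add] at h4
    rw [h4, h0]
  have hr0 : r ≠ 0 := by
    rintro rfl
    rw [hj0, h0] at h1
    exact absurd h1 (by simp)
  have hr1 : r + 1 ≠ m + 1 := by
    intro h4
    rw [hj, h4, hend] at h2
    exact absurd h2 (by simp)
  have hr2 : r + 2 ≠ m + 1 := by
    intro h4
    rw [hj, h4, hend] at h3
    exact absurd h3 (by simp)
  obtain ⟨q, s, h4, h5, h6⟩ := T.w r x y z (by omega) (by omega)
  refine ⟨q, ?_⟩
  have h7 := lft4_strand T g q hm h0 s r (by omega) (by omega)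
  rw [hj0] at h1
  rw [hj] at h2 h3
  rwa [h4, h5, h6, pt_eq h1, pt_eq h2, pt_eq h3] at h7

theorem cov_has {u v w : W} (h : g.Has (some u) (some v) (some w)) (x y z : Fin 4) :
    ∃ q, (lft4 T g q hm h0).Has (some (u, x)) (some (v, y)) (some (w, z)) := by
  rcases h with h | h | h | h | h | h
  · exact cov_win T g hm h0 h x y z
  · obtain ⟨q, h1⟩ := cov_win T g hm h0 h x z y
    refine ⟨q, ?_⟩
    unfold Cyc.Has at *
    tauto
  · obtain ⟨q, h1⟩ := cov_win T g hm h0 h y x z
    refine ⟨q, ?_⟩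
    unfold Cyc.Has at *
    tauto
  · obtain ⟨q, h1⟩ := cov_win T g hm h0 h y z x
    refine ⟨q, ?_⟩
    unfold Cyc.Has at *
    tauto
  · obtain ⟨q, h1⟩ := cov_win T g hm h0 h z x y
    refine ⟨q, ?_⟩
    unfold Cyc.Has at *
    tauto
  · obtain ⟨q, h1⟩ := cov_win T g hm h0 h z y x
    refine ⟨q, ?_⟩
    unfold Cyc.Has at *
    tauto

end

/-- every cyclic order can be rotated (or reflected) such that it begins with `none` -/
theorem base_norm {n : ℕ} (c : Cyc (Option W) n) (hn : 0 < n) :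
    ∃ c' : Cyc (Option W) n, c'.f 0 = none ∧ ∀ x y z, c.Has x y z → c'.Has x y z := by
  obtain ⟨t, ht⟩ := c.surj none
  have h1 : c.Adj (c.f (t + (n - 1))) none := by
    refine ⟨t + (n - 1), Or.inl ⟨rfl, ?_⟩⟩
    rw [show t + (n - 1) + 1 = t + n by omega, c.per, ht]
  obtain ⟨c', h2, _, h3⟩ := c.norm hn h1
  exact ⟨c', h2, h3⟩

/-- The recursion, from the labels `T` and the remaining `2 m` cyclic orders `e`.

Proof. The `16` lifts of the cyclic orders of a decomposition of the triples of `Option W`, rotated to begin with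
`none`, and the cyclic orders `e`.  Number: `16 m (m - 1) / 6 + 2 m = 4 m (4 m - 1) / 6`.  Triples:
`none` and points of two groups: `cov_inf`; points of three groups: `cov_has`; two points of a group and a point of
another group: `cov_R1`, `cov_R2` or `e3`; `none` and two points of a group: `e1`; three points of a group: `e2`. -/
theorem r4core (T : Tem m L) (hm : 4 ≤ m) (hW : Nat.card W = m) (hTH : TH (Option W) (m + 1))
    {E : Type} [Fintype E] (e : E → Cyc (Option (W × Fin 4)) (4 * m + 1)) (hE : Fintype.card E = 2 * m)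
    (e1 : ∀ w x y, x ≠ y → ∃ j, (e j).Has none (some (w, x)) (some (w, y)))
    (e2 : ∀ w x y z, x ≠ y → y ≠ z → x ≠ z →
      ∃ j, (e j).Has (some (w, x)) (some (w, y)) (some (w, z)))
    (e3 : ∀ u v x y z, u ≠ v → x ≠ y → L x y z →
      ∃ j, (e j).Has (some (u, x)) (some (u, y)) (some (v, z))) :
    TH (Option (W × Fin 4)) (4 * m + 1) := by
  classical
  obtain ⟨hV, I, hI, c, hc1, hc2⟩ := hTH
  have hfW : Finite W := Nat.finite_of_card_ne_zero (by omega)
  choose g hg0 hg1 using fun i => base_norm (c i) (Nat.succ_pos m)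
  refine ⟨?_, (I × Fin 16) ⊕ E, inferInstance,
    Sum.elim (fun p => lft4 T (g p.1) p.2 hm (hg0 p.1)) e, ?_, ?_⟩
  · rw [Finite.card_option, Nat.card_prod, hW, Nat.card_eq_fintype_card, Fintype.card_fin]
    ring
  · rw [Fintype.card_sum, Fintype.card_prod, Fintype.card_fin, hE]
    obtain ⟨k, rfl⟩ : ∃ k, m = k + 1 := ⟨m - 1, by omega⟩
    rw [show k + 1 + 1 - 1 = k + 1 by omega, show k + 1 + 1 - 2 = k by omega] at hc1
    rw [show 4 * (k + 1) + 1 - 1 = 4 * k + 4 by omega, show 4 * (k + 1) + 1 - 2 = 4 * k + 3 by omega]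
    nlinarith
  · have lif : ∀ i q x y z, (lft4 T (g i) q hm (hg0 i)).Has x y z →
        ∃ j, (Sum.elim (fun p : I × Fin 16 => lft4 T (g p.1) p.2 hm (hg0 p.1)) e j).Has x y z :=
      fun i q x y z h => ⟨Sum.inl (i, q), h⟩
    have lie : ∀ k x y z, (e k).Has x y z →
        ∃ j, (Sum.elim (fun p : I × Fin 16 => lft4 T (g p.1) p.2 hm (hg0 p.1)) e j).Has x y z :=
      fun k x y z h => ⟨Sum.inr k, h⟩
    have rot : ∀ x y z, (∃ j, (Sum.elim (fun p : I × Fin 16 => lft4 T (g p.1) p.2 hm (hg0 p.1)) e j).Has x y z) →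
        ∃ j, (Sum.elim (fun p : I × Fin 16 => lft4 T (g p.1) p.2 hm (hg0 p.1)) e j).Has y z x := by
      rintro x y z ⟨j, hj⟩
      exact ⟨j, hj.rot⟩
    generalize hF : Sum.elim (fun p : I × Fin 16 => lft4 T (g p.1) p.2 hm (hg0 p.1)) e = F at *
    -- none and two points
    have cn : ∀ p q : W × Fin 4, p ≠ q → ∃ j, (F j).Has none (some p) (some q) := by
      rintro ⟨u, x⟩ ⟨v, y⟩ hpq
      by_cases huv : u = v
      · subst huv
        obtain ⟨k, hk⟩ := e1 u x y (fun h => hpq (by rw [h]))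
        exact lie k _ _ _ hk
      · obtain ⟨i, hi⟩ := hc2 none (some u) (some v) (by simp) (by simpa using huv) (by simp)
        rcases near_of_has (g i) hV (by omega) (hg0 i) (hg1 i _ _ _ hi) with h | h
        · obtain ⟨q, hq⟩ := cov_inf T (g i) hm (hg0 i) h x y
          exact lif i q _ _ _ hq
        · obtain ⟨q, hq⟩ := cov_inf T (g i) hm (hg0 i) h y x
          exact lif i q _ _ _ hq.swap.rot
    -- two points of one group
    have cr : ∀ (u v : W) (x y z : Fin 4), u ≠ v → x ≠ y →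
        ∃ j, (F j).Has (some (u, x)) (some (u, y)) (some (v, z)) := by
      intro u v x y z huv hxy
      by_cases hL : L x y z
      · obtain ⟨k, hk⟩ := e3 u v x y z huv hxy hL
        exact lie k _ _ _ hk
      · obtain ⟨i, hi⟩ := hc2 none (some u) (some v) (by simp) (by simpa using huv) (by simp)
        rcases near_of_has (g i) hV (by omega) (hg0 i) (hg1 i _ _ _ hi) with h | h
        · obtain ⟨q, hq⟩ := cov_R1 T (g i) hm (hg0 i) h x y z hxy hL
          exact lif i q _ _ _ hq
        · obtain ⟨q, hq⟩ := cov_R2 T (g i) hm (hg0 i) h x y z hxy hL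
          exact lif i q _ _ _ hq
    -- three points
    have c3 : ∀ p q r : W × Fin 4, p ≠ q → q ≠ r → p ≠ r → ∃ j, (F j).Has (some p) (some q) (some r) := by
      rintro ⟨u, x⟩ ⟨v, y⟩ ⟨w, z⟩ h1 h2 h3
      by_cases huv : u = v
      · subst huv
        have hxy : x ≠ y := fun h => h1 (by rw [h])
        by_cases huw : u = w
        · subst huw
          obtain ⟨k, hk⟩ := e2 u x y z hxy (fun h => h2 (by rw [h])) (fun h => h3 (by rw [h]))
          exact lie k _ _ _ hk
        · exact cr u w x y z huw hxy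
      · by_cases huw : u = w
        · subst huw
          have hxz : z ≠ x := fun h => h3 (by rw [h])
          exact rot _ _ _ (cr u v z x y huv hxz)
        · by_cases hvw : v = w
          · subst hvw
            have hyz : y ≠ z := fun h => h2 (by rw [h])
            exact rot _ _ _ (rot _ _ _ (cr v u y z x (fun h => huv h.symm) hyz))
          · obtain ⟨i, hi⟩ := hc2 (some u) (some v) (some w) (by simpa using huv) (by simpa using hvw)
              (by simpa using huw)
            obtain ⟨q, hq⟩ := cov_has T (g i) hm (hg0 i) (hg1 i _ _ _ hi) x y z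
            exact lif i q _ _ _ hq
    intro x y z hxy hyz hxz
    cases x with
    | none =>
      cases y with
      | none => exact absurd rfl hxy
      | some q =>
        cases z with
        | none => exact absurd rfl hxz
        | some r => exact cn q r (fun h => hyz (by rw [h]))
    | some p =>
      cases y with
      | none =>
        cases z with
        | none => exact absurd rfl hyz
        | some r => exact rot _ _ _ (rot _ _ _ (cn r p (fun h => hxz (by rw [h]))))
      | some q =>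
        cases z with
        | none => exact rot _ _ _ (cn p q (fun h => hxy (by rw [h])))
        | some r =>
          exact c3 p q r (fun h => hxy (by rw [h])) (fun h => hyz (by rw [h])) (fun h => hxz (by rw [h]))

end WrQ
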