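import Pool.Agent.H.MP_4bad09_co.Q1

set_option autoImplicit false

/-!
# The recursion from `N` to `4 N - 3`: the remaining `2 m` cyclic orders (MP_4bad09_co, helper80)

The complete graph on `0, …, 2 m - 1` is the union of the zigzag paths `i, i + 1, i - 1, i + 2, …` (`i < m`).
The vertex `P` stands for a pair of points of the group `P mod m`: for `v = 0` the pairs of a group have the labels
`0, 1` and `2, 3`, for `v = 1` the labels `1, 2` and `3, 0` (for even `m` the labels of the groups with an odd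
number are moved by `1`).
-/

namespace WrQ

open Wr

/-- the vertex number `k` of the zigzag path number `i` on `0, …, 2 m - 1` -/
def zp (m i k : ℕ) : ℕ :=
  if k % 2 = 1 then i + (k + 1) / 2 else if k / 2 ≤ i then i - k / 2 else i + 2 * m - k / 2

/-- the vertex `P` is the first or the second pair of its group -/
def sp (m P : ℕ) : ℕ := if m % 2 = 1 then P % 2 else if P < m then 0 else 1

/-- the label of the point `e = 0, 1` of the vertex `P`, as a natural number -/
def lbn (m P v e : ℕ) : ℕ := 2 * sp m P + v + e + (if m % 2 = 1 then 0 else P % 2)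

/-- the label of the point `e = 0, 1` of the vertex `P` -/
def lb (m P v e : ℕ) : Fin 4 := ⟨lbn m P v e % 4, Nat.mod_lt _ (by norm_num)⟩

/-- the point `e = 0, 1` of the vertex `P` -/
def pe (m P v e : ℕ) : Option (ZMod m × Fin 4) := some ((P : ZMod m), lb m P v e)

/-- the points of the cyclic order `(i, v)` -/
def ze (m i v r : ℕ) : Option (ZMod m × Fin 4) :=
  if r = 0 then none else pe m (zp m i ((r - 1) / 2)) v (((r - 1) / 2 + (r - 1) % 2) % 2)

theorem zp_surj (m i P : ℕ) (hi : i < m) (hP : P < 2 * m) : ∃ k < 2 * m, zp m i k = P := by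
  by_cases h1 : P ≤ i
  · refine ⟨2 * (i - P), by omega, ?_⟩
    unfold zp
    rw [if_neg (by omega), if_pos (by omega)]
    omega
  by_cases h2 : P ≤ i + m
  · refine ⟨2 * (P - i) - 1, by omega, ?_⟩
    unfold zp
    rw [if_pos (by omega)]
    omega
  · refine ⟨2 * (i + 2 * m - P), by omega, ?_⟩
    unfold zp
    rw [if_neg (by omega), if_neg (by omega)]
    omega

theorem zp_edge (m P Q : ℕ) (h : P < Q) (hQ : Q < 2 * m) :
    ∃ i < m, ∃ k, k + 1 < 2 * m ∧
      ((zp m i k = P ∧ zp m i (k + 1) = Q) ∨ (zp m i k = Q ∧ zp m i (k + 1) = P)) ∧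
      (k + 1) % 2 = (P + Q) % 2 := by
  by_cases h1 : (P + Q) % 2 = 1
  · by_cases h2 : (P + Q) / 2 < m
    · refine ⟨(P + Q) / 2, h2, 2 * ((Q - P) / 2), by omega, Or.inl ⟨?_, ?_⟩, by omega⟩
      · unfold zp
        rw [if_neg (by omega), if_pos (by omega)]
        omega
      · unfold zp
        rw [if_pos (by omega)]
        omega
    · refine ⟨(P + Q) / 2 - m, by omega, 2 * (m - 1 - (Q - P) / 2), by omega, Or.inr ⟨?_, ?_⟩, by omega⟩
      · unfold zp
        rw [if_neg (by omega), if_neg (by omega)]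
        omega
      · unfold zp
        rw [if_pos (by omega)]
        omega
  · by_cases h2 : (P + Q) / 2 < m
    · refine ⟨(P + Q) / 2, h2, 2 * ((Q - P) / 2) - 1, by omega, Or.inr ⟨?_, ?_⟩, by omega⟩
      · unfold zp
        rw [if_pos (by omega)]
        omega
      · unfold zp
        rw [if_neg (by omega), if_pos (by omega)]
        omega
    · refine ⟨(P + Q) / 2 - m, by omega, 2 * (m - (Q - P) / 2) - 1, by omega, Or.inl ⟨?_, ?_⟩, by omega⟩
      · unfold zp
        rw [if_pos (by omega)]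
        omega
      · unfold zp
        rw [if_neg (by omega), if_neg (by omega)]
        omega

/-- every group has a first and a second vertex -/
theorem sp_ex (m : ℕ) (hm : 0 < m) (w : ZMod m) (s : ℕ) (hs : s < 2) :
    ∃ P < 2 * m, (P : ZMod m) = w ∧ sp m P = s ∧ (m % 2 = 1 ∨ P % 2 = w.val % 2) := by
  haveI : NeZero m := ⟨by omega⟩
  have hw : w.val < m := ZMod.val_lt w
  have h1 : ((w.val : ℕ) : ZMod m) = w := ZMod.natCast_zmod_val w
  have h2 : ((w.val + m : ℕ) : ZMod m) = w := by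
    rw [Nat.cast_add, ZMod.natCast_self, add_zero, h1]
  by_cases hmo : m % 2 = 1
  · by_cases h3 : w.val % 2 = s
    · refine ⟨w.val, by omega, h1, ?_, Or.inl hmo⟩
      unfold sp
      rw [if_pos hmo, h3]
    · refine ⟨w.val + m, by omega, h2, ?_, Or.inl hmo⟩
      unfold sp
      rw [if_pos hmo]
      omega
  · by_cases h3 : s = 0
    · refine ⟨w.val, by omega, h1, ?_, Or.inr rfl⟩
      unfold sp
      rw [if_neg hmo, if_pos hw, h3]
    · refine ⟨w.val + m, by omega, h2, ?_, Or.inr (by omega)⟩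
      unfold sp
      rw [if_neg hmo, if_neg (by omega)]
      omega

theorem ze_pos (m i v k ε r : ℕ) (hε : ε < 2) (hr : r = 1 + 2 * k + ε) :
    ze m i v r = pe m (zp m i k) v ((k + ε) % 2) := by
  subst hr
  unfold ze
  rw [if_neg (by omega), show (1 + 2 * k + ε - 1) / 2 = k by omega,
    show (1 + 2 * k + ε - 1) % 2 = ε by omega]

theorem ze_surj (m i v : ℕ) (hm : 0 < m) (hi : i < m) (a : Option (ZMod m × Fin 4)) :
    ∃ t < 4 * m + 1, ze m i v t = a := by
  cases a with
  | none => exact ⟨0, by omega, rfl⟩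
  | some wx =>
    obtain ⟨w, x⟩ := wx
    have hx := x.isLt
    obtain ⟨s, hs⟩ : ∃ s, s = if m % 2 = 1 then 0 else w.val % 2 := ⟨_, rfl⟩
    obtain ⟨d, hd⟩ : ∃ d, d = (x.val + 4 * (v + s) - v - s) % 4 := ⟨_, rfl⟩
    obtain ⟨P, hP, h1, h2, h3⟩ := sp_ex m hm w (d / 2) (by omega)
    obtain ⟨k, hk, h4⟩ := zp_surj m i P hi hP
    refine ⟨1 + 2 * k + (k + d % 2) % 2, by omega, ?_⟩
    rw [ze_pos m i v k ((k + d % 2) % 2) _ (by omega) rfl, h4,
      show (k + (k + d % 2) % 2) % 2 = d % 2 by omega]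
    unfold pe
    rw [h1]
    have h5 : lb m P v (d % 2) = x := by
      apply Fin.ext
      change lbn m P v (d % 2) % 4 = x.val
      unfold lbn
      rw [h2]
      by_cases hmo : m % 2 = 1
      · rw [if_pos hmo] at hs ⊢
        omega
      · rw [if_neg hmo] at hs ⊢
        have h6 : P % 2 = w.val % 2 := h3.resolve_left hmo
        omega
    rw [h5]

/-- the cyclic order `(i, v)` -/
def ec (m : ℕ) (hm : 0 < m) (p : Fin m × Fin 2) : Cyc (Option (ZMod m × Fin 4)) (4 * m + 1) :=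
  mkc (ze m p.1 p.2) (by omega) (ze_surj m p.1 p.2 hm p.1.isLt)

theorem ec_path (m : ℕ) (hm : 0 < m) (i : Fin m) (v : Fin 2) (k : ℕ) (hk : k + 1 < 2 * m) :
    (ec m hm (i, v)).Has (pe m (zp m i k) v 0) (pe m (zp m i k) v 1)
      (pe m (zp m i (k + 1)) v ((k + 1) % 2)) ∧
    (ec m hm (i, v)).Has (pe m (zp m i (k + 1)) v 0) (pe m (zp m i (k + 1)) v 1)
      (pe m (zp m i k) v ((k + 1) % 2)) := by
  have h1 : (ec m hm (i, v)).Win (pe m (zp m i k) v (k % 2)) (pe m (zp m i k) v ((k + 1) % 2))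
      (pe m (zp m i (k + 1)) v ((k + 1) % 2)) := by
    refine mkc_win _ _ _ (1 + 2 * k) (by omega) _ _ _ ?_ ?_ ?_
    · exact ze_pos m i v k 0 _ (by omega) rfl
    · exact ze_pos m i v k 1 _ (by omega) rfl
    · exact ze_pos m i v (k + 1) 0 _ (by omega) (by omega)
  have h2 : (ec m hm (i, v)).Win (pe m (zp m i k) v ((k + 1) % 2))
      (pe m (zp m i (k + 1)) v ((k + 1) % 2)) (pe m (zp m i (k + 1)) v ((k + 2) % 2)) := by
    refine mkc_win _ _ _ (2 + 2 * k) (by omega) _ _ _ ?_ ?_ ?_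
    · exact ze_pos m i v k 1 _ (by omega) (by omega)
    · exact ze_pos m i v (k + 1) 0 _ (by omega) (by omega)
    · exact ze_pos m i v (k + 1) 1 _ (by omega) (by omega)
  rcases Nat.mod_two_eq_zero_or_one k with h3 | h3
  · rw [h3, show (k + 1) % 2 = 1 by omega] at h1
    rw [show (k + 1) % 2 = 1 by omega, show (k + 2) % 2 = 0 by omega] at h2
    rw [show (k + 1) % 2 = 1 by omega]
    exact ⟨Or.inl h1, Or.inr (Or.inr (Or.inr (Or.inr (Or.inr h2))))⟩
  · rw [h3, show (k + 1) % 2 = 0 by omega] at h1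
    rw [show (k + 1) % 2 = 0 by omega, show (k + 2) % 2 = 1 by omega] at h2
    rw [show (k + 1) % 2 = 0 by omega]
    exact ⟨Or.inr (Or.inr (Or.inl h1)), Or.inr (Or.inr (Or.inr (Or.inr (Or.inl h2))))⟩

/-- the triples of two neighbours of a path -/
theorem ec_edge (m : ℕ) (hm : 0 < m) (v : Fin 2) (P Q : ℕ) (hP : P < 2 * m) (hQ : Q < 2 * m)
    (h : P ≠ Q) : ∃ i : Fin m, (ec m hm (i, v)).Has (pe m P v 0) (pe m P v 1)
      (pe m Q v ((P + Q) % 2)) := by
  rcases Nat.lt_or_gt_of_ne h with h1 | h1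
  · obtain ⟨i, hi, k, hk, h2 | h2, h3⟩ := zp_edge m P Q h1 hQ
    · refine ⟨⟨i, hi⟩, ?_⟩
      have h4 := (ec_path m hm ⟨i, hi⟩ v k hk).1
      rwa [h2.1, h2.2, h3] at h4
    · refine ⟨⟨i, hi⟩, ?_⟩
      have h4 := (ec_path m hm ⟨i, hi⟩ v k hk).2
      rwa [h2.1, h2.2, h3] at h4
  · obtain ⟨i, hi, k, hk, h2 | h2, h3⟩ := zp_edge m Q P h1 hP
    · refine ⟨⟨i, hi⟩, ?_⟩
      have h4 := (ec_path m hm ⟨i, hi⟩ v k hk).2
      rwa [h2.1, h2.2, h3, add_comm Q P] at h4
    · refine ⟨⟨i, hi⟩, ?_⟩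
      have h4 := (ec_path m hm ⟨i, hi⟩ v k hk).1
      rwa [h2.1, h2.2, h3, add_comm Q P] at h4

/-- the triples with `none` at the ends of a path -/
theorem ec_end (m : ℕ) (hm : 0 < m) (v : Fin 2) (P : ℕ) (hP : P < 2 * m) :
    ∃ i : Fin m, (ec m hm (i, v)).Has none (pe m P v 0) (pe m P v 1) := by
  by_cases h : P < m
  · have h0 : zp m P 0 = P := by
      unfold zp
      rw [if_neg (by omega), if_pos (by omega)]
      omega
    refine ⟨⟨P, h⟩, Or.inl (mkc_win _ _ _ 0 (by omega) _ _ _ rfl ?_ ?_)⟩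
    · have h1 := ze_pos m P v 0 0 (0 + 1) (by omega) (by omega)
      rw [h0] at h1
      exact h1
    · have h1 := ze_pos m P v 0 1 (0 + 2) (by omega) (by omega)
      rw [h0] at h1
      exact h1
  · have h0 : zp m (P - m) (2 * m - 1) = P := by
      unfold zp
      rw [if_pos (by omega)]
      omega
    refine ⟨⟨P - m, by omega⟩, Or.inr (Or.inr (Or.inr (Or.inr (Or.inr
      (mkc_win1 _ _ _ (4 * m - 1) (by omega) _ _ _ ?_ ?_ rfl)))))⟩
    · have h1 := ze_pos m (P - m) v (2 * m - 1) 0 (4 * m - 1) (by omega) (by omega)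
      rw [h0, show (2 * m - 1 + 0) % 2 = 1 by omega] at h1
      exact h1
    · have h1 := ze_pos m (P - m) v (2 * m - 1) 1 (4 * m - 1 + 1) (by omega) (by omega)
      rw [h0, show (2 * m - 1 + 1) % 2 = 0 by omega] at h1
      exact h1

theorem ec_mid (m : ℕ) (hm : 0 < m) (v : Fin 2) (i : Fin m) :
    (ec m hm (i, v)).Has none (pe m i v 0) (pe m (i + m) v 0) := by
  have hi := i.isLt
  have h0 : zp m i 0 = i := by
    unfold zp
    rw [if_neg (by omega), if_pos (by omega)]
    omega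
  have h0' : zp m i (2 * m - 1) = i + m := by
    unfold zp
    rw [if_pos (by omega)]
    omega
  refine Or.inr (Or.inr (Or.inr (Or.inr (Or.inl
    (mkc_win2 _ _ _ (4 * m) (by omega) (by omega) _ _ _ ?_ rfl ?_)))))
  · have h1 := ze_pos m i v (2 * m - 1) 1 (4 * m) (by omega) (by omega)
    rw [h0', show (2 * m - 1 + 1) % 2 = 0 by omega] at h1
    exact h1
  · have h1 := ze_pos m i v 0 0 1 (by omega) (by omega)
    rw [h0] at h1
    exact h1

/-- the triples of two neighbouring groups that are in the remaining cyclic orders: labels `i, i + 1` and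
`i`, `i + c` -/
def Lc (c : ℕ) (x y z : Fin 4) : Prop :=
  (y.val = (x.val + 1) % 4 ∧ (z.val = x.val ∨ z.val = (x.val + c) % 4)) ∨
    (x.val = (y.val + 1) % 4 ∧ (z.val = y.val ∨ z.val = (y.val + c) % 4))

instance (c : ℕ) (x y z : Fin 4) : Decidable (Lc c x y z) := by
  unfold Lc
  infer_instance

theorem lb_ex (m : ℕ) (hm : 0 < m) (w : ZMod m) (x y : Fin 4) (hy : y.val = (x.val + 1) % 4) :
    ∃ P < 2 * m, ∃ v : Fin 2, pe m P v 0 = some (w, x) ∧ pe m P v 1 = some (w, y) := by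
  have hx := x.isLt
  obtain ⟨s, hs⟩ : ∃ s, s = if m % 2 = 1 then 0 else w.val % 2 := ⟨_, rfl⟩
  have hs2 : s < 2 := by
    rw [hs]
    split_ifs <;> omega
  obtain ⟨d, hd⟩ : ∃ d, d = (x.val + 4 - s) % 4 := ⟨_, rfl⟩
  obtain ⟨P, hP, h1, h2, h3⟩ := sp_ex m hm w (d / 2) (by omega)
  have key : ∀ e (u : Fin 4), u.val = (x.val + e) % 4 → lb m P (d % 2) e = u := by
    intro e u hu
    apply Fin.ext
    change lbn m P (d % 2) e % 4 = u.val
    unfold lbn
    rw [h2]
    by_cases hmo : m % 2 = 1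
    · rw [if_pos hmo] at hs ⊢
      omega
    · rw [if_neg hmo] at hs ⊢
      have h6 : P % 2 = w.val % 2 := h3.resolve_left hmo
      omega
  refine ⟨P, hP, ⟨d % 2, by omega⟩, ?_, ?_⟩
  · unfold pe
    rw [h1]
    change some (w, lb m P (d % 2) 0) = _
    rw [key 0 x (by omega)]
  · unfold pe
    rw [h1]
    change some (w, lb m P (d % 2) 1) = _
    rw [key 1 y hy]

end WrQ
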