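import Pool.Agent.H.MP_4bad09_co.Q3

set_option autoImplicit false

/-!
# The recursion from `N` to `4 N - 3`: the triples of the remaining cyclic orders (MP_4bad09_co, helper80)
-/

namespace WrQ

open Wr

/-- `none` and two points of a group -/
theorem e1 (m : ℕ) (hm : 0 < m) (w : ZMod m) (x y : Fin 4) (hxy : x ≠ y) :
    ∃ j, (ec m hm j).Has none (some (w, x)) (some (w, y)) := by
  have hx := x.isLt
  have hy := y.isLt
  have hne : x.val ≠ y.val := fun h => hxy (Fin.ext h)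
  by_cases h1 : y.val = (x.val + 1) % 4
  · obtain ⟨P, hP, v, h2, h3⟩ := lb_ex m hm w x y h1
    obtain ⟨i, hi⟩ := ec_end m hm v P hP
    rw [h2, h3] at hi
    exact ⟨_, hi⟩
  by_cases h1' : x.val = (y.val + 1) % 4
  · obtain ⟨P, hP, v, h2, h3⟩ := lb_ex m hm w y x h1'
    obtain ⟨i, hi⟩ := ec_end m hm v P hP
    rw [h2, h3] at hi
    exact ⟨_, hi.swap.rot⟩
  · haveI : NeZero m := ⟨by omega⟩
    have hw : w.val < m := ZMod.val_lt w
    have hw1 : ((w.val : ℕ) : ZMod m) = w := ZMod.natCast_zmod_val w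
    have hw2 : ((w.val + m : ℕ) : ZMod m) = w := by
      rw [Nat.cast_add, ZMod.natCast_self, add_zero, hw1]
    obtain ⟨s, hs⟩ : ∃ s, s = if m % 2 = 1 then 0 else w.val % 2 := ⟨_, rfl⟩
    have hs2 : s < 2 := by
      rw [hs]
      split_ifs <;> omega
    obtain ⟨v, hv⟩ : ∃ v, v = (x.val + s) % 2 := ⟨_, rfl⟩
    have hi := ec_mid m hm ⟨v, by omega⟩ ⟨w.val, hw⟩
    change (ec m hm _).Has none (pe m w.val v 0) (pe m (w.val + m) v 0) at hi
    have key : ∀ (P e : ℕ) (u : Fin 4), lbn m P v e % 4 = u.val → lb m P v e = u :=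
      fun P e u hu => Fin.ext hu
    have h6 : (lbn m w.val v 0 % 4 = x.val ∧ lbn m (w.val + m) v 0 % 4 = y.val) ∨
        (lbn m w.val v 0 % 4 = y.val ∧ lbn m (w.val + m) v 0 % 4 = x.val) := by
      unfold lbn sp
      by_cases hmo : m % 2 = 1
      · simp only [if_pos hmo] at hs ⊢
        omega
      · have h9 : ¬ w.val + m < m := by omega
        simp only [if_neg hmo, if_pos hw, if_neg h9] at hs ⊢
        omega
    unfold pe at hi
    rw [hw1, hw2] at hi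
    rcases h6 with ⟨h7, h8⟩ | ⟨h7, h8⟩
    · rw [key _ _ _ h7, key _ _ _ h8] at hi
      exact ⟨_, hi⟩
    · rw [key _ _ _ h7, key _ _ _ h8] at hi
      exact ⟨_, hi.swap.rot⟩

theorem e2core (m : ℕ) (hm : 0 < m) (w : ZMod m) (x y z : Fin 4) (hy : y.val = (x.val + 1) % 4)
    (hz : z.val = (x.val + 2 + m % 2) % 4) :
    ∃ j, (ec m hm j).Has (some (w, x)) (some (w, y)) (some (w, z)) := by
  have hx := x.isLt
  obtain ⟨s, hs⟩ : ∃ s, s = if m % 2 = 1 then 0 else w.val % 2 := ⟨_, rfl⟩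
  have hs2 : s < 2 := by
    rw [hs]
    split_ifs <;> omega
  obtain ⟨d, hd⟩ : ∃ d, d = (x.val + 4 - s) % 4 := ⟨_, rfl⟩
  obtain ⟨P, hP, h1, h2, h3⟩ := sp_ex m hm w (d / 2) (by omega)
  obtain ⟨Q, hQ, h1', h2', h3'⟩ := sp_ex m hm w (1 - d / 2) (by omega)
  have hPQ : P ≠ Q := by
    rintro rfl
    rw [h2] at h2'
    omega
  have h9 : (P + Q) % 2 = m % 2 := by
    by_cases hmo : m % 2 = 1
    · unfold sp at h2 h2'
      rw [if_pos hmo] at h2 h2'
      omega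
    · have h6 := h3.resolve_left hmo
      have h7 := h3'.resolve_left hmo
      omega
  obtain ⟨i, hi⟩ := ec_edge m hm ⟨d % 2, by omega⟩ P Q hP hQ hPQ
  change (ec m hm _).Has (pe m P (d % 2) 0) (pe m P (d % 2) 1) (pe m Q (d % 2) ((P + Q) % 2)) at hi
  have k1 : lb m P (d % 2) 0 = x := by
    apply Fin.ext
    change lbn m P (d % 2) 0 % 4 = x.val
    unfold lbn
    rw [h2]
    by_cases hmo : m % 2 = 1
    · rw [if_pos hmo] at hs ⊢
      omega
    · rw [if_neg hmo] at hs ⊢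
      have h6 := h3.resolve_left hmo
      omega
  have k2 : lb m P (d % 2) 1 = y := by
    apply Fin.ext
    change lbn m P (d % 2) 1 % 4 = y.val
    unfold lbn
    rw [h2]
    by_cases hmo : m % 2 = 1
    · rw [if_pos hmo] at hs ⊢
      omega
    · rw [if_neg hmo] at hs ⊢
      have h6 := h3.resolve_left hmo
      omega
  have k3 : lb m Q (d % 2) ((P + Q) % 2) = z := by
    apply Fin.ext
    change lbn m Q (d % 2) ((P + Q) % 2) % 4 = z.val
    unfold lbn
    rw [h2', h9]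
    by_cases hmo : m % 2 = 1
    · rw [if_pos hmo] at hs ⊢
      omega
    · rw [if_neg hmo] at hs ⊢
      have h6 := h3'.resolve_left hmo
      omega
  unfold pe at hi
  rw [k1, k2, k3, h1, h1'] at hi
  exact ⟨_, hi⟩

/-- `(x, y, z)` is a permutation of `(a, b, c)` -/
def perm3 (a b c x y z : Fin 4) : Prop :=
  (a = x ∧ b = y ∧ c = z) ∨ (a = x ∧ b = z ∧ c = y) ∨ (a = y ∧ b = x ∧ c = z) ∨
    (a = y ∧ b = z ∧ c = x) ∨ (a = z ∧ b = x ∧ c = y) ∨ (a = z ∧ b = y ∧ c = x)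

instance (a b c x y z : Fin 4) : Decidable (perm3 a b c x y z) := by
  unfold perm3
  infer_instance

theorem has_perm3 {V : Type} {n : ℕ} (c : Cyc V n) (f : Fin 4 → V) {a b d x y z : Fin 4}
    (h : perm3 a b d x y z) (h1 : c.Has (f a) (f b) (f d)) : c.Has (f x) (f y) (f z) := by
  unfold perm3 at h
  unfold Cyc.Has at *
  rcases h with ⟨rfl, rfl, rfl⟩ | ⟨rfl, rfl, rfl⟩ | ⟨rfl, rfl, rfl⟩ | ⟨rfl, rfl, rfl⟩ | ⟨rfl, rfl, rfl⟩ |
    ⟨rfl, rfl, rfl⟩ <;> tauto

theorem perm_ex : ∀ (μ : Fin 2) (x y z : Fin 4), x ≠ y → y ≠ z → x ≠ z → ∃ a b c : Fin 4,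
    b.val = (a.val + 1) % 4 ∧ c.val = (a.val + 2 + μ.val) % 4 ∧ perm3 a b c x y z := by
  decide +kernel

/-- three points of a group -/
theorem e2 (m : ℕ) (hm : 0 < m) (w : ZMod m) (x y z : Fin 4) (hxy : x ≠ y) (hyz : y ≠ z)
    (hxz : x ≠ z) : ∃ j, (ec m hm j).Has (some (w, x)) (some (w, y)) (some (w, z)) := by
  obtain ⟨a, b, c, h1, h2, h3⟩ := perm_ex ⟨m % 2, by omega⟩ x y z hxy hyz hxz
  obtain ⟨j, hj⟩ := e2core m hm w a b c h1 h2
  exact ⟨j, has_perm3 _ (fun i => some (w, i)) h3 hj⟩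

theorem arE' : ∀ (x : Fin 4) (a b : Fin 2) (z : Fin 4), (z.val = x.val ∨ z.val = (x.val + 2) % 4) →
    (2 * (((z.val + 8 - (x.val + 4 - a.val) % 4 % 2 - (a.val + b.val) % 2 - b.val) % 4) / 2) +
      (x.val + 4 - a.val) % 4 % 2 + (a.val + b.val) % 2 + b.val) % 4 = z.val := by
  decide +kernel

theorem arE (x : ℕ) (hx : x < 4) (a : ℕ) (ha : a < 2) (b : ℕ) (hb : b < 2) (z : ℕ) (hz : z < 4)
    (h : z = x ∨ z = (x + 2) % 4) :
    (2 * (((z + 8 - (x + 4 - a) % 4 % 2 - (a + b) % 2 - b) % 4) / 2) + (x + 4 - a) % 4 % 2 +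
      (a + b) % 2 + b) % 4 = z :=
  arE' ⟨x, hx⟩ ⟨a, ha⟩ ⟨b, hb⟩ ⟨z, hz⟩ h

theorem arO : ∀ x < 4, ∀ z < 4, (z = x ∨ z = (x + 3) % 4) →
    (2 * (if z = x then x / 2 else 1 - x / 2) + x % 2 +
      (x / 2 + (if z = x then x / 2 else 1 - x / 2)) % 2) % 4 = z := by
  decide +kernel

theorem e3core (m : ℕ) (hm : 0 < m) (u w : ZMod m) (huw : u ≠ w) (x y z : Fin 4)
    (hy : y.val = (x.val + 1) % 4)
    (hz : z.val = x.val ∨ z.val = (x.val + (if m % 2 = 1 then 3 else 2)) % 4) :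
    ∃ j, (ec m hm j).Has (some (u, x)) (some (u, y)) (some (w, z)) := by
  have hx := x.isLt
  have hzl := z.isLt
  have main : ∃ P < 2 * m, ∃ Q < 2 * m, ∃ v : Fin 2, (P : ZMod m) = u ∧ (Q : ZMod m) = w ∧
      lb m P v 0 = x ∧ lb m P v 1 = y ∧ lb m Q v ((P + Q) % 2) = z := by
    by_cases hmo : m % 2 = 1
    · obtain ⟨b, hb⟩ : ∃ b, b = if z.val = x.val then x.val / 2 else 1 - x.val / 2 := ⟨_, rfl⟩
      have hb2 : b < 2 := by
        rw [hb]
        split_ifs <;> omega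
      obtain ⟨P, hP, h1, h2, -⟩ := sp_ex m hm u (x.val / 2) (by omega)
      obtain ⟨Q, hQ, h1', h2', -⟩ := sp_ex m hm w b hb2
      have h3 : P % 2 = x.val / 2 := by
        unfold sp at h2
        rwa [if_pos hmo] at h2
      have h3' : Q % 2 = b := by
        unfold sp at h2'
        rwa [if_pos hmo] at h2'
      rw [if_pos hmo] at hz
      have h4 := arO x.val hx z.val hzl hz
      rw [← hb] at h4
      refine ⟨P, hP, Q, hQ, ⟨x.val % 2, by omega⟩, h1, h1', Fin.ext ?_, Fin.ext ?_, Fin.ext ?_⟩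
      · change lbn m P (x.val % 2) 0 % 4 = x.val
        unfold lbn
        rw [h2, if_pos hmo]
        omega
      · change lbn m P (x.val % 2) 1 % 4 = y.val
        unfold lbn
        rw [h2, if_pos hmo]
        omega
      · change lbn m Q (x.val % 2) ((P + Q) % 2) % 4 = z.val
        unfold lbn
        rw [h2', if_pos hmo, Nat.add_mod P Q 2, h3, h3', Nat.add_zero]
        exact h4
    · obtain ⟨a, ha⟩ : ∃ a, a = u.val % 2 := ⟨_, rfl⟩
      obtain ⟨c, hc⟩ : ∃ c, c = w.val % 2 := ⟨_, rfl⟩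
      have ha2 : a < 2 := by omega
      have hc2 : c < 2 := by omega
      rw [if_neg hmo] at hz
      have h4 := arE x.val hx a ha2 c hc2 z.val hzl hz
      obtain ⟨P, hP, h1, h2, h3⟩ := sp_ex m hm u ((x.val + 4 - a) % 4 / 2) (by omega)
      obtain ⟨Q, hQ, h1', h2', h3'⟩ := sp_ex m hm w
        (((z.val + 8 - (x.val + 4 - a) % 4 % 2 - (a + c) % 2 - c) % 4) / 2) (by omega)
      have h5 : P % 2 = a := by rw [ha, h3.resolve_left hmo]
      have h5' : Q % 2 = c := by rw [hc, h3'.resolve_left hmo]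
      refine ⟨P, hP, Q, hQ, ⟨(x.val + 4 - a) % 4 % 2, by omega⟩, h1, h1', Fin.ext ?_, Fin.ext ?_,
        Fin.ext ?_⟩
      · change lbn m P ((x.val + 4 - a) % 4 % 2) 0 % 4 = x.val
        unfold lbn
        rw [h2, if_neg hmo, h5]
        clear h4 hy hz ha hc h1 h2 h3 h1' h2' h3' h5 h5'
        omega
      · change lbn m P ((x.val + 4 - a) % 4 % 2) 1 % 4 = y.val
        unfold lbn
        rw [h2, if_neg hmo, h5, hy]
        clear h4 hy hz ha hc h1 h2 h3 h1' h2' h3' h5 h5'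
        omega
      · change lbn m Q ((x.val + 4 - a) % 4 % 2) ((P + Q) % 2) % 4 = z.val
        unfold lbn
        rw [h2', if_neg hmo, Nat.add_mod P Q 2, h5, h5']
        exact h4
  obtain ⟨P, hP, Q, hQ, v, h1, h1', k1, k2, k3⟩ := main
  have hPQ : P ≠ Q := by
    rintro rfl
    exact huw (by rw [← h1, h1'])
  obtain ⟨i, hi⟩ := ec_edge m hm v P Q hP hQ hPQ
  unfold pe at hi
  rw [k1, k2, k3, h1, h1'] at hi
  exact ⟨_, hi⟩

/-- two points of a group and a point of another group -/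
theorem e3 (m : ℕ) (hm : 0 < m) (u w : ZMod m) (x y z : Fin 4) (huw : u ≠ w)
    (hL : Lc (if m % 2 = 1 then 3 else 2) x y z) :
    ∃ j, (ec m hm j).Has (some (u, x)) (some (u, y)) (some (w, z)) := by
  rcases hL with ⟨h1, h2⟩ | ⟨h1, h2⟩
  · exact e3core m hm u w huw x y z h1 h2
  · obtain ⟨j, hj⟩ := e3core m hm u w huw y x z h1 h2
    exact ⟨j, hj.swap⟩

end WrQ
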