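import Pool.Agent.H.MP_4bad09_co.Q4

set_option autoImplicit false
set_option maxRecDepth 100000

/-!
# The recursion from `N` to `4 N - 3`: the labels (MP_4bad09_co, helper80)

Four tables (found with a SAT solver), for `m` odd or even and `m = 0, 1` modulo `3`.  A table gives the labels of
the `16` lifts in six columns: the positions `1`, the positions `2, 3, 4, …, m - 2` with period `3` (columns `1, 2, 3`),
the position `m - 1` (column `4`) and the position `m` (column `5`).  The lifts `4 r + t`, `t = 0, 1, 2, 3`, arise from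
the lift `4 r` by adding `t` (or `- t`, depending on the column) to the labels.
-/

namespace WrQ

open Wr

/-- the digit number `k` of `D` to the base `4` -/
def dg (D k : ℕ) : ℕ := D / 4 ^ k % 4

/-- the label of the strand `s` of the lift `q` in the column `c` -/
def tT (D sg : ℕ) (q : Fin 16) (s : Fin 4) (c : Fin 6) : Fin 4 :=
  ⟨(dg D (24 * (q.val / 4) + 6 * s.val + c.val) + dg sg c.val * (q.val % 4)) % 4,
    Nat.mod_lt _ (by norm_num)⟩

/-- the label of the additional point of the position `m` -/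
def tb (D sg : ℕ) (q : Fin 16) : Fin 4 :=
  ⟨(dg D (96 + 2 * (q.val / 4)) + dg sg 5 * (q.val % 4)) % 4, Nat.mod_lt _ (by norm_num)⟩

/-- the label of the additional point of the position `1` -/
def tc (D sg : ℕ) (q : Fin 16) : Fin 4 :=
  ⟨(dg D (97 + 2 * (q.val / 4)) + dg sg 0 * (q.val % 4)) % 4, Nat.mod_lt _ (by norm_num)⟩

/-- all triples of labels occur in the columns `i`, `j`, `k` -/
def Wd (D sg : ℕ) (i j k : Fin 6) : Prop :=
  ∀ x y z : Fin 4, ∃ q : Fin 16, ∃ s : Fin 4, tT D sg q s i = x ∧ tT D sg q s j = y ∧ tT D sg q s k = z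

instance (D sg : ℕ) (i j k : Fin 6) : Decidable (Wd D sg i j k) := by
  unfold Wd
  infer_instance

/-- the conditions for the windows -/
def okW (D sg : ℕ) (i j : Fin 6) : Prop :=
  Wd D sg 0 1 2 ∧ Wd D sg 1 2 3 ∧ Wd D sg 2 3 1 ∧ Wd D sg 3 1 2 ∧ Wd D sg i j 4 ∧ Wd D sg j 4 5

instance (D sg : ℕ) (i j : Fin 6) : Decidable (okW D sg i j) := by
  unfold okW
  infer_instance

/-- the conditions for the triples with two points of a group -/
def okU (c : ℕ) (f g h : Fin 16 → Fin 4) : Prop :=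
  ∀ x y z : Fin 4, x ≠ y → ¬ Lc c x y z → ∃ q : Fin 16, pr (f q) (g q) x y ∧ h q = z

instance (c : ℕ) (f g h : Fin 16 → Fin 4) : Decidable (okU c f g h) := by
  unfold okU
  infer_instance

/-- the conditions at the ends -/
def okA (D sg : ℕ) : Prop :=
  (∀ q, tT D sg q 2 0 = tT D sg q 3 0) ∧
  (∀ q, tT D sg q 1 5 = tT D sg q 2 5) ∧
  (∀ q x, tT D sg q 0 0 = x ∨ tT D sg q 1 0 = x ∨ tT D sg q 3 0 = x ∨ tc D sg q = x) ∧
  (∀ q x, tT D sg q 0 5 = x ∨ tb D sg q = x ∨ tT D sg q 1 5 = x ∨ tT D sg q 3 5 = x) ∧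
  (∀ q x, ∃ s, tT D sg q s 1 = x) ∧
  (∀ q x, ∃ s, tT D sg q s 2 = x) ∧
  (∀ q x, ∃ s, tT D sg q s 3 = x) ∧
  (∀ q x, ∃ s, tT D sg q s 4 = x)

instance (D sg : ℕ) : Decidable (okA D sg) := by
  unfold okA
  infer_instance

/-- the conditions at the ends -/
def okB (D sg c : ℕ) : Prop :=
  (∀ x y, ∃ q, tT D sg q 3 5 = x ∧ tT D sg q 0 0 = y) ∧
  (∀ x y, ∃ q, tT D sg q 0 0 = x ∧ tT D sg q 0 1 = y) ∧
  (∀ x y, ∃ q, tT D sg q 3 4 = x ∧ tT D sg q 3 5 = y) ∧
  okU c (fun q => tT D sg q 0 5) (fun q => tb D sg q) (fun q => tT D sg q 0 4) ∧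
  okU c (fun q => tT D sg q 0 5) (fun q => tb D sg q) (fun q => tc D sg q) ∧
  okU c (fun q => tc D sg q) (fun q => tT D sg q 1 0) (fun q => tb D sg q) ∧
  okU c (fun q => tc D sg q) (fun q => tT D sg q 1 0) (fun q => tT D sg q 1 1) ∧
  okU c (fun q => tT D sg q 1 4) (fun q => tT D sg q 2 4) (fun q => tT D sg q 1 5) ∧
  okU c (fun q => tT D sg q 2 1) (fun q => tT D sg q 3 1) (fun q => tT D sg q 3 0)

instance (D sg c : ℕ) : Decidable (okB D sg c) := by
  unfold okB
  infer_instance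

/-- the column of the position `p` -/
def ix (m p : ℕ) : Fin 6 :=
  if p ≤ 1 then 0 else if p = m then 5 else if p + 1 = m then 4 else
    ⟨1 + (p - 2) % 3, by have := Nat.mod_lt (p - 2) (show 3 > 0 by norm_num); omega⟩

theorem ix_1 (m : ℕ) : ix m 1 = 0 := rfl

theorem ix_m (m : ℕ) (hm : 2 ≤ m) : ix m m = 5 := by
  unfold ix
  rw [if_neg (by omega), if_pos rfl]

theorem ix_m1 (m p : ℕ) (hm : 3 ≤ m) (hp : p + 1 = m) : ix m p = 4 := by
  unfold ix
  rw [if_neg (by omega), if_neg (by omega), if_pos hp]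

theorem ix_mid (m p k : ℕ) (h2 : 2 ≤ p) (hp : p + 2 ≤ m) (i : Fin 6) (hi : i.val = 1 + k)
    (hk : (p - 2) % 3 = k) : ix m p = i := by
  unfold ix
  rw [if_neg (by omega), if_neg (by omega), if_neg (by omega)]
  refine Fin.ext ?_
  change 1 + (p - 2) % 3 = i.val
  rw [hi, hk]

/-- Proof. `p = 1`: columns `0, 1, 2`; `2 ≤ p ≤ m - 4`: columns `1, 2, 3`, cyclically; `p = m - 3`, `p = m - 2`: the
last two conditions of `okW`. -/
theorem ix_win (D sg m : ℕ) (hm : 6 ≤ m) (i j : Fin 6) (h : okW D sg i j)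
    (hi : ∀ p, p + 3 = m → ix m p = i) (hj : ∀ p, p + 2 = m → ix m p = j) (p : ℕ) (x y z : Fin 4)
    (h1 : 1 ≤ p) (h2 : p + 2 ≤ m) :
    ∃ q s, tT D sg q s (ix m p) = x ∧ tT D sg q s (ix m (p + 1)) = y ∧ tT D sg q s (ix m (p + 2)) = z := by
  obtain ⟨w1, w2, w3, w4, w5, w6⟩ := h
  by_cases c1 : p = 1
  · subst c1
    rw [ix_1, ix_mid m (1 + 1) 0 (by omega) (by omega) 1 rfl rfl,
      ix_mid m (1 + 2) 1 (by omega) (by omega) 2 rfl rfl]
    exact w1 x y z
  by_cases c2 : p + 2 = m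
  · rw [hj p c2, ix_m1 m (p + 1) (by omega) (by omega), c2, ix_m m (by omega)]
    exact w6 x y z
  by_cases c3 : p + 3 = m
  · rw [hi p c3, hj (p + 1) (by omega), ix_m1 m (p + 2) (by omega) (by omega)]
    exact w5 x y z
  · have h3 : (p - 2) % 3 = 0 ∨ (p - 2) % 3 = 1 ∨ (p - 2) % 3 = 2 := by omega
    rcases h3 with h3 | h3 | h3
    · rw [ix_mid m p 0 (by omega) (by omega) 1 rfl h3,
        ix_mid m (p + 1) 1 (by omega) (by omega) 2 rfl (by omega),
        ix_mid m (p + 2) 2 (by omega) (by omega) 3 rfl (by omega)]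
      exact w2 x y z
    · rw [ix_mid m p 1 (by omega) (by omega) 2 rfl h3,
        ix_mid m (p + 1) 2 (by omega) (by omega) 3 rfl (by omega),
        ix_mid m (p + 2) 0 (by omega) (by omega) 1 rfl (by omega)]
      exact w3 x y z
    · rw [ix_mid m p 2 (by omega) (by omega) 3 rfl h3,
        ix_mid m (p + 1) 0 (by omega) (by omega) 1 rfl (by omega),
        ix_mid m (p + 2) 1 (by omega) (by omega) 2 rfl (by omega)]
      exact w4 x y z

/-- the labels from a table -/
def tem (D sg c m : ℕ) (hm : 6 ≤ m) (i j : Fin 6) (h : okW D sg i j) (hA : okA D sg) (hB : okB D sg c)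
    (hi : ∀ p, p + 3 = m → ix m p = i) (hj : ∀ p, p + 2 = m → ix m p = j) : Tem m (Lc c) where
  lab q s p := tT D sg q s (ix m p)
  b2 q := tb D sg q
  c1 q := tc D sg q
  sh1 q := by
    rw [ix_1]
    exact hA.1 q
  shm q := by
    rw [ix_m m (by omega)]
    exact hA.2.1 q
  s1 q x := by
    rw [ix_1]
    exact hA.2.2.1 q x
  sm q x := by
    rw [ix_m m (by omega)]
    exact hA.2.2.2.1 q x
  si q p x h1 h2 := by
    obtain ⟨-, -, -, -, g1, g2, g3, g4⟩ := hA
    by_cases c1 : p + 1 = m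
    · rw [ix_m1 m p (by omega) c1]
      exact g4 q x
    · have h3 : (p - 2) % 3 = 0 ∨ (p - 2) % 3 = 1 ∨ (p - 2) % 3 = 2 := by omega
      rcases h3 with h3 | h3 | h3
      · rw [ix_mid m p 0 h1 (by omega) 1 rfl h3]
        exact g1 q x
      · rw [ix_mid m p 1 h1 (by omega) 2 rfl h3]
        exact g2 q x
      · rw [ix_mid m p 2 h1 (by omega) 3 rfl h3]
        exact g3 q x
  w p x y z h1 h2 := ix_win D sg m hm i j h hi hj p x y z h1 h2
  bc x y := by
    rw [ix_m m (by omega), ix_1]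
    exact hB.1 x y
  cd x y := by
    rw [ix_1, ix_mid m 2 0 (by omega) (by omega) 1 rfl rfl]
    exact hB.2.1 x y
  ab x y := by
    rw [ix_m m (by omega), ix_m1 m (m - 1) (by omega) (by omega)]
    exact hB.2.2.1 x y
  u1 x y z h1 h2 := by
    rw [ix_m m (by omega), ix_m1 m (m - 1) (by omega) (by omega)]
    exact hB.2.2.2.1 x y z h1 h2
  u2 x y z h1 h2 := by
    rw [ix_m m (by omega)]
    exact hB.2.2.2.2.1 x y z h1 h2
  u3 x y z h1 h2 := by
    rw [ix_1]
    exact hB.2.2.2.2.2.1 x y z h1 h2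
  u4 x y z h1 h2 := by
    rw [ix_1, ix_mid m 2 0 (by omega) (by omega) 1 rfl rfl]
    exact hB.2.2.2.2.2.2.1 x y z h1 h2
  u5 x y z h1 h2 := by
    rw [ix_m m (by omega), ix_m1 m (m - 1) (by omega) (by omega)]
    exact hB.2.2.2.2.2.2.2.1 x y z h1 h2
  u6 x y z h1 h2 := by
    rw [ix_1, ix_mid m 2 0 (by omega) (by omega) 1 rfl rfl]
    exact hB.2.2.2.2.2.2.2.2 x y z h1 h2

/-- table for `m` odd, `m = 0` modulo `3` -/
def D10 : ℕ := 271131877592055942933787022166897850658651180128542910834164289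
/-- table for `m` odd, `m = 1` modulo `3` -/
def D11 : ℕ := 245334615044067706862761115966040833259444956028819244252416861
/-- table for `m` even, `m = 0` modulo `3` -/
def D00 : ℕ := 196236163774191048701927206004485958875730023377841771804300056
/-- table for `m` even, `m = 1` modulo `3` -/
def D01 : ℕ := 149926798488403915902109920286248242325371409484381634311555021

theorem w10 : okW D10 1365 2 3 := by decide +kernel

theorem w11 : okW D11 1365 3 1 := by decide +kernel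

theorem w00 : okW D00 1885 2 3 := by decide +kernel

theorem w01 : okW D01 1885 3 1 := by decide +kernel

theorem a10 : okA D10 1365 := by decide +kernel

theorem a11 : okA D11 1365 := by decide +kernel

theorem a00 : okA D00 1885 := by decide +kernel

theorem a01 : okA D01 1885 := by decide +kernel

theorem b10 : okB D10 1365 3 := by decide +kernel

theorem b11 : okB D11 1365 3 := by decide +kernel

theorem b00 : okB D00 1885 2 := by decide +kernel

theorem b01 : okB D01 1885 2 := by decide +kernel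

/-- The labels exist for all `m ≥ 6` that are not `2` modulo `3`. -/
theorem tem_ex (m : ℕ) (hm : 6 ≤ m) (h3 : m % 3 ≠ 2) : Nonempty (Tem m (Lc (if m % 2 = 1 then 3 else 2))) := by
  have i0 : ∀ (h : m % 3 = 0) (p : ℕ), p + 3 = m → ix m p = 2 := fun h p hp =>
    ix_mid m p 1 (by omega) (by omega) 2 rfl (by omega)
  have j0 : ∀ (h : m % 3 = 0) (p : ℕ), p + 2 = m → ix m p = 3 := fun h p hp =>
    ix_mid m p 2 (by omega) (by omega) 3 rfl (by omega)
  have i1 : ∀ (h : m % 3 = 1) (p : ℕ), p + 3 = m → ix m p = 3 := fun h p hp =>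
    ix_mid m p 2 (by omega) (by omega) 3 rfl (by omega)
  have j1 : ∀ (h : m % 3 = 1) (p : ℕ), p + 2 = m → ix m p = 1 := fun h p hp =>
    ix_mid m p 0 (by omega) (by omega) 1 rfl (by omega)
  by_cases ho : m % 2 = 1
  · rw [if_pos ho]
    by_cases h0 : m % 3 = 0
    · exact ⟨tem D10 1365 3 m hm 2 3 w10 a10 b10 (i0 h0) (j0 h0)⟩
    · exact ⟨tem D11 1365 3 m hm 3 1 w11 a11 b11 (i1 (by omega)) (j1 (by omega))⟩
  · rw [if_neg ho]
    by_cases h0 : m % 3 = 0
    · exact ⟨tem D00 1885 2 m hm 2 3 w00 a00 b00 (i0 h0) (j0 h0)⟩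
    · exact ⟨tem D01 1885 2 m hm 3 1 w01 a01 b01 (i1 (by omega)) (j1 (by omega))⟩

end WrQ
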