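import Pool.Agent.H.MP_4bad09_co.Q2
import Pool.Agent.H.MP_4bad09_co.Q5

set_option autoImplicit false

/-!
# The recursion from `N` to `4 N - 3` (MP_4bad09_co, helper80)
-/

namespace WrQ

open Wr

/-- If the triples of `m + 1` points (`m ≥ 6`, not `2` modulo `3`) are partitioned into the windows of cyclic orders,
then so are the triples of `4 m + 1` points. -/
theorem TH_quad (m : ℕ) (hm : 6 ≤ m) (h3 : m % 3 ≠ 2) (h : TH (Fin (m + 1)) (m + 1)) :
    TH (Fin (4 * m + 1)) (4 * m + 1) := by
  have hne : NeZero m := ⟨by omega⟩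
  obtain ⟨T⟩ := tem_ex m hm h3
  have hW : Nat.card (ZMod m) = m := by
    rw [Nat.card_eq_fintype_card, ZMod.card]
  have h1 : TH (Option (ZMod m)) (m + 1) := h.congr (by omega) (by rw [Finite.card_option, hW])
  have h2 : TH (Option (ZMod m × Fin 4)) (4 * m + 1) := by
    refine r4core T (by omega) hW h1 (ec m (by omega)) ?_ (e1 m (by omega)) (e2 m (by omega)) ?_
    · rw [Fintype.card_prod, Fintype.card_fin, Fintype.card_fin]
      ring
    · intro u v x y z huv _ hL
      exact e3 m (by omega) u v x y z huv hL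
  exact h2.congr (by omega) (by rw [Nat.card_eq_fintype_card, Fintype.card_fin])

end WrQ
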