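import Pool.Agent.H.MP_4bad09_co.Y8
import Pool.Agent.H.MP_4bad09_co.B1
import Pool.Agent.H.MP_4bad09_co.Q6

set_option autoImplicit false

/-!
# The cases `k = 3` and `k = n - 3` of the wreath decomposition conjecture: from `N` to `n = 4 N - 3`

If `N ≥ 4` is not divisible by `3` and `K_N^3` has a wreath decomposition, then `K_n^3` and `K_n^(n-3)` have wreath
decompositions for `n = 4 N - 3`.
-/

namespace Pool.Agent.H.MP_4bad09_co.QuadrupleMinusThree

/-- `K_n^k` has a wreath decomposition: there are cyclic orderings `σ i` of the `n` vertices such that every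
`k`-subset is, exactly once, an edge (positions `p k, p k + 1, …, p k + k - 1` modulo `n`,
`p < n / gcd (n, k)`) of the wreath of one of them. -/
def HasWreathDec (n k : ℕ) (hn : 0 < n) : Prop :=
  ∃ (m : ℕ) (σ : Fin m → Equiv.Perm (Fin n)),
    ∀ s : Finset (Fin n), s.card = k →
      ∃! p : Fin m × Fin (n / Nat.gcd n k),
        (Finset.univ : Finset (Fin k)).image
          (fun j => σ p.1 ⟨(p.2.val * k + j.val) % n, Nat.mod_lt _ hn⟩) = s

theorem result : ∀ (N n : ℕ) (hN : 0 < N) (hn : 0 < n), 4 ≤ N → ¬ 3 ∣ N → n + 3 = 4 * N →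
    HasWreathDec N 3 hN → HasWreathDec n 3 hn ∧ HasWreathDec n (n - 3) hn := by
  intro N n hN hn h4 h3 hNn hW
  have hT : Wr.TH (Fin N) N := Wr.HasWreath.th h4 h3 hW
  have h4n : 4 ≤ n := by omega
  have h3n : ¬ 3 ∣ n := by omega
  have key : Wr.TH (Fin n) n := by
    by_cases h7 : N < 7
    · have h8 : N = 4 ∨ N = 5 := by omega
      rcases h8 with rfl | rfl
      · obtain rfl : n = 13 := by omega
        exact Wr.TH13
      · obtain rfl : n = 17 := by omega
        exact Wr.TH17
    · obtain ⟨m, rfl⟩ : ∃ m, N = m + 1 := ⟨N - 1, by omega⟩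
      obtain rfl : n = 4 * m + 1 := by omega
      exact WrQ.TH_quad m (by omega) (by omega) hT
  exact ⟨Wr.TH.wreath h4n h3n key, Wr.TH.wreath' h4n h3n key⟩

end Pool.Agent.H.MP_4bad09_co.QuadrupleMinusThree
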