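import Mathlib

set_option autoImplicit false

/-!
# Words, plane trees and the lists `PA`, `PB`

`ones x s` is the list of the positions (counted from `s`) of the letters `true` of the word `x`.  For a plane
binary tree `T`, the word of `T = node l r` is `1 word(l) 0 word(r)`; `PA T s` and `PB T s` are special orderings of
the positions of its ones and of its zeros.
-/

namespace WrR

open BinaryTree

def ones : List Bool → ℕ → List ℕ
  | [], _ => []
  | true :: x, s => s :: ones x (s + 1)
  | false :: x, s => ones x (s + 1)

def PA : BinaryTree Unit → ℕ → List ℕ
  | .nil, _ => []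
  | .node _ l r, s => (PA l (s + 1)).reverse ++ s :: PA r (s + 2 * l.numNodes + 2)

def PB : BinaryTree Unit → ℕ → List ℕ
  | .nil, _ => []
  | .node _ l r, s =>
    (s + 2 * l.numNodes + 1) :: ((PB l (s + 1)).reverse ++ PB r (s + 2 * l.numNodes + 2))

def nd (l r : BinaryTree Unit) : BinaryTree Unit := BinaryTree.node () l r

theorem nd_num (l r : BinaryTree Unit) : (nd l r).numNodes = l.numNodes + r.numNodes + 1 := rfl

theorem PA_nd (l r : BinaryTree Unit) (s : ℕ) :
    PA (nd l r) s = (PA l (s + 1)).reverse ++ s :: PA r (s + 2 * l.numNodes + 2) := rfl

theorem PB_nd (l r : BinaryTree Unit) (s : ℕ) :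
    PB (nd l r) s = (s + 2 * l.numNodes + 1) :: ((PB l (s + 1)).reverse ++ PB r (s + 2 * l.numNodes + 2)) := rfl

theorem PA_length (T : BinaryTree Unit) : ∀ s, (PA T s).length = T.numNodes := by
  induction T with
  | nil => intro s; rfl
  | node u l r ihl ihr =>
    intro s
    simp only [PA, List.length_append, List.length_reverse, List.length_cons, ihl, ihr, BinaryTree.numNodes]
    omega

theorem PB_length (T : BinaryTree Unit) : ∀ s, (PB T s).length = T.numNodes := by
  induction T with
  | nil => intro s; rfl
  | node u l r ihl ihr =>
    intro s
    simp only [PB, List.length_append, List.length_reverse, List.length_cons, ihl, ihr, BinaryTree.numNodes]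

theorem ones_append (x y : List Bool) : ∀ s, ones (x ++ y) s = ones x s ++ ones y (s + x.length) := by
  induction x with
  | nil => intro s; simp [ones]
  | cons b x ih =>
    intro s
    cases b
    · simp only [List.cons_append, ones, ih, List.length_cons]
      rw [show s + 1 + x.length = s + (x.length + 1) by omega]
    · simp only [List.cons_append, ones, ih, List.length_cons]
      rw [show s + 1 + x.length = s + (x.length + 1) by omega]

theorem ones_length (x : List Bool) : ∀ s, (ones x s).length = x.count true := by
  induction x with
  | nil => intro s; simp [ones]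
  | cons b x ih =>
    intro s
    cases b
    · simp [ones, ih]
    · simp [ones, ih]

theorem len_count (x : List Bool) : x.length = x.count true + x.count false := by
  induction x with
  | nil => simp
  | cons b x ih =>
    cases b
    · rw [List.length_cons, List.count_cons_self, List.count_cons_of_ne (by decide)]; omega
    · rw [List.length_cons, List.count_cons_self, List.count_cons_of_ne (by decide)]; omega

/-- Dyck words. -/
inductive DW : List Bool → Prop
  | nil : DW []
  | cons (u w : List Bool) (hu : DW u) (hw : DW w) : DW (true :: (u ++ false :: w))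

/-- Complements of Dyck words. -/
inductive NW : List Bool → Prop
  | nil : NW []
  | cons (u w : List Bool) (hu : NW u) (hw : NW w) : NW (false :: (u ++ true :: w))

theorem DW.bal {x : List Bool} (h : DW x) : x.count true = x.count false := by
  induction h with
  | nil => simp
  | cons u w hu hw ihu ihw => simp [ihu, ihw]; omega

theorem NW.bal {x : List Bool} (h : NW x) : x.count true = x.count false := by
  induction h with
  | nil => simp
  | cons u w hu hw ihu ihw => simp [ihu, ihw]; omega

theorem DW.app {x y : List Bool} (hx : DW x) (hy : DW y) : DW (x ++ y) := by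
  induction hx with
  | nil => simpa using hy
  | cons u w hu hw ihu ihw =>
    have := DW.cons u (w ++ y) hu ihw
    simpa using this

theorem NW.app {x y : List Bool} (hx : NW x) (hy : NW y) : NW (x ++ y) := by
  induction hx with
  | nil => simpa using hy
  | cons u w hu hw ihu ihw =>
    have := NW.cons u (w ++ y) hu ihw
    simpa using this

/-- First passage below. -/
theorem first_below : ∀ (m : ℕ) (z : List Bool), z.length ≤ m → z.count true < z.count false →
    ∃ u y, z = u ++ false :: y ∧ DW u := by
  intro m
  induction m with
  | zero =>
    intro z hz h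
    have : z = [] := List.eq_nil_of_length_eq_zero (by omega)
    subst this
    simp at h
  | succ m ih =>
    intro z hz h
    cases z with
    | nil => simp at h
    | cons b z =>
      cases b
      · exact ⟨[], z, rfl, DW.nil⟩
      · simp only [List.length_cons] at hz
        simp only [List.count_cons_self, ne_eq, Bool.true_eq_false, not_false_eq_true, List.count_cons_of_ne] at h
        obtain ⟨u, y, rfl, hu⟩ := ih z (by omega) (by omega)
        have hub := hu.bal
        simp only [List.count_append, List.count_cons_self, List.length_append, List.length_cons] at h hz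
        have h2 : y.count true < y.count false := by
          simp at h
          omega
        obtain ⟨u', y', rfl, hu'⟩ := ih y (by omega) h2
        refine ⟨true :: (u ++ false :: u'), y', by simp, DW.cons u u' hu hu'⟩

/-- First passage above. -/
theorem first_above : ∀ (m : ℕ) (z : List Bool), z.length ≤ m → z.count false < z.count true →
    ∃ u y, z = u ++ true :: y ∧ NW u := by
  intro m
  induction m with
  | zero =>
    intro z hz h
    have : z = [] := List.eq_nil_of_length_eq_zero (by omega)
    subst this
    simp at h
  | succ m ih =>
    intro z hz h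
    cases z with
    | nil => simp at h
    | cons b z =>
      cases b
      · simp only [List.length_cons] at hz
        simp only [List.count_cons_self, ne_eq, Bool.false_eq_true, not_false_eq_true, List.count_cons_of_ne] at h
        obtain ⟨u, y, rfl, hu⟩ := ih z (by omega) (by omega)
        have hub := hu.bal
        simp only [List.count_append, List.count_cons_self, List.length_append, List.length_cons] at h hz
        have h2 : y.count false < y.count true := by
          simp at h
          omega
        obtain ⟨u', y', rfl, hu'⟩ := ih y (by omega) h2
        refine ⟨false :: (u ++ true :: u'), y', by simp, NW.cons u u' hu hu'⟩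
      · exact ⟨[], z, rfl, NW.nil⟩

/-- Words `p_0 0 p_1 0 … 0 p_i` with Dyck words `p_j`. -/
inductive ZD : ℕ → List Bool → Prop
  | base (p : List Bool) (hp : DW p) : ZD 0 p
  | step (i : ℕ) (p y : List Bool) (hp : DW p) (hy : ZD i y) : ZD (i + 1) (p ++ false :: y)

/-- Words `p_0 1 p_1 1 … 1 p_i` with complements of Dyck words `p_j`. -/
inductive ZN : ℕ → List Bool → Prop
  | base (p : List Bool) (hp : NW p) : ZN 0 p
  | step (i : ℕ) (p y : List Bool) (hp : NW p) (hy : ZN i y) : ZN (i + 1) (p ++ true :: y)

theorem ZD.total {i : ℕ} {x : List Bool} (h : ZD i x) : x.count true + i = x.count false := by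
  induction h with
  | base p hp => simpa using hp.bal
  | step i p y hp hy ih =>
    have := hp.bal
    simp
    omega

theorem ZN.total {i : ℕ} {x : List Bool} (h : ZN i x) : x.count false + i = x.count true := by
  induction h with
  | base p hp => simpa using hp.bal.symm
  | step i p y hp hy ih =>
    have := hp.bal
    simp
    omega

theorem ZD.pre {i : ℕ} {y p : List Bool} (hp : DW p) (h : ZD i y) : ZD i (true :: (p ++ false :: y)) := by
  cases h with
  | base _ hq => exact ZD.base _ (DW.cons p y hp hq)
  | step i q y hq hy =>
    have := ZD.step i (true :: (p ++ false :: q)) y (DW.cons p q hp hq) hy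
    simpa using this

theorem ZN.pre {i : ℕ} {y p : List Bool} (hp : NW p) (h : ZN i y) : ZN i (false :: (p ++ true :: y)) := by
  cases h with
  | base _ hq => exact ZN.base _ (NW.cons p y hp hq)
  | step i q y hq hy =>
    have := ZN.step i (false :: (p ++ true :: q)) y (NW.cons p q hp hq) hy
    simpa using this

theorem zd_or (x : List Bool) : (∃ i, ZD i x) ∨ (∃ x' p, DW p ∧ x = x' ++ true :: p) := by
  induction x with
  | nil => exact Or.inl ⟨0, ZD.base _ DW.nil⟩
  | cons b x ih =>
    rcases ih with ⟨i, hi⟩ | ⟨x', p, hp, rfl⟩
    · cases b
      · exact Or.inl ⟨i + 1, ZD.step i [] x DW.nil hi⟩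
      · cases hi with
        | base _ hq => exact Or.inr ⟨[], x, hq, rfl⟩
        | step i q y hq hy => exact Or.inl ⟨i, ZD.pre hq hy⟩
    · exact Or.inr ⟨b :: x', p, hp, rfl⟩

theorem zn_or (x : List Bool) : (∃ i, ZN i x) ∨ (∃ x' p, NW p ∧ x = x' ++ false :: p) := by
  induction x with
  | nil => exact Or.inl ⟨0, ZN.base _ NW.nil⟩
  | cons b x ih =>
    rcases ih with ⟨i, hi⟩ | ⟨x', p, hp, rfl⟩
    · cases b
      · cases hi with
        | base _ hq => exact Or.inr ⟨[], x, hq, rfl⟩
        | step i q y hq hy => exact Or.inl ⟨i, ZN.pre hq hy⟩
      · exact Or.inl ⟨i + 1, ZN.step i [] x NW.nil hi⟩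
    · exact Or.inr ⟨b :: x', p, hp, rfl⟩

end WrR
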