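import Pool.Agent.H.MP_4bad09_co.R1

set_option autoImplicit false

/-!
# Every balanced word, and every word of total `-2`, is a window of some tree
-/

namespace WrR

open BinaryTree

/-- The multiset of a list. -/
def ml (l : List ℕ) : Multiset ℕ := (l : Multiset ℕ)

theorem ml_nil : ml [] = 0 := rfl

theorem ml_cons (a : ℕ) (l : List ℕ) : ml (a :: l) = {a} + ml l := rfl

theorem ml_append (l m : List ℕ) : ml (l ++ m) = ml l + ml m := rfl

theorem ml_reverse (l : List ℕ) : ml l.reverse = ml l := by
  unfold ml
  rw [Multiset.coe_eq_coe]
  exact List.reverse_perm l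

theorem ml_ones_true (x : List Bool) (s : ℕ) : ml (ones (true :: x) s) = {s} + ml (ones x (s + 1)) := rfl

theorem ml_ones_false (x : List Bool) (s : ℕ) : ml (ones (false :: x) s) = ml (ones x (s + 1)) := rfl

theorem ml_ones_app (x y : List Bool) (s : ℕ) :
    ml (ones (x ++ y) s) = ml (ones x s) + ml (ones y (s + x.length)) := by
  rw [ones_append, ml_append]

theorem DW.claim {x : List Bool} (h : DW x) :
    ∃ T : BinaryTree Unit, x.length = 2 * T.numNodes ∧ ∀ s, ml (ones x s) = ml (PA T s) := by
  induction h with
  | nil => exact ⟨BinaryTree.nil, rfl, fun s => rfl⟩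
  | cons u w hu hw ihu ihw =>
    obtain ⟨l, hl, hl'⟩ := ihu
    obtain ⟨r, hr, hr'⟩ := ihw
    refine ⟨nd l r, ?_, ?_⟩
    · rw [nd_num]; simp only [List.length_cons, List.length_append]; omega
    · intro s
      rw [PA_nd, ml_ones_true, ml_ones_app, ml_ones_false, ml_append, ml_reverse, ml_cons, hl', hr', hl,
        show s + 1 + 2 * l.numNodes + 1 = s + 2 * l.numNodes + 2 by omega]
      abel

theorem NW.claim {x : List Bool} (h : NW x) :
    ∃ T : BinaryTree Unit, x.length = 2 * T.numNodes ∧ ∀ s, ml (ones x s) = ml (PB T s) := by
  induction h with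
  | nil => exact ⟨BinaryTree.nil, rfl, fun s => rfl⟩
  | cons u w hu hw ihu ihw =>
    obtain ⟨l, hl, hl'⟩ := ihu
    obtain ⟨r, hr, hr'⟩ := ihw
    refine ⟨nd l r, ?_, ?_⟩
    · rw [nd_num]; simp only [List.length_cons, List.length_append]; omega
    · intro s
      rw [PB_nd, ml_ones_false, ml_ones_app, ml_ones_true, ml_cons, ml_append, ml_reverse, hl', hr', hl,
        show s + 1 + 2 * l.numNodes + 1 = s + 2 * l.numNodes + 2 by omega,
        show s + 1 + 2 * l.numNodes = s + 2 * l.numNodes + 1 by omega]
      abel

/-- `x` is the window `W_j` of a tree. -/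
def WinW (x : List Bool) : Prop :=
  ∃ (T : BinaryTree Unit) (j : ℕ), x.length = 2 * T.numNodes ∧ j ≤ T.numNodes ∧
    ∀ s, ml (ones x s) = ml ((PA T s).drop j) + ml ((PB T s).take j)

/-- `x` is the window `V_(j+1)` of a tree. -/
def WinV (x : List Bool) : Prop :=
  ∃ (T : BinaryTree Unit) (j : ℕ), x.length = 2 * T.numNodes ∧ j < T.numNodes ∧
    ∀ s, ml (ones x s) = ml ((PA T s).take j) + ml ((PB T s).drop (j + 1))

theorem PA_drop_hi (l r : BinaryTree Unit) (s i : ℕ) :
    (PA (nd l r) s).drop (l.numNodes + 1 + i) = (PA r (s + 2 * l.numNodes + 2)).drop i := by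
  rw [PA_nd]
  have h : (PA l (s + 1)).reverse ++ s :: PA r (s + 2 * l.numNodes + 2) =
      ((PA l (s + 1)).reverse ++ [s]) ++ PA r (s + 2 * l.numNodes + 2) := by simp
  have h2 : ((PA l (s + 1)).reverse ++ [s]).length = l.numNodes + 1 := by
    simp [PA_length]
  rw [h, ← h2, List.drop_append, Nat.add_sub_cancel_left, List.drop_eq_nil_of_le (by omega), List.nil_append]

theorem PA_take_hi (l r : BinaryTree Unit) (s i : ℕ) :
    (PA (nd l r) s).take (l.numNodes + 1 + i) =
      (PA l (s + 1)).reverse ++ s :: (PA r (s + 2 * l.numNodes + 2)).take i := by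
  rw [PA_nd]
  have h : (PA l (s + 1)).reverse ++ s :: PA r (s + 2 * l.numNodes + 2) =
      ((PA l (s + 1)).reverse ++ [s]) ++ PA r (s + 2 * l.numNodes + 2) := by simp
  have h2 : ((PA l (s + 1)).reverse ++ [s]).length = l.numNodes + 1 := by
    simp [PA_length]
  rw [h, ← h2, List.take_append, Nat.add_sub_cancel_left, List.take_of_length_le (by omega)]
  simp

theorem PB_drop_hi (l r : BinaryTree Unit) (s i : ℕ) :
    (PB (nd l r) s).drop (l.numNodes + 1 + i) = (PB r (s + 2 * l.numNodes + 2)).drop i := by
  rw [PB_nd]
  have h : (s + 2 * l.numNodes + 1) :: ((PB l (s + 1)).reverse ++ PB r (s + 2 * l.numNodes + 2)) =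
      ((s + 2 * l.numNodes + 1) :: (PB l (s + 1)).reverse) ++ PB r (s + 2 * l.numNodes + 2) := by simp
  have h2 : ((s + 2 * l.numNodes + 1) :: (PB l (s + 1)).reverse).length = l.numNodes + 1 := by
    simp [PB_length]
  rw [h, ← h2, List.drop_append, Nat.add_sub_cancel_left, List.drop_eq_nil_of_le (by omega), List.nil_append]

theorem PB_take_hi (l r : BinaryTree Unit) (s i : ℕ) :
    (PB (nd l r) s).take (l.numNodes + 1 + i) =
      (s + 2 * l.numNodes + 1) :: ((PB l (s + 1)).reverse ++ (PB r (s + 2 * l.numNodes + 2)).take i) := by
  rw [PB_nd]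
  have h : (s + 2 * l.numNodes + 1) :: ((PB l (s + 1)).reverse ++ PB r (s + 2 * l.numNodes + 2)) =
      ((s + 2 * l.numNodes + 1) :: (PB l (s + 1)).reverse) ++ PB r (s + 2 * l.numNodes + 2) := by simp
  have h2 : ((s + 2 * l.numNodes + 1) :: (PB l (s + 1)).reverse).length = l.numNodes + 1 := by
    simp [PB_length]
  rw [h, ← h2, List.take_append, Nat.add_sub_cancel_left, List.take_of_length_le (by omega)]
  simp

/-- `drop (a - i)` of a reversed list of length `a`. -/
theorem drop_rev {l : List ℕ} {a i : ℕ} (hl : l.length = a) (hi : i ≤ a) :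
    l.reverse.drop (a - i) = (l.take i).reverse := by
  rw [List.drop_reverse, hl, show a - (a - i) = i by omega]

theorem take_rev {l : List ℕ} {a i : ℕ} (hl : l.length = a) (hi : i ≤ a) :
    l.reverse.take (a - i) = (l.drop i).reverse := by
  rw [List.take_reverse, hl, show a - (a - i) = i by omega]

theorem PA_drop_lo (l r : BinaryTree Unit) (s i : ℕ) (hi : i ≤ l.numNodes) :
    (PA (nd l r) s).drop (l.numNodes - i) =
      ((PA l (s + 1)).take i).reverse ++ s :: PA r (s + 2 * l.numNodes + 2) := by
  rw [PA_nd, List.drop_append, List.length_reverse, PA_length, show l.numNodes - i - l.numNodes = 0 by omega,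
    List.drop_zero, drop_rev (PA_length l (s + 1)) hi]

theorem PA_take_lo (l r : BinaryTree Unit) (s i : ℕ) (hi : i ≤ l.numNodes) :
    (PA (nd l r) s).take (l.numNodes - i) = ((PA l (s + 1)).drop i).reverse := by
  rw [PA_nd, List.take_append, List.length_reverse, PA_length, show l.numNodes - i - l.numNodes = 0 by omega,
    List.take_zero, List.append_nil, take_rev (PA_length l (s + 1)) hi]

theorem PB_drop_lo (l r : BinaryTree Unit) (s i : ℕ) (hi : i ≤ l.numNodes) :
    (PB (nd l r) s).drop (l.numNodes - i + 1) =
      ((PB l (s + 1)).take i).reverse ++ PB r (s + 2 * l.numNodes + 2) := by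
  rw [PB_nd, List.drop_succ_cons, List.drop_append, List.length_reverse, PB_length,
    show l.numNodes - i - l.numNodes = 0 by omega,
    List.drop_zero, drop_rev (PB_length l (s + 1)) hi]

theorem PB_take_lo (l r : BinaryTree Unit) (s i : ℕ) (hi : i ≤ l.numNodes) :
    (PB (nd l r) s).take (l.numNodes - i + 1) =
      (s + 2 * l.numNodes + 1) :: ((PB l (s + 1)).drop i).reverse := by
  rw [PB_nd, List.take_succ_cons, List.take_append, List.length_reverse, PB_length,
    show l.numNodes - i - l.numNodes = 0 by omega,
    List.take_zero, List.append_nil, take_rev (PB_length l (s + 1)) hi]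

theorem main_claim : ∀ (m : ℕ) (x : List Bool), x.length ≤ m →
    (x.count true = x.count false → WinW x) ∧ (x.count true + 2 = x.count false → WinV x) := by
  intro m
  induction m with
  | zero =>
    intro x hx
    have : x = [] := List.eq_nil_of_length_eq_zero (by omega)
    subst this
    refine ⟨fun _ => ⟨BinaryTree.nil, 0, rfl, le_refl _, fun s => rfl⟩, fun h => ?_⟩
    simp at h
  | succ m ih =>
    intro x hx
    cases x with
    | nil =>
      refine ⟨fun _ => ⟨BinaryTree.nil, 0, rfl, le_refl _, fun s => rfl⟩, fun h => ?_⟩
      simp at h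
    | cons b x =>
      rw [List.length_cons] at hx
      cases b
      · -- the word starts with `0`
        rw [List.count_cons_self, List.count_cons_of_ne (by decide)]
        refine ⟨fun h => ?_, fun h => ?_⟩
        · obtain ⟨u, y, rfl, hu⟩ := first_above x.length x (le_refl _) (by omega)
          have hub := hu.bal
          rw [List.count_append, List.count_append, List.count_cons_self, List.count_cons_of_ne (by decide)] at h
          rw [List.length_append, List.length_cons] at hx
          obtain ⟨r, i, hr, hi, hW⟩ := (ih y (by omega)).1 (by omega)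
          obtain ⟨l, hl, hN⟩ := hu.claim
          refine ⟨nd l r, l.numNodes + 1 + i, ?_, ?_, ?_⟩
          · rw [nd_num, List.length_cons, List.length_append, List.length_cons]; omega
          · rw [nd_num]; omega
          · intro s
            rw [PA_drop_hi, PB_take_hi, ml_ones_false, ml_ones_app, ml_ones_true, ml_cons, ml_append, ml_reverse,
              hN, hW, hl, show s + 1 + 2 * l.numNodes + 1 = s + 2 * l.numNodes + 2 by omega,
              show s + 1 + 2 * l.numNodes = s + 2 * l.numNodes + 1 by omega]
            abel
        · rcases zn_or x with ⟨i, hi⟩ | ⟨Y, p, hp, rfl⟩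
          · have := hi.total
            omega
          · have hpb := hp.bal
            rw [List.count_append, List.count_append, List.count_cons_self, List.count_cons_of_ne (by decide)] at h
            rw [List.length_append, List.length_cons] at hx
            obtain ⟨l, i, hl, hi, hW⟩ := (ih Y (by omega)).1 (by omega)
            obtain ⟨r, hr, hN⟩ := hp.claim
            refine ⟨nd l r, l.numNodes - i, ?_, ?_, ?_⟩
            · rw [nd_num, List.length_cons, List.length_append, List.length_cons]; omega
            · rw [nd_num]; omega
            · intro s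
              rw [PA_take_lo l r s i hi, PB_drop_lo l r s i hi, ml_ones_false, ml_ones_app, ml_ones_false,
                ml_append, ml_reverse, ml_reverse, hN, hW, hl,
                show s + 1 + 2 * l.numNodes + 1 = s + 2 * l.numNodes + 2 by omega]
              abel
      · -- the word starts with `1`
        rw [List.count_cons_self, List.count_cons_of_ne (by decide)]
        refine ⟨fun h => ?_, fun h => ?_⟩
        · rcases zd_or x with ⟨i, hi⟩ | ⟨Z, p, hp, rfl⟩
          · have hi1 := hi.total
            have : i = 1 := by omega
            subst this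
            cases hi with
            | step _ q y hq hy =>
              cases hy with
              | base _ hy =>
                obtain ⟨T, hT, hT'⟩ := (DW.cons q y hq hy).claim
                exact ⟨T, 0, hT, Nat.zero_le _, fun s => by
                  rw [hT', List.drop_zero, List.take_zero, ml_nil, add_zero]⟩
          · have hpb := hp.bal
            rw [List.count_append, List.count_append, List.count_cons_self, List.count_cons_of_ne (by decide)] at h
            rw [List.length_append, List.length_cons] at hx
            obtain ⟨l, i, hl, hi, hV⟩ := (ih Z (by omega)).2 (by omega)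
            obtain ⟨r, hr, hD⟩ := hp.claim
            have e1 : l.numNodes - i = l.numNodes - (i + 1) + 1 := by omega
            refine ⟨nd l r, l.numNodes - i, ?_, ?_, ?_⟩
            · rw [nd_num, List.length_cons, List.length_append, List.length_cons]; omega
            · rw [nd_num]; omega
            · intro s
              rw [PA_drop_lo l r s i (by omega), e1, PB_take_lo l r s (i + 1) (by omega), ml_ones_true,
                ml_ones_app, ml_ones_true, ml_append, ml_reverse, ml_cons, ml_cons, ml_reverse, hD, hV, hl,
                show s + 1 + 2 * l.numNodes + 1 = s + 2 * l.numNodes + 2 by omega,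
                show s + 1 + 2 * l.numNodes = s + 2 * l.numNodes + 1 by omega]
              abel
        · obtain ⟨u, y, rfl, hu⟩ := first_below x.length x (le_refl _) (by omega)
          have hub := hu.bal
          rw [List.count_append, List.count_append, List.count_cons_self, List.count_cons_of_ne (by decide)] at h
          rw [List.length_append, List.length_cons] at hx
          obtain ⟨r, i, hr, hi, hV⟩ := (ih y (by omega)).2 (by omega)
          obtain ⟨l, hl, hD⟩ := hu.claim
          refine ⟨nd l r, l.numNodes + 1 + i, ?_, ?_, ?_⟩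
          · rw [nd_num, List.length_cons, List.length_append, List.length_cons]; omega
          · rw [nd_num]; omega
          · intro s
            rw [PA_take_hi, Nat.add_assoc (l.numNodes + 1) i 1, PB_drop_hi, ml_ones_true, ml_ones_app,
              ml_ones_false, ml_append, ml_reverse, ml_cons, hD, hV, hl,
              show s + 1 + 2 * l.numNodes + 1 = s + 2 * l.numNodes + 2 by omega]
            abel

end WrR
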