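import Pool.Agent.H.MP_4bad09_co.R2

set_option autoImplicit false

/-!
# The cyclic list of a tree and its windows
-/

namespace WrR

open BinaryTree

/-- The cyclic ordering of `0, …, 2 k` given by a tree with `k` nodes. -/
def cl (T : BinaryTree Unit) : List ℕ := PA T 0 ++ (PB T 0 ++ [2 * T.numNodes])

theorem cl_length (T : BinaryTree Unit) : (cl T).length = 2 * T.numNodes + 1 := by
  unfold cl
  simp only [List.length_append, PA_length, PB_length, List.length_cons, List.length_nil]
  omega

theorem ml_AB (T : BinaryTree Unit) : ∀ s, ml (PA T s) + ml (PB T s) = ml (List.range' s (2 * T.numNodes)) := by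
  induction T with
  | nil => intro s; rfl
  | node u l r ihl ihr =>
    intro s
    have h1 : List.range' s (2 * (BinaryTree.node u l r).numNodes) =
        s :: (List.range' (s + 1) (2 * l.numNodes) ++
          (s + 2 * l.numNodes + 1) :: List.range' (s + 2 * l.numNodes + 2) (2 * r.numNodes)) := by
      rw [show 2 * (BinaryTree.node u l r).numNodes = (2 * l.numNodes + (2 * r.numNodes + 1)) + 1 by
        simp only [BinaryTree.numNodes]; omega]
      rw [List.range'_succ, ← List.range'_append_1, List.range'_succ]
      rw [show s + 1 + 2 * l.numNodes = s + 2 * l.numNodes + 1 by omega]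
    rw [h1, ml_cons, ml_append, ml_cons, ← ihl, ← ihr]
    simp only [PA, PB]
    rw [ml_append, ml_reverse, ml_cons, ml_cons, ml_append, ml_reverse]
    abel

theorem ml_cl (T : BinaryTree Unit) : ml (cl T) = ml (List.range (2 * T.numNodes + 1)) := by
  unfold cl
  rw [ml_append, ml_append, ← add_assoc, ml_AB, List.range_succ, ml_append, List.range_eq_range']

theorem cl_perm (T : BinaryTree Unit) : (cl T).Perm (List.range (2 * T.numNodes + 1)) :=
  Multiset.coe_eq_coe.mp (ml_cl T)

theorem cl_nodup (T : BinaryTree Unit) : (cl T).Nodup :=
  (cl_perm T).nodup_iff.mpr List.nodup_range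

theorem cl_mem (T : BinaryTree Unit) (i : ℕ) : i ∈ cl T ↔ i < 2 * T.numNodes + 1 := by
  rw [(cl_perm T).mem_iff, List.mem_range]

theorem win_low (T : BinaryTree Unit) (j : ℕ) (hj : j ≤ T.numNodes) :
    ((cl T).rotate j).take T.numNodes = (PA T 0).drop j ++ (PB T 0).take j := by
  have hA := PA_length T 0
  have hB := PB_length T 0
  rw [List.rotate_eq_drop_append_take (by rw [cl_length]; omega)]
  unfold cl
  rw [List.drop_append, hA, show j - T.numNodes = 0 by omega, List.drop_zero, List.append_assoc,
    List.take_append, List.length_drop, hA, show T.numNodes - (T.numNodes - j) = j by omega,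
    List.take_of_length_le (by rw [List.length_drop]; omega), List.append_assoc, List.take_append, hB,
    show j - T.numNodes = 0 by omega, List.take_zero, List.append_nil]

theorem win_high (T : BinaryTree Unit) (j : ℕ) (hj : j < T.numNodes) :
    ((cl T).rotate (T.numNodes + j + 1)).take T.numNodes =
      (PB T 0).drop (j + 1) ++ (2 * T.numNodes) :: (PA T 0).take j := by
  have hA := PA_length T 0
  have hB := PB_length T 0
  rw [List.rotate_eq_drop_append_take (by rw [cl_length]; omega)]
  unfold cl
  rw [List.drop_append, hA, List.drop_eq_nil_of_le (by omega), List.nil_append,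
    show T.numNodes + j + 1 - T.numNodes = j + 1 by omega, List.drop_append, hB,
    show j + 1 - T.numNodes = 0 by omega, List.drop_zero, List.append_assoc, List.take_append,
    List.length_drop, hB, show T.numNodes - (T.numNodes - (j + 1)) = j + 1 by omega,
    List.take_of_length_le (by rw [List.length_drop]; omega), List.singleton_append, List.take_succ_cons,
    List.take_append, hA, show T.numNodes + j + 1 - T.numNodes = j + 1 by omega, List.take_append, List.take_take,
    List.length_take, hA, show min j (T.numNodes + j + 1) = j by omega,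
    show j - min (T.numNodes + j + 1) T.numNodes = 0 by omega, List.take_zero, List.append_nil]

theorem ones_map (f : ℕ → Bool) : ∀ (m s : ℕ), ones ((List.range' s m).map f) s = (List.range' s m).filter f := by
  intro m
  induction m with
  | zero => intro s; rfl
  | succ m ih =>
    intro s
    rw [List.range'_succ, List.map_cons, List.filter_cons]
    cases h : f s
    · simp only [ones, ih, Bool.false_eq_true, if_false]
    · simp only [ones, ih, if_true]

/-- The word of a set. -/
def wd (S : Finset ℕ) (m : ℕ) : List Bool := (List.range' 0 m).map (fun i => decide (i ∈ S))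

theorem wd_length (S : Finset ℕ) (m : ℕ) : (wd S m).length = m := by
  simp [wd]

theorem ml_wd (S : Finset ℕ) (m : ℕ) : ml (ones (wd S m) 0) = ((Finset.range m).filter (fun i => i ∈ S)).val := by
  unfold wd
  rw [ones_map]
  rw [← List.range_eq_range']
  rfl

theorem count_wd (S : Finset ℕ) (m : ℕ) : (wd S m).count true = ((Finset.range m).filter (fun i => i ∈ S)).card := by
  rw [← ones_length (wd S m) 0, Finset.card_def, ← ml_wd]
  rfl

/-- Every set of size `k` of points below `2 k + 1` is a window of the cyclic list of a tree with `k` nodes. -/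
theorem cover (k : ℕ) (S : Finset ℕ) (hS : S ⊆ Finset.range (2 * k + 1)) (hc : S.card = k) :
    ∃ T : BinaryTree Unit, T.numNodes = k ∧ ∃ t, t < 2 * k + 1 ∧ ml (((cl T).rotate t).take k) = S.val := by
  have hl := wd_length S (2 * k)
  have hcount := len_count (wd S (2 * k))
  have hct := count_wd S (2 * k)
  by_cases hv : 2 * k ∈ S
  · have hF : (Finset.range (2 * k)).filter (fun i => i ∈ S) = S.erase (2 * k) := by
      ext i
      rw [Finset.mem_filter, Finset.mem_range, Finset.mem_erase]
      constructor
      · rintro ⟨h1, h2⟩
        exact ⟨by omega, h2⟩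
      · rintro ⟨h1, h2⟩
        have := Finset.mem_range.mp (hS h2)
        exact ⟨by omega, h2⟩
    rw [hF, Finset.card_erase_of_mem hv, hc] at hct
    have hk : 0 < k := by
      rw [← hc]
      exact Finset.card_pos.mpr ⟨_, hv⟩
    obtain ⟨T, j, hT, hj, hV⟩ := (main_claim _ (wd S (2 * k)) (le_refl _)).2 (by omega)
    have hTk : T.numNodes = k := by omega
    subst hTk
    refine ⟨T, rfl, T.numNodes + j + 1, by omega, ?_⟩
    rw [win_high T j hj, ml_append, ml_cons]
    have h0 := hV 0
    rw [ml_wd, hF, Finset.erase_val] at h0
    have h1 : S.val = {2 * T.numNodes} + S.val.erase (2 * T.numNodes) := by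
      rw [Multiset.singleton_add, Multiset.cons_erase (by exact hv)]
    rw [h1, h0]
    abel
  · have hF : (Finset.range (2 * k)).filter (fun i => i ∈ S) = S := by
      ext i
      rw [Finset.mem_filter, Finset.mem_range]
      constructor
      · rintro ⟨h1, h2⟩
        exact h2
      · intro h2
        have h3 := Finset.mem_range.mp (hS h2)
        have h4 : i ≠ 2 * k := fun h => hv (h ▸ h2)
        exact ⟨by omega, h2⟩
    rw [hF, hc] at hct
    obtain ⟨T, j, hT, hj, hV⟩ := (main_claim _ (wd S (2 * k)) (le_refl _)).1 (by omega)
    have hTk : T.numNodes = k := by omega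
    subst hTk
    refine ⟨T, rfl, j, by omega, ?_⟩
    rw [win_low T j hj, ml_append, ← hV 0, ml_wd, hF]

end WrR
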