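import Pool.Agent.H.MP_4bad09_co.R3

set_option autoImplicit false

/-!
# Permutations, complements and the count
-/

namespace WrR

open BinaryTree

theorem cl_getElem_lt {T : BinaryTree Unit} {n : ℕ} (hT : 2 * T.numNodes + 1 = n) (i : Fin n) :
    (cl T)[i.val]'(by rw [cl_length]; omega) < n := by
  have := (cl_mem T ((cl T)[i.val]'(by rw [cl_length]; omega))).mp (List.getElem_mem _)
  omega

def sgF (T : BinaryTree Unit) (n : ℕ) (hT : 2 * T.numNodes + 1 = n) (i : Fin n) : Fin n :=
  ⟨(cl T)[i.val]'(by rw [cl_length]; omega), cl_getElem_lt hT i⟩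

theorem sgF_inj (T : BinaryTree Unit) (n : ℕ) (hT : 2 * T.numNodes + 1 = n) :
    Function.Injective (sgF T n hT) := by
  intro i j h
  have h1 : (cl T)[i.val]'(by rw [cl_length]; omega) = (cl T)[j.val]'(by rw [cl_length]; omega) :=
    congrArg Fin.val h
  exact Fin.ext ((cl_nodup T).getElem_inj_iff.mp h1)

/-- The permutation of a tree. -/
noncomputable def sg (T : BinaryTree Unit) (n : ℕ) (hT : 2 * T.numNodes + 1 = n) : Equiv.Perm (Fin n) :=
  Equiv.ofBijective (sgF T n hT) (Finite.injective_iff_bijective.mp (sgF_inj T n hT))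

theorem sg_val (T : BinaryTree Unit) (n : ℕ) (hT : 2 * T.numNodes + 1 = n) (i : Fin n) :
    (sg T n hT i).val = (cl T)[i.val]'(by rw [cl_length]; omega) := rfl

/-- The window of length `k` starting at `t`. -/
def win {n : ℕ} (hn : 0 < n) (k : ℕ) (σ : Equiv.Perm (Fin n)) (t : ℕ) : Finset (Fin n) :=
  (Finset.univ : Finset (Fin k)).image (fun j => σ ⟨(t + j.val) % n, Nat.mod_lt _ hn⟩)

theorem win_mod {n : ℕ} (hn : 0 < n) (k : ℕ) (σ : Equiv.Perm (Fin n)) {t u : ℕ} (h : t ≡ u [MOD n]) :
    win hn k σ t = win hn k σ u := by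
  unfold win
  refine Finset.image_congr ?_
  intro j _
  have : (t + j.val) % n = (u + j.val) % n := Nat.ModEq.add_right j.val h
  simp only [this]

theorem win_card_le {n : ℕ} (hn : 0 < n) (k : ℕ) (σ : Equiv.Perm (Fin n)) (t : ℕ) : (win hn k σ t).card ≤ k := by
  unfold win
  refine Finset.card_image_le.trans ?_
  simp

theorem win_cover {n : ℕ} (hn : 0 < n) (k l : ℕ) (hkl : k + l = n) (σ : Equiv.Perm (Fin n)) (t : ℕ) (x : Fin n) :
    x ∈ win hn k σ t ∨ x ∈ win hn l σ (t + k) := by
  obtain ⟨q, rfl⟩ := σ.surjective x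
  have h : ∃ j, j < n ∧ (t + j) % n = q.val := by
    refine ⟨(q.val + (n - t % n)) % n, Nat.mod_lt _ hn, ?_⟩
    have h1 : t % n < n := Nat.mod_lt _ hn
    have h2 : (t + (q.val + (n - t % n)) % n) % n = (t % n + (q.val + (n - t % n))) % n := by
      rw [Nat.add_mod_mod, Nat.mod_add_mod]
    rw [h2, show t % n + (q.val + (n - t % n)) = q.val + n by omega, Nat.add_mod_right,
      Nat.mod_eq_of_lt q.isLt]
  obtain ⟨j, hj, hq⟩ := h
  unfold win
  by_cases hjk : j < k
  · left
    rw [Finset.mem_image]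
    exact ⟨⟨j, hjk⟩, Finset.mem_univ _, congrArg σ (Fin.ext hq)⟩
  · right
    rw [Finset.mem_image]
    refine ⟨⟨j - k, by omega⟩, Finset.mem_univ _, congrArg σ (Fin.ext ?_)⟩
    show (t + k + (j - k)) % n = q.val
    rw [show t + k + (j - k) = t + j by omega, hq]

theorem win_compl {n : ℕ} (hn : 0 < n) (k l : ℕ) (hkl : k + l = n) (σ : Equiv.Perm (Fin n)) (t : ℕ)
    (s : Finset (Fin n)) (hs : s.card = l) (h : win hn k σ t = sᶜ) : win hn l σ (t + k) = s := by
  have h1 : s ⊆ win hn l σ (t + k) := by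
    intro x hx
    rcases win_cover hn k l hkl σ t x with h2 | h2
    · rw [h, Finset.mem_compl] at h2
      exact absurd hx h2
    · exact h2
  exact (Finset.eq_of_subset_of_card_le h1 (by rw [hs]; exact win_card_le hn l σ (t + k))).symm

theorem win_of_ml (T : BinaryTree Unit) (n : ℕ) (hn : 0 < n) (hT : 2 * T.numNodes + 1 = n) (k t : ℕ) (hk : k ≤ n)
    (s : Finset (Fin n)) (h : ml (((cl T).rotate t).take k) = (s.map Fin.valEmbedding).val) :
    win hn k (sg T n hT) t = s := by
  have hlen : (cl T).length = n := by rw [cl_length, hT]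
  ext x
  have h1 : x ∈ s ↔ x.val ∈ ((cl T).rotate t).take k := by
    have h2 : x.val ∈ ml (((cl T).rotate t).take k) ↔ x.val ∈ ((cl T).rotate t).take k := Iff.rfl
    rw [← h2, h]
    show x ∈ s ↔ x.val ∈ s.map Fin.valEmbedding
    rw [Finset.mem_map]
    constructor
    · intro hx
      exact ⟨x, hx, rfl⟩
    · rintro ⟨y, hy, hyx⟩
      have : y = x := Fin.ext hyx
      exact this ▸ hy
  rw [h1, List.mem_take_iff_getElem]
  unfold win
  rw [Finset.mem_image]
  constructor
  · rintro ⟨j, _, rfl⟩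
    have hj := j.isLt
    refine ⟨j.val, by rw [List.length_rotate, hlen]; omega, ?_⟩
    rw [List.getElem_rotate, sg_val]
    congr 1
    rw [hlen, Nat.add_comm]
  · rintro ⟨i, hi, hx⟩
    refine ⟨⟨i, by omega⟩, Finset.mem_univ _, Fin.ext ?_⟩
    rw [← hx, List.getElem_rotate, sg_val]
    congr 1
    show (t + i) % n = (i + t) % (cl T).length
    rw [hlen, Nat.add_comm]

theorem unique_of_cover {ι : Type} [Fintype ι] {n k : ℕ} (F : ι → Finset (Fin n))
    (hcount : Fintype.card ι = n.choose k) (hcov : ∀ s : Finset (Fin n), s.card = k → ∃ p, F p = s) :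
    ∀ s : Finset (Fin n), s.card = k → ∃! p, F p = s := by
  classical
  have h1 : (Finset.univ : Finset (Fin n)).powersetCard k ⊆ (Finset.univ : Finset ι).image F := by
    intro s hs
    obtain ⟨p, hp⟩ := hcov s (Finset.mem_powersetCard.mp hs).2
    exact Finset.mem_image.mpr ⟨p, Finset.mem_univ _, hp⟩
  have h2 : ((Finset.univ : Finset (Fin n)).powersetCard k).card = Fintype.card ι := by
    rw [Finset.card_powersetCard, Finset.card_univ, Fintype.card_fin, hcount]
  have h3 : ((Finset.univ : Finset ι).image F).card = (Finset.univ : Finset ι).card := by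
    refine le_antisymm Finset.card_image_le ?_
    rw [Finset.card_univ, ← h2]
    exact Finset.card_le_card h1
  have h4 := Finset.card_image_iff.mp h3
  intro s hs
  obtain ⟨p, hp⟩ := hcov s hs
  refine ⟨p, hp, ?_⟩
  intro q hq
  exact h4 (Finset.mem_coe.mpr (Finset.mem_univ q)) (Finset.mem_coe.mpr (Finset.mem_univ p)) (hq.trans hp.symm)

theorem catalan_mul (k : ℕ) : catalan k * (2 * k + 1) = (2 * k + 1).choose k := by
  have h1 := succ_mul_catalan_eq_centralBinom k
  have h2 : (2 * k + 1) * (2 * k).choose k = (2 * k + 1).choose (k + 1) * (k + 1) := Nat.add_one_mul_choose_eq (2 * k) k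
  have h3 : (2 * k + 1).choose (k + 1) = (2 * k + 1).choose k := by
    rw [← Nat.choose_symm (show k + 1 ≤ 2 * k + 1 by omega)]
    congr 1
    omega
  rw [h3] at h2
  rw [Nat.centralBinom_eq_two_mul_choose] at h1
  rw [← h1] at h2
  have h4 : (k + 1) * (catalan k * (2 * k + 1)) = (k + 1) * ((2 * k + 1).choose k) := by
    rw [Nat.mul_comm (k + 1) ((2 * k + 1).choose k), ← h2]
    ring
  exact Nat.eq_of_mul_eq_mul_left (Nat.succ_pos k) h4

/-- The cyclic orderings, one for each tree. -/
noncomputable def sgs (k n : ℕ) (hn : n = 2 * k + 1) (i : Fin (treesOfNumNodesEq k).card) : Equiv.Perm (Fin n) :=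
  sg ((treesOfNumNodesEq k).equivFin.symm i).val n
    (by rw [mem_treesOfNumNodesEq.mp ((treesOfNumNodesEq k).equivFin.symm i).property, hn])

theorem cover_fin (k n : ℕ) (h0 : 0 < n) (hn : n = 2 * k + 1) (s : Finset (Fin n)) (hs : s.card = k) :
    ∃ (i : Fin (treesOfNumNodesEq k).card) (t : ℕ), t < n ∧ win h0 k (sgs k n hn i) t = s := by
  obtain ⟨T, hT, t, ht, hw⟩ := cover k (s.map Fin.valEmbedding) (by
    intro i hi
    rw [Finset.mem_map] at hi
    obtain ⟨y, _, rfl⟩ := hi
    rw [Finset.mem_range, ← hn]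
    exact y.isLt) (by rw [Finset.card_map, hs])
  refine ⟨(treesOfNumNodesEq k).equivFin ⟨T, mem_treesOfNumNodesEq.mpr hT⟩, t, by omega, ?_⟩
  unfold sgs
  have := win_of_ml T n h0 (by omega) k t (by omega) s hw
  simpa using this

end WrR
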