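import Mathlib

set_option autoImplicit false

/-!
# Decompositions of the triples of a finite set into tight Hamilton cycles (MP_4bad09_co, helper11)

Definitions.  A cyclic order of the `n` points of `V` is an `n`-periodic sequence `f : ℕ → V` that takes
all values.  `TH V n`: `|V| = n` and there are `(n - 1)(n - 2)/6` cyclic orders such that every set of three
points is a window; there are `n (n-1)(n-2)/6` windows, so this means that the triples are partitioned into
the windows of these cyclic orders.  `THs V n s`: moreover for every point `v ≠ s` there is one of the cyclic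
orders, `c (g v)`, that begins with `v` and ends with `s` (so the `n - 1` cyclic orders `c (g v)` are distinct).
-/

namespace Wr

/-- A cyclic ordering of the `n` points of `V`, as an `n`-periodic sequence. -/
structure Cyc (V : Type) (n : ℕ) where
  f : ℕ → V
  per : ∀ t, f (t + n) = f t
  surj : ∀ v, ∃ t, f t = v

variable {V W : Type} {n : ℕ}

/-- `x, y, z` are consecutive in the cyclic order `c` -/
def Cyc.Win (c : Cyc V n) (x y z : V) : Prop :=
  ∃ t, c.f t = x ∧ c.f (t + 1) = y ∧ c.f (t + 2) = z

/-- `{x, y, z}` is a window of the cyclic order `c` -/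
def Cyc.Has (c : Cyc V n) (x y z : V) : Prop :=
  c.Win x y z ∨ c.Win x z y ∨ c.Win y x z ∨ c.Win y z x ∨ c.Win z x y ∨ c.Win z y x

/-- `x` and `y` are neighbours in the cyclic order `c` -/
def Cyc.Adj (c : Cyc V n) (x y : V) : Prop :=
  ∃ t, (c.f t = x ∧ c.f (t + 1) = y) ∨ (c.f t = y ∧ c.f (t + 1) = x)

/-- every set of three points is a window of one of the cyclic orders `c i` -/
def Covers {I : Type} (c : I → Cyc V n) : Prop :=
  ∀ x y z : V, x ≠ y → y ≠ z → x ≠ z → ∃ i, (c i).Has x y z

/-- the triples of `V` are partitioned into the windows of cyclic orders -/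
def TH (V : Type) (n : ℕ) : Prop :=
  Nat.card V = n ∧ ∃ (I : Type) (_ : Fintype I) (c : I → Cyc V n),
    6 * Fintype.card I = (n - 1) * (n - 2) ∧ Covers c

/-- `TH` with cyclic orders `c (g v)` that begin with `v` and end with `s` -/
def THs (V : Type) (n : ℕ) (s : V) : Prop :=
  Nat.card V = n ∧ ∃ (I : Type) (_ : Fintype I) (c : I → Cyc V n) (g : V → I),
    6 * Fintype.card I = (n - 1) * (n - 2) ∧ Covers c ∧
    ∀ v, v ≠ s → (c (g v)).f 0 = v ∧ (c (g v)).f (n - 1) = s

/-- the `t`-th letter of the word `l`, read periodically -/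
def cw {G : Type} [Zero G] (l : List G) (t : ℕ) : G := l.getD (t % l.length) 0

/-- insertion of three letters -/
def ins {G : Type} [AddCommGroup G] : List G → List G
  | a :: b :: r => a :: b :: (-(a + b)) :: a :: b :: r
  | l => l

/-- the word `0 … 0 1 0` of length `ℓ ≥ 2` -/
def ws (m ℓ : ℕ) : List (ZMod m) := List.replicate (ℓ - 2) 0 ++ [1, 0]

/-- the zigzag `0, 1, -1, 2, -2, …` -/
def zz (M k : ℕ) : ZMod M := if k % 2 = 0 then -((k / 2 : ℕ) : ZMod M) else (((k + 1) / 2 : ℕ) : ZMod M)

/-- the rows: `j + 0, j + 1, j - 1, …`, and then `none` -/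
def Dr (M : ℕ) (j : ZMod M) (k : ℕ) : Option (ZMod M) := if k < M then some (j + zz M k) else none

/-- The windows of the cycle `T` with the rows `D` (double strands) and `C` (single round), `m ∈ ZMod (2h+1)`;
`D 0 = C 0`, `D M = C M` is the special row. -/
structure IsT {Y : Type} {n : ℕ} (h M : ℕ) (D C : ℕ → Y) (m : ZMod (2 * h + 1))
    (c : Cyc (ZMod (2 * h + 1) × Y) n) : Prop where
  s1 : ∀ t k : ℕ, 1 ≤ t → t ≤ h → k + 1 < M →
    c.Win (m - 2 * t, D k) (m + 2 * t, D k) (m - 2 * t, D (k + 1))
  s2 : ∀ t k : ℕ, 1 ≤ t → t ≤ h → k + 1 < M →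
    c.Win (m + 2 * t, D k) (m - 2 * t, D (k + 1)) (m + 2 * t, D (k + 1))
  s3 : ∀ t : ℕ, 1 ≤ t → t ≤ h →
    c.Win (m - 2 * t, D (M - 1)) (m + 2 * t, D (M - 1)) (m + 2 * t, D M)
  s4 : ∀ t : ℕ, 1 ≤ t → t ≤ h →
    c.Win (m + 2 * t, D (M - 1)) (m + 2 * t, D M) (m + 2 - 2 * t, D M)
  s5 : ∀ t : ℕ, 1 ≤ t → t ≤ h →
    c.Win (m + 2 * t, D M) (m + 2 - 2 * t, D M) (m + 2 - 2 * t, D 0)
  s6 : ∀ t : ℕ, 1 ≤ t → t ≤ h →
    c.Win (m - 2 * t, D M) (m - 2 * t, D 0) (m + 2 * t, D 0)
  r1 : ∀ k : ℕ, k + 2 < M → c.Win (m, C k) (m, C (k + 1)) (m, C (k + 2))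
  r2 : c.Win (m, C (M - 2)) (m, C (M - 1)) (m + 1, C M)
  r3 : c.Win (m, C (M - 1)) (m + 1, C M) (m + 1, C 0)
  r4 : c.Win (m, C M) (m, C 0) (m, C 1)

/-! ## Checking explicit decompositions -/

/-- translation by `s`, fixing the points `≥ q` -/
def tr (q s x : ℕ) : ℕ := if x < q then (x + s) % q else x

/-- the translates of a cyclic order -/
def trs (q : ℕ) (l : List ℕ) : List (List ℕ) := (List.range q).map fun s => l.map (tr q s)

/-- the cyclic order `0, a_1, …, a_h, -a_h, …, -a_1` -/
def symc (q : ℕ) (l : List ℕ) : List ℕ := 0 :: (l ++ l.reverse.map (fun x => q - x))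

/-- the cyclic order `0, g, 2g, …` -/
def apc (q g : ℕ) : List ℕ := (List.range q).map fun i => i * g % q

/-- the number with the bits in `l` -/
def msk (l : List ℕ) : ℕ := l.foldr (fun x m => 2 ^ x ||| m) 0

/-- the number with the bits in the lists of `L` -/
def mskL (L : List (List ℕ)) : ℕ := L.foldr (fun l m => msk l ||| m) 0

/-- code of a set of three numbers below `n`: the sorted triple as an `n`-adic number -/
def code (n x y z : ℕ) : ℕ :=
  if x < y then
    if y < z then (x * n + y) * n + z else if x < z then (x * n + z) * n + y else (z * n + x) * n + y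
  else
    if x < z then (y * n + x) * n + z else if y < z then (y * n + z) * n + x else (z * n + y) * n + x

/-- codes of the windows of a sequence -/
def wc (n : ℕ) : List ℕ → List ℕ
  | x :: y :: z :: r => code n x y z :: wc n (y :: z :: r)
  | _ => []

/-- the codes of all triples, in lists -/
def allc (n : ℕ) : List (List ℕ) := (List.range (n * n)).map fun i =>
  if i / n < i % n then (List.range' (i % n + 1) (n - 1 - i % n)).map (fun z => i * n + z) else []

/-- the lists `L` are cyclic orders of `0, …, n-1`, their number is right and all triples are windows -/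
def chk (n : ℕ) (L : List (List ℕ)) : Bool :=
  L.all (fun l => l.length == n && msk l == 2 ^ n - 1) &&
    (6 * L.length == (n - 1) * (n - 2)) &&
    (mskL (L.map fun l => wc n (l ++ l.take 2)) == mskL (allc n))

/-- `0` and `v` are consecutive in `l` -/
def adjc (v : ℕ) : List ℕ → Bool
  | x :: y :: r => (x == 0 && y == v) || (x == v && y == 0) || adjc v (y :: r)
  | _ => false

/-- the list number `S_v` has the neighbours `0` and `v + 1`, for `v < n - 1`, and the `S_v` are distinct. -/
def chs (n : ℕ) (L : List (List ℕ)) (S : List ℕ) : Bool :=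
  (List.range (n - 1)).all (fun v => S.getD v 0 < L.length &&
    adjc (v + 1) (L.getD (S.getD v 0) [] ++ (L.getD (S.getD v 0) []).take 1)) &&
    decide (S.length = n - 1) && decide S.Nodup

/-- The format of the problem: the `k`-subsets of `n` points are partitioned into the wreaths of the cyclic
orders `σ i`. -/
def HasWreath (n k : ℕ) (hn : 0 < n) : Prop :=
  ∃ (m : ℕ) (σ : Fin m → Equiv.Perm (Fin n)),
    ∀ s : Finset (Fin n), s.card = k →
      ∃! p : Fin m × Fin (n / Nat.gcd n k),
        (Finset.univ : Finset (Fin k)).image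
          (fun j => σ p.1 ⟨(p.2.val * k + j.val) % n, Nat.mod_lt _ hn⟩) = s

end Wr
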