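import Pool.Agent.H.MP_4bad09_co.W0

set_option autoImplicit false

/-!
# Basic facts on cyclic orders (MP_4bad09_co, helper11)
-/

namespace Wr

variable {V W : Type} {n : ℕ}

theorem Cyc.Win.has {c : Cyc V n} {x y z : V} (h : c.Win x y z) : c.Has x y z := Or.inl h

theorem Cyc.Has.rot {c : Cyc V n} {x y z : V} (h : c.Has x y z) : c.Has y z x := by
  unfold Cyc.Has at *
  tauto

theorem Cyc.Has.swap {c : Cyc V n} {x y z : V} (h : c.Has x y z) : c.Has y x z := by
  unfold Cyc.Has at *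
  tauto

theorem Cyc.Win.adj {c : Cyc V n} {x y z : V} (h : c.Win x y z) : c.Adj x y := by
  obtain ⟨t, h1, h2, _⟩ := h
  exact ⟨t, Or.inl ⟨h1, h2⟩⟩

theorem Cyc.Win.adj' {c : Cyc V n} {x y z : V} (h : c.Win x y z) : c.Adj y z := by
  obtain ⟨t, _, h2, h3⟩ := h
  exact ⟨t + 1, Or.inl ⟨h2, h3⟩⟩

theorem Cyc.Adj.symm {c : Cyc V n} {x y : V} (h : c.Adj x y) : c.Adj y x := by
  obtain ⟨t, h⟩ := h
  exact ⟨t, h.symm⟩

theorem Cyc.per_mul (c : Cyc V n) (t k : ℕ) : c.f (t + k * n) = c.f t := by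
  induction k with
  | zero => rw [Nat.zero_mul, Nat.add_zero]
  | succ k ih => rw [Nat.succ_mul, ← Nat.add_assoc, c.per, ih]

theorem Cyc.f_mod (c : Cyc V n) (t : ℕ) : c.f (t % n) = c.f t := by
  conv_rhs => rw [← Nat.mod_add_div' t n]
  rw [c.per_mul]

theorem W1_zmod (c : Cyc V n) {a b : ℕ} (h : (a : ZMod n) = (b : ZMod n)) : c.f a = c.f b := by
  have h1 : a % n = b % n := (ZMod.natCast_eq_natCast_iff a b n).1 h
  rw [← c.f_mod a, h1, c.f_mod]

theorem Cyc.exists_lt (c : Cyc V n) (hn : 0 < n) (v : V) : ∃ t < n, c.f t = v := by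
  obtain ⟨t, rfl⟩ := c.surj v
  exact ⟨t % n, Nat.mod_lt _ hn, c.f_mod t⟩

/-- Proof. `t ↦ c.f t` from `Fin n` onto `V` (`exists_lt`) is injective as `|V| = n`. -/
theorem Cyc.eq_iff (c : Cyc V n) (hn : 0 < n) (hV : Nat.card V = n) (t u : ℕ) :
    c.f t = c.f u ↔ t % n = u % n := by
  constructor
  · intro h
    haveI : Finite V := Nat.finite_of_card_ne_zero (by omega)
    haveI : Fintype V := Fintype.ofFinite V
    have hs : Function.Surjective (fun i : Fin n => c.f i) := by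
      intro v
      obtain ⟨t, ht, h⟩ := c.exists_lt hn v
      exact ⟨⟨t, ht⟩, h⟩
    have hb : Function.Bijective (fun i : Fin n => c.f i) := by
      rw [Fintype.bijective_iff_surjective_and_card]
      refine ⟨hs, ?_⟩
      rw [Fintype.card_fin, ← Nat.card_eq_fintype_card, hV]
    have h1 : (fun i : Fin n => c.f i) ⟨t % n, Nat.mod_lt _ hn⟩ =
        (fun i : Fin n => c.f i) ⟨u % n, Nat.mod_lt _ hn⟩ := by
      change c.f (t % n) = c.f (u % n)
      rw [c.f_mod, c.f_mod, h]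
    exact congrArg Fin.val (hb.1 h1)
  · intro h
    rw [← c.f_mod t, h, c.f_mod]

/-- the successor of a point is unique. Proof. `Cyc.eq_iff`, `Cyc.f_mod`. -/
theorem Cyc.succ_unique (c : Cyc V n) (hn : 0 < n) (hV : Nat.card V = n) {x y y' z z' : V}
    (h : c.Win x y z) (h' : c.Win x y' z') : y = y' := by
  obtain ⟨t, h1, h2, _⟩ := h
  obtain ⟨u, h3, h4, _⟩ := h'
  have h5 := (c.eq_iff hn hV t u).1 (h1.trans h3.symm)
  rw [← h2, ← h4, c.eq_iff hn hV, Nat.add_mod, h5, ← Nat.add_mod]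

/-- transport of a cyclic order -/
def Cyc.map (c : Cyc V n) (e : V ≃ W) : Cyc W n where
  f t := e (c.f t)
  per t := by rw [c.per]
  surj w := by
    obtain ⟨t, ht⟩ := c.surj (e.symm w)
    exact ⟨t, by rw [ht, e.apply_symm_apply]⟩

theorem Cyc.map_win {c : Cyc V n} (e : V ≃ W) {x y z : V} (h : c.Win x y z) :
    (c.map e).Win (e x) (e y) (e z) := by
  obtain ⟨t, h1, h2, h3⟩ := h
  exact ⟨t, congrArg e h1, congrArg e h2, congrArg e h3⟩

theorem Cyc.map_has {c : Cyc V n} (e : V ≃ W) {x y z : V} (h : c.Has x y z) :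
    (c.map e).Has (e x) (e y) (e z) := by
  rcases h with h | h | h | h | h | h
  · exact Or.inl (Cyc.map_win e h)
  · exact Or.inr (Or.inl (Cyc.map_win e h))
  · exact Or.inr (Or.inr (Or.inl (Cyc.map_win e h)))
  · exact Or.inr (Or.inr (Or.inr (Or.inl (Cyc.map_win e h))))
  · exact Or.inr (Or.inr (Or.inr (Or.inr (Or.inl (Cyc.map_win e h)))))
  · exact Or.inr (Or.inr (Or.inr (Or.inr (Or.inr (Cyc.map_win e h)))))

theorem W1_covers {I : Type} {c : I → Cyc V n} (h : Covers c) (e : V ≃ W) :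
    Covers fun i => (c i).map e := by
  intro x y z hxy hyz hxz
  obtain ⟨i, hi⟩ := h (e.symm x) (e.symm y) (e.symm z) (fun h => hxy (e.symm.injective h))
    (fun h => hyz (e.symm.injective h)) (fun h => hxz (e.symm.injective h))
  refine ⟨i, ?_⟩
  have h1 := Cyc.map_has e hi
  rwa [e.apply_symm_apply, e.apply_symm_apply, e.apply_symm_apply] at h1

theorem W1_equiv (hV : Nat.card V = n) (hn : n ≠ 0) (hW : Nat.card W = n) : Nonempty (V ≃ W) := by
  haveI : Finite V := Nat.finite_of_card_ne_zero (by omega)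
  haveI : Finite W := Nat.finite_of_card_ne_zero (by omega)
  exact Finite.card_eq.1 (hV.trans hW.symm)

theorem TH.congr (h : TH V n) (hn : n ≠ 0) (hW : Nat.card W = n) : TH W n := by
  obtain ⟨hV, I, hI, c, h1, h2⟩ := h
  obtain ⟨e⟩ := W1_equiv hV hn hW
  exact ⟨hW, I, hI, fun i => (c i).map e, h1, W1_covers h2 e⟩

/-- Proof. There is `e : V ≃ W` with `e s = s'` (any equivalence followed by a swap); transport. -/
theorem THs.congr {s : V} (h : THs V n s) (hn : n ≠ 0) (hW : Nat.card W = n) (s' : W) :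
    THs W n s' := by
  classical
  obtain ⟨hV, I, hI, c, g, h1, h2, h3⟩ := h
  obtain ⟨e₀⟩ := W1_equiv hV hn hW
  obtain ⟨e, he⟩ : ∃ e : V ≃ W, e s = s' :=
    ⟨e₀.trans (Equiv.swap (e₀ s) s'), by
      rw [Equiv.trans_apply, Equiv.swap_apply_left]⟩
  refine ⟨hW, I, hI, fun i => (c i).map e, fun w => g (e.symm w), h1, W1_covers h2 e, ?_⟩
  intro w hw
  have h4 : e.symm w ≠ s := by
    intro h5
    apply hw
    rw [← he, ← h5, e.apply_symm_apply]
  obtain ⟨h5, h6⟩ := h3 _ h4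
  constructor
  · change e ((c (g (e.symm w))).f 0) = w
    rw [h5, e.apply_symm_apply]
  · change e ((c (g (e.symm w))).f (n - 1)) = s'
    rw [h6, he]

theorem THs.th {s : V} (h : THs V n s) : TH V n := by
  obtain ⟨hV, I, hI, c, g, h1, h2, _⟩ := h
  exact ⟨hV, I, hI, c, h1, h2⟩

theorem W1_has {c c' : Cyc V n} (h : ∀ x y z, c.Win x y z → c'.Win x y z) (x y z : V)
    (hc : c.Has x y z) : c'.Has x y z := by
  unfold Cyc.Has at *
  rcases hc with h1 | h1 | h1 | h1 | h1 | h1 <;> have h2 := h _ _ _ h1 <;> tauto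

theorem W1_has' {c c' : Cyc V n} (h : ∀ x y z, c.Win x y z → c'.Win z y x) (x y z : V)
    (hc : c.Has x y z) : c'.Has x y z := by
  unfold Cyc.Has at *
  rcases hc with h1 | h1 | h1 | h1 | h1 | h1 <;> have h2 := h _ _ _ h1 <;> tauto

theorem W1_pred (hn : 0 < n) : ((n - 1 : ℕ) : ZMod n) = -1 := by
  rw [Nat.cast_pred hn, ZMod.natCast_self, zero_sub]

/-- Proof. If `c.f t = s`, `c.f (t + 1) = v` take `c'.f u = c.f (t + 1 + u)`.  If `c.f t = v`,
`c.f (t + 1) = s` take `c'.f u = c.f (t + (n - 1) * u)` (the reversed order; `(n - 1) * (n - 1) = 1 + (n - 2) * n`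
for `n ≥ 2`, and for `n = 1` everything is trivial). -/
theorem Cyc.norm (c : Cyc V n) (hn : 0 < n) {s v : V} (h : c.Adj s v) :
    ∃ c' : Cyc V n, c'.f 0 = v ∧ c'.f (n - 1) = s ∧ ∀ x y z, c.Has x y z → c'.Has x y z := by
  have hp := W1_pred hn
  obtain ⟨t, ⟨h1, h2⟩ | ⟨h1, h2⟩⟩ := h
  · refine ⟨⟨fun u => c.f (t + 1 + u), fun u => ?_, fun w => ?_⟩, ?_, ?_, ?_⟩
    · rw [← Nat.add_assoc, c.per]
    · obtain ⟨u, rfl⟩ := c.surj w
      refine ⟨u + (n - 1) * (t + 1), W1_zmod c ?_⟩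
      push_cast [hp]
      ring
    · exact h2
    · change c.f (t + 1 + (n - 1)) = s
      rw [← h1]
      refine W1_zmod c ?_
      push_cast [hp]
      ring
    · refine W1_has ?_
      rintro x y z ⟨w, rfl, rfl, rfl⟩
      refine ⟨w + (n - 1) * (t + 1), W1_zmod c ?_, W1_zmod c ?_, W1_zmod c ?_⟩ <;>
      · push_cast [hp]
        ring
  · refine ⟨⟨fun u => c.f (t + (n - 1) * u), fun u => ?_, fun w => ?_⟩, ?_, ?_, ?_⟩
    · rw [Nat.mul_add, ← Nat.add_assoc, c.per_mul]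
    · obtain ⟨u, rfl⟩ := c.surj w
      refine ⟨t + (n - 1) * u, W1_zmod c ?_⟩
      push_cast [hp]
      ring
    · change c.f (t + (n - 1) * 0) = v
      rw [Nat.mul_zero, Nat.add_zero, h1]
    · change c.f (t + (n - 1) * (n - 1)) = s
      rw [← h2]
      refine W1_zmod c ?_
      push_cast [hp]
      ring
    · refine W1_has' ?_
      rintro x y z ⟨w, rfl, rfl, rfl⟩
      refine ⟨t + (n - 1) * (w + 2), W1_zmod c ?_, W1_zmod c ?_, W1_zmod c ?_⟩ <;>
      · push_cast [hp]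
        ring

/-- Proof. Replace `c (g v)` by the cyclic order of `Cyc.norm` for all `v ≠ s` (possible as `g` is injective
there). -/
theorem THs_of_adj {I : Type} [Fintype I] (hV : Nat.card V = n) (hn : 0 < n) (c : I → Cyc V n)
    (h1 : 6 * Fintype.card I = (n - 1) * (n - 2)) (h2 : Covers c) (s : V) (g : V → I)
    (h3 : ∀ v, v ≠ s → (c (g v)).Adj s v)
    (h4 : ∀ v w, v ≠ s → w ≠ s → g v = g w → v = w) : THs V n s := by
  classical
  have hN : ∀ v (_ : v ≠ s), ∃ c' : Cyc V n, c'.f 0 = v ∧ c'.f (n - 1) = s ∧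
      ∀ x y z, (c (g v)).Has x y z → c'.Has x y z := fun v hv => (c (g v)).norm hn (h3 v hv)
  choose F hF0 hF1 hF2 using hN
  have hex : ∀ i : I, ∃ ci : Cyc V n, (∀ x y z, (c i).Has x y z → ci.Has x y z) ∧
      ∀ v (hv : v ≠ s), g v = i → ci = F v hv := by
    intro i
    by_cases h : ∃ v, v ≠ s ∧ g v = i
    · obtain ⟨v, hv, rfl⟩ := h
      refine ⟨F v hv, hF2 v hv, ?_⟩
      intro w hw hgw
      have h5 := h4 w v hw hv hgw
      subst h5
      rfl
    · exact ⟨c i, fun _ _ _ h => h, fun v hv hgv => absurd ⟨v, hv, hgv⟩ h⟩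
  choose cc hcc hcF using hex
  refine ⟨hV, I, inferInstance, cc, g, h1, ?_, ?_⟩
  · intro x y z hxy hyz hxz
    obtain ⟨i, hi⟩ := h2 x y z hxy hyz hxz
    exact ⟨i, hcc i x y z hi⟩
  · intro v hv
    rw [hcF (g v) v hv rfl]
    exact ⟨hF0 v hv, hF1 v hv⟩

end Wr
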