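import Pool.Agent.H.MP_4bad09_co.W1

set_option autoImplicit false

/-!
# The product theorem: all triples are covered (MP_4bad09_co, helper11)
-/

namespace Wr

/-- The data of the product: cycles `c1` (part 1), `c2` (part 2, the lifts of the cyclic orders `c0 i` of `Y = Option (ZMod (2K))`), `c3` (the lifts by
`0 … 0 1 0` of those cyclic orders `c0 i` that are not `c0 (g v)`) and `c4` (the cycles `T`).

Every triple is a window.  Proof. Let `P, Q, R` be different points.  If the three first coordinates are different: `h1`.  Otherwise, if the three second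
coordinates are different, `(c0 i).Has P.2 Q.2 R.2` for some `i`, so after a permutation of `P, Q, R` there is `t` with `(c0 i).f t = P.2`, `f (t + 1) = Q.2`,
`f (t + 2) = R.2`; with `d = Q.1 - P.1`, `e = R.1 - Q.1` two of the first coordinates are equal, so `d = 0` or `e = 0` or `d + e = 0`, and `h2` gives the window or
`d`, `e` are the letters of `0 … 0 1 0` at the places `t`, `t + 1` (`cw_ws`): then `h3` if `i` is not of the form `g v`, and
otherwise `h4` (`round_cover`).  Otherwise two second coordinates are equal, say `P.2 = Q.2`; then `P.1 ≠ Q.1`, and `R.1 = P.1` or `R.1 = Q.1` (two of the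
first coordinates are equal), `R.2 ≠ P.2`: `h5` (`L_cover`). -/
theorem prod_covers {n ℓ : ℕ} {X Y I0 I1 J : Type} [AddCommGroup X] (c0 : I0 → Cyc Y ℓ) (h0 : Covers c0)
    (w : ℕ → X) (Sp : I0 → Prop)
    (c1 : I1 → Cyc (X × Y) n)
    (h1 : ∀ p q r : X × Y, p.1 ≠ q.1 → q.1 ≠ r.1 → p.1 ≠ r.1 → ∃ i, (c1 i).Has p q r)
    (c2 : I0 × J → Cyc (X × Y) n)
    (h2 : ∀ (i : I0) (t : ℕ) (x d e : X), (d = 0 ∨ e = 0 ∨ d + e = 0) →
      (∃ p, (c2 (i, p)).Win (x, (c0 i).f t) (x + d, (c0 i).f (t + 1)) (x + d + e, (c0 i).f (t + 2))) ∨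
        (w t = d ∧ w (t + 1) = e))
    (c3 : {i : I0 // ¬ Sp i} → Cyc (X × Y) n)
    (h3 : ∀ (i : {i : I0 // ¬ Sp i}) (t : ℕ) (x : X),
      (c3 i).Win (x, (c0 i).f t) (x + w t, (c0 i).f (t + 1)) (x + w t + w (t + 1), (c0 i).f (t + 2)))
    {I4 : Type} (c4 : I4 → Cyc (X × Y) n)
    (h4 : ∀ i : I0, Sp i → ∀ (t : ℕ) (x : X), ∃ m,
      (c4 m).Win (x, (c0 i).f t) (x + w t, (c0 i).f (t + 1)) (x + w t + w (t + 1), (c0 i).f (t + 2)))
    (h5 : ∀ (p q : X) (y y' : Y), p ≠ q → y ≠ y' → ∃ m, (c4 m).Has (p, y) (q, y) (p, y')) :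
    Covers (Sum.elim c1 (Sum.elim c2 (Sum.elim c3 c4))) := by
  have key : ∀ P Q R : X × Y, (P.1 = Q.1 ∨ Q.1 = R.1 ∨ P.1 = R.1) →
      (∃ i, (c0 i).Win P.2 Q.2 R.2) →
      ∃ i, ((Sum.elim c1 (Sum.elim c2 (Sum.elim c3 c4)) : _ → Cyc (X × Y) n) i).Has P Q R := by
    rintro ⟨p, y⟩ ⟨q, y'⟩ ⟨r, y''⟩ hE ⟨i, t, e1, e2, e3⟩
    simp only at hE e1 e2 e3
    have hd : q - p = 0 ∨ r - q = 0 ∨ (q - p) + (r - q) = 0 := by
      rcases hE with h | h | h
      · left; rw [h, sub_self]
      · right; left; rw [h, sub_self]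
      · right; right; rw [h]; abel
    have x1 : p + (q - p) = q := by abel
    have x2 : p + (q - p) + (r - q) = r := by abel
    rcases h2 i t p (q - p) (r - q) hd with ⟨u, hu⟩ | ⟨w1, w2⟩
    · rw [x2, x1, e1, e2, e3] at hu
      exact ⟨Sum.inr (Sum.inl (i, u)), hu.has⟩
    · by_cases hS : Sp i
      · obtain ⟨m, hm⟩ := h4 i hS t p
        rw [w1, w2, x2, x1, e1, e2, e3] at hm
        exact ⟨Sum.inr (Sum.inr (Sum.inr m)), hm.has⟩
      · have hm := h3 ⟨i, hS⟩ t p
        rw [w1, w2, x2, x1] at hm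
        simp only at hm
        rw [e1, e2, e3] at hm
        exact ⟨Sum.inr (Sum.inr (Sum.inl ⟨i, hS⟩)), hm.has⟩
  have key2 : ∀ P Q R : X × Y, P ≠ Q → Q ≠ R → P ≠ R → (P.1 = Q.1 ∨ Q.1 = R.1 ∨ P.1 = R.1) →
      P.2 = Q.2 →
      ∃ i, ((Sum.elim c1 (Sum.elim c2 (Sum.elim c3 c4)) : _ → Cyc (X × Y) n) i).Has P Q R := by
    rintro ⟨p, y⟩ ⟨q, y'⟩ ⟨r, y''⟩ n1 n2 n3 hE hy
    simp only at hE hy
    subst hy
    have hpq : p ≠ q := fun h => n1 (by rw [h])
    have hE2 : r = p ∨ r = q := by
      rcases hE with h | h | h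
      · exact absurd h hpq
      · exact Or.inr h.symm
      · exact Or.inl h.symm
    have hyy : y ≠ y'' := by
      intro h
      subst h
      rcases hE2 with h | h
      · exact n3 (by rw [h])
      · exact n2 (by rw [h])
    rcases hE2 with h | h
    · subst h
      obtain ⟨m, hm⟩ := h5 r q y y'' hpq hyy
      exact ⟨Sum.inr (Sum.inr (Sum.inr m)), hm⟩
    · subst h
      obtain ⟨m, hm⟩ := h5 r p y y'' hpq.symm hyy
      exact ⟨Sum.inr (Sum.inr (Sum.inr m)), hm.swap⟩
  intro P Q R n1 n2 n3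
  by_cases hA : P.1 ≠ Q.1 ∧ Q.1 ≠ R.1 ∧ P.1 ≠ R.1
  · obtain ⟨i, hi⟩ := h1 P Q R hA.1 hA.2.1 hA.2.2
    exact ⟨Sum.inl i, hi⟩
  have hE : P.1 = Q.1 ∨ Q.1 = R.1 ∨ P.1 = R.1 := by
    by_contra hc
    push Not at hc
    exact hA hc
  by_cases hB1 : P.2 = Q.2
  · exact key2 P Q R n1 n2 n3 hE hB1
  by_cases hB2 : Q.2 = R.2
  · obtain ⟨i, hi⟩ := key2 Q R P n2 n3.symm n1.symm
      (by rcases hE with h | h | h
          · exact Or.inr (Or.inr h.symm)
          · exact Or.inl h
          · exact Or.inr (Or.inl h.symm)) hB2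
    exact ⟨i, hi.rot.rot⟩
  by_cases hB3 : P.2 = R.2
  · obtain ⟨i, hi⟩ := key2 R P Q n3.symm n1 n2.symm
      (by rcases hE with h | h | h
          · exact Or.inr (Or.inl h)
          · exact Or.inr (Or.inr h.symm)
          · exact Or.inl h.symm) hB3.symm
    exact ⟨i, hi.rot⟩
  obtain ⟨i, hi⟩ := h0 P.2 Q.2 R.2 hB1 hB2 hB3
  rcases hi with h | h | h | h | h | h
  · exact key P Q R hE ⟨i, h⟩
  · -- `P, R, Q`
    obtain ⟨m, hm⟩ := key P R Q (by rcases hE with h | h | h
                                    · exact Or.inr (Or.inr h)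
                                    · exact Or.inr (Or.inl h.symm)
                                    · exact Or.inl h) ⟨i, h⟩
    exact ⟨m, hm.rot.swap.rot.rot⟩
  · -- `Q, P, R`
    obtain ⟨m, hm⟩ := key Q P R (by rcases hE with h | h | h
                                    · exact Or.inl h.symm
                                    · exact Or.inr (Or.inr h)
                                    · exact Or.inr (Or.inl h)) ⟨i, h⟩
    exact ⟨m, hm.swap⟩
  · -- `Q, R, P`
    obtain ⟨m, hm⟩ := key Q R P (by rcases hE with h | h | h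
                                    · exact Or.inr (Or.inr h.symm)
                                    · exact Or.inl h
                                    · exact Or.inr (Or.inl h.symm)) ⟨i, h⟩
    exact ⟨m, hm.rot.rot⟩
  · -- `R, P, Q`
    obtain ⟨m, hm⟩ := key R P Q (by rcases hE with h | h | h
                                    · exact Or.inr (Or.inl h)
                                    · exact Or.inr (Or.inr h.symm)
                                    · exact Or.inl h.symm) ⟨i, h⟩
    exact ⟨m, hm.rot⟩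
  · -- `R, Q, P`
    obtain ⟨m, hm⟩ := key R Q P (by rcases hE with h | h | h
                                    · exact Or.inr (Or.inl h.symm)
                                    · exact Or.inl h.symm
                                    · exact Or.inr (Or.inr h.symm)) ⟨i, h⟩
    exact ⟨m, hm.rot.swap⟩

end Wr
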