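import Pool.Agent.H.MP_4bad09_co.W0

set_option autoImplicit false

/-!
# The cycles T (MP_4bad09_co, helper11)
-/

namespace Wr

/-- Every nonzero element of `ZMod (2h+1)` is `2t` or `-2t` with `1 ≤ t ≤ h`. -/
theorem two_mul_cases {h : ℕ} (x : ZMod (2 * h + 1)) (hx : x ≠ 0) :
    ∃ t : ℕ, 1 ≤ t ∧ t ≤ h ∧ (x = 2 * t ∨ x = -(2 * t)) := by
  have hv : x.val < 2 * h + 1 := ZMod.val_lt x
  have hv0 : x.val ≠ 0 := fun h0 => hx ((ZMod.val_eq_zero x).1 h0)
  have hxv : ((x.val : ℕ) : ZMod (2 * h + 1)) = x := ZMod.natCast_zmod_val x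
  have hN : ((2 * h + 1 : ℕ) : ZMod (2 * h + 1)) = 0 := ZMod.natCast_self _
  rcases Nat.even_or_odd' x.val with ⟨t, ht | ht⟩
  · refine ⟨t, by omega, by omega, Or.inl ?_⟩
    rw [← hxv, ht]
    push_cast
    ring
  · refine ⟨h - t, by omega, by omega, Or.inr ?_⟩
    have h1 : x.val + 2 * (h - t) = 2 * h + 1 := by omega
    have h2 : ((x.val + 2 * (h - t) : ℕ) : ZMod (2 * h + 1)) = 0 := by rw [h1, hN]
    rw [Nat.cast_add, hxv, Nat.cast_mul, Nat.cast_ofNat] at h2
    exact eq_neg_of_add_eq_zero_left h2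

/-- Every nonzero element of `ZMod (2h+1)` is `2t - 1` or `-(2t - 1)` with `1 ≤ t ≤ h`. -/
theorem two_mul_sub_cases {h : ℕ} (x : ZMod (2 * h + 1)) (hx : x ≠ 0) :
    ∃ t : ℕ, 1 ≤ t ∧ t ≤ h ∧ (x = 2 * t - 1 ∨ x = -(2 * t - 1)) := by
  have hv : x.val < 2 * h + 1 := ZMod.val_lt x
  have hv0 : x.val ≠ 0 := fun h0 => hx ((ZMod.val_eq_zero x).1 h0)
  have hxv : ((x.val : ℕ) : ZMod (2 * h + 1)) = x := ZMod.natCast_zmod_val x
  have hN : ((2 * h + 1 : ℕ) : ZMod (2 * h + 1)) = 0 := ZMod.natCast_self _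
  rcases Nat.even_or_odd' x.val with ⟨t, ht | ht⟩
  · refine ⟨h + 1 - t, by omega, by omega, Or.inr ?_⟩
    have h1 : x.val + 2 * (h + 1 - t) = 2 * h + 1 + 1 := by omega
    have h2 : ((x.val + 2 * (h + 1 - t) : ℕ) : ZMod (2 * h + 1)) = 1 := by
      rw [h1, Nat.cast_add, hN, Nat.cast_one, zero_add]
    rw [Nat.cast_add, hxv, Nat.cast_mul, Nat.cast_ofNat] at h2
    rw [← h2]
    ring
  · refine ⟨t + 1, by omega, by omega, Or.inl ?_⟩
    rw [← hxv, ht]
    push_cast
    ring

/-- the first coordinate (minus `m`) in the strand `t` -/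
def W8_lab (h M t k e : ℕ) : ZMod (2 * h + 1) :=
  if k < M then (if e = 0 then -(2 * t) else 2 * t) else (if e = 0 then 2 * t else 2 - 2 * t)

/-- the points of the cycle `T` -/
def W8_f {Y : Type} (h M : ℕ) (D C : ℕ → Y) (m : ZMod (2 * h + 1)) (u : ℕ) :
    ZMod (2 * h + 1) × Y :=
  if u < 2 * (M + 1) * h then
    (m + W8_lab h M (h - u / (2 * (M + 1))) (u % (2 * (M + 1)) / 2) (u % (2 * (M + 1)) % 2),
      D (u % (2 * (M + 1)) / 2))
  else (m + (if u - 2 * (M + 1) * h < M then 0 else 1), C (u - 2 * (M + 1) * h))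

theorem W8_lt {h M q k e : ℕ} (hq : q < h) (hk : k ≤ M) (he : e < 2) :
    2 * (M + 1) * q + (2 * k + e) < 2 * (M + 1) * h := by
  have h1 : 2 * (M + 1) * (q + 1) ≤ 2 * (M + 1) * h := Nat.mul_le_mul_left _ hq
  have h2 : 2 * (M + 1) * (q + 1) = 2 * (M + 1) * q + 2 * (M + 1) := by ring
  omega

theorem W8_strand {Y : Type} (h M : ℕ) (D C : ℕ → Y) (m : ZMod (2 * h + 1)) {q k e : ℕ}
    (hq : q < h) (hk : k ≤ M) (he : e < 2) :
    W8_f h M D C m (2 * (M + 1) * q + (2 * k + e)) = (m + W8_lab h M (h - q) k e, D k) := by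
  have h1 := W8_lt (M := M) hq hk he
  have h2 : 2 * k + e < 2 * (M + 1) := by omega
  have h3 : (2 * (M + 1) * q + (2 * k + e)) / (2 * (M + 1)) = q := by
    rw [Nat.mul_add_div (by omega), Nat.div_eq_of_lt h2, add_zero]
  have h4 : (2 * (M + 1) * q + (2 * k + e)) % (2 * (M + 1)) = 2 * k + e := by
    rw [Nat.mul_add_mod, Nat.mod_eq_of_lt h2]
  have h5 : (2 * k + e) / 2 = k := by omega
  have h6 : (2 * k + e) % 2 = e := by omega
  unfold W8_f
  rw [if_pos h1, h3, h4, h5, h6]

theorem W8_round {Y : Type} (h M : ℕ) (D C : ℕ → Y) (m : ZMod (2 * h + 1)) (k : ℕ) :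
    W8_f h M D C m (2 * (M + 1) * h + k) = (m + (if k < M then 0 else 1), C k) := by
  unfold W8_f
  rw [if_neg (by omega), Nat.add_sub_cancel_left]

/-- The cycle `T`: double strands `t = h, h - 1, …, 1`, each one with the points `(m - 2t, D k)`, `(m + 2t, D k)` for `k = 0, …, M - 1` and then
`(m + 2t, D M)`, `(m + 2 - 2t, D M)`; and then the single round `(m, C 0), …, (m, C (M - 1)), (m + 1, C M)`.

Proof.  With `b = M + 1`, `n = (2h+1) b`, `f u := m + f0 (u % n)` where for `u < 2 b h`: `t = h - u / (2b)`, `r = u % (2b)`, `k = r / 2`, `f0 u` has the second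
coordinate `D k` and the first coordinate `-2t` or `2t` (`r` even, odd) if `k < M` and `2t` or `2 - 2t` if `k = M`; for `u = 2 b h + k`, `k < b`: `f0 u = (0, C k)` if
`k < M`, `(1, C M)` if `k = M`.  First the values at `u = 2 b q + 2 k + e` (`q < h`, `k ≤ M`, `e < 2`; `t = h - q`) and `u = 2 b h + k`.
Windows: `s1`, `s2`, `s3`, `s4`: inside a strand.  `s5`: from the strand `t` to the strand `t - 1` (`-2(t-1) = 2 - 2t`), for `t = 1` to the single round (`C 0 = D 0`).
`s6`: from the strand `t + 1` (its last point is `(m + 2 - 2(t+1), D M)`) to the strand `t`; for `t = h` from the end of the single round, `(m + 1, C M)`, around to the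
beginning: `-2h = 1` in `ZMod (2h+1)`.  `r1`-`r3`: in the single round (`r3`: and the first point `(m - 2h, D 0)`), `r4`: the end of the strand `t = 1` is `(m, D M)`.
All points are attained: let `(x, y)` be given; if `y ≠ D M`, `y = D k = C k'` with `k, k' < M`, and `x = m` (single round) or `x = m ± 2t` (`two_mul_cases`).
If `y = D M`: `x = m + 1` (single round), or `x - (m + 1) = ±(2t - 1)` (`two_mul_sub_cases`), `x = m + 2t` or `x = m + 2 - 2t`. -/
theorem exists_T {Y : Type} (h M : ℕ) (hh : 1 ≤ h) (hM : 2 ≤ M) (D C : ℕ → Y)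
    (hD : ∀ y, ∃ k ≤ M, D k = y) (hC : ∀ y, ∃ k ≤ M, C k = y) (h0 : D 0 = C 0) (h1 : D M = C M)
    (m : ZMod (2 * h + 1)) :
    ∃ c : Cyc (ZMod (2 * h + 1) × Y) ((2 * h + 1) * (M + 1)), IsT h M D C m c := by
  have hN : (2 * h + 1) * (M + 1) = 2 * (M + 1) * h + (M + 1) := by ring
  have hNz : ((2 * h + 1 : ℕ) : ZMod (2 * h + 1)) = 0 := ZMod.natCast_self _
  have h2h : (-(2 * (h : ZMod (2 * h + 1)))) = 1 := by
    push_cast at hNz
    linear_combination -hNz
  -- the values
  have val : ∀ u, u < 2 * (M + 1) * h + (M + 1) →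
      W8_f h M D C m (u % ((2 * h + 1) * (M + 1))) = W8_f h M D C m u := by
    intro u hu
    rw [Nat.mod_eq_of_lt (by rw [hN]; exact hu)]
  let c : Cyc (ZMod (2 * h + 1) × Y) ((2 * h + 1) * (M + 1)) :=
    { f := fun u => W8_f h M D C m (u % ((2 * h + 1) * (M + 1)))
      per := fun u => by rw [Nat.add_mod_right]
      surj := by
        rintro ⟨x, y⟩
        by_cases hy : y = D M
        · subst hy
          by_cases hx : x = m + 1
          · refine ⟨2 * (M + 1) * h + M, ?_⟩
            rw [val _ (by omega), W8_round, if_neg (lt_irrefl M), hx, h1]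
          · obtain ⟨t, ht1, ht2, ht⟩ := two_mul_sub_cases (x - (m + 1)) (sub_ne_zero.2 hx)
            have hq : h - t < h := by omega
            have hht : h - (h - t) = t := by omega
            rcases ht with ht | ht
            · have h3 := W8_lt (M := M) (k := M) (e := 0) hq le_rfl (by norm_num)
              refine ⟨2 * (M + 1) * (h - t) + (2 * M + 0), ?_⟩
              rw [val _ (by omega), W8_strand h M D C m hq le_rfl (by norm_num), hht]
              refine Prod.ext ?_ rfl
              change m + W8_lab h M t M 0 = x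
              rw [W8_lab, if_neg (lt_irrefl M), if_pos rfl]
              linear_combination -ht
            · have h3 := W8_lt (M := M) (k := M) (e := 1) hq le_rfl (by norm_num)
              refine ⟨2 * (M + 1) * (h - t) + (2 * M + 1), ?_⟩
              rw [val _ (by omega), W8_strand h M D C m hq le_rfl (by norm_num), hht]
              refine Prod.ext ?_ rfl
              change m + W8_lab h M t M 1 = x
              rw [W8_lab, if_neg (lt_irrefl M), if_neg one_ne_zero]
              linear_combination -ht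
        · by_cases hx : x = m
          · obtain ⟨k, hk, hk2⟩ := hC y
            have hkM : k < M := by
              refine lt_of_le_of_ne hk ?_
              rintro rfl
              exact hy (by rw [← hk2, h1])
            refine ⟨2 * (M + 1) * h + k, ?_⟩
            rw [val _ (by omega), W8_round, if_pos hkM, hx, hk2, add_zero]
          · obtain ⟨k, hk, hk2⟩ := hD y
            have hkM : k < M := by
              refine lt_of_le_of_ne hk ?_
              rintro rfl
              exact hy hk2.symm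
            obtain ⟨t, ht1, ht2, ht⟩ := two_mul_cases (x - m) (sub_ne_zero.2 hx)
            have hq : h - t < h := by omega
            have hht : h - (h - t) = t := by omega
            rcases ht with ht | ht
            · have h3 := W8_lt (M := M) (k := k) (e := 1) hq hk (by norm_num)
              refine ⟨2 * (M + 1) * (h - t) + (2 * k + 1), ?_⟩
              rw [val _ (by omega), W8_strand h M D C m hq hk (by norm_num), hht]
              refine Prod.ext ?_ hk2
              change m + W8_lab h M t k 1 = x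
              rw [W8_lab, if_pos hkM, if_neg one_ne_zero]
              linear_combination -ht
            · have h3 := W8_lt (M := M) (k := k) (e := 0) hq hk (by norm_num)
              refine ⟨2 * (M + 1) * (h - t) + (2 * k + 0), ?_⟩
              rw [val _ (by omega), W8_strand h M D C m hq hk (by norm_num), hht]
              refine Prod.ext ?_ hk2
              change m + W8_lab h M t k 0 = x
              rw [W8_lab, if_pos hkM, if_pos rfl]
              linear_combination -ht }
  have hcs : ∀ t k e : ℕ, 1 ≤ t → t ≤ h → k ≤ M → e < 2 → ∀ u,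
      u = 2 * (M + 1) * (h - t) + (2 * k + e) → c.f u = (m + W8_lab h M t k e, D k) := by
    intro t k e ht1 ht2 hk he u hu
    have hq : h - t < h := by omega
    have hht : h - (h - t) = t := by omega
    have h3 := W8_lt (M := M) (k := k) (e := e) hq hk he
    rw [hu]
    change W8_f h M D C m (_ % ((2 * h + 1) * (M + 1))) = _
    rw [val _ (by omega), W8_strand h M D C m hq hk he, hht]
  have hcr : ∀ k : ℕ, k ≤ M → ∀ u, u = 2 * (M + 1) * h + k →
      c.f u = (m + (if k < M then 0 else 1), C k) := by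
    intro k hk u hu
    rw [hu]
    change W8_f h M D C m (_ % ((2 * h + 1) * (M + 1))) = _
    rw [val _ (by omega), W8_round]
  have hcp : ∀ u, c.f (2 * (M + 1) * h + (M + 1) + u) = c.f u := by
    intro u
    have e : 2 * (M + 1) * h + (M + 1) + u = u + (2 * h + 1) * (M + 1) := by ring
    rw [e, c.per]
  have hl0 : ∀ t k : ℕ, k < M → W8_lab h M t k 0 = -(2 * t) := fun t k hk => by
    rw [W8_lab, if_pos hk, if_pos rfl]
  have hl1 : ∀ t k : ℕ, k < M → W8_lab h M t k 1 = 2 * t := fun t k hk => by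
    rw [W8_lab, if_pos hk, if_neg one_ne_zero]
  have hM0 : ∀ t : ℕ, W8_lab h M t M 0 = 2 * t := fun t => by
    rw [W8_lab, if_neg (lt_irrefl M), if_pos rfl]
  have hM1 : ∀ t : ℕ, W8_lab h M t M 1 = 2 - 2 * t := fun t => by
    rw [W8_lab, if_neg (lt_irrefl M), if_neg one_ne_zero]
  refine ⟨c, ?_⟩
  constructor
  case s1 =>
    intro t k ht1 ht2 hk
    refine ⟨2 * (M + 1) * (h - t) + (2 * k + 0), ?_, ?_, ?_⟩
    · rw [hcs t k 0 ht1 ht2 (by omega) (by norm_num) _ rfl, hl0 t k (by omega), sub_eq_add_neg]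
    · rw [hcs t k 1 ht1 ht2 (by omega) (by norm_num) _ (by ring), hl1 t k (by omega)]
    · rw [hcs t (k + 1) 0 ht1 ht2 (by omega) (by norm_num) _ (by ring), hl0 t (k + 1) hk,
        sub_eq_add_neg]
  case s2 =>
    intro t k ht1 ht2 hk
    refine ⟨2 * (M + 1) * (h - t) + (2 * k + 1), ?_, ?_, ?_⟩
    · rw [hcs t k 1 ht1 ht2 (by omega) (by norm_num) _ rfl, hl1 t k (by omega)]
    · rw [hcs t (k + 1) 0 ht1 ht2 (by omega) (by norm_num) _ (by ring), hl0 t (k + 1) hk,
        sub_eq_add_neg]
    · rw [hcs t (k + 1) 1 ht1 ht2 (by omega) (by norm_num) _ (by ring), hl1 t (k + 1) hk]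
  case s3 =>
    intro t ht1 ht2
    obtain ⟨M', rfl⟩ : ∃ M', M = M' + 1 := ⟨M - 1, by omega⟩
    rw [Nat.add_sub_cancel]
    refine ⟨2 * (M' + 1 + 1) * (h - t) + (2 * M' + 0), ?_, ?_, ?_⟩
    · rw [hcs t M' 0 ht1 ht2 (by omega) (by norm_num) _ rfl, hl0 t M' (by omega), sub_eq_add_neg]
    · rw [hcs t M' 1 ht1 ht2 (by omega) (by norm_num) _ (by ring), hl1 t M' (by omega)]
    · rw [hcs t (M' + 1) 0 ht1 ht2 le_rfl (by norm_num) _ (by ring), hM0 t]
  case s4 =>
    intro t ht1 ht2
    obtain ⟨M', rfl⟩ : ∃ M', M = M' + 1 := ⟨M - 1, by omega⟩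
    rw [Nat.add_sub_cancel]
    refine ⟨2 * (M' + 1 + 1) * (h - t) + (2 * M' + 1), ?_, ?_, ?_⟩
    · rw [hcs t M' 1 ht1 ht2 (by omega) (by norm_num) _ rfl, hl1 t M' (by omega)]
    · rw [hcs t (M' + 1) 0 ht1 ht2 le_rfl (by norm_num) _ (by ring), hM0 t]
    · rw [hcs t (M' + 1) 1 ht1 ht2 le_rfl (by norm_num) _ (by ring), hM1 t, add_sub_assoc]
  case s5 =>
    intro t ht1 ht2
    refine ⟨2 * (M + 1) * (h - t) + (2 * M + 0), ?_, ?_, ?_⟩
    · rw [hcs t M 0 ht1 ht2 le_rfl (by norm_num) _ rfl, hM0 t]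
    · rw [hcs t M 1 ht1 ht2 le_rfl (by norm_num) _ (by ring), hM1 t, add_sub_assoc]
    · rcases Nat.lt_or_ge 1 t with ht | ht
      · have e : h - (t - 1) = h - t + 1 := by omega
        rw [hcs (t - 1) 0 0 (by omega) (by omega) (by omega) (by norm_num) _
          (by rw [e]; ring), hl0 (t - 1) 0 (by omega), Nat.cast_sub ht1]
        refine Prod.ext ?_ rfl
        push_cast
        ring
      · have ht' : t = 1 := by omega
        subst ht'
        have e : h = h - 1 + 1 := by omega
        rw [hcr 0 (by omega) (2 * (M + 1) * (h - 1) + (2 * M + 0) + 2)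
          (by conv_rhs => rw [e]
              ring), if_pos (by omega), ← h0]
        refine Prod.ext ?_ rfl
        push_cast
        ring
  case s6 =>
    intro t ht1 ht2
    rcases Nat.lt_or_ge t h with ht | ht
    · have e : h - t = h - (t + 1) + 1 := by omega
      refine ⟨2 * (M + 1) * (h - (t + 1)) + (2 * M + 1), ?_, ?_, ?_⟩
      · rw [hcs (t + 1) M 1 (by omega) (by omega) le_rfl (by norm_num) _ rfl, hM1 (t + 1)]
        refine Prod.ext ?_ rfl
        push_cast
        ring
      · rw [hcs t 0 0 ht1 ht2 (by omega) (by norm_num) _ (by rw [e]; ring), hl0 t 0 (by omega),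
          sub_eq_add_neg]
      · rw [hcs t 0 1 ht1 ht2 (by omega) (by norm_num) _ (by rw [e]; ring), hl1 t 0 (by omega)]
    · have ht' : t = h := by omega
      subst ht'
      refine ⟨2 * (M + 1) * t + M, ?_, ?_, ?_⟩
      · rw [hcr M le_rfl _ rfl, if_neg (lt_irrefl M), ← h1]
        refine Prod.ext ?_ rfl
        linear_combination -h2h
      · have e : 2 * (M + 1) * t + M + 1 = 2 * (M + 1) * t + (M + 1) + 0 := by ring
        rw [e, hcp, hcs t 0 0 ht1 ht2 (by omega) (by norm_num) _ (by simp), hl0 t 0 (by omega),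
          sub_eq_add_neg]
      · have e : 2 * (M + 1) * t + M + 2 = 2 * (M + 1) * t + (M + 1) + 1 := by ring
        rw [e, hcp, hcs t 0 1 ht1 ht2 (by omega) (by norm_num) _ (by simp), hl1 t 0 (by omega)]
  case r1 =>
    intro k hk
    refine ⟨2 * (M + 1) * h + k, ?_, ?_, ?_⟩
    · rw [hcr k (by omega) _ rfl, if_pos (by omega), add_zero]
    · rw [hcr (k + 1) (by omega) _ (by ring), if_pos (by omega), add_zero]
    · rw [hcr (k + 2) (by omega) _ (by ring), if_pos (by omega), add_zero]
  case r2 =>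
    refine ⟨2 * (M + 1) * h + (M - 2), ?_, ?_, ?_⟩
    · rw [hcr (M - 2) (by omega) _ rfl, if_pos (by omega), add_zero]
    · rw [hcr (M - 1) (by omega) _ (by omega), if_pos (by omega), add_zero]
    · rw [hcr M le_rfl _ (by omega), if_neg (lt_irrefl M)]
  case r3 =>
    refine ⟨2 * (M + 1) * h + (M - 1), ?_, ?_, ?_⟩
    · rw [hcr (M - 1) (by omega) _ rfl, if_pos (by omega), add_zero]
    · rw [hcr M le_rfl _ (by omega), if_neg (lt_irrefl M)]
    · have e : 2 * (M + 1) * h + (M - 1) + 2 = 2 * (M + 1) * h + (M + 1) + 0 := by omega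
      rw [e, hcp, hcs h 0 0 hh le_rfl (by omega) (by norm_num) _ (by simp), hl0 h 0 (by omega), h2h,
        h0]
  case r4 =>
    have e : h = h - 1 + 1 := by omega
    refine ⟨2 * (M + 1) * (h - 1) + (2 * M + 1), ?_, ?_, ?_⟩
    · rw [hcs 1 M 1 le_rfl hh le_rfl (by norm_num) _ rfl, hM1 1, ← h1]
      refine Prod.ext ?_ rfl
      push_cast
      ring
    · rw [hcr 0 (by omega) (2 * (M + 1) * (h - 1) + (2 * M + 1) + 1)
        (by conv_rhs => rw [e]
            ring), if_pos (by omega), add_zero]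
    · rw [hcr 1 (by omega) (2 * (M + 1) * (h - 1) + (2 * M + 1) + 2)
        (by conv_rhs => rw [e]
            ring), if_pos (by omega), add_zero]

end Wr
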