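import Pool.Agent.H.MP_4bad09_co.W7
import Pool.Agent.H.MP_4bad09_co.W8

set_option autoImplicit false

/-!
# Covering the triples with two points in a row (MP_4bad09_co, helper11)
-/

namespace Wr

theorem W9_half {h : ℕ} {p q : ZMod (2 * h + 1)} (hpq : p ≠ q) :
    ∃ m δ : ZMod (2 * h + 1), δ ≠ 0 ∧ p = m + δ ∧ q = m - δ := by
  have h2 : (2 : ZMod (2 * h + 1)) * ((h : ZMod (2 * h + 1)) + 1) = 1 := by
    have h3 : ((2 * h + 1 : ℕ) : ZMod (2 * h + 1)) = 0 := ZMod.natCast_self _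
    push_cast at h3
    linear_combination h3
  refine ⟨q + (p - q) * ((h : ZMod (2 * h + 1)) + 1), (p - q) * ((h : ZMod (2 * h + 1)) + 1),
    ?_, ?_, ?_⟩
  · intro h0
    apply hpq
    have h4 : p - q = 0 := by linear_combination (q - p) * h2 + 2 * h0
    exact sub_eq_zero.1 h4
  · linear_combination (q - p) * h2
  · ring

theorem W9_Dr {M : ℕ} {j : ZMod M} {k : ℕ} (hk : k < M) : Dr M j k = some (j + zz M k) :=
  if_pos hk

theorem W9_DrM {M : ℕ} {j : ZMod M} : Dr M j M = none := if_neg (lt_irrefl _)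

theorem W9_zz0 (M : ℕ) : zz M 0 = 0 := by
  simp [zz]

/-- The triples `{(p, y), (q, y), (p, y')}`.

Proof.  `2` is invertible in `ZMod (2h+1)`.  First case `y = some y0`: `m := (p + q) / 2`, `p = m + δ`, `q = m - δ`, `δ ≠ 0`, `δ = 2t` or `-2t` (`two_mul_cases`).
 (a) `δ = -2t`, `y' = some y1`: `zz_even` gives `j`, `k` with `Dr j k = y`, `Dr j (k + 1) = y'`: `s1`.
 (b) `δ = -2t`, `y' = none`: `j = y0`, `Dr j 0 = y`, `Dr j (2K) = none`: `s6`.
 (c) `δ = 2t`, `y' = some y1`: `zz_even` for the pair `y', y`: `s2`.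
 (d) `δ = 2t`, `y' = none`: `j` with `Dr j (2K - 1) = y` (`j = y0 - zz (2K - 1)`): `s3`.
Second case `y = none`: `y' = some y1`, `m + 1 := (p + q) / 2`, `p = m + 1 + δ`, `δ = 2t - 1` or `-(2t - 1)` (`two_mul_sub_cases`).
 (e) `δ = 2t - 1`: `p = m + 2t`, `q = m + 2 - 2t`; `j` with `Dr j (2K - 1) = y'`: `s4`.
 (f) `δ = -(2t - 1)`: `p = m + 2 - 2t`, `q = m + 2t`; `j = y1`, `Dr j 0 = y'`: `s5`. -/
theorem L_cover {n : ℕ} (h K : ℕ) (hh : 1 ≤ h) (hK : 1 ≤ K) (C : ZMod (2 * K) → ℕ → Option (ZMod (2 * K)))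
    (c : ZMod (2 * h + 1) → ZMod (2 * K) → Cyc (ZMod (2 * h + 1) × Option (ZMod (2 * K))) n)
    (hc : ∀ m j, IsT h (2 * K) (Dr (2 * K) j) (C j) m (c m j))
    (p q : ZMod (2 * h + 1)) (y y' : Option (ZMod (2 * K))) (hpq : p ≠ q) (hy : y ≠ y') :
    ∃ m j, (c m j).Has (p, y) (q, y) (p, y') := by
  rcases y with _ | y0
  · rcases y' with _ | y1
    · exact absurd rfl hy
    obtain ⟨m', δ, hδ, hp, hq⟩ := W9_half hpq
    obtain ⟨m, rfl⟩ : ∃ m, m' = m + 1 := ⟨m' - 1, by ring⟩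
    obtain ⟨t, ht1, hth, hc' | hc'⟩ := two_mul_sub_cases δ hδ
    · refine ⟨m, y1 - zz (2 * K) (2 * K - 1), Or.inr (Or.inr (Or.inr (Or.inr (Or.inl ?_))))⟩
      have h1 := (hc m (y1 - zz (2 * K) (2 * K - 1))).s4 t ht1 hth
      rw [W9_DrM, W9_Dr (by omega), sub_add_cancel] at h1
      have e1 : p = m + 2 * t := by rw [hp, hc']; ring
      have e2 : q = m + 2 - 2 * t := by rw [hq, hc']; ring
      rw [e1, e2]
      exact h1
    · refine ⟨m, y1, Or.inr (Or.inr (Or.inl ?_))⟩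
      have h1 := (hc m y1).s5 t ht1 hth
      rw [W9_DrM, W9_Dr (by omega), W9_zz0, add_zero] at h1
      have e1 : p = m + 2 - 2 * t := by rw [hp, hc']; ring
      have e2 : q = m + 2 * t := by rw [hq, hc']; ring
      rw [e1, e2]
      exact h1
  · obtain ⟨m, δ, hδ, hp, hq⟩ := W9_half hpq
    obtain ⟨t, ht1, hth, hc' | hc'⟩ := two_mul_cases δ hδ
    · have e1 : p = m + 2 * t := by rw [hp, hc']
      have e2 : q = m - 2 * t := by rw [hq, hc']
      rw [e1, e2]
      rcases y' with _ | y1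
      · refine ⟨m, y0 - zz (2 * K) (2 * K - 1), Or.inr (Or.inr (Or.inl ?_))⟩
        have h1 := (hc m (y0 - zz (2 * K) (2 * K - 1))).s3 t ht1 hth
        rw [W9_DrM, W9_Dr (by omega), sub_add_cancel] at h1
        exact h1
      · obtain ⟨j, k, hk, hj0, hj1⟩ := zz_even hK (y := y1) (y' := y0)
          (fun h0 => hy (by rw [h0]))
        refine ⟨m, j, Or.inr (Or.inr (Or.inr (Or.inr (Or.inr ?_))))⟩
        have h1 := (hc m j).s2 t k ht1 hth hk
        rw [W9_Dr hk, W9_Dr (by omega), hj0, hj1] at h1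
        exact h1
    · have e1 : p = m - 2 * t := by rw [hp, hc']; ring
      have e2 : q = m + 2 * t := by rw [hq, hc']; ring
      rw [e1, e2]
      rcases y' with _ | y1
      · refine ⟨m, y0, Or.inr (Or.inr (Or.inr (Or.inr (Or.inl ?_))))⟩
        have h1 := (hc m y0).s6 t ht1 hth
        rw [W9_DrM, W9_Dr (by omega), W9_zz0, add_zero] at h1
        exact h1
      · obtain ⟨j, k, hk, hj0, hj1⟩ := zz_even hK (y := y0) (y' := y1)
          (fun h0 => hy (by rw [h0]))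
        refine ⟨m, j, Or.inl ?_⟩
        have h1 := (hc m j).s1 t k ht1 hth hk
        rw [W9_Dr hk, W9_Dr (by omega), hj0, hj1] at h1
        exact h1

/-- The windows of the lift by `0 … 0 1 0` are windows of the cycles `T`.

Proof. `C` has the period `M + 1`, `cw_ws` (import `W2`) or the hypotheses `hd`, `he` with `t` reduced modulo `M + 1`: `t = M - 1` : `d = 1`, `e = 0`: `r3` (with `m = x`);
`t = M`: `d = e = 0`: `r4`; `t = M - 2`: `d = 0`, `e = 1`: `r2`; `t < M - 2`: `r1`. -/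
theorem round_cover {Y : Type} {n : ℕ} (h M : ℕ) (hM : 2 ≤ M) (D : ℕ → Y) (C : Cyc Y (M + 1))
    (c : ZMod (2 * h + 1) → Cyc (ZMod (2 * h + 1) × Y) n) (hc : ∀ m, IsT h M D C.f m (c m))
    (t : ℕ) (x : ZMod (2 * h + 1)) :
    ∃ m, (c m).Win (x, C.f t) (x + (if t % (M + 1) = M - 1 then 1 else 0), C.f (t + 1))
      (x + (if t % (M + 1) = M - 1 then 1 else 0) + (if (t + 1) % (M + 1) = M - 1 then 1 else 0), C.f (t + 2)) := by
  have hper : ∀ i q : ℕ, C.f (i + (M + 1) * q) = C.f i := by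
    intro i q
    induction q with
    | zero => rfl
    | succ q ih =>
      rw [← ih, ← C.per (i + (M + 1) * q)]
      congr 1
      ring
  have hdm := Nat.mod_add_div t (M + 1)
  have hlt := Nat.mod_lt t (Nat.succ_pos M)
  obtain ⟨r, hr⟩ : ∃ r, r = t % (M + 1) := ⟨_, rfl⟩
  have hr' : r < M + 1 := by rw [hr]; exact hlt
  have c0 : C.f t = C.f r := by
    rw [← hper r (t / (M + 1)), hr, hdm]
  have c1 : C.f (t + 1) = C.f (r + 1) := by
    rw [← hper (r + 1) (t / (M + 1)), hr]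
    congr 1
    omega
  have c2 : C.f (t + 2) = C.f (r + 2) := by
    rw [← hper (r + 2) (t / (M + 1)), hr]
    congr 1
    omega
  have hr1 : (t + 1) % (M + 1) = (r + 1) % (M + 1) := by
    rw [hr, Nat.mod_add_mod]
  rw [c0, c1, c2, hr1, ← hr]
  rcases (by omega : r = M ∨ r = M - 1 ∨ r = M - 2 ∨ r + 2 < M) with h1 | h1 | h1 | h1
  · subst h1
    have e1 : C.f (r + 1) = C.f 0 := by
      have := C.per 0
      rwa [Nat.zero_add] at this
    have e2 : C.f (r + 2) = C.f 1 := by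
      have := C.per 1
      rwa [show 1 + (r + 1) = r + 2 by omega] at this
    rw [if_neg (by omega), Nat.mod_self, if_neg (by omega), add_zero, add_zero, e1, e2]
    exact ⟨x, (hc x).r4⟩
  · obtain ⟨N, rfl⟩ : ∃ N, M = N + 2 := ⟨M - 2, by omega⟩
    have h1' : r = N + 1 := by omega
    subst h1'
    have e1 : C.f (N + 1 + 2) = C.f 0 := by
      have := C.per 0
      rwa [show 0 + (N + 2 + 1) = N + 1 + 2 by omega] at this
    have e2 : (N + 1 + 1) % (N + 2 + 1) = N + 2 := Nat.mod_eq_of_lt (by omega)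
    rw [if_pos (by omega), e2, if_neg (by omega), add_zero, e1]
    exact ⟨x, (hc x).r3⟩
  · obtain ⟨N, rfl⟩ : ∃ N, M = N + 2 := ⟨M - 2, by omega⟩
    have h1' : r = N := by omega
    subst h1'
    have e2 : (r + 1) % (r + 2 + 1) = r + 1 := Nat.mod_eq_of_lt (by omega)
    rw [if_neg (by omega), e2, if_pos (by omega), add_zero]
    exact ⟨x, (hc x).r2⟩
  · have e2 : (r + 1) % (M + 1) = r + 1 := Nat.mod_eq_of_lt (by omega)
    rw [if_neg (by omega), e2, if_neg (by omega), add_zero, add_zero]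
    exact ⟨x, (hc x).r1 r h1⟩

end Wr
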