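import Pool.Agent.H.MP_4bad09_co.W6
import Pool.Agent.H.MP_4bad09_co.W9
import Pool.Agent.H.MP_4bad09_co.W10a

set_option autoImplicit false

/-!
# The product theorem (MP_4bad09_co, helper11)
-/

namespace Wr

theorem W10_half {h : ℕ} (x : ZMod (2 * h + 1)) :
    2 * ((x * ((h : ZMod (2 * h + 1)) + 1) - 1) + 1) = x := by
  have h3 : ((2 * h + 1 : ℕ) : ZMod (2 * h + 1)) = 0 := ZMod.natCast_self _
  push_cast at h3
  linear_combination x * h3

theorem W10_card_some (K : ℕ) (hK : 1 ≤ K) : Nat.card (Option (ZMod (2 * K))) = 2 * K + 1 := by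
  haveI : NeZero (2 * K) := ⟨by omega⟩
  rw [Nat.card_eq_fintype_card, Fintype.card_option, ZMod.card]

theorem W10_card (h K : ℕ) (hK : 1 ≤ K) :
    Nat.card (ZMod (2 * h + 1) × Option (ZMod (2 * K))) = (2 * h + 1) * (2 * K + 1) := by
  rw [Nat.card_prod, Nat.card_zmod, W10_card_some K hK]

/-- the cycles of part 1, transported -/
theorem W10_part1 (h K : ℕ) (hh : 2 ≤ h) (hK : 5 ≤ K) (h3a : ¬ 3 ∣ 2 * h + 1)
    (hA : TH (ZMod (2 * h + 1)) (2 * h + 1)) :
    ∃ (I : Type) (_ : Fintype I) (c : I → Cyc (ZMod (2 * h + 1) × Option (ZMod (2 * K)))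
        ((2 * h + 1) * (2 * K + 1))),
      6 * Fintype.card I = (2 * h + 1 - 1) * (2 * h + 1 - 2) * (2 * K + 1) ^ 2 ∧
      ∀ p q r : ZMod (2 * h + 1) × Option (ZMod (2 * K)), p.1 ≠ q.1 → q.1 ≠ r.1 → p.1 ≠ r.1 →
        ∃ i, (c i).Has p q r := by
  have hp := part1 (m := 2 * K + 1) hA (by omega) h3a (Or.inr ⟨K, rfl⟩)
  rw [Nat.mul_comm (2 * K + 1) (2 * h + 1)] at hp
  obtain ⟨I, hI, c, h1, h2⟩ := hp
  obtain ⟨e'⟩ : Nonempty (ZMod (2 * K + 1) ≃ Option (ZMod (2 * K))) :=
    W1_equiv (n := 2 * K + 1) (Nat.card_zmod _) (by omega) (W10_card_some K (by omega))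
  let e : ZMod (2 * K + 1) × ZMod (2 * h + 1) ≃ ZMod (2 * h + 1) × Option (ZMod (2 * K)) :=
    (Equiv.prodComm _ _).trans (Equiv.prodCongr (Equiv.refl _) e')
  have he : ∀ p, (e.symm p).2 = p.1 := fun p => rfl
  refine ⟨I, hI, fun i => (c i).map e, h1, ?_⟩
  intro p q r hpq hqr hpr
  obtain ⟨i, hi⟩ := h2 (e.symm p) (e.symm q) (e.symm r) hpq hqr hpr
  refine ⟨i, ?_⟩
  have h4 := Cyc.map_has e hi
  rwa [e.apply_symm_apply, e.apply_symm_apply, e.apply_symm_apply] at h4

/-- The number of cycles.  Proof. Multiply out. -/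
theorem prod_count (h K N0 N1 N3 : ℕ) (hh : 1 ≤ h) (hK : 1 ≤ K)
    (e0 : 6 * N0 = (2 * K + 1 - 1) * (2 * K + 1 - 2))
    (e1 : 6 * N1 = (2 * h + 1 - 1) * (2 * h + 1 - 2) * (2 * K + 1) ^ 2) (e3 : N3 + 2 * K = N0) :
    6 * (N1 + (N0 * (6 * h) + (N3 + (2 * h + 1) * (2 * K)))) =
      ((2 * h + 1) * (2 * K + 1) - 1) * ((2 * h + 1) * (2 * K + 1) - 2) := by
  obtain ⟨x, rfl⟩ := Nat.exists_eq_add_of_le hh
  obtain ⟨y, rfl⟩ := Nat.exists_eq_add_of_le hK
  have a1 : 2 * (1 + y) + 1 - 1 = 2 * y + 2 := by omega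
  have a2 : 2 * (1 + y) + 1 - 2 = 2 * y + 1 := by omega
  have a3 : 2 * (1 + x) + 1 - 1 = 2 * x + 2 := by omega
  have a4 : 2 * (1 + x) + 1 - 2 = 2 * x + 1 := by omega
  have a5 : (2 * (1 + x) + 1) * (2 * (1 + y) + 1) = 4 * (x * y) + 6 * x + 6 * y + 9 := by ring
  have a6 : 4 * (x * y) + 6 * x + 6 * y + 9 - 1 = 4 * (x * y) + 6 * x + 6 * y + 8 := by omega
  have a7 : 4 * (x * y) + 6 * x + 6 * y + 9 - 2 = 4 * (x * y) + 6 * x + 6 * y + 7 := by omega
  rw [a1, a2] at e0
  rw [a3, a4] at e1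
  rw [a5, a6, a7]
  zify at e0 e1 e3 ⊢
  linear_combination e1 + (6 * (x : ℤ) + 7) * e0 + 6 * e3

/-- **The product theorem** for `a = 2h + 1`, `b = 2K + 1`.

Proof.  `THs` for `Option (ZMod (2K))`: `c0 i` (`i : I0`), `g`, with `(c0 (g v)).f 0 = v`, `(c0 (g v)).f (2K) = none` for `v ≠ none`.  `Sp i := ∃ j, i = g (some j)`;
`j ↦ g (some j)` is injective (first values), so `|{i // ¬ Sp i}| + 2K = |I0|` (`Fintype.card_subtype_compl`, `Set.card_range_of_injective` or `Fintype.card_congr` with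
`Equiv.ofInjective`).  `c1`: `part1` with `m = 2K + 1`, `X = ZMod (2h+1)`, transported along
`ZMod (2K+1) × ZMod (2h+1) ≃ ZMod (2h+1) × Option (ZMod (2K))` (`Equiv.prodComm`, `Nat.card` of the second factors are equal), `Cyc.map_has`.  `c2`: `part2`.
`c3`: `part2'`.  `c4 (m, j)`: `exists_T h (2K) (Dr (2K) j) (c0 (g (some j))).f` (`zz_surj`, `Dr j 0 = some j = C 0`, `Dr j (2K) = none = C (2K)`).
`prod_covers` with `w = cw (ws (2h+1) (2K+1))` (`cw_ws`, `round_cover`, `L_cover`), `prod_count`.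
Then `THs_of_adj` with `s = (0, none)` and `g' : (x, some j) ↦` the cycle of part 2 with the window `(0, none), (x, some j), (x + e, …)` at `t = 2K` of `c0 (g (some j))`,
`d = x`, `e = 0` if `x ≠ 0`, `e = 1` if `x = 0` (the letters of `0 … 0 1 0` at the places `2K`, `2K + 1` are `0`, `0`, so the second alternative of `part2` is impossible);
`(x, none) ↦ c4 (m, 0)` with `2 (m + 1) = x`: for `x ≠ 0`, `x = m + 1 + δ`, `0 = m + 1 - δ`, `δ = ±(2t - 1)` (`two_mul_sub_cases`), and
`(m + 2t, none)`, `(m + 2 - 2t, none)` are neighbours (`IsT.s4`).  `g'` is injective: for `(x, some j)`, `(x', some j')`: `g (some j) = g (some j')`, so `j = j'`, and the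
successor of `(0, none)` is unique (`Cyc.succ_unique`); for `(x, none)`: `m` determines `x`. -/
theorem THs_prod (h K : ℕ) (hh : 2 ≤ h) (hK : 5 ≤ K) (h3a : ¬ 3 ∣ 2 * h + 1) (h3b : ¬ 3 ∣ 2 * K + 1)
    (hA : TH (ZMod (2 * h + 1)) (2 * h + 1)) (hB : THs (Option (ZMod (2 * K))) (2 * K + 1) none) :
    THs (ZMod (2 * h + 1) × Option (ZMod (2 * K))) ((2 * h + 1) * (2 * K + 1)) (0, none) := by
  classical
  haveI : NeZero (2 * K) := ⟨by omega⟩
  obtain ⟨I1, F1, c1, hn1, hc1⟩ := W10_part1 h K hh hK h3a hA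
  obtain ⟨-, I0, F0, c0, g, hn0, hcov0, hg⟩ := hB
  have hg0 : ∀ j, (c0 (g (some j))).f 0 = some j := fun j => (hg _ (Option.some_ne_none j)).1
  have hg1 : ∀ j, (c0 (g (some j))).f (2 * K) = none := by
    intro j
    have h1 := (hg _ (Option.some_ne_none j)).2
    rwa [Nat.add_sub_cancel] at h1
  have hginj : ∀ j j', g (some j) = g (some j') → j = j' := by
    intro j j' h1
    have h2 := hg0 j
    rw [h1, hg0 j'] at h2
    exact (Option.some_injective _ h2).symm
  -- part 2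
  have hp2 := fun i : I0 => part2 h (2 * K + 1) (by omega) (by omega) h3b (c0 i)
  choose c2 hc2 using hp2
  have hp2' := fun i : I0 => part2' (2 * h + 1) (2 * K + 1) (by omega) (c0 i)
  choose c3 hc3 using hp2'
  have hp4 : ∀ (m : ZMod (2 * h + 1)) (j : ZMod (2 * K)),
      ∃ c : Cyc (ZMod (2 * h + 1) × Option (ZMod (2 * K))) ((2 * h + 1) * (2 * K + 1)),
        IsT h (2 * K) (Dr (2 * K) j) (c0 (g (some j))).f m c := by
    intro m j
    refine exists_T h (2 * K) (by omega) (by omega) _ _ ?_ ?_ ?_ ?_ m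
    · intro y
      rcases y with _ | y
      · exact ⟨2 * K, le_refl _, W9_DrM⟩
      · obtain ⟨k, hk, hk'⟩ := zz_surj (2 * K) (by omega) j y
        exact ⟨k, hk.le, by rw [W9_Dr hk, hk']⟩
    · intro y
      obtain ⟨k, hk, hk'⟩ := (c0 (g (some j))).exists_lt (by omega) y
      exact ⟨k, by omega, hk'⟩
    · rw [W9_Dr (by omega : 0 < 2 * K), W9_zz0, add_zero, hg0 j]
    · rw [W9_DrM, hg1 j]
  choose c4 hc4 using hp4
  let Sp : I0 → Prop := fun i => ∃ j, i = g (some j)
  have hws : ∀ t, cw (ws (2 * h + 1) (2 * K + 1)) t =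
      if t % (2 * K + 1) = 2 * K - 1 then 1 else 0 := by
    intro t
    rw [cw_ws _ _ (by omega)]
    rfl
  let cc := Sum.elim c1 (Sum.elim (fun q : I0 × Fin (6 * h) => c2 q.1 q.2)
    (Sum.elim (fun i : {i : I0 // ¬ Sp i} => c3 i.1)
      (fun q : ZMod (2 * h + 1) × ZMod (2 * K) => c4 q.1 q.2)))
  have hcov : Covers cc := by
    refine prod_covers c0 hcov0 (cw (ws (2 * h + 1) (2 * K + 1))) Sp c1 hc1 _ ?_ _ ?_ _ ?_ ?_
    · intro i t x d e hde
      exact hc2 i t x d e hde
    · intro i t x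
      exact hc3 i.1 t x
    · rintro i ⟨j, rfl⟩ t x
      obtain ⟨m, hm⟩ := round_cover h (2 * K) (by omega) (Dr (2 * K) j) (c0 (g (some j)))
        (fun m => c4 m j) (fun m => hc4 m j) t x
      refine ⟨(m, j), ?_⟩
      rw [hws, hws]
      exact hm
    · intro p q y y' hpq hy
      obtain ⟨m, j, hmj⟩ := L_cover h K (by omega) (by omega) (fun j => (c0 (g (some j))).f) c4
        hc4 p q y y' hpq hy
      exact ⟨(m, j), hmj⟩
  -- the number
  have hN3 : Fintype.card {i : I0 // ¬ Sp i} + 2 * K = Fintype.card I0 := by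
    have e1 : Fintype.card {i : I0 // Sp i} = 2 * K := by
      have e2 : Fintype.card (ZMod (2 * K)) = Fintype.card {i : I0 // Sp i} := by
        refine Fintype.card_of_bijective
          (f := fun j : ZMod (2 * K) => (⟨g (some j), j, rfl⟩ : {i : I0 // Sp i})) ⟨?_, ?_⟩
        · intro j j' hj
          exact hginj j j' (congrArg Subtype.val hj)
        · rintro ⟨i, j, rfl⟩
          exact ⟨j, rfl⟩
      rw [← e2, ZMod.card]
    have e3 := Fintype.card_subtype_compl Sp
    have e4 := Fintype.card_subtype_le Sp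
    omega
  have hcard : 6 * Fintype.card (I1 ⊕ (I0 × Fin (6 * h)) ⊕ {i : I0 // ¬ Sp i} ⊕
      (ZMod (2 * h + 1) × ZMod (2 * K))) =
      ((2 * h + 1) * (2 * K + 1) - 1) * ((2 * h + 1) * (2 * K + 1) - 2) := by
    rw [Fintype.card_sum, Fintype.card_sum, Fintype.card_sum, Fintype.card_prod,
      Fintype.card_prod, Fintype.card_fin, ZMod.card, ZMod.card]
    exact prod_count h K _ _ _ (by omega) (by omega) hn0 hn1 hN3
  -- the special cycles
  have hex : ∀ (x : ZMod (2 * h + 1)) (j : ZMod (2 * K)), ∃ (p : Fin (6 * h))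
      (z : ZMod (2 * h + 1) × Option (ZMod (2 * K))),
      (c2 (g (some j)) p).Win (0, none) (x, some j) z := by
    intro x j
    have hf0 : (c0 (g (some j))).f (2 * K + 1) = some j := by
      have h1 := (c0 (g (some j))).per 0
      rw [Nat.zero_add] at h1
      rw [h1, hg0 j]
    have w0 : cw (ws (2 * h + 1) (2 * K + 1)) (2 * K) = 0 := by
      rw [hws, if_neg]
      rw [Nat.mod_eq_of_lt (by omega)]
      omega
    have w1 : cw (ws (2 * h + 1) (2 * K + 1)) (2 * K + 1) = 0 := by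
      rw [hws, if_neg]
      rw [Nat.mod_self]
      omega
    by_cases hx : x = 0
    · rcases hc2 (g (some j)) (2 * K) 0 x 1 (Or.inl hx) with ⟨p, hp⟩ | ⟨_, hp⟩
      · rw [hg1 j, hf0, zero_add] at hp
        exact ⟨p, _, hp⟩
      · exfalso
        rw [w1] at hp
        haveI : Fact (1 < 2 * h + 1) := ⟨by omega⟩
        exact zero_ne_one hp
    · rcases hc2 (g (some j)) (2 * K) 0 x 0 (Or.inr (Or.inl rfl)) with ⟨p, hp⟩ | ⟨hp, _⟩
      · rw [hg1 j, hf0, zero_add] at hp
        exact ⟨p, _, hp⟩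
      · exfalso
        rw [w0] at hp
        exact hx hp.symm
  choose P Z hPZ using hex
  let G : ZMod (2 * h + 1) × Option (ZMod (2 * K)) → I1 ⊕ (I0 × Fin (6 * h)) ⊕
      {i : I0 // ¬ Sp i} ⊕ (ZMod (2 * h + 1) × ZMod (2 * K)) := fun v =>
    match v.2 with
    | none => Sum.inr (Sum.inr (Sum.inr (v.1 * ((h : ZMod (2 * h + 1)) + 1) - 1, 0)))
    | some j => Sum.inr (Sum.inl (g (some j), P v.1 j))
  have hb : 0 < (2 * h + 1) * (2 * K + 1) := by positivity
  refine THs_of_adj (W10_card h K (by omega)) hb cc hcard hcov (0, none) G ?_ ?_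
  · rintro ⟨x, y⟩ hv
    rcases y with _ | j
    · change (c4 (x * ((h : ZMod (2 * h + 1)) + 1) - 1) 0).Adj (0, none) (x, none)
      have hx : x ≠ 0 := by
        intro h1
        apply hv
        rw [h1]
      have hm := W10_half x
      generalize hmm : x * ((h : ZMod (2 * h + 1)) + 1) - 1 = m at hm ⊢
      have hd : m + 1 ≠ 0 := by
        intro h1
        rw [h1, mul_zero] at hm
        exact hx hm.symm
      obtain ⟨t, ht1, ht2, ht⟩ := two_mul_sub_cases (m + 1) hd
      have hs := ((hc4 m 0).s4 t ht1 ht2).adj'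
      rw [W9_DrM] at hs
      rcases ht with ht | ht
      · have y1 : m + 2 * (t : ZMod (2 * h + 1)) = x := by
          rw [← hm]
          linear_combination - ht
        have y2 : m + 2 - 2 * (t : ZMod (2 * h + 1)) = 0 := by
          linear_combination ht
        rw [y1, y2] at hs
        exact hs.symm
      · have y1 : m + 2 * (t : ZMod (2 * h + 1)) = 0 := by
          linear_combination ht
        have y2 : m + 2 - 2 * (t : ZMod (2 * h + 1)) = x := by
          rw [← hm]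
          linear_combination - ht
        rw [y1, y2] at hs
        exact hs
    · change (c2 (g (some j)) (P x j)).Adj (0, none) (x, some j)
      exact (hPZ x j).adj
  · rintro ⟨x, y⟩ ⟨x', y'⟩ _ _ hG
    rcases y with _ | j
    · rcases y' with _ | j'
      · have h1 : (Sum.inr (Sum.inr (Sum.inr (x * ((h : ZMod (2 * h + 1)) + 1) - 1, 0))) :
            I1 ⊕ (I0 × Fin (6 * h)) ⊕ {i : I0 // ¬ Sp i} ⊕
              (ZMod (2 * h + 1) × ZMod (2 * K))) =
            Sum.inr (Sum.inr (Sum.inr (x' * ((h : ZMod (2 * h + 1)) + 1) - 1, 0))) := hG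
        have h2 : x * ((h : ZMod (2 * h + 1)) + 1) - 1 =
            x' * ((h : ZMod (2 * h + 1)) + 1) - 1 := by
          have h3 := Sum.inr_injective (Sum.inr_injective (Sum.inr_injective h1))
          exact congrArg Prod.fst h3
        have h4 := W10_half x
        rw [h2, W10_half x'] at h4
        rw [h4]
      · exact absurd (Sum.inr_injective hG) (by simp)
    · rcases y' with _ | j'
      · exact absurd (Sum.inr_injective hG) (by simp)
      · have h1 : (Sum.inr (Sum.inl (g (some j), P x j)) : I1 ⊕ (I0 × Fin (6 * h)) ⊕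
            {i : I0 // ¬ Sp i} ⊕ (ZMod (2 * h + 1) × ZMod (2 * K))) =
            Sum.inr (Sum.inl (g (some j'), P x' j')) := hG
        have h2 := Sum.inl_injective (Sum.inr_injective h1)
        have h3 : j = j' := hginj j j' (congrArg Prod.fst h2)
        subst h3
        have h4 : P x j = P x' j := congrArg Prod.snd h2
        have h5 := hPZ x' j
        rw [← h4] at h5
        have h6 := Cyc.succ_unique _ hb (W10_card h K (by omega)) (hPZ x j) h5
        rw [h6]

/-- The product theorem.  Proof. `THs_prod`, `TH.congr`, `THs.congr`. -/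
theorem THs_mul {a b : ℕ} (ha : Odd a) (hb : Odd b) (ha5 : 5 ≤ a) (hb11 : 11 ≤ b) (h3a : ¬ 3 ∣ a)
    (h3b : ¬ 3 ∣ b) (hA : TH (Fin a) a) {s : Fin b} (hB : THs (Fin b) b s) (s' : Fin (a * b)) :
    THs (Fin (a * b)) (a * b) s' := by
  obtain ⟨h, rfl⟩ := ha
  obtain ⟨K, rfl⟩ := hb
  have hK : 5 ≤ K := by omega
  have hA' : TH (ZMod (2 * h + 1)) (2 * h + 1) := hA.congr (by omega) (Nat.card_zmod _)
  have hB' : THs (Option (ZMod (2 * K))) (2 * K + 1) none :=
    hB.congr (by omega) (W10_card_some K (by omega)) none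
  have h1 := THs_prod h K (by omega) hK h3a h3b hA' hB'
  exact h1.congr (by positivity) (Nat.card_fin _) s'

end Wr
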