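import Pool.Agent.H.MP_4bad09_co.W0

set_option autoImplicit false

/-!
# The zigzag (MP_4bad09_co, helper11)
-/

namespace Wr

/-- `j + zz M k`, `k < M`, takes all values.  Proof. It is enough that `zz M k`, `k < M`, takes all values `y ∈ ZMod M`: let `v = y.val < M`.
If `2 v ≤ M` and `v ≥ 1`, `k = 2 v - 1`; if `v = 0`, `k = 0`; if `2 v > M`: `k = 2 (M - v)`. -/
theorem zz_surj (M : ℕ) (hM : 1 ≤ M) (j y : ZMod M) : ∃ k < M, j + zz M k = y := by
  have : NeZero M := ⟨by omega⟩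
  have hv : (((y - j).val : ℕ) : ZMod M) = y - j := ZMod.natCast_zmod_val _
  have hlt : (y - j).val < M := ZMod.val_lt _
  generalize hvv : (y - j).val = v at hv hlt
  rcases Nat.eq_zero_or_pos v with h0 | h0
  · refine ⟨0, by omega, ?_⟩
    subst h0
    rw [Nat.cast_zero] at hv
    have h1 : zz M 0 = 0 := by
      unfold zz
      simp
    rw [h1, hv]
    ring
  · rcases Nat.lt_or_ge M (2 * v) with h1 | h1
    · refine ⟨2 * (M - v), by omega, ?_⟩
      have h2 : zz M (2 * (M - v)) = (v : ZMod M) := by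
        unfold zz
        rw [if_pos (by omega), show 2 * (M - v) / 2 = M - v by omega, Nat.cast_sub (by omega),
          ZMod.natCast_self]
        ring
      rw [h2, hv]
      ring
    · refine ⟨2 * v - 1, by omega, ?_⟩
      have h2 : zz M (2 * v - 1) = (v : ZMod M) := by
        unfold zz
        rw [if_neg (by omega), show (2 * v - 1 + 1) / 2 = v by omega]
      rw [h2, hv]
      ring

/-- the differences of the zigzag -/
theorem zz_succ (M k : ℕ) :
    zz M (k + 1) - zz M k = if k % 2 = 0 then ((k + 1 : ℕ) : ZMod M) else -((k + 1 : ℕ) : ZMod M) := by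
  unfold zz
  by_cases hk : k % 2 = 0
  · rw [if_neg (by omega), if_pos hk, if_pos hk]
    have h1 : ((k + 1 : ℕ) : ZMod M) = (((k + 1 + 1) / 2 : ℕ) : ZMod M) + ((k / 2 : ℕ) : ZMod M) := by
      rw [← Nat.cast_add]
      congr 1
      omega
    rw [h1]
    ring
  · rw [if_pos (by omega), if_neg hk, if_neg hk]
    have h1 : ((k + 1 : ℕ) : ZMod M) = (((k + 1) / 2 : ℕ) : ZMod M) + (((k + 1) / 2 : ℕ) : ZMod M) := by
      rw [← Nat.cast_add]
      congr 1
      omega
    rw [h1]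
    ring

theorem W7_key {M : ℕ} {y y' : ZMod M} {k : ℕ} (h : zz M (k + 1) - zz M k = y' - y) :
    (y - zz M k) + zz M k = y ∧ (y - zz M k) + zz M (k + 1) = y' := by
  refine ⟨by ring, ?_⟩
  have h1 : zz M (k + 1) = y' - y + zz M k := by
    rw [← h]
    ring
  rw [h1]
  ring

theorem W7_pos {M : ℕ} [NeZero M] {y y' : ZMod M} (h : y ≠ y') : 1 ≤ (y' - y).val := by
  rw [Nat.one_le_iff_ne_zero]
  intro h1
  rw [ZMod.val_eq_zero, sub_eq_zero] at h1
  exact h h1.symm

/-- odd difference, even place -/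
theorem W7_a {M : ℕ} [NeZero M] {y y' : ZMod M} (hv : (y' - y).val % 2 = 1) :
    ∃ (j : ZMod M) (k : ℕ), k % 2 = 0 ∧ k + 1 < M ∧ j + zz M k = y ∧ j + zz M (k + 1) = y' := by
  have h1 : (((y' - y).val : ℕ) : ZMod M) = y' - y := ZMod.natCast_zmod_val _
  have h2 : (y' - y).val < M := ZMod.val_lt _
  generalize (y' - y).val = v at h1 h2 hv
  refine ⟨y - zz M (v - 1), v - 1, by omega, by omega, ?_⟩
  apply W7_key
  rw [zz_succ, if_pos (by omega), show v - 1 + 1 = v by omega, h1]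

/-- `M - v` even, odd place -/
theorem W7_b {M : ℕ} [NeZero M] {y y' : ZMod M} (hv : (M - (y' - y).val) % 2 = 0) (h : y ≠ y') :
    ∃ (j : ZMod M) (k : ℕ), k % 2 = 1 ∧ k + 1 < M ∧ j + zz M k = y ∧ j + zz M (k + 1) = y' := by
  have h1 : (((y' - y).val : ℕ) : ZMod M) = y' - y := ZMod.natCast_zmod_val _
  have h2 : (y' - y).val < M := ZMod.val_lt _
  have h3 := W7_pos h
  generalize (y' - y).val = v at h1 h2 h3 hv
  refine ⟨y - zz M (M - v - 1), M - v - 1, by omega, by omega, ?_⟩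
  apply W7_key
  rw [zz_succ, if_neg (by omega), show M - v - 1 + 1 = M - v by omega, Nat.cast_sub (by omega),
    ZMod.natCast_self, h1]
  ring

/-- `M` even: every ordered pair of different points is consecutive in one of the translates.

Proof. `δ = y' - y ≠ 0`, `v = δ.val`, `1 ≤ v < M`.  `v` odd: `k = v - 1` (even), `zz (k + 1) - zz k = k + 1 = v`.  `v` even: `k = M - 1 - v` (odd),
`zz (k + 1) - zz k = -(M - v) = v`.  `j = y - zz M k`. -/
theorem zz_even {K : ℕ} (hK : 1 ≤ K) {y y' : ZMod (2 * K)} (h : y ≠ y') :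
    ∃ (j : ZMod (2 * K)) (k : ℕ), k + 1 < 2 * K ∧ j + zz (2 * K) k = y ∧ j + zz (2 * K) (k + 1) = y' := by
  have : NeZero (2 * K) := ⟨by omega⟩
  by_cases hv : (y' - y).val % 2 = 1
  · obtain ⟨j, k, -, h1⟩ := W7_a hv
    exact ⟨j, k, h1⟩
  · have h2 : (y' - y).val < 2 * K := ZMod.val_lt _
    obtain ⟨j, k, -, h1⟩ := W7_b (y := y) (y' := y') (by omega) h
    exact ⟨j, k, h1⟩

theorem W7_two {K : ℕ} {y y' : ZMod (2 * K + 1)} (hv : (y' - y).val % 2 = 1) (h : y ≠ y') :
    ∀ e < 2, ∃ (j : ZMod (2 * K + 1)) (k : ℕ), k % 2 = e ∧ k + 1 < 2 * K + 1 ∧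
      j + zz (2 * K + 1) k = y ∧ j + zz (2 * K + 1) (k + 1) = y' := by
  intro e he
  have h2 : (y' - y).val < 2 * K + 1 := ZMod.val_lt _
  rcases Nat.eq_zero_or_pos e with h0 | h0
  · subst h0
    exact W7_a hv
  · have h1 : e = 1 := by omega
    subst h1
    exact W7_b (by omega) h

/-- `M = 2 K + 1` odd: for different points `y`, `y'` either `y, y'` is consecutive in two of the translates, at an even and at an odd
place, or `y', y` is.

Proof. `δ = y' - y`, `v = δ.val`, `1 ≤ v ≤ 2 K`.  If `v` is odd: `k = v - 1` is even and `zz (k + 1) - zz k = k + 1 = v`, `k = 2 K - v` is odd and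
`zz (k + 1) - zz k = -(2 K + 1 - v) = v`.  If `v` is even use `y - y'`, with the odd value `2 K + 1 - v`. -/
theorem zz_odd {K : ℕ} (hK : 1 ≤ K) {y y' : ZMod (2 * K + 1)} (h : y ≠ y') :
    (∀ e < 2, ∃ (j : ZMod (2 * K + 1)) (k : ℕ), k % 2 = e ∧ k + 1 < 2 * K + 1 ∧
      j + zz (2 * K + 1) k = y ∧ j + zz (2 * K + 1) (k + 1) = y') ∨
    (∀ e < 2, ∃ (j : ZMod (2 * K + 1)) (k : ℕ), k % 2 = e ∧ k + 1 < 2 * K + 1 ∧
      j + zz (2 * K + 1) k = y' ∧ j + zz (2 * K + 1) (k + 1) = y) := by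
  have h2 : (y' - y).val < 2 * K + 1 := ZMod.val_lt _
  by_cases hv : (y' - y).val % 2 = 1
  · exact Or.inl (W7_two hv h)
  · refine Or.inr (W7_two ?_ h.symm)
    have h3 : (y - y').val = 2 * K + 1 - (y' - y).val := by
      rw [show y - y' = -(y' - y) by ring, ZMod.neg_val, if_neg (sub_ne_zero.2 h.symm)]
    rw [h3]
    omega

end Wr
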