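import Pool.Agent.H.MP_4bad09_co.W1
import Pool.Agent.H.MP_4bad09_co.W7

set_option autoImplicit false

/-!
# Doubling: the additional cycles (MP_4bad09_co, helper11)
-/

namespace Wr

theorem W11a_two {x : ZMod 2} : x = 0 ∨ x = 1 := by
  revert x
  decide

/-- The cycles `T` for the doubling.

Proof.  `f u := let u' := u % (2 * (M + 1)); (ε (u' / 2) + u' % 2, D (u' / 2))`. -/
theorem exists_T2 {Y : Type} (M : ℕ) (D : ℕ → Y) (hD : ∀ y, ∃ k ≤ M, D k = y) (ε : ℕ → ZMod 2) :
    ∃ c : Cyc (ZMod 2 × Y) (2 * (M + 1)),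
      (∀ k < M, c.Win (ε k, D k) (ε k + 1, D k) (ε (k + 1), D (k + 1)) ∧
        c.Win (ε k + 1, D k) (ε (k + 1), D (k + 1)) (ε (k + 1) + 1, D (k + 1))) ∧
      c.Win (ε M, D M) (ε M + 1, D M) (ε 0, D 0) ∧ c.Win (ε M + 1, D M) (ε 0, D 0) (ε 0 + 1, D 0) := by
  obtain ⟨F, hF⟩ : ∃ F : ℕ → ZMod 2 × Y, F = fun u =>
      (ε (u % (2 * (M + 1)) / 2) + ((u % (2 * (M + 1)) % 2 : ℕ) : ZMod 2),
        D (u % (2 * (M + 1)) / 2)) := ⟨_, rfl⟩
  have h0 : ∀ k ≤ M, F (2 * k) = (ε k, D k) := by
    intro k hk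
    have e1 : 2 * k % (2 * (M + 1)) = 2 * k := Nat.mod_eq_of_lt (by omega)
    have e2 : 2 * k / 2 = k := by omega
    have e3 : 2 * k % 2 = 0 := by omega
    rw [hF]
    simp only
    rw [e1, e2, e3, Nat.cast_zero, add_zero]
  have h1 : ∀ k ≤ M, F (2 * k + 1) = (ε k + 1, D k) := by
    intro k hk
    have e1 : (2 * k + 1) % (2 * (M + 1)) = 2 * k + 1 := Nat.mod_eq_of_lt (by omega)
    have e2 : (2 * k + 1) / 2 = k := by omega
    have e3 : (2 * k + 1) % 2 = 1 := by omega
    rw [hF]
    simp only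
    rw [e1, e2, e3, Nat.cast_one]
  have hper : ∀ t, F (t + 2 * (M + 1)) = F t := by
    intro t
    rw [hF]
    simp only
    rw [Nat.add_mod_right]
  refine ⟨⟨F, hper, ?_⟩, ?_, ?_, ?_⟩
  · rintro ⟨z, y⟩
    obtain ⟨k, hk, hy⟩ := hD y
    rcases W11a_two (x := z - ε k) with h | h
    · refine ⟨2 * k, ?_⟩
      rw [h0 k hk, hy, sub_eq_zero.1 h]
    · refine ⟨2 * k + 1, ?_⟩
      rw [h1 k hk, hy, ← h, add_sub_cancel]
  · intro k hk
    refine ⟨⟨2 * k, h0 k hk.le, h1 k hk.le, ?_⟩, ⟨2 * k + 1, h1 k hk.le, ?_, ?_⟩⟩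
    · exact h0 (k + 1) (by omega)
    · exact h0 (k + 1) (by omega)
    · exact h1 (k + 1) (by omega)
  · refine ⟨2 * M, h0 M le_rfl, h1 M le_rfl, ?_⟩
    have := hper 0
    rw [zero_add] at this
    exact this.trans (h0 0 (by omega))
  · refine ⟨2 * M + 1, h1 M le_rfl, ?_, ?_⟩
    · have := hper 0
      rw [zero_add] at this
      exact this.trans (h0 0 (by omega))
    · have := hper 1
      have e : 1 + 2 * (M + 1) = 2 * M + 1 + 2 := by ring
      rw [e] at this
      exact this.trans (h1 0 (by omega))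

/-- The triples `{(0, y), (1, y), (z, y')}`: there are `M` cycles.

Proof. `M + 1 = b` points `Option (ZMod M)`, `M ≥ 2`.  For `j : ZMod M` take `exists_T2 M (Dr M j) ε` with `ε k = 0` for all `k` if `M` is even, and `ε k = k % 2` for
`k < M`, `ε M = 0`, if `M` is odd (`zz_surj` gives the surjectivity of `Dr`).
`M` even, `y, y'` both `some`: `z = 0`: `zz_even` for `(y, y')` and the first window; `z = 1`: `zz_even` for `(y', y)` and the second window (`(1, y'), (0, y), (1, y)`).
`M` odd, `y, y'` both `some`: `zz_odd`: first case: the windows `(ε k, y), (ε k + 1, y), (ε (k+1), y')` with `k` even and with `k` odd have `ε (k+1) = 1` and `0`; second case: the windows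
`(ε k + 1, y'), (ε (k+1), y), (ε (k+1) + 1, y)`, `ε k + 1 = 1`, `0`.
`y' = none`: `y = Dr j (M - 1)` for some `j`: the window `(·, y), (·, y), (0, none)`; `y = Dr j 0` for `j = y`: `(1, none), (0, y), (1, y)`.
`y = none`: `y' = Dr j 0`: `(0, none), (1, none), (0, y')`; `y' = Dr j (M - 1)`: the window `(ε (M-1) + 1, y'), (0, none), (1, none)`, `ε (M-1) = 0` as `M - 1` is even for `M` odd. -/
theorem L_cover2 (M : ℕ) (hM : 3 ≤ M) :
    ∃ c : ZMod M → Cyc (ZMod 2 × Option (ZMod M)) (2 * (M + 1)),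
      ∀ (y y' : Option (ZMod M)) (z : ZMod 2), y ≠ y' → ∃ j, (c j).Has (0, y) (1, y) (z, y') := by
  obtain ⟨ε, hε⟩ : ∃ ε : ℕ → ZMod 2, ε = fun k =>
    if M % 2 = 0 then 0 else if k < M then (k : ZMod 2) else 0 := ⟨_, rfl⟩
  have hDs : ∀ j : ZMod M, ∀ y, ∃ k ≤ M, Dr M j k = y := by
    intro j y
    rcases y with _ | y
    · exact ⟨M, le_rfl, by unfold Dr; rw [if_neg (lt_irrefl M)]⟩
    · obtain ⟨k, hk, h⟩ := zz_surj M (by omega) j y
      exact ⟨k, hk.le, by unfold Dr; rw [if_pos hk, h]⟩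
  choose c hc using fun j : ZMod M => exists_T2 M (Dr M j) (hDs j) ε
  have hDl : ∀ (j : ZMod M) (k : ℕ), k < M → Dr M j k = some (j + zz M k) := by
    intro j k hk
    unfold Dr
    rw [if_pos hk]
  have hDM : ∀ j : ZMod M, Dr M j M = none := by
    intro j
    unfold Dr
    rw [if_neg (lt_irrefl M)]
  have hεM : ε M = 0 := by
    rw [hε]
    simp
  have hε0 : ε 0 = 0 := by
    rw [hε]
    simp
  have hεM1 : ε (M - 1) = 0 := by
    rw [hε]
    simp only
    split_ifs with h1 h2
    · rfl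
    · have : M - 1 = 2 * ((M - 1) / 2) := by omega
      rw [this, Nat.cast_mul]
      have h2 : ((2 : ℕ) : ZMod 2) = 0 := rfl
      rw [h2, zero_mul]
    · rfl
  have hz0 : zz M 0 = 0 := by
    unfold zz
    simp
  have h11 : (1 : ZMod 2) + 1 = 0 := rfl
  refine ⟨c, fun y y' z hyy => ?_⟩
  rcases y with _ | y <;> rcases y' with _ | y'
  · exact absurd rfl hyy
  · rcases W11a_two (x := z) with h | h
    · subst h
      have h1 := (hc y').2.1
      rw [hDM, hεM, zero_add, hε0, hDl y' 0 (by omega), hz0, add_zero] at h1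
      exact ⟨y', h1.has⟩
    · subst h
      have h1 := ((hc (y' - zz M (M - 1))).1 (M - 1) (by omega)).2
      have e : M - 1 + 1 = M := by omega
      rw [e, hDM, hεM, hεM1, zero_add, hDl _ (M - 1) (by omega), sub_add_cancel] at h1
      exact ⟨_, h1.has.rot⟩
  · rcases W11a_two (x := z) with h | h
    · subst h
      have h1 := ((hc (y - zz M (M - 1))).1 (M - 1) (by omega)).1
      have e : M - 1 + 1 = M := by omega
      rw [e, hDM, hεM, hεM1, zero_add, hDl _ (M - 1) (by omega), sub_add_cancel] at h1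
      exact ⟨_, h1.has⟩
    · subst h
      have h1 := (hc y).2.2
      rw [hDM, hεM, zero_add, hε0, hDl y 0 (by omega), hz0, add_zero, zero_add] at h1
      exact ⟨y, h1.has.rot⟩
  · have hne : y ≠ y' := fun h => hyy (by rw [h])
    rcases Nat.even_or_odd' M with ⟨K, hK | hK⟩
    · -- `M` even
      have hεk : ∀ k, ε k = 0 := by
        intro k
        rw [hε]
        have : M % 2 = 0 := by omega
        simp [this]
      subst hK
      rcases W11a_two (x := z) with h | h
      · subst h
        obtain ⟨j, k, hk, e1, e2⟩ := zz_even (by omega) hne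
        have h1 := ((hc j).1 k (by omega)).1
        rw [hεk, hεk, zero_add, hDl j k (by omega), hDl j (k + 1) hk, e1, e2] at h1
        exact ⟨j, h1.has⟩
      · subst h
        obtain ⟨j, k, hk, e1, e2⟩ := zz_even (by omega) hne.symm
        have h1 := ((hc j).1 k (by omega)).2
        rw [hεk, hεk, zero_add, hDl j k (by omega), hDl j (k + 1) hk, e1, e2] at h1
        exact ⟨j, h1.has.rot⟩
    · -- `M` odd
      have hεk : ∀ k < M, ε k = (k : ZMod 2) := by
        intro k hk
        rw [hε]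
        have : M % 2 = 1 := by omega
        simp [this, hk]
      have hc2 : ∀ k e : ℕ, k % 2 = e → ((k : ℕ) : ZMod 2) = (e : ZMod 2) := by
        intro k e h
        have h1 : k = e + 2 * (k / 2) := by omega
        have h2 : ((2 : ℕ) : ZMod 2) = 0 := rfl
        rw [h1, Nat.cast_add, Nat.cast_mul, h2, zero_mul, add_zero]
      subst hK
      rcases zz_odd (by omega) hne with H | H
      · rcases W11a_two (x := z) with h | h
        · subst h
          obtain ⟨j, k, hke, hk, e1, e2⟩ := H 1 (by norm_num)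
          have h1 := ((hc j).1 k (by omega)).1
          rw [hεk k (by omega), hεk (k + 1) hk, hc2 k 1 hke, hc2 (k + 1) 0 (by omega),
            hDl j k (by omega), hDl j (k + 1) hk, e1, e2, Nat.cast_one, Nat.cast_zero, h11] at h1
          exact ⟨j, h1.has.swap⟩
        · subst h
          obtain ⟨j, k, hke, hk, e1, e2⟩ := H 0 (by norm_num)
          have h1 := ((hc j).1 k (by omega)).1
          rw [hεk k (by omega), hεk (k + 1) hk, hc2 k 0 hke, hc2 (k + 1) 1 (by omega),
            hDl j k (by omega), hDl j (k + 1) hk, e1, e2, Nat.cast_one, Nat.cast_zero,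
            zero_add] at h1
          exact ⟨j, h1.has⟩
      · rcases W11a_two (x := z) with h | h
        · subst h
          obtain ⟨j, k, hke, hk, e1, e2⟩ := H 1 (by norm_num)
          have h1 := ((hc j).1 k (by omega)).2
          rw [hεk k (by omega), hεk (k + 1) hk, hc2 k 1 hke, hc2 (k + 1) 0 (by omega),
            hDl j k (by omega), hDl j (k + 1) hk, e1, e2, Nat.cast_one, Nat.cast_zero, h11,
            zero_add] at h1
          exact ⟨j, h1.has.rot⟩
        · subst h
          obtain ⟨j, k, hke, hk, e1, e2⟩ := H 0 (by norm_num)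
          have h1 := ((hc j).1 k (by omega)).2
          rw [hεk k (by omega), hεk (k + 1) hk, hc2 k 0 hke, hc2 (k + 1) 1 (by omega),
            hDl j k (by omega), hDl j (k + 1) hk, e1, e2, Nat.cast_one, Nat.cast_zero,
            zero_add, h11] at h1
          exact ⟨j, h1.has.rot.swap⟩

end Wr
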