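import Pool.Agent.H.MP_4bad09_co.W6
import Pool.Agent.H.MP_4bad09_co.W11a

set_option autoImplicit false

/-!
# Doubling (MP_4bad09_co, helper11)
-/

namespace Wr

theorem W11_two : ∀ a b z : ZMod 2, a ≠ b → z ≠ a → z ≠ b → False := by decide

theorem W11_two' : ∀ a b : ZMod 2, a ≠ b → (a = 0 ∧ b = 1) ∨ (a = 1 ∧ b = 0) := by decide

theorem W11_key {M n : ℕ} {J : Type} (c : J → Cyc (ZMod 2 × Option (ZMod M)) n)
    (hc : ∀ (y y' : Option (ZMod M)) (z : ZMod 2), y ≠ y' → ∃ j, (c j).Has (0, y) (1, y) (z, y'))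
    (p q r : ZMod 2 × Option (ZMod M)) (hpq : p ≠ q) (h2 : p.2 = q.2) (hrp : r ≠ p)
    (hrq : r ≠ q) : ∃ j, (c j).Has p q r := by
  obtain ⟨a, y⟩ := p
  obtain ⟨b, y1⟩ := q
  obtain ⟨z, y'⟩ := r
  have h2' : y = y1 := h2
  subst h2'
  have hab : a ≠ b := fun h => hpq (by rw [h])
  have hy : y ≠ y' := by
    intro h
    subst h
    exact W11_two a b z hab (fun h => hrp (by rw [h])) (fun h => hrq (by rw [h]))
  obtain ⟨j, hj⟩ := hc y y' z hy
  rcases W11_two' a b hab with ⟨rfl, rfl⟩ | ⟨rfl, rfl⟩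
  · exact ⟨j, hj⟩
  · exact ⟨j, hj.swap⟩

/-- **Doubling.**

Proof. `TH.congr` to the points `Option (ZMod (b-1))`; `part1` with `m = 2` (`a = b`) and `L_cover2`; number `4 (b-1)(b-2)/6 + (b-1) = (2b-1)(2b-2)/6`.  A triple with three
different second coordinates: `part1`.  Otherwise two points are `(0, y)`, `(1, y)` and the third one is `(z, y')` with `y' ≠ y`. -/
theorem TH_two_mul {b : ℕ} (hb : 4 ≤ b) (h5 : b ≠ 5) (h3 : ¬ 3 ∣ b) (hB : TH (Fin b) b) :
    TH (Fin (2 * b)) (2 * b) := by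
  obtain ⟨M, rfl⟩ : ∃ M, b = M + 1 := ⟨b - 1, by omega⟩
  have hM : 3 ≤ M := by omega
  have : NeZero M := ⟨by omega⟩
  have hcard : Nat.card (Option (ZMod M)) = M + 1 := by
    rw [Nat.card_eq_fintype_card, Fintype.card_option, ZMod.card]
  have hX : TH (Option (ZMod M)) (M + 1) := hB.congr (by omega) hcard
  obtain ⟨I, hI, c, hc1, hc2⟩ := part1 (m := 2) hX hb h3 (Or.inl h5)
  obtain ⟨c', hc'⟩ := L_cover2 M hM
  have hcard2 : Nat.card (ZMod 2 × Option (ZMod M)) = 2 * (M + 1) := by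
    rw [Nat.card_prod, hcard, Nat.card_zmod]
  have key := W11_key c' hc'
  have hTH : TH (ZMod 2 × Option (ZMod M)) (2 * (M + 1)) := by
    refine ⟨hcard2, I ⊕ ZMod M, inferInstance, fun i => Sum.elim c c' i, ?_, ?_⟩
    · rw [Fintype.card_sum, mul_add, hc1, ZMod.card]
      obtain ⟨k, rfl⟩ : ∃ k, M = k + 1 := ⟨M - 1, by omega⟩
      have e1 : k + 1 + 1 - 1 = k + 1 := by omega
      have e2 : k + 1 + 1 - 2 = k := by omega
      have e3 : 2 * (k + 1 + 1) - 1 = 2 * k + 3 := by omega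
      have e4 : 2 * (k + 1 + 1) - 2 = 2 * k + 2 := by omega
      rw [e1, e2, e3, e4]
      ring
    · intro x y z hxy hyz hxz
      by_cases h1 : x.2 = y.2
      · obtain ⟨j, hj⟩ := key x y z hxy h1 hxz.symm hyz.symm
        exact ⟨Sum.inr j, hj⟩
      by_cases h2 : y.2 = z.2
      · obtain ⟨j, hj⟩ := key y z x hyz h2 hxy hxz
        exact ⟨Sum.inr j, hj.rot.rot⟩
      by_cases h6 : x.2 = z.2
      · obtain ⟨j, hj⟩ := key z x y hxz.symm h6.symm hyz hxy.symm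
        exact ⟨Sum.inr j, hj.rot⟩
      obtain ⟨i, hi⟩ := hc2 x y z h1 h2 h6
      exact ⟨Sum.inl i, hi⟩
  exact hTH.congr (by omega) (Nat.card_fin _)

end Wr
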