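import Pool.Agent.H.MP_4bad09_co.W12a

set_option autoImplicit false

/-!
# The check of explicit decompositions is sound (MP_4bad09_co, helper11)
-/

namespace Wr

theorem W12_getD {n k : ℕ} (hn : 3 ≤ n) (hk : k ≤ 2) (l : List ℕ) (hl : l.length = n) {u : ℕ}
    (hu : u < n + k) : (l ++ l.take k).getD u 0 = l.getD (u % n) 0 := by
  rcases lt_or_ge u n with h | h
  · rw [List.getD_append _ _ _ _ (by rw [hl]; exact h), Nat.mod_eq_of_lt h]
  · have h1 : u - n < k := by omega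
    have h2 : u % n = u - n := by
      rw [Nat.mod_eq_sub_mod h, Nat.mod_eq_of_lt (by omega)]
    rw [List.getD_append_right _ _ _ _ (by rw [hl]; exact h), h2, hl]
    simp [List.getD_eq_getElem?_getD, List.getElem?_take, h1]

theorem W12_chk {n : ℕ} {L : List (List ℕ)} (h : chk n L = true) :
    (∀ l ∈ L, l.length = n ∧ msk l = 2 ^ n - 1) ∧ 6 * L.length = (n - 1) * (n - 2) ∧
      mskL (L.map fun l => wc n (l ++ l.take 2)) = mskL (allc n) := by
  unfold chk at h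
  rw [Bool.and_eq_true, Bool.and_eq_true, List.all_eq_true, beq_iff_eq, beq_iff_eq] at h
  refine ⟨fun l hl => ?_, h.1.2, h.2⟩
  have h1 := h.1.1 l hl
  rw [Bool.and_eq_true, beq_iff_eq, beq_iff_eq] at h1
  exact h1

/-- the cyclic orders of a checked list -/
theorem W12_cyc {n : ℕ} (hn : 3 ≤ n) {L : List (List ℕ)} (h : chk n L = true) :
    ∃ c : Fin L.length → Cyc (Fin n) n,
      (∀ i t, (((c i).f t : Fin n) : ℕ) = (L.get i).getD (t % n) 0) ∧ Covers c := by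
  obtain ⟨h1, h2, h3⟩ := W12_chk h
  have h4 : ∀ i : Fin L.length, ∃ c : Cyc (Fin n) n,
      ∀ t, ((c.f t : Fin n) : ℕ) = (L.get i).getD (t % n) 0 := fun i =>
    exists_cyc (by omega) (L.get i) (h1 _ (List.get_mem L i)).1 (h1 _ (List.get_mem L i)).2
  choose c hc using h4
  refine ⟨c, hc, ?_⟩
  intro x y z hxy hyz hxz
  have e1 : (x : ℕ) ≠ y := fun e => hxy (Fin.ext e)
  have e2 : (y : ℕ) ≠ z := fun e => hyz (Fin.ext e)
  have e3 : (x : ℕ) ≠ z := fun e => hxz (Fin.ext e)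
  have h5 := (testBit_mskL (allc n) (code n x y z)).2 (code_mem_allc x.2 y.2 z.2 e1 e2 e3)
  rw [← h3, testBit_mskL] at h5
  obtain ⟨l', hl', hx⟩ := h5
  rw [List.mem_map] at hl'
  obtain ⟨l, hl, rfl⟩ := hl'
  obtain ⟨i, hi⟩ := List.get_of_mem hl
  have hlen := (h1 l hl).1
  obtain ⟨t, ht, hcode⟩ := mem_wc n _ _ hx
  have ht2 : t + 2 < n + 2 := by
    rw [List.length_append, List.length_take, hlen] at ht
    omega
  rw [W12_getD hn le_rfl l hlen (by omega), W12_getD hn le_rfl l hlen (by omega),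
    W12_getD hn le_rfl l hlen (by omega), ← hi, ← hc, ← hc, ← hc] at hcode
  refine ⟨i, ?_⟩
  rcases code_inj x.2 y.2 z.2 ((c i).f t).2 ((c i).f (t + 1)).2 ((c i).f (t + 2)).2 hcode with
    ⟨a, b, d⟩ | ⟨a, b, d⟩ | ⟨a, b, d⟩ | ⟨a, b, d⟩ | ⟨a, b, d⟩ | ⟨a, b, d⟩
  · exact Or.inl ⟨t, (Fin.ext a).symm, (Fin.ext b).symm, (Fin.ext d).symm⟩
  · exact Or.inr (Or.inl ⟨t, (Fin.ext a).symm, (Fin.ext d).symm, (Fin.ext b).symm⟩)
  · exact Or.inr (Or.inr (Or.inl ⟨t, (Fin.ext b).symm, (Fin.ext a).symm, (Fin.ext d).symm⟩))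
  · exact Or.inr (Or.inr (Or.inr (Or.inr (Or.inl
      ⟨t, (Fin.ext d).symm, (Fin.ext a).symm, (Fin.ext b).symm⟩))))
  · exact Or.inr (Or.inr (Or.inr (Or.inl ⟨t, (Fin.ext b).symm, (Fin.ext d).symm,
      (Fin.ext a).symm⟩)))
  · exact Or.inr (Or.inr (Or.inr (Or.inr (Or.inr
      ⟨t, (Fin.ext d).symm, (Fin.ext b).symm, (Fin.ext a).symm⟩))))

theorem W12_adjc (v : ℕ) : ∀ l : List ℕ, adjc v l = true → ∃ t, t + 1 < l.length ∧
    ((l.getD t 0 = 0 ∧ l.getD (t + 1) 0 = v) ∨ (l.getD t 0 = v ∧ l.getD (t + 1) 0 = 0))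
  | [], h => by
    unfold adjc at h
    exact absurd h (by simp)
  | [_], h => by
    unfold adjc at h
    exact absurd h (by simp)
  | x :: y :: r, h => by
    unfold adjc at h
    rw [Bool.or_eq_true, Bool.or_eq_true, Bool.and_eq_true, Bool.and_eq_true, beq_iff_eq,
      beq_iff_eq, beq_iff_eq, beq_iff_eq] at h
    rcases h with (h | h) | h
    · exact ⟨0, by simp, Or.inl ⟨h.1, h.2⟩⟩
    · exact ⟨0, by simp, Or.inr ⟨h.1, h.2⟩⟩
    · obtain ⟨t, ht, h1⟩ := W12_adjc v (y :: r) h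
      refine ⟨t + 1, by simpa using ht, ?_⟩
      simpa using h1

/-- Proof. `I = Fin L.length`, `exists_cyc`; `Covers`: `code_mem_allc`, `testBit_mskL`, `mem_wc` (the elements of `l ++ l.take 2` at `t`, `t + 1`, `t + 2` are those of
`l` at these places modulo `n`), `code_inj`. -/
theorem TH_of_chk {n : ℕ} (hn : 3 ≤ n) (L : List (List ℕ)) (h : chk n L = true) :
    TH (Fin n) n := by
  obtain ⟨c, -, hc⟩ := W12_cyc hn h
  refine ⟨Nat.card_fin n, Fin L.length, inferInstance, c, ?_, hc⟩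
  rw [Fintype.card_fin]
  exact (W12_chk h).2.1

/-- Proof. The same cyclic orders, `THs_of_adj` with `g v = S_(v-1)`: `adjc` gives a place `t` with the entries `0, v` or `v, 0` at `t, t + 1` in `l ++ l.take 1`. -/
theorem THs_of_chk {n : ℕ} (hn : 3 ≤ n) (L : List (List ℕ)) (h : chk n L = true) (S : List ℕ)
    (hS : chs n L S = true) : THs (Fin n) n ⟨0, by omega⟩ := by
  obtain ⟨c, hct, hc⟩ := W12_cyc hn h
  obtain ⟨h1, h2, -⟩ := W12_chk h
  have hL : 0 < L.length := by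
    have h3 : 0 < (n - 1) * (n - 2) := Nat.mul_pos (by omega) (by omega)
    omega
  unfold chs at hS
  rw [Bool.and_eq_true, Bool.and_eq_true, List.all_eq_true, decide_eq_true_eq,
    decide_eq_true_eq] at hS
  obtain ⟨⟨hS1, hS2⟩, hS3⟩ := hS
  have hS4 : ∀ v : Fin n, v ≠ ⟨0, by omega⟩ → (v : ℕ) - 1 < n - 1 ∧ (v : ℕ) - 1 + 1 = v := by
    intro v hv
    have h3 : (v : ℕ) ≠ 0 := fun e => hv (Fin.ext e)
    have h4 := v.2
    omega
  have hS5 : ∀ v : Fin n, v ≠ ⟨0, by omega⟩ → S.getD ((v : ℕ) - 1) 0 < L.length ∧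
      adjc (v : ℕ) (L.getD (S.getD ((v : ℕ) - 1) 0) [] ++
        (L.getD (S.getD ((v : ℕ) - 1) 0) []).take 1) = true := by
    intro v hv
    obtain ⟨h3, h4⟩ := hS4 v hv
    have h5 := hS1 ((v : ℕ) - 1) (List.mem_range.2 h3)
    rw [Bool.and_eq_true, decide_eq_true_eq, h4] at h5
    exact h5
  refine THs_of_adj (Nat.card_fin n) (by omega) c (by rw [Fintype.card_fin]; exact h2) hc _
    (fun v : Fin n => (⟨S.getD ((v : ℕ) - 1) 0 % L.length, Nat.mod_lt _ hL⟩ : Fin L.length)) ?_ ?_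
  · intro v hv
    obtain ⟨h3, h4⟩ := hS5 v hv
    obtain ⟨j, hj⟩ : ∃ j, j = S.getD ((v : ℕ) - 1) 0 := ⟨_, rfl⟩
    rw [← hj] at h3 h4
    have hg : (⟨S.getD ((v : ℕ) - 1) 0 % L.length, Nat.mod_lt _ hL⟩ : Fin L.length) = ⟨j, h3⟩ := by
      apply Fin.ext
      show S.getD ((v : ℕ) - 1) 0 % L.length = j
      rw [← hj, Nat.mod_eq_of_lt h3]
    rw [hg]
    have hget : L.getD j [] = L.get ⟨j, h3⟩ := List.getD_eq_getElem L [] h3
    rw [hget] at h4
    have hlen := (h1 _ (List.get_mem L ⟨j, h3⟩)).1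
    obtain ⟨t, ht, h5⟩ := W12_adjc _ _ h4
    have ht2 : t + 1 < n + 1 := by
      rw [List.length_append, List.length_take, hlen] at ht
      omega
    rw [W12_getD hn (by omega) _ hlen (by omega), W12_getD hn (by omega) _ hlen (by omega),
      ← hct, ← hct] at h5
    refine ⟨t, ?_⟩
    rcases h5 with ⟨a, b⟩ | ⟨a, b⟩
    · exact Or.inl ⟨Fin.ext a, Fin.ext b⟩
    · exact Or.inr ⟨Fin.ext a, Fin.ext b⟩
  · intro v w hv hw hvw
    have h3 := congrArg (Fin.val : Fin L.length → ℕ) hvw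
    have h4 : S.getD ((v : ℕ) - 1) 0 % L.length = S.getD ((w : ℕ) - 1) 0 % L.length := h3
    rw [Nat.mod_eq_of_lt (hS5 v hv).1, Nat.mod_eq_of_lt (hS5 w hw).1] at h4
    have hv1 : (v : ℕ) - 1 < S.length := by
      rw [hS2]
      exact (hS4 v hv).1
    have hw1 : (w : ℕ) - 1 < S.length := by
      rw [hS2]
      exact (hS4 w hw).1
    rw [List.getD_eq_getElem S 0 hv1, List.getD_eq_getElem S 0 hw1, hS3.getElem_inj_iff] at h4
    apply Fin.ext
    have h5 := (hS4 v hv).2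
    have h6 := (hS4 w hw).2
    omega

end Wr
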