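import Pool.Agent.H.MP_4bad09_co.W1

set_option autoImplicit false

/-!
# The check of explicit decompositions is sound: lemmas (MP_4bad09_co, helper11)
-/

namespace Wr

theorem testBit_msk (l : List ℕ) (x : ℕ) : (msk l).testBit x = true ↔ x ∈ l := by
  induction l with
  | nil => simp [msk]
  | cons a l ih =>
    have h : msk (a :: l) = 2 ^ a ||| msk l := rfl
    rw [h, Nat.testBit_or, Bool.or_eq_true, ih, Nat.testBit_two_pow, decide_eq_true_iff,
      List.mem_cons]
    exact or_congr_left eq_comm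

theorem testBit_mskL (L : List (List ℕ)) (x : ℕ) : (mskL L).testBit x = true ↔ ∃ l ∈ L, x ∈ l := by
  induction L with
  | nil => simp [mskL]
  | cons a L ih =>
    have h : mskL (a :: L) = msk a ||| mskL L := rfl
    rw [h, Nat.testBit_or, Bool.or_eq_true, ih, testBit_msk]
    constructor
    · rintro (h | ⟨l, hl, hx⟩)
      · exact ⟨a, List.mem_cons_self, h⟩
      · exact ⟨l, List.mem_cons_of_mem _ hl, hx⟩
    · rintro ⟨l, hl, hx⟩
      rcases List.mem_cons.1 hl with rfl | hl
      · exact Or.inl hx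
      · exact Or.inr ⟨l, hl, hx⟩

theorem W12a_dig {n a c a' c' : ℕ} (hc : c < n) (hc' : c' < n) (h : a * n + c = a' * n + c') :
    a = a' ∧ c = c' := by
  have hn : 0 < n := by omega
  have h1 : (a * n + c) / n = a := by
    rw [Nat.add_comm, Nat.add_mul_div_right _ _ hn, Nat.div_eq_of_lt hc, Nat.zero_add]
  have h2 : (a' * n + c') / n = a' := by
    rw [Nat.add_comm, Nat.add_mul_div_right _ _ hn, Nat.div_eq_of_lt hc', Nat.zero_add]
  have h3 : a = a' := by rw [← h1, ← h2, h]
  subst h3
  exact ⟨rfl, by omega⟩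

theorem W12a_dig3 {n a b c a' b' c' : ℕ} (hb : b < n) (hc : c < n) (hb' : b' < n) (hc' : c' < n)
    (h : (a * n + b) * n + c = (a' * n + b') * n + c') : a = a' ∧ b = b' ∧ c = c' := by
  obtain ⟨h1, h2⟩ := W12a_dig hc hc' h
  obtain ⟨h3, h4⟩ := W12a_dig hb hb' h1
  exact ⟨h3, h4, h2⟩

/-- Proof. Sort; the digits of the sorted triple in base `n`. -/
theorem code_inj {n x y z x' y' z' : ℕ} (hx : x < n) (hy : y < n) (hz : z < n) (hx' : x' < n)
    (hy' : y' < n) (hz' : z' < n) (h : code n x y z = code n x' y' z') :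
    (x = x' ∧ y = y' ∧ z = z') ∨ (x = x' ∧ y = z' ∧ z = y') ∨ (x = y' ∧ y = x' ∧ z = z') ∨
      (x = y' ∧ y = z' ∧ z = x') ∨ (x = z' ∧ y = x' ∧ z = y') ∨ (x = z' ∧ y = y' ∧ z = x') := by
  have key : ∀ a b c a' b' c' : ℕ, b < n → c < n → b' < n → c' < n →
      (a * n + b) * n + c = (a' * n + b') * n + c' → a = a' ∧ b = b' ∧ c = c' :=
    fun a b c a' b' c' h1 h2 h3 h4 h5 => W12a_dig3 h1 h2 h3 h4 h5
  unfold code at h
  split_ifs at h <;>
    (have h9 := key _ _ _ _ _ _ (by assumption) (by assumption) (by assumption) (by assumption) h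
     clear h
     omega)

theorem W12a_sorted {n a b c : ℕ} (hab : a < b) (hbc : b < c) (hc : c < n) :
    ∃ l ∈ allc n, (a * n + b) * n + c ∈ l := by
  have hn : 0 < n := by omega
  have hb : b < n := by omega
  have hd : (a * n + b) / n = a := by
    rw [Nat.add_comm, Nat.add_mul_div_right _ _ hn, Nat.div_eq_of_lt hb, Nat.zero_add]
  have hm : (a * n + b) % n = b := by
    rw [Nat.add_comm, Nat.add_mul_mod_self_right, Nat.mod_eq_of_lt hb]
  have hi : a * n + b < n * n := by
    have h1 : (a + 1) * n ≤ n * n := Nat.mul_le_mul_right n (by omega)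
    have h2 : (a + 1) * n = a * n + n := by ring
    omega
  refine ⟨_, List.mem_map.2 ⟨a * n + b, List.mem_range.2 hi, rfl⟩, ?_⟩
  rw [hd, hm, if_pos hab, List.mem_map]
  exact ⟨c, List.mem_range'_1.2 ⟨by omega, by omega⟩, rfl⟩

/-- the codes of all triples of different numbers below `n` are in `allc n`.  Proof. Sort: `x < y < z`, `i = x * n + y`. -/
theorem code_mem_allc {n x y z : ℕ} (hx : x < n) (hy : y < n) (hz : z < n) (hxy : x ≠ y)
    (hyz : y ≠ z) (hxz : x ≠ z) : ∃ l ∈ allc n, code n x y z ∈ l := by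
  unfold code
  split_ifs <;> exact W12a_sorted (by omega) (by omega) (by omega)

/-- the elements of `wc n l`.  Proof. Induction on `l`. -/
theorem mem_wc (n : ℕ) (l : List ℕ) (a : ℕ) (h : a ∈ wc n l) :
    ∃ t, t + 2 < l.length ∧ a = code n (l.getD t 0) (l.getD (t + 1) 0) (l.getD (t + 2) 0) := by
  induction l with
  | nil => simp [wc] at h
  | cons x l ih =>
    match l, ih, h with
    | [], _, h => simp [wc] at h
    | [y], _, h => simp [wc] at h
    | y :: z :: r, ih, h =>
      have e : wc n (x :: y :: z :: r) = code n x y z :: wc n (y :: z :: r) := rfl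
      rw [e, List.mem_cons] at h
      rcases h with h | h
      · exact ⟨0, by simp, by simpa using h⟩
      · obtain ⟨t, ht, ha⟩ := ih h
        refine ⟨t + 1, by simpa using ht, ?_⟩
        rw [ha]
        rfl

/-- the cyclic orders of a checked list.  Proof. `msk l = 2 ^ n - 1` and `testBit_msk` (`Nat.testBit_two_pow_sub_one`): the elements of `l` are the numbers `< n`. -/
theorem exists_cyc {n : ℕ} (hn : 0 < n) (l : List ℕ) (hl : l.length = n) (h : msk l = 2 ^ n - 1) :
    ∃ c : Cyc (Fin n) n, ∀ t, ((c.f t : Fin n) : ℕ) = l.getD (t % n) 0 := by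
  have hmem : ∀ x, x ∈ l ↔ x < n := by
    intro x
    rw [← testBit_msk, h, Nat.testBit_two_pow_sub_one, decide_eq_true_iff]
  have hget : ∀ t, l.getD (t % n) 0 < n := by
    intro t
    have h1 : t % n < l.length := by rw [hl]; exact Nat.mod_lt _ hn
    rw [List.getD_eq_getElem _ _ h1]
    exact (hmem _).1 (List.getElem_mem h1)
  refine ⟨{ f := fun t => ⟨l.getD (t % n) 0, hget t⟩, per := ?_, surj := ?_ }, fun t => rfl⟩
  · intro t
    apply Fin.ext
    show l.getD ((t + n) % n) 0 = l.getD (t % n) 0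
    rw [Nat.add_mod_right]
  · intro v
    obtain ⟨i, hi, hv⟩ := List.mem_iff_getElem.1 ((hmem v).2 v.2)
    refine ⟨i, ?_⟩
    apply Fin.ext
    show l.getD (i % n) 0 = v
    rw [Nat.mod_eq_of_lt (by omega), List.getD_eq_getElem _ _ hi, hv]

end Wr
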