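import Pool.Agent.H.MP_4bad09_co.W1

set_option autoImplicit false

/-!
# The format of the problem (MP_4bad09_co, helper11)
-/

namespace Wr

theorem W14_f {V : Type} {n : ℕ} (c : Cyc V n) {a b : ℕ} (h : a % n = b % n) : c.f a = c.f b := by
  rw [← c.f_mod a, h, c.f_mod b]

theorem W14_inv {n : ℕ} (hn : 4 ≤ n) (h3 : ¬ 3 ∣ n) (t : ℕ) : ∃ p < n, (p * 3) % n = t % n := by
  have hc : Nat.Coprime 3 n := (Nat.Prime.coprime_iff_not_dvd Nat.prime_three).2 h3
  obtain ⟨q, _, hq⟩ := Nat.exists_mul_mod_eq_one_of_coprime hc (by omega)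
  refine ⟨q * t % n, Nat.mod_lt _ (by omega), ?_⟩
  have h1 : q * t % n * 3 ≡ q * t * 3 [MOD n] := (Nat.mod_modEq (q * t) n).mul_right 3
  have h2 : 3 * q ≡ 1 [MOD n] := by
    rw [Nat.ModEq, hq, Nat.mod_eq_of_lt (by omega)]
  have h4 : q * t * 3 = 3 * q * t := by ring
  have h5 : 3 * q * t ≡ 1 * t [MOD n] := h2.mul_right t
  rw [one_mul] at h5
  rw [h4] at h1
  exact h1.trans h5

/-- the permutation of a cyclic order -/
noncomputable def W14_p {n : ℕ} (hn : 0 < n) (c : Cyc (Fin n) n) : Equiv.Perm (Fin n) :=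
  Equiv.ofBijective (fun t : Fin n => c.f t.val) (by
    have hsurj : Function.Surjective (fun t : Fin n => c.f t.val) := by
      intro v
      obtain ⟨t, ht, htv⟩ := c.exists_lt hn v
      exact ⟨⟨t, ht⟩, htv⟩
    exact ⟨Finite.injective_iff_surjective.2 hsurj, hsurj⟩)

theorem W14_papp {n : ℕ} (hn : 0 < n) (c : Cyc (Fin n) n) (a : ℕ) :
    W14_p hn c ⟨a % n, Nat.mod_lt _ hn⟩ = c.f a := by
  show c.f (a % n) = c.f a
  exact c.f_mod a

/-- the window as a set -/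
theorem W14_img {n : ℕ} (hn : 0 < n) (c : Cyc (Fin n) n) (p : ℕ) :
    (Finset.univ : Finset (Fin 3)).image
      (fun j => W14_p hn c ⟨(p * 3 + j.val) % n, Nat.mod_lt _ hn⟩) =
      {c.f (p * 3), c.f (p * 3 + 1), c.f (p * 3 + 2)} := by
  have h1 : (Finset.univ : Finset (Fin 3)) = {0, 1, 2} := rfl
  rw [h1, Finset.image_insert, Finset.image_insert, Finset.image_singleton, W14_papp, W14_papp,
    W14_papp]
  rfl

theorem W14_card {n : ℕ} (hn : 4 ≤ n) (c : Cyc (Fin n) n) (a : ℕ) :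
    ({c.f a, c.f (a + 1), c.f (a + 2)} : Finset (Fin n)).card = 3 := by
  have hc : Nat.card (Fin n) = n := Nat.card_fin n
  have key : ∀ i j : ℕ, i < 3 → j < 3 → c.f (a + i) = c.f (a + j) → i = j := by
    intro i j hi hj h
    rw [c.eq_iff (by omega) hc] at h
    have h1 : i ≡ j [MOD n] := Nat.ModEq.add_left_cancel' a h
    rw [Nat.ModEq, Nat.mod_eq_of_lt (by omega), Nat.mod_eq_of_lt (by omega)] at h1
    exact h1
  rw [Finset.card_eq_three]
  refine ⟨c.f a, c.f (a + 1), c.f (a + 2), ?_, ?_, ?_, rfl⟩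
  · intro h
    exact absurd (key 0 1 (by omega) (by omega) h) (by omega)
  · intro h
    exact absurd (key 0 2 (by omega) (by omega) h) (by omega)
  · intro h
    exact absurd (key 1 2 (by omega) (by omega) h) (by omega)

theorem W14_win {n : ℕ} (hn : 4 ≤ n) (h3 : ¬ 3 ∣ n) {c : Cyc (Fin n) n} {x y z : Fin n}
    (h : c.Win x y z) : ∃ p < n, ({c.f (p * 3), c.f (p * 3 + 1), c.f (p * 3 + 2)} :
      Finset (Fin n)) = {x, y, z} := by
  obtain ⟨t, rfl, rfl, rfl⟩ := h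
  obtain ⟨p, hp, hpt⟩ := W14_inv hn h3 t
  refine ⟨p, hp, ?_⟩
  have h0 : p * 3 ≡ t [MOD n] := hpt
  rw [W14_f c hpt, W14_f c (h0.add_right 1), W14_f c (h0.add_right 2)]

theorem W14_has {n : ℕ} (hn : 4 ≤ n) (h3 : ¬ 3 ∣ n) {c : Cyc (Fin n) n} {x y z : Fin n}
    (h : c.Has x y z) : ∃ p < n, ({c.f (p * 3), c.f (p * 3 + 1), c.f (p * 3 + 2)} :
      Finset (Fin n)) = {x, y, z} := by
  have s1 : ∀ a b d : Fin n, ({a, b, d} : Finset (Fin n)) = {b, a, d} := fun a b d =>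
    Finset.insert_comm a b {d}
  have s2 : ∀ a b d : Fin n, ({a, b, d} : Finset (Fin n)) = {a, d, b} := fun a b d => by
    rw [Finset.pair_comm b d]
  rcases h with h | h | h | h | h | h
  · exact W14_win hn h3 h
  · obtain ⟨p, hp, hh⟩ := W14_win hn h3 h
    exact ⟨p, hp, by rw [hh, s2]⟩
  · obtain ⟨p, hp, hh⟩ := W14_win hn h3 h
    exact ⟨p, hp, by rw [hh, s1]⟩
  · obtain ⟨p, hp, hh⟩ := W14_win hn h3 h
    exact ⟨p, hp, by rw [hh, s2, s1]⟩
  · obtain ⟨p, hp, hh⟩ := W14_win hn h3 h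
    exact ⟨p, hp, by rw [hh, s1, s2]⟩
  · obtain ⟨p, hp, hh⟩ := W14_win hn h3 h
    exact ⟨p, hp, by rw [hh, s1, s2, s1]⟩

theorem W14_choose {n m : ℕ} (h : 6 * m = (n - 1) * (n - 2)) : m * n = n.choose 3 := by
  have h1 : n.descFactorial 3 = Nat.factorial 3 * n.choose 3 :=
    Nat.descFactorial_eq_factorial_mul_choose n 3
  have h2 : n.descFactorial 3 = (n - 2) * ((n - 1) * n) := by
    simp [Nat.descFactorial]
  have h3 : Nat.factorial 3 = 6 := rfl
  rw [h2, h3] at h1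
  have h4 : 6 * (m * n) = (n - 2) * ((n - 1) * n) := by
    rw [← mul_assoc, h]
    ring
  omega

/-- Proof. `n / gcd n 3 = n`.  `m = |I|`, `σ i ⟨t, _⟩ = (c i).f t` (a bijection, `Cyc.eq_iff`).  The map `p ↦` (image) from `Fin m × Fin n` to the
`3`-subsets (the three points are different by `Cyc.eq_iff`, `n ≥ 4`) is surjective: a `3`-subset is `{x, y, z}`, `Covers` gives `i`, `t` with window `{x, y, z}`, and `t ≡ 3 p (mod n)` for some
`p < n` as `3` is invertible modulo `n`.  Both sets have `n (n-1)(n-2)/6` elements (`Finset.card_powersetCard`, `Nat.choose`), so the map is bijective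
(`Finset.surj_on...`, or `Fintype.bijective_iff_surjective_and_card`). -/
theorem TH.wreath {n : ℕ} (hn : 4 ≤ n) (h3 : ¬ 3 ∣ n) (h : TH (Fin n) n) :
    HasWreath n 3 (by omega) := by
  obtain ⟨hV, I, hI, c, hcard, hcov⟩ := h
  have hn0 : 0 < n := by omega
  have hg : n / Nat.gcd n 3 = n := by
    have hc : Nat.gcd n 3 = 1 :=
      Nat.Coprime.symm ((Nat.Prime.coprime_iff_not_dvd Nat.prime_three).2 h3)
    rw [hc, Nat.div_one]
  obtain ⟨e⟩ : Nonempty (Fin (Fintype.card I) ≃ I) := ⟨(Fintype.equivFin I).symm⟩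
  refine ⟨Fintype.card I, fun i => W14_p hn0 (c (e i)), ?_⟩
  have hmem : ∀ p : Fin (Fintype.card I) × Fin (n / Nat.gcd n 3),
      ((Finset.univ : Finset (Fin 3)).image
          (fun j => W14_p hn0 (c (e p.1)) ⟨(p.2.val * 3 + j.val) % n, Nat.mod_lt _ hn0⟩)).card
        = 3 := by
    intro p
    rw [W14_img]
    exact W14_card hn _ _
  obtain ⟨F, hF⟩ : ∃ F : Fin (Fintype.card I) × Fin (n / Nat.gcd n 3) →
      {s : Finset (Fin n) // s.card = 3}, F = fun p => ⟨(Finset.univ : Finset (Fin 3)).image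
          (fun j => W14_p hn0 (c (e p.1)) ⟨(p.2.val * 3 + j.val) % n, Nat.mod_lt _ hn0⟩),
          hmem p⟩ := ⟨_, rfl⟩
  have hFv : ∀ p, (F p).1 = (Finset.univ : Finset (Fin 3)).image
          (fun j => W14_p hn0 (c (e p.1)) ⟨(p.2.val * 3 + j.val) % n, Nat.mod_lt _ hn0⟩) := by
    intro p
    rw [hF]
  have hsurj : Function.Surjective F := by
    rintro ⟨s, hs⟩
    obtain ⟨x, y, z, hxy, hxz, hyz, rfl⟩ := Finset.card_eq_three.1 hs
    obtain ⟨i, hi⟩ := hcov x y z hxy hyz hxz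
    obtain ⟨p, hp, hpe⟩ := W14_has hn h3 hi
    refine ⟨(e.symm i, ⟨p, by rw [hg]; exact hp⟩), Subtype.ext ?_⟩
    rw [hFv, W14_img]
    simp only [e.apply_symm_apply]
    exact hpe
  have hbij : Function.Bijective F := by
    rw [Fintype.bijective_iff_surjective_and_card]
    refine ⟨hsurj, ?_⟩
    rw [Fintype.card_prod, Fintype.card_fin, Fintype.card_fin, Fintype.card_finset_len,
      Fintype.card_fin, hg]
    exact W14_choose hcard
  intro s hs
  obtain ⟨p, hp⟩ := hsurj ⟨s, hs⟩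
  have hp1 := congrArg Subtype.val hp
  rw [hFv] at hp1
  refine ⟨p, hp1, ?_⟩
  intro q hq
  apply hbij.1
  apply Subtype.ext
  rw [hFv, hFv]
  exact hq.trans hp1.symm

end Wr
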