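import Pool.Agent.H.MP_4bad09_co.W0

set_option autoImplicit false

/-!
# Words: the insertion of three letters (MP_4bad09_co, helper11)
-/

namespace Wr

variable {G : Type} [AddCommGroup G] {J : Type}

theorem ins_length (l : List G) (h : 2 ≤ l.length) : (ins l).length = l.length + 3 := by
  match l, h with
  | a :: b :: r, _ => simp [ins]

theorem ins_sum (l : List G) : (ins l).sum = l.sum := by
  match l with
  | [] => rfl
  | [a] => rfl
  | a :: b :: r =>
    simp only [ins, List.sum_cons]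
    abel

theorem W2_getD (l : List G) (h : 2 ≤ l.length) (k : ℕ) :
    (ins l).getD (k + 3) 0 = l.getD k 0 := by
  match l, h with
  | a :: b :: r, _ => simp [ins]

theorem W2_getD0 (l : List G) : (ins l).getD 0 0 = l.getD 0 0 := by
  match l with
  | [] => rfl
  | [a] => rfl
  | a :: b :: r => rfl

theorem W2_getD1 (l : List G) : (ins l).getD 1 0 = l.getD 1 0 := by
  match l with
  | [] => rfl
  | [a] => rfl
  | a :: b :: r => rfl

theorem W2_getD2 (l : List G) (h : 2 ≤ l.length) :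
    (ins l).getD 2 0 = -(l.getD 0 0 + l.getD 1 0) := by
  match l, h with
  | a :: b :: r, _ => rfl

/-- The words `ins (w j)` have all pairs of `E` at all places if the words `w j` have (`E` is invariant under
`(x, y) ↦ (y, -(x + y))`, a map of order `3`).

Proof. Reduce `t` modulo `ℓ + 3`.  `w j = a :: b :: r`.  Place `0`: the pair `(a, b)`; place `1`: `(b, -(a + b))`, equal to `(d, e)` for
`(a, b) = (-(d + e), d) ∈ E`; place `2`: `(-(a + b), a)`, equal to `(d, e)` for `(a, b) = (e, -(d + e)) ∈ E`;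
place `i ≥ 3`: the pair of `w j` at the place `i - 3` (also for `i = ℓ + 2`, the last letter and `a`). -/
theorem ins_cov (w : J → List G) (ℓ : ℕ) (hℓ : 2 ≤ ℓ) (hw : ∀ j, (w j).length = ℓ)
    (E : Set (G × G)) (hE : ∀ x y, (x, y) ∈ E → (y, -(x + y)) ∈ E)
    (h : ∀ t d e, (d, e) ∈ E → ∃ j, cw (w j) t = d ∧ cw (w j) (t + 1) = e) :
    ∀ t d e, (d, e) ∈ E → ∃ j, cw (ins (w j)) t = d ∧ cw (ins (w j)) (t + 1) = e := by
  have hcw : ∀ j t, cw (w j) t = (w j).getD (t % ℓ) 0 := by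
    intro j t
    rw [cw, hw j]
  have hcwi : ∀ j t, cw (ins (w j)) t = (ins (w j)).getD (t % (ℓ + 3)) 0 := by
    intro j t
    rw [cw, ins_length _ (by rw [hw j]; exact hℓ), hw j]
  have h2 : ∀ j, 2 ≤ (w j).length := fun j => by rw [hw j]; exact hℓ
  have hz : ∀ j, cw (w j) 0 = (w j).getD 0 0 := fun j => by rw [hcw, Nat.zero_mod]
  have ho : ∀ j, cw (w j) (0 + 1) = (w j).getD 1 0 := fun j => by
    rw [hcw, zero_add, Nat.mod_eq_of_lt (by omega)]
  intro t d e hde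
  have hi : t % (ℓ + 3) < ℓ + 3 := Nat.mod_lt _ (by omega)
  have hi1 : (t + 1) % (ℓ + 3) = (t % (ℓ + 3) + 1) % (ℓ + 3) := by
    rw [Nat.mod_add_mod]
  obtain ⟨i, hie⟩ : ∃ i, i = t % (ℓ + 3) := ⟨_, rfl⟩
  rw [← hie] at hi hi1
  by_cases c0 : i = 0
  · subst c0
    obtain ⟨j, h3, h4⟩ := h 0 d e hde
    refine ⟨j, ?_, ?_⟩
    · rw [hcwi, ← hie, W2_getD0, ← hz, h3]
    · rw [hcwi, hi1, zero_add, Nat.mod_eq_of_lt (by omega), W2_getD1, ← ho, h4]
  by_cases c1 : i = 1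
  · subst c1
    have h5 := hE _ _ (hE _ _ hde)
    have h6 : -(e + -(d + e)) = d := by abel
    rw [h6] at h5
    obtain ⟨j, h3, h4⟩ := h 0 _ _ h5
    refine ⟨j, ?_, ?_⟩
    · rw [hcwi, ← hie, W2_getD1, ← ho, h4]
    · rw [hcwi, hi1, Nat.mod_eq_of_lt (by omega), W2_getD2 _ (h2 j), ← hz, ← ho, h3, h4]
      abel
  by_cases c2 : i = 2
  · subst c2
    have h5 := hE _ _ hde
    obtain ⟨j, h3, h4⟩ := h 0 _ _ h5
    refine ⟨j, ?_, ?_⟩
    · rw [hcwi, ← hie, W2_getD2 _ (h2 j), ← hz, ← ho, h3, h4]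
      abel
    · rw [hcwi, hi1]
      by_cases c3 : ℓ + 3 = 3
      · omega
      · rw [Nat.mod_eq_of_lt (by omega)]
        have h7 := W2_getD (w j) (h2 j) 0
        rw [zero_add] at h7
        rw [h7, ← hz, h3]
  · obtain ⟨k, hk⟩ : ∃ k, i = k + 3 := ⟨i - 3, by omega⟩
    obtain ⟨j, h3, h4⟩ := h k d e hde
    refine ⟨j, ?_, ?_⟩
    · rw [hcwi, ← hie, hk, W2_getD _ (h2 j), ← h3, hcw, Nat.mod_eq_of_lt (by omega)]
    · rw [hcwi, hi1, ← h4, hcw]
      by_cases c4 : k + 1 < ℓ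
      · rw [Nat.mod_eq_of_lt (by omega), Nat.mod_eq_of_lt c4, hk,
          show k + 3 + 1 = k + 1 + 3 by omega, W2_getD _ (h2 j)]
      · have h8 : i + 1 = ℓ + 3 := by omega
        have h9 : k + 1 = ℓ := by omega
        rw [h8, h9, Nat.mod_self, Nat.mod_self, W2_getD0]

/-- `ins` maps `0 … 0 1 0` to `0 … 0 1 0`. -/
theorem ins_ws (m ℓ : ℕ) (hℓ : 4 ≤ ℓ) : ins (ws m ℓ) = ws m (ℓ + 3) := by
  obtain ⟨k, rfl⟩ : ∃ k, ℓ = k + 4 := ⟨ℓ - 4, by omega⟩
  have h1 : k + 4 - 2 = k + 2 := by omega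
  have h2 : k + 4 + 3 - 2 = k + 5 := by omega
  rw [ws, ws, h1, h2]
  simp [List.replicate_succ, ins]

theorem ws_length (m ℓ : ℕ) (hℓ : 2 ≤ ℓ) : (ws m ℓ).length = ℓ := by
  rw [ws, List.length_append, List.length_replicate]
  simp only [List.length_cons, List.length_nil]
  omega

theorem ws_sum (m ℓ : ℕ) : (ws m ℓ).sum = 1 := by
  simp [ws]

/-- the letters of `0 … 0 1 0` -/
theorem cw_ws (m ℓ : ℕ) (hℓ : 2 ≤ ℓ) (t : ℕ) : cw (ws m ℓ) t = if t % ℓ = ℓ - 2 then 1 else 0 := by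
  rw [cw, ws_length m ℓ hℓ]
  have hi : t % ℓ < ℓ := Nat.mod_lt _ (by omega)
  obtain ⟨i, hie⟩ : ∃ i, i = t % ℓ := ⟨_, rfl⟩
  rw [← hie] at hi ⊢
  rw [ws]
  rcases lt_trichotomy i (ℓ - 2) with h | h | h
  · rw [List.getD_append _ _ _ _ (by rw [List.length_replicate]; exact h), if_neg (by omega)]
    simp [List.getD_eq_getElem?_getD, h]
  · rw [List.getD_append_right _ _ _ _ (by rw [List.length_replicate]; omega), if_pos h,
      List.length_replicate, h, Nat.sub_self]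
    rfl
  · rw [List.getD_append_right _ _ _ _ (by rw [List.length_replicate]; omega), if_neg (by omega),
      List.length_replicate, show i - (ℓ - 2) = 1 by omega]
    rfl

end Wr
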