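import Pool.Agent.H.MP_4bad09_co.W2

set_option autoImplicit false

/-!
# The words of part 1 (MP_4bad09_co, helper11)
-/

namespace Wr

/-- words with all pairs of labels at all places, of sum `0` -/
def W3_P (m ℓ : ℕ) : Prop :=
  ∃ w : ZMod m × ZMod m → List (ZMod m), (∀ p, (w p).length = ℓ ∧ (w p).sum = 0) ∧
      ∀ (t : ℕ) (d e : ZMod m), ∃ p, cw (w p) t = d ∧ cw (w p) (t + 1) = e

theorem W3_step {m ℓ : ℕ} (hℓ : 2 ≤ ℓ) (h : W3_P m ℓ) : W3_P m (ℓ + 3) := by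
  obtain ⟨w, hw, hc⟩ := h
  refine ⟨fun p => ins (w p), fun p => ⟨?_, ?_⟩, fun t d e => ?_⟩
  · rw [ins_length _ (by rw [(hw p).1]; exact hℓ), (hw p).1]
  · rw [ins_sum, (hw p).2]
  · exact ins_cov w ℓ hℓ (fun p => (hw p).1) Set.univ (fun _ _ _ => Set.mem_univ _)
      (fun t d e _ => hc t d e) t d e (Set.mem_univ _)

theorem W3_iter {m ℓ : ℕ} (hℓ : 2 ≤ ℓ) (h : W3_P m ℓ) (k : ℕ) : W3_P m (ℓ + 3 * k) := by
  induction k with
  | zero => exact h
  | succ k ih => exact W3_step (ℓ := ℓ + 3 * k) (by omega) ih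

theorem W3_four (m : ℕ) : W3_P m 4 := by
  refine ⟨fun p => [p.1, p.2, -p.1, -p.2], fun p => ⟨rfl, by simp⟩, fun t d e => ?_⟩
  have ht : t % 4 < 4 := Nat.mod_lt _ (by norm_num)
  have h1 : t % 4 = 0 ∨ t % 4 = 1 ∨ t % 4 = 2 ∨ t % 4 = 3 := by omega
  rcases h1 with h | h | h | h
  · have h2 : (t + 1) % 4 = 1 := by omega
    exact ⟨(d, e), by simp [cw, h], by simp [cw, h2]⟩
  · have h2 : (t + 1) % 4 = 2 := by omega
    exact ⟨(-e, d), by simp [cw, h], by simp [cw, h2]⟩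
  · have h2 : (t + 1) % 4 = 3 := by omega
    exact ⟨(-d, -e), by simp [cw, h], by simp [cw, h2]⟩
  · have h2 : (t + 1) % 4 = 0 := by omega
    exact ⟨(e, -d), by simp [cw, h], by simp [cw, h2]⟩

theorem W3_eight (m : ℕ) : W3_P m 8 := by
  refine ⟨fun p => [p.1, p.2, -p.1, -p.2, p.1, p.2, -p.1, -p.2], fun p => ⟨rfl, ?_⟩,
    fun t d e => ?_⟩
  · simp
  have ht : t % 8 < 8 := Nat.mod_lt _ (by norm_num)
  have h1 : t % 8 = 0 ∨ t % 8 = 1 ∨ t % 8 = 2 ∨ t % 8 = 3 ∨ t % 8 = 4 ∨ t % 8 = 5 ∨ t % 8 = 6 ∨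
    t % 8 = 7 := by omega
  rcases h1 with h | h | h | h | h | h | h | h
  · have h2 : (t + 1) % 8 = 1 := by omega
    exact ⟨(d, e), by simp [cw, h], by simp [cw, h2]⟩
  · have h2 : (t + 1) % 8 = 2 := by omega
    exact ⟨(-e, d), by simp [cw, h], by simp [cw, h2]⟩
  · have h2 : (t + 1) % 8 = 3 := by omega
    exact ⟨(-d, -e), by simp [cw, h], by simp [cw, h2]⟩
  · have h2 : (t + 1) % 8 = 4 := by omega
    exact ⟨(e, -d), by simp [cw, h], by simp [cw, h2]⟩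
  · have h2 : (t + 1) % 8 = 5 := by omega
    exact ⟨(d, e), by simp [cw, h], by simp [cw, h2]⟩
  · have h2 : (t + 1) % 8 = 6 := by omega
    exact ⟨(-e, d), by simp [cw, h], by simp [cw, h2]⟩
  · have h2 : (t + 1) % 8 = 7 := by omega
    exact ⟨(-d, -e), by simp [cw, h], by simp [cw, h2]⟩
  · have h2 : (t + 1) % 8 = 0 := by omega
    exact ⟨(e, -d), by simp [cw, h], by simp [cw, h2]⟩

theorem W3_half {m : ℕ} (hm : Odd m) : ∃ c : ZMod m, 2 * c = 1 := by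
  obtain ⟨k, hk⟩ := hm
  refine ⟨-(k : ZMod m), ?_⟩
  have h1 : ((2 * k + 1 : ℕ) : ZMod m) = 0 := by
    rw [← hk]
    exact ZMod.natCast_self m
  push_cast at h1
  linear_combination -h1

theorem W3_five {m : ℕ} (hm : Odd m) : W3_P m 5 := by
  obtain ⟨c, hc⟩ := W3_half hm
  refine ⟨fun p => [p.1, p.2, p.1, p.2, -(2 * p.1 + 2 * p.2)], fun p => ⟨rfl, ?_⟩,
    fun t d e => ?_⟩
  · simp
    ring
  have ht : t % 5 < 5 := Nat.mod_lt _ (by norm_num)
  have h1 : t % 5 = 0 ∨ t % 5 = 1 ∨ t % 5 = 2 ∨ t % 5 = 3 ∨ t % 5 = 4 := by omega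
  rcases h1 with h | h | h | h | h
  · have h2 : (t + 1) % 5 = 1 := by omega
    exact ⟨(d, e), by simp [cw, h], by simp [cw, h2]⟩
  · have h2 : (t + 1) % 5 = 2 := by omega
    exact ⟨(e, d), by simp [cw, h], by simp [cw, h2]⟩
  · have h2 : (t + 1) % 5 = 3 := by omega
    exact ⟨(d, e), by simp [cw, h], by simp [cw, h2]⟩
  · have h2 : (t + 1) % 5 = 4 := by omega
    refine ⟨(-(e + 2 * d) * c, d), by simp [cw, h], ?_⟩
    have h3 : cw [(-(e + 2 * d) * c), d, (-(e + 2 * d) * c), d,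
        -(2 * (-(e + 2 * d) * c) + 2 * d)] (t + 1) = -(2 * (-(e + 2 * d) * c) + 2 * d) := by
      simp [cw, h2]
    refine h3.trans ?_
    linear_combination (e + 2 * d) * hc
  · have h2 : (t + 1) % 5 = 0 := by omega
    refine ⟨(e, -(d + 2 * e) * c), ?_, by simp [cw, h2]⟩
    have h3 : cw [e, -(d + 2 * e) * c, e, -(d + 2 * e) * c,
        -(2 * e + 2 * (-(d + 2 * e) * c))] t = -(2 * e + 2 * (-(d + 2 * e) * c)) := by
      simp [cw, h]
    refine h3.trans ?_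
    linear_combination (d + 2 * e) * hc

/-- add `1` to the first letter -/
def W3_f {G : Type} [Add G] [One G] : List G → List G
  | a :: r => (a + 1) :: r
  | l => l

theorem W3_f_length {G : Type} [Add G] [One G] (l : List G) : (W3_f l).length = l.length := by
  cases l <;> rfl

theorem W3_f_sum {m : ℕ} (l : List (ZMod m)) (h : 0 < l.length) : (W3_f l).sum = l.sum + 1 := by
  cases l with
  | nil => exact absurd h (lt_irrefl 0)
  | cons a r =>
    simp [W3_f]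
    ring

theorem W3_f_cw {m : ℕ} (l : List (ZMod m)) (h : 0 < l.length) (t : ℕ) :
    cw (W3_f l) t = cw l t + if t % l.length = 0 then 1 else 0 := by
  unfold cw
  rw [W3_f_length]
  generalize t % l.length = i
  cases l with
  | nil => exact absurd h (lt_irrefl 0)
  | cons a r =>
    cases i with
    | zero => simp [W3_f]
    | succ i => simp [W3_f]

theorem W3_all (m ℓ : ℕ) (h4 : 4 ≤ ℓ) (h3 : ¬ 3 ∣ ℓ) (h5 : ℓ ≠ 5 ∨ Odd m) : W3_P m ℓ := by
  have h1 : ℓ % 3 = 1 ∨ ℓ % 3 = 2 := by omega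
  rcases h1 with h | h
  · obtain ⟨k, hk⟩ : ∃ k, ℓ = 4 + 3 * k := ⟨(ℓ - 4) / 3, by omega⟩
    rw [hk]
    exact W3_iter (by norm_num) (W3_four m) k
  · by_cases hl : ℓ = 5
    · rcases h5 with h5 | h5
      · exact absurd hl h5
      · rw [hl]
        exact W3_five h5
    · obtain ⟨k, hk⟩ : ∃ k, ℓ = 8 + 3 * k := ⟨(ℓ - 8) / 3, by omega⟩
      rw [hk]
      exact W3_iter (by norm_num) (W3_eight m) k

/-- Words with all pairs of labels at all places, `m²` words.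

Proof.  First words `w0 (u, v)` of length `ℓ` and sum `0` with: for all `t, d, e` there is `(u, v)` with
`cw (w0 (u, v)) t = d`, `cw (w0 (u, v)) (t + 1) = e`.  For `ℓ ≡ 1 (mod 3)`: `[u, v, -u, -v]` and then `ins` (`ins_cov` with
`E = univ`), `(ℓ - 4)/3` times; for `ℓ ≡ 2 (mod 3)`, `ℓ ≥ 8`: the same from `[u, v, -u, -v, u, v, -u, -v]`; for `ℓ = 5`, `m` odd:
`[u, v, u, v, -2u - 2v]` (`2` is a unit).  Now add `1` to the first letter of all words: the sum is `1`, and to get the pair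
`(d, e)` at the places `t, t + 1` look for the pair `(d, e) - (1 or 0, 1 or 0)` of the words `w0`. -/
theorem exists_words1 (m ℓ : ℕ) [NeZero m] (h4 : 4 ≤ ℓ) (h3 : ¬ 3 ∣ ℓ) (h5 : ℓ ≠ 5 ∨ Odd m) :
    ∃ w : ZMod m × ZMod m → List (ZMod m), (∀ p, (w p).length = ℓ ∧ (w p).sum = 1) ∧
      ∀ (t : ℕ) (d e : ZMod m), ∃ p, cw (w p) t = d ∧ cw (w p) (t + 1) = e := by
  obtain ⟨w, hw, hc⟩ := W3_all m ℓ h4 h3 h5
  have hpos : ∀ p, 0 < (w p).length := fun p => by rw [(hw p).1]; omega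
  refine ⟨fun p => W3_f (w p), fun p => ⟨?_, ?_⟩, fun t d e => ?_⟩
  · rw [W3_f_length, (hw p).1]
  · rw [W3_f_sum _ (hpos p), (hw p).2, zero_add]
  · obtain ⟨p, hp1, hp2⟩ := hc t (d - if t % ℓ = 0 then 1 else 0)
      (e - if (t + 1) % ℓ = 0 then 1 else 0)
    refine ⟨p, ?_, ?_⟩
    · rw [W3_f_cw _ (hpos p), hp1, (hw p).1, sub_add_cancel]
    · rw [W3_f_cw _ (hpos p), hp2, (hw p).1, sub_add_cancel]

end Wr
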