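import Pool.Agent.H.MP_4bad09_co.W0

set_option autoImplicit false

/-!
# The words of part 2 (MP_4bad09_co, helper11)
-/

namespace Wr

/-- evaluation of formal letters `(p, q)` as `p c + q d` -/
def evl {m : ℕ} (c d : ZMod m) (x : ℤ × ℤ) : ZMod m := (x.1 : ZMod m) * c + (x.2 : ZMod m) * d

/-- the seven words `G0` of length `8` (letters `0, ±1`); the first one is `0 … 0 1 0` -/
def g08 : List (List ℤ) := [[0,0,0,0,0,0,1,0],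
  [1,-1,0,-1,1,-1,1,-1], [0,-1,1,0,-1,1,0,-1], [1,0,-1,1,-1,0,-1,0],
  [-1,1,0,1,0,1,-1,1], [0,1,-1,0,1,0,0,1], [-1,0,1,-1,0,-1,0,0]]

/-- the seven words `G0` of length `10` -/
def g010 : List (List ℤ) := [[0,0,0,0,0,0,0,0,1,0],
  [0,-1,1,0,1,-1,0,-1,1,-1], [1,-1,0,1,0,-1,1,-1,0,-1], [0,1,-1,1,-1,1,-1,1,0,1],
  [-1,0,1,-1,0,1,0,1,-1,1], [1,0,-1,0,-1,0,1,0,-1,0], [-1,1,0,-1,1,0,-1,0,0,0]]

/-- the six words `G1` of length `8` -/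
def g18 : List (List ℤ) := [[1,-1,0,-1,1,0,1,0], [0,1,0,1,0,-1,1,-1],
  [-1,1,-1,1,-1,0,-1,1], [-1,0,1,-1,0,1,-1,0], [0,-1,1,0,-1,1,0,1], [1,0,-1,0,1,-1,0,-1]]

/-- the six words `G1` of length `10` -/
def g110 : List (List ℤ) := [[0,1,0,-1,1,-1,0,-1,1,-1], [0,-1,1,-1,0,-1,1,-1,0,1],
  [1,-1,0,1,-1,0,-1,1,0,-1], [1,0,-1,0,1,0,1,0,-1,0], [-1,0,1,0,-1,1,0,1,-1,1], [-1,1,-1,1,0,1,-1,0,1,0]]

/-- a letter of `G2`: `±1 ↦ (±1, 0)`, `±2 ↦ (0, ±1)` -/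
def lt2 (x : ℤ) : ℤ × ℤ := if x = 1 then (1, 0) else if x = -1 then (-1, 0) else
  if x = 2 then (0, 1) else if x = -2 then (0, -1) else (0, 0)

/-- the twelve words `G2` of length `8` (`±1` stands for `±c`, `±2` for `±d`) -/
def g28 : List (List ℤ) := [[1,-1,0,2,-2,2,0,-1], [0,-1,1,-1,0,2,-2,2], [-2,2,0,-1,1,-1,0,2],
  [0,2,-2,2,0,-1,1,-1], [0,1,-1,1,-1,1,0,-2], [2,-2,0,1,0,-2,2,-2], [0,-2,2,-2,2,-2,0,1],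
  [-1,1,0,-2,0,1,-1,1], [1,0,-2,0,-2,0,2,0], [2,0,-1,0,1,0,-1,0], [-1,0,2,0,-1,0,1,0],
  [-2,0,1,0,2,0,-2,0]]

/-- the twelve words `G2` of length `10` -/
def g210 : List (List ℤ) := [[1,-1,0,-2,0,1,0,1,0,-1], [-1,0,2,-2,2,0,-2,0,2,0],
  [0,-2,0,-1,0,2,-2,2,0,2], [-1,1,-1,1,-1,0,2,0,-1,1], [2,-2,2,0,-1,1,-1,1,-1,0],
  [2,0,-1,0,2,-2,2,-2,2,-2], [-2,0,1,-1,1,-1,1,0,-2,2], [0,-1,1,0,-2,2,0,-2,0,1],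
  [-2,2,-2,0,1,0,-1,0,1,0], [1,0,-2,2,0,-2,0,2,-2,0], [0,1,0,2,-2,0,1,-1,0,-2],
  [0,2,0,1,0,-1,0,-1,1,-1]]

/-- The base words of length `8` and `10` (`decide`): all pairs `(x, y)` of letters with `x = 0` or `y = 0` or `x + y = 0`
(for `G1`, `G2` without `(0, 0)`) at all places. -/
theorem base_words :
    (∀ l ∈ g08, l.length = 8 ∧ (l.sum = 1 ∨ l.sum = -1 ∨ l.sum = 2 ∨ l.sum = -2)) ∧
    (∀ l ∈ g010, l.length = 10 ∧ (l.sum = 1 ∨ l.sum = -1 ∨ l.sum = 2 ∨ l.sum = -2)) ∧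
    (∀ l ∈ g18, l.length = 8 ∧ (l.sum = 1 ∨ l.sum = -1)) ∧
    (∀ l ∈ g110, l.length = 10 ∧ (l.sum = 1 ∨ l.sum = -1)) ∧
    (∀ l ∈ g28, l.length = 8 ∧ ((l.map lt2).sum = (1, -1) ∨ (l.map lt2).sum = (-1, 1))) ∧
    (∀ l ∈ g210, l.length = 10 ∧ ((l.map lt2).sum = (1, -1) ∨ (l.map lt2).sum = (-1, 1))) ∧
    (∀ t < 8, ∀ x ∈ ([0, 1, -1] : List ℤ), ∀ y ∈ ([0, 1, -1] : List ℤ), (x = 0 ∨ y = 0 ∨ x + y = 0) →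
      ∃ l ∈ g08, cw l t = x ∧ cw l (t + 1) = y) ∧
    (∀ t < 10, ∀ x ∈ ([0, 1, -1] : List ℤ), ∀ y ∈ ([0, 1, -1] : List ℤ), (x = 0 ∨ y = 0 ∨ x + y = 0) →
      ∃ l ∈ g010, cw l t = x ∧ cw l (t + 1) = y) ∧
    (∀ t < 8, ∀ x ∈ ([0, 1, -1] : List ℤ), ∀ y ∈ ([0, 1, -1] : List ℤ), (x = 0 ∨ y = 0 ∨ x + y = 0) →
      ¬ (x = 0 ∧ y = 0) → ∃ l ∈ g18, cw l t = x ∧ cw l (t + 1) = y) ∧
    (∀ t < 10, ∀ x ∈ ([0, 1, -1] : List ℤ), ∀ y ∈ ([0, 1, -1] : List ℤ), (x = 0 ∨ y = 0 ∨ x + y = 0) →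
      ¬ (x = 0 ∧ y = 0) → ∃ l ∈ g110, cw l t = x ∧ cw l (t + 1) = y) ∧
    (∀ t < 8, ∀ x ∈ ([0, 1, -1, 2, -2] : List ℤ), ∀ y ∈ ([0, 1, -1, 2, -2] : List ℤ),
      (x = 0 ∨ y = 0 ∨ x + y = 0) → ¬ (x = 0 ∧ y = 0) → ∃ l ∈ g28, cw l t = x ∧ cw l (t + 1) = y) ∧
    (∀ t < 10, ∀ x ∈ ([0, 1, -1, 2, -2] : List ℤ), ∀ y ∈ ([0, 1, -1, 2, -2] : List ℤ),
      (x = 0 ∨ y = 0 ∨ x + y = 0) → ¬ (x = 0 ∧ y = 0) → ∃ l ∈ g210, cw l t = x ∧ cw l (t + 1) = y) := by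
  refine ⟨by decide, by decide, by decide, by decide, by decide, by decide, ?_, ?_, ?_, ?_, ?_, ?_⟩
  · decide +kernel
  · decide +kernel
  · decide +kernel
  · decide +kernel
  · decide +kernel
  · decide +kernel

end Wr
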