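import Pool.Agent.H.MP_4bad09_co.W4
import Pool.Agent.H.MP_4bad09_co.W2

set_option autoImplicit false

/-!
# The words of part 2 (MP_4bad09_co, helper11)
-/

namespace Wr

theorem W4b_cw_mod {G : Type} [Zero G] (l : List G) (t : ℕ) : cw l (t % l.length) = cw l t := by
  unfold cw
  rw [Nat.mod_mod]

theorem W4b_cw_mod' {G : Type} [Zero G] (l : List G) (t : ℕ) : cw l (t % l.length + 1) = cw l (t + 1) := by
  unfold cw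
  rw [Nat.mod_add_mod]

theorem W4b_iter {G : Type} [AddCommGroup G] {J : Type} (E : Set (G × G))
    (hE : ∀ x y, (x, y) ∈ E → (y, -(x + y)) ∈ E) (w : J → List G) (ℓ : ℕ) (hℓ : 2 ≤ ℓ)
    (hw : ∀ j, (w j).length = ℓ)
    (h : ∀ t d e, (d, e) ∈ E → ∃ j, cw (w j) t = d ∧ cw (w j) (t + 1) = e) (k : ℕ) :
    (∀ j, (ins^[k] (w j)).length = ℓ + 3 * k ∧ (ins^[k] (w j)).sum = (w j).sum) ∧
      ∀ t d e, (d, e) ∈ E → ∃ j, cw (ins^[k] (w j)) t = d ∧ cw (ins^[k] (w j)) (t + 1) = e := by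
  induction k with
  | zero => exact ⟨fun j => ⟨hw j, rfl⟩, h⟩
  | succ k ih =>
    obtain ⟨ih1, ih2⟩ := ih
    refine ⟨fun j => ?_, ?_⟩
    · rw [Function.iterate_succ_apply', ins_sum, ins_length _ (by rw [(ih1 j).1]; omega), (ih1 j).1, (ih1 j).2]
      exact ⟨by ring, rfl⟩
    · have := ins_cov (fun j => ins^[k] (w j)) (ℓ + 3 * k) (by omega) (fun j => (ih1 j).1) E hE ih2
      intro t d e hde
      obtain ⟨j, h1, h2⟩ := this t d e hde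
      exact ⟨j, by rw [Function.iterate_succ_apply']; exact h1, by rw [Function.iterate_succ_apply']; exact h2⟩

/-- the word `0 … 0 1 0` over the integers -/
def W4b_wsZ (ℓ : ℕ) : List ℤ := List.replicate (ℓ - 2) 0 ++ [1, 0]

theorem W4b_wsZ_ins (ℓ : ℕ) (hℓ : 4 ≤ ℓ) : ins (W4b_wsZ ℓ) = W4b_wsZ (ℓ + 3) := by
  obtain ⟨k, rfl⟩ := Nat.exists_eq_add_of_le hℓ
  have h1 : 4 + k - 2 = k + 1 + 1 := by omega
  have h2 : 4 + k + 3 - 2 = k + 1 + 1 + 1 + 1 + 1 := by omega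
  unfold W4b_wsZ
  rw [h1, h2]
  simp only [List.replicate_succ, List.cons_append, ins]
  simp

theorem W4b_wsZ_iter (ℓ : ℕ) (hℓ : 4 ≤ ℓ) (k : ℕ) : ins^[k] (W4b_wsZ ℓ) = W4b_wsZ (ℓ + 3 * k) := by
  induction k with
  | zero => rfl
  | succ k ih =>
    rw [Function.iterate_succ_apply', ih, W4b_wsZ_ins _ (by omega)]
    congr 1

theorem W4b_wsZ_cw (ℓ : ℕ) (hℓ : 2 ≤ ℓ) (t : ℕ) : cw (W4b_wsZ ℓ) t = if t % ℓ = ℓ - 2 then 1 else 0 := by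
  have hlen : (W4b_wsZ ℓ).length = ℓ := by
    unfold W4b_wsZ
    simp
    omega
  unfold cw
  rw [hlen]
  have hlt : t % ℓ < ℓ := Nat.mod_lt _ (by omega)
  generalize t % ℓ = s at hlt
  unfold W4b_wsZ
  by_cases h1 : s < ℓ - 2
  · rw [List.getD_append _ _ _ _ (by simpa using h1), if_neg (by omega)]
    simp [h1]
  · rw [List.getD_append_right _ _ _ _ (by simpa using h1), List.length_replicate]
    by_cases h2 : s = ℓ - 2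
    · rw [if_pos h2, h2]
      simp
    · rw [if_neg h2]
      have : s - (ℓ - 2) = 1 := by omega
      rw [this]
      simp

/-- pairs of letters `0, ±1` -/
def W4b_E0 : Set (ℤ × ℤ) :=
  {p | p.1 ∈ ([0, 1, -1] : List ℤ) ∧ p.2 ∈ ([0, 1, -1] : List ℤ) ∧ (p.1 = 0 ∨ p.2 = 0 ∨ p.1 + p.2 = 0)}

theorem W4b_E0_inv : ∀ x y, (x, y) ∈ W4b_E0 → (y, -(x + y)) ∈ W4b_E0 := by
  rintro x y ⟨h1, h2, h3⟩
  simp only [List.mem_cons, List.not_mem_nil, or_false] at h1 h2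
  simp only [W4b_E0, Set.mem_ofPred_eq, List.mem_cons, List.not_mem_nil, or_false]
  simp only at h3
  omega

/-- pairs of letters `0, ±1`, not both zero -/
def W4b_E1 : Set (ℤ × ℤ) :=
  {p | p.1 ∈ ([0, 1, -1] : List ℤ) ∧ p.2 ∈ ([0, 1, -1] : List ℤ) ∧ (p.1 = 0 ∨ p.2 = 0 ∨ p.1 + p.2 = 0) ∧
    ¬ (p.1 = 0 ∧ p.2 = 0)}

theorem W4b_E1_inv : ∀ x y, (x, y) ∈ W4b_E1 → (y, -(x + y)) ∈ W4b_E1 := by
  rintro x y ⟨h1, h2, h3, h4⟩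
  simp only [List.mem_cons, List.not_mem_nil, or_false] at h1 h2
  simp only [W4b_E1, Set.mem_ofPred_eq, List.mem_cons, List.not_mem_nil, or_false]
  simp only at h3 h4
  omega

/-- the letters `0, ±c, ±d` -/
def W4b_L : List (ℤ × ℤ) := [(0, 0), (1, 0), (-1, 0), (0, 1), (0, -1)]

/-- pairs of letters `0, ±c, ±d`, not both zero -/
def W4b_E2 : Set ((ℤ × ℤ) × (ℤ × ℤ)) :=
  {p | p.1 ∈ W4b_L ∧ p.2 ∈ W4b_L ∧ (p.1 = 0 ∨ p.2 = 0 ∨ p.1 + p.2 = 0) ∧ ¬ (p.1 = 0 ∧ p.2 = 0)}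

theorem W4b_E2_inv : ∀ x y, (x, y) ∈ W4b_E2 → (y, -(x + y)) ∈ W4b_E2 := by
  have key : ∀ x ∈ W4b_L, ∀ y ∈ W4b_L, (x = 0 ∨ y = 0 ∨ x + y = 0) → ¬ (x = 0 ∧ y = 0) →
      (-(x + y) ∈ W4b_L ∧ (y = 0 ∨ -(x + y) = 0 ∨ y + -(x + y) = 0) ∧ ¬ (y = 0 ∧ -(x + y) = 0)) := by
    decide
  rintro x y ⟨h1, h2, h3, h4⟩
  obtain ⟨h5, h6, h7⟩ := key x h1 y h2 h3 h4
  exact ⟨h2, h5, h6, h7⟩

theorem W4b_pre : ∀ x ∈ W4b_L, ∀ y ∈ W4b_L, (x = 0 ∨ y = 0 ∨ x + y = 0) → ¬ (x = 0 ∧ y = 0) →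
    ∃ x' ∈ ([0, 1, -1, 2, -2] : List ℤ), ∃ y' ∈ ([0, 1, -1, 2, -2] : List ℤ),
      (x' = 0 ∨ y' = 0 ∨ x' + y' = 0) ∧ ¬ (x' = 0 ∧ y' = 0) ∧ lt2 x' = x ∧ lt2 y' = y := by
  decide

theorem W4b_cw_map (l : List ℤ) (t : ℕ) : cw (l.map lt2) t = lt2 (cw l t) := by
  unfold cw
  rw [List.length_map]
  have h0 : lt2 0 = 0 := by decide
  rw [← List.getD_map (f := lt2), h0]

theorem W4b_main (ℓ₀ k : ℕ) (h8 : 8 ≤ ℓ₀) (A : Fin 7 → List ℤ) (B : Fin 6 → List ℤ) (C : Fin 12 → List (ℤ × ℤ))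
    (hA0 : A 0 = W4b_wsZ ℓ₀)
    (hA : ∀ j, (A j).length = ℓ₀ ∧ ((A j).sum = 1 ∨ (A j).sum = -1 ∨ (A j).sum = 2 ∨ (A j).sum = -2))
    (hB : ∀ j, (B j).length = ℓ₀ ∧ ((B j).sum = 1 ∨ (B j).sum = -1))
    (hC : ∀ j, (C j).length = ℓ₀ ∧ ((C j).sum = (1, -1) ∨ (C j).sum = (-1, 1)))
    (cA : ∀ t d e, (d, e) ∈ W4b_E0 → ∃ j, cw (A j) t = d ∧ cw (A j) (t + 1) = e)
    (cB : ∀ t d e, (d, e) ∈ W4b_E1 → ∃ j, cw (B j) t = d ∧ cw (B j) (t + 1) = e)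
    (cC : ∀ t d e, (d, e) ∈ W4b_E2 → ∃ j, cw (C j) t = d ∧ cw (C j) (t + 1) = e) :
    ∃ (w0 : Fin 6 → List ℤ) (w1 : Fin 6 → List ℤ) (w2 : Fin 12 → List (ℤ × ℤ)),
      (∀ j, (w0 j).length = ℓ₀ + 3 * k ∧
        ((w0 j).sum = 1 ∨ (w0 j).sum = -1 ∨ (w0 j).sum = 2 ∨ (w0 j).sum = -2)) ∧
      (∀ j, (w1 j).length = ℓ₀ + 3 * k ∧ ((w1 j).sum = 1 ∨ (w1 j).sum = -1)) ∧
      (∀ j, (w2 j).length = ℓ₀ + 3 * k ∧ ((w2 j).sum = (1, -1) ∨ (w2 j).sum = (-1, 1))) ∧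
      (∀ t : ℕ, ∀ x ∈ ([0, 1, -1] : List ℤ), ∀ y ∈ ([0, 1, -1] : List ℤ), (x = 0 ∨ y = 0 ∨ x + y = 0) →
        (∃ j, cw (w0 j) t = x ∧ cw (w0 j) (t + 1) = y) ∨
          (x = (if t % (ℓ₀ + 3 * k) = ℓ₀ + 3 * k - 2 then 1 else 0) ∧
            y = (if (t + 1) % (ℓ₀ + 3 * k) = ℓ₀ + 3 * k - 2 then 1 else 0))) ∧
      (∀ t : ℕ, ∀ x ∈ ([0, 1, -1] : List ℤ), ∀ y ∈ ([0, 1, -1] : List ℤ), (x = 0 ∨ y = 0 ∨ x + y = 0) →
        ¬ (x = 0 ∧ y = 0) → ∃ j, cw (w1 j) t = x ∧ cw (w1 j) (t + 1) = y) ∧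
      (∀ t : ℕ, ∀ x ∈ ([(0, 0), (1, 0), (-1, 0), (0, 1), (0, -1)] : List (ℤ × ℤ)),
        ∀ y ∈ ([(0, 0), (1, 0), (-1, 0), (0, 1), (0, -1)] : List (ℤ × ℤ)), (x = 0 ∨ y = 0 ∨ x + y = 0) →
        ¬ (x = 0 ∧ y = 0) → ∃ j, cw (w2 j) t = x ∧ cw (w2 j) (t + 1) = y) := by
  obtain ⟨a1, a2⟩ := W4b_iter W4b_E0 W4b_E0_inv A ℓ₀ (by omega) (fun j => (hA j).1) cA k
  obtain ⟨b1, b2⟩ := W4b_iter W4b_E1 W4b_E1_inv B ℓ₀ (by omega) (fun j => (hB j).1) cB k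
  obtain ⟨c1, c2⟩ := W4b_iter W4b_E2 W4b_E2_inv C ℓ₀ (by omega) (fun j => (hC j).1) cC k
  refine ⟨fun j => ins^[k] (A j.succ), fun j => ins^[k] (B j), fun j => ins^[k] (C j), ?_, ?_, ?_, ?_, ?_, ?_⟩
  · intro j
    refine ⟨(a1 _).1, ?_⟩
    rw [(a1 _).2]
    exact (hA _).2
  · intro j
    refine ⟨(b1 _).1, ?_⟩
    rw [(b1 _).2]
    exact (hB _).2
  · intro j
    refine ⟨(c1 _).1, ?_⟩
    rw [(c1 _).2]
    exact (hC _).2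
  · intro t x hx y hy h
    obtain ⟨j, h1, h2⟩ := a2 t x y ⟨hx, hy, h⟩
    rcases Fin.eq_zero_or_eq_succ j with rfl | ⟨i, rfl⟩
    · right
      rw [hA0, W4b_wsZ_iter _ (by omega), W4b_wsZ_cw _ (by omega)] at h1 h2
      exact ⟨h1.symm, h2.symm⟩
    · left
      exact ⟨i, h1, h2⟩
  · intro t x hx y hy h h'
    exact b2 t x y ⟨hx, hy, h, h'⟩
  · intro t x hx y hy h h'
    exact c2 t x y ⟨hx, hy, h, h'⟩

theorem W4b_get {G : Type} [Zero G] (L : List (List G)) (N ℓ : ℕ) (hN : L.length = N) (hℓ : 0 < ℓ)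
    (hL : ∀ l ∈ L, l.length = ℓ) (x y : G)
    (h : ∀ t < ℓ, ∃ l ∈ L, cw l t = x ∧ cw l (t + 1) = y) (t : ℕ) :
    ∃ j : Fin N, cw (L.getD j []) t = x ∧ cw (L.getD j []) (t + 1) = y := by
  obtain ⟨l, hl, h1, h2⟩ := h (t % ℓ) (Nat.mod_lt _ hℓ)
  obtain ⟨i, hi, rfl⟩ := List.mem_iff_getElem.1 hl
  have hlen := hL _ hl
  refine ⟨⟨i, hN ▸ hi⟩, ?_⟩
  have hg : L.getD i [] = L[i] := by
    rw [List.getD_eq_getElem _ _ hi]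
  show cw (L.getD i []) t = x ∧ cw (L.getD i []) (t + 1) = y
  rw [hg]
  rw [← W4b_cw_mod, ← W4b_cw_mod' _ t, hlen]
  exact ⟨h1, h2⟩

theorem W4b_getmem {G : Type} (L : List (List G)) (N : ℕ) (hN : L.length = N) (j : Fin N) :
    L.getD j [] ∈ L := by
  have hj : (j : ℕ) < L.length := hN ▸ j.2
  rw [List.getD_eq_getElem _ _ hj]
  exact List.getElem_mem hj

/-- Lists of words `L0` (seven words with the letters `0, 1, -1`, the first one `0 … 0 1 0`), `L1` (six words, letters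
`0, ±1`) and `L2` (twelve words, letters `0, ±c, ±d` in `ℤ × ℤ`) for all lengths.

Proof. `ℓ ≡ 2 (mod 3)`: start with the words of length `8`, `ℓ ≡ 1`: with those of length `10` (`base_words`), and use
`ins` (`ins_cov`, `ins_length`, `ins_sum`, `ins_ws`) `(ℓ - 8)/3` or `(ℓ - 10)/3` times.  (`base_words` gives all places `t` as `cw l` has the
period `ℓ`.)  `L2` is the image of `g28`, `g210` under `lt2`. -/
theorem exists_formal (ℓ : ℕ) (h8 : 8 ≤ ℓ) (h3 : ¬ 3 ∣ ℓ) :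
    ∃ (w0 : Fin 6 → List ℤ) (w1 : Fin 6 → List ℤ) (w2 : Fin 12 → List (ℤ × ℤ)),
      (∀ j, (w0 j).length = ℓ ∧ ((w0 j).sum = 1 ∨ (w0 j).sum = -1 ∨ (w0 j).sum = 2 ∨ (w0 j).sum = -2)) ∧
      (∀ j, (w1 j).length = ℓ ∧ ((w1 j).sum = 1 ∨ (w1 j).sum = -1)) ∧
      (∀ j, (w2 j).length = ℓ ∧ ((w2 j).sum = (1, -1) ∨ (w2 j).sum = (-1, 1))) ∧
      (∀ t : ℕ, ∀ x ∈ ([0, 1, -1] : List ℤ), ∀ y ∈ ([0, 1, -1] : List ℤ), (x = 0 ∨ y = 0 ∨ x + y = 0) →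
        (∃ j, cw (w0 j) t = x ∧ cw (w0 j) (t + 1) = y) ∨
          (x = (if t % ℓ = ℓ - 2 then 1 else 0) ∧ y = (if (t + 1) % ℓ = ℓ - 2 then 1 else 0))) ∧
      (∀ t : ℕ, ∀ x ∈ ([0, 1, -1] : List ℤ), ∀ y ∈ ([0, 1, -1] : List ℤ), (x = 0 ∨ y = 0 ∨ x + y = 0) →
        ¬ (x = 0 ∧ y = 0) → ∃ j, cw (w1 j) t = x ∧ cw (w1 j) (t + 1) = y) ∧
      (∀ t : ℕ, ∀ x ∈ ([(0, 0), (1, 0), (-1, 0), (0, 1), (0, -1)] : List (ℤ × ℤ)),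
        ∀ y ∈ ([(0, 0), (1, 0), (-1, 0), (0, 1), (0, -1)] : List (ℤ × ℤ)), (x = 0 ∨ y = 0 ∨ x + y = 0) →
        ¬ (x = 0 ∧ y = 0) → ∃ j, cw (w2 j) t = x ∧ cw (w2 j) (t + 1) = y) := by
  obtain ⟨p1, p2, p3, p4, p5, p6, q1, q2, q3, q4, q5, q6⟩ := base_words
  rcases (by omega : ℓ % 3 = 2 ∨ ℓ % 3 = 1) with hm | hm
  · obtain ⟨k, rfl⟩ : ∃ k, ℓ = 8 + 3 * k := ⟨(ℓ - 8) / 3, by omega⟩
    refine W4b_main 8 k le_rfl (fun j => g08.getD j []) (fun j => g18.getD j [])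
      (fun j => (g28.getD j []).map lt2) (by decide) (fun j => p1 _ (W4b_getmem g08 7 rfl j))
      (fun j => p3 _ (W4b_getmem g18 6 rfl j)) (fun j => ?_) ?_ ?_ ?_
    · have := p5 _ (W4b_getmem g28 12 rfl j)
      rw [List.length_map]
      exact this
    · rintro t d e ⟨h1, h2, h3⟩
      exact W4b_get g08 7 8 rfl (by norm_num) (fun l hl => (p1 l hl).1) d e
        (fun t ht => q1 t ht d h1 e h2 h3) t
    · rintro t d e ⟨h1, h2, h3, h4⟩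
      exact W4b_get g18 6 8 rfl (by norm_num) (fun l hl => (p3 l hl).1) d e
        (fun t ht => q3 t ht d h1 e h2 h3 h4) t
    · rintro t d e ⟨h1, h2, h3, h4⟩
      obtain ⟨x', hx', y', hy', h5, h6, rfl, rfl⟩ := W4b_pre d h1 e h2 h3 h4
      obtain ⟨j, h7, h8⟩ := W4b_get g28 12 8 rfl (by norm_num) (fun l hl => (p5 l hl).1) x' y'
        (fun t ht => q5 t ht x' hx' y' hy' h5 h6) t
      exact ⟨j, by rw [W4b_cw_map, h7], by rw [W4b_cw_map, h8]⟩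
  · obtain ⟨k, rfl⟩ : ∃ k, ℓ = 10 + 3 * k := ⟨(ℓ - 10) / 3, by omega⟩
    refine W4b_main 10 k (by norm_num) (fun j => g010.getD j []) (fun j => g110.getD j [])
      (fun j => (g210.getD j []).map lt2) (by decide) (fun j => p2 _ (W4b_getmem g010 7 rfl j))
      (fun j => p4 _ (W4b_getmem g110 6 rfl j)) (fun j => ?_) ?_ ?_ ?_
    · have := p6 _ (W4b_getmem g210 12 rfl j)
      rw [List.length_map]
      exact this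
    · rintro t d e ⟨h1, h2, h3⟩
      exact W4b_get g010 7 10 rfl (by norm_num) (fun l hl => (p2 l hl).1) d e
        (fun t ht => q2 t ht d h1 e h2 h3) t
    · rintro t d e ⟨h1, h2, h3, h4⟩
      exact W4b_get g110 6 10 rfl (by norm_num) (fun l hl => (p4 l hl).1) d e
        (fun t ht => q4 t ht d h1 e h2 h3 h4) t
    · rintro t d e ⟨h1, h2, h3, h4⟩
      obtain ⟨x', hx', y', hy', h5, h6, rfl, rfl⟩ := W4b_pre d h1 e h2 h3 h4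
      obtain ⟨j, h7, h8⟩ := W4b_get g210 12 10 rfl (by norm_num) (fun l hl => (p6 l hl).1) x' y'
        (fun t ht => q6 t ht x' hx' y' hy' h5 h6) t
      exact ⟨j, by rw [W4b_cw_map, h7], by rw [W4b_cw_map, h8]⟩

end Wr
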