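import Pool.Agent.H.MP_4bad09_co.W4b

set_option autoImplicit false

/-!
# The words of part 2 (MP_4bad09_co, helper11)
-/

namespace Wr

theorem W4c_cw_map {G H : Type} [AddCommGroup G] [AddCommGroup H] (φ : G →+ H) (l : List G) (t : ℕ) :
    cw (l.map φ) t = φ (cw l t) := by
  unfold cw
  rw [List.length_map, ← List.getD_map (f := φ), map_zero]

theorem W4c_step {m : ℕ} {G : Type} [AddCommGroup G] (φ : G →+ ZMod m) (LG : List G) (h0 : (0 : G) ∈ LG)
    (hneg : ∀ x ∈ LG, -x ∈ LG) (S S' : Set (ZMod m)) (S0 : (0 : ZMod m) ∈ S) (Sneg : ∀ z ∈ S, -z ∈ S)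
    (hS' : ∀ z ∈ S', z ∈ S ∨ ∃ x ∈ LG, x ≠ 0 ∧ φ x = z) {M N : ℕ} (w : Fin M → List (ZMod m)) (u : Fin N → List G)
    (R : ℕ → ZMod m → ZMod m → Prop)
    (hw : ∀ t d e, d ∈ S → e ∈ S → (d = 0 ∨ e = 0 ∨ d + e = 0) →
      (∃ p, cw (w p) t = d ∧ cw (w p) (t + 1) = e) ∨ R t d e)
    (hu : ∀ t : ℕ, ∀ x ∈ LG, ∀ y ∈ LG, (x = 0 ∨ y = 0 ∨ x + y = 0) → ¬ (x = 0 ∧ y = 0) →
      ∃ j, cw (u j) t = x ∧ cw (u j) (t + 1) = y) :
    ∀ t d e, d ∈ S' → e ∈ S' → (d = 0 ∨ e = 0 ∨ d + e = 0) →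
      (∃ p, cw (Fin.append w (fun j => (u j).map φ) p) t = d ∧
        cw (Fin.append w (fun j => (u j).map φ) p) (t + 1) = e) ∨ R t d e := by
  intro t d e hd he hde
  have hnew : ∀ x ∈ LG, ∀ y ∈ LG, (x = 0 ∨ y = 0 ∨ x + y = 0) → ¬ (x = 0 ∧ y = 0) → φ x = d → φ y = e →
      (∃ p, cw (Fin.append w (fun j => (u j).map φ) p) t = d ∧
        cw (Fin.append w (fun j => (u j).map φ) p) (t + 1) = e) ∨ R t d e := by
    intro x hx y hy h1 h2 h3 h4
    obtain ⟨j, h5, h6⟩ := hu t x hx y hy h1 h2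
    refine Or.inl ⟨Fin.natAdd M j, ?_⟩
    rw [Fin.append_right, W4c_cw_map, W4c_cw_map, h5, h6]
    exact ⟨h3, h4⟩
  by_cases hS : d ∈ S ∧ e ∈ S
  · rcases hw t d e hS.1 hS.2 hde with ⟨p, h1, h2⟩ | h
    · refine Or.inl ⟨Fin.castAdd N p, ?_⟩
      rw [Fin.append_left]
      exact ⟨h1, h2⟩
    · exact Or.inr h
  · rcases hde with h | h | h
    · subst h
      have heS : e ∉ S := fun hh => hS ⟨S0, hh⟩
      obtain ⟨y, hy, hy0, rfl⟩ := (hS' e he).resolve_left heS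
      exact hnew 0 h0 y hy (Or.inl rfl) (fun hh => hy0 hh.2) (map_zero φ) rfl
    · subst h
      have hdS : d ∉ S := fun hh => hS ⟨hh, S0⟩
      obtain ⟨x, hx, hx0, rfl⟩ := (hS' d hd).resolve_left hdS
      exact hnew x hx 0 h0 (Or.inr (Or.inl rfl)) (fun hh => hx0 hh.1) rfl (map_zero φ)
    · have he' : e = -d := by
        rw [add_comm] at h
        exact eq_neg_of_add_eq_zero_left h
      subst he'
      have hdS : d ∉ S := fun hh => hS ⟨hh, Sneg _ hh⟩
      obtain ⟨x, hx, hx0, rfl⟩ := (hS' d hd).resolve_left hdS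
      exact hnew x hx (-x) (hneg x hx) (Or.inr (Or.inr (add_neg_cancel x))) (fun hh => hx0 hh.1) rfl (map_neg φ x)

theorem W4c_append {m ℓ M N : ℕ} {G : Type} [AddCommGroup G] (φ : G →+ ZMod m) (w : Fin M → List (ZMod m))
    (u : Fin N → List G) (hw : ∀ p, (w p).length = ℓ ∧ IsUnit (w p).sum)
    (hu : ∀ p, (u p).length = ℓ ∧ IsUnit (φ (u p).sum)) :
    ∀ p, (Fin.append w (fun j => (u j).map φ) p).length = ℓ ∧
      IsUnit (Fin.append w (fun j => (u j).map φ) p).sum := by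
  intro p
  refine Fin.addCases (fun i => ?_) (fun i => ?_) p
  · rw [Fin.append_left]
    exact hw i
  · rw [Fin.append_right, List.length_map, ← map_list_sum]
    exact hu i

/-- the letters `0, ±1, …, ±k` -/
def W4c_S (m k : ℕ) : Set (ZMod m) := {z | ∃ i : ℤ, |i| ≤ k ∧ z = (i : ZMod m)}

theorem W4c_S_zero (m k : ℕ) : (0 : ZMod m) ∈ W4c_S m k := ⟨0, by simp, by simp⟩

theorem W4c_S_neg (m k : ℕ) : ∀ z ∈ W4c_S m k, -z ∈ W4c_S m k := by
  rintro z ⟨i, hi, rfl⟩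
  exact ⟨-i, by rwa [abs_neg], by push_cast; rfl⟩

/-- the evaluation `(p, q) ↦ p c + q d` -/
def W4c_ev {m : ℕ} (c d : ZMod m) : ℤ × ℤ →+ ZMod m where
  toFun x := (x.1 : ZMod m) * c + (x.2 : ZMod m) * d
  map_zero' := by simp
  map_add' x y := by simp only [Prod.fst_add, Prod.snd_add]; push_cast; ring

/-- the evaluation `p ↦ p c` -/
def W4c_ev1 {m : ℕ} (c : ZMod m) : ℤ →+ ZMod m where
  toFun x := (x : ZMod m) * c
  map_zero' := by simp
  map_add' x y := by push_cast; ring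

theorem W4c_two_unit (h : ℕ) : IsUnit (2 : ZMod (2 * h + 1)) := by
  refine IsUnit.of_mul_eq_one ((h : ZMod (2 * h + 1)) + 1) ?_
  have : ((2 * h + 1 : ℕ) : ZMod (2 * h + 1)) = 0 := ZMod.natCast_self _
  push_cast at this
  linear_combination this

/-- the words for the letters `0, ±1, …, ±(k+1)` -/
def W4c_P (h ℓ k : ℕ) : Prop :=
  ∃ N, N = 6 * (k + 1) ∧ ∃ w : Fin N → List (ZMod (2 * h + 1)),
    (∀ p, (w p).length = ℓ ∧ IsUnit (w p).sum) ∧
    ∀ (t : ℕ) (d e : ZMod (2 * h + 1)), d ∈ W4c_S (2 * h + 1) (k + 1) → e ∈ W4c_S (2 * h + 1) (k + 1) →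
      (d = 0 ∨ e = 0 ∨ d + e = 0) →
      (∃ p, cw (w p) t = d ∧ cw (w p) (t + 1) = e) ∨
        (cw (ws (2 * h + 1) ℓ) t = d ∧ cw (ws (2 * h + 1) ℓ) (t + 1) = e)

theorem W4c_ind (h ℓ : ℕ) (h8 : 8 ≤ ℓ) (h3 : ¬ 3 ∣ ℓ) : ∀ k : ℕ, W4c_P h ℓ k := by
  obtain ⟨w0, w1, w2, a0, a1, a2, c0, c1, c2⟩ := exists_formal ℓ h8 h3
  have hcase : ∀ i : ℤ, |i| ≤ 1 → i ∈ ([0, 1, -1] : List ℤ) := by
    intro i hi
    rw [abs_le] at hi
    simp only [List.mem_cons, List.not_mem_nil, or_false]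
    omega
  have hP0 : W4c_P h ℓ 0 := by
    refine ⟨6, rfl, fun j => (w0 j).map (Int.castAddHom (ZMod (2 * h + 1))), fun p => ?_, ?_⟩
    · rw [List.length_map, ← map_list_sum]
      refine ⟨(a0 p).1, ?_⟩
      rcases (a0 p).2 with hs | hs | hs | hs
      · rw [hs]; simp
      · rw [hs]; simp
      · rw [hs]
        simpa using W4c_two_unit h
      · rw [hs]
        simpa using (W4c_two_unit h).neg
    · intro t d e hd he hde
      have hnew : ∀ x ∈ ([0, 1, -1] : List ℤ), ∀ y ∈ ([0, 1, -1] : List ℤ), (x = 0 ∨ y = 0 ∨ x + y = 0) →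
          (x : ZMod (2 * h + 1)) = d → (y : ZMod (2 * h + 1)) = e →
          (∃ p, cw ((w0 p).map (Int.castAddHom (ZMod (2 * h + 1)))) t = d ∧
            cw ((w0 p).map (Int.castAddHom (ZMod (2 * h + 1)))) (t + 1) = e) ∨
          (cw (ws (2 * h + 1) ℓ) t = d ∧ cw (ws (2 * h + 1) ℓ) (t + 1) = e) := by
        intro x hx y hy hxy h4 h5
        rcases c0 t x hx y hy hxy with ⟨j, h6, h7⟩ | ⟨h6, h7⟩
        · refine Or.inl ⟨j, ?_⟩
          rw [W4c_cw_map, W4c_cw_map, h6, h7]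
          exact ⟨h4, h5⟩
        · refine Or.inr ?_
          rw [cw_ws _ _ (by omega), cw_ws _ _ (by omega), ← h4, ← h5, h6, h7]
          constructor <;> split_ifs <;> simp
      obtain ⟨i, hi, rfl⟩ := hd
      obtain ⟨j, hj, rfl⟩ := he
      have hi' : i ∈ ([0, 1, -1] : List ℤ) := hcase i (by simpa using hi)
      have hj' : j ∈ ([0, 1, -1] : List ℤ) := hcase j (by simpa using hj)
      rcases hde with h4 | h4 | h4
      · exact hnew 0 (by simp) j hj' (Or.inl rfl) (by rw [h4]; simp) rfl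
      · exact hnew i hi' 0 (by simp) (Or.inr (Or.inl rfl)) rfl (by rw [h4]; simp)
      · refine hnew i hi' (-i) (hcase _ (by rw [abs_neg]; simpa using hi)) (Or.inr (Or.inr (add_neg_cancel i))) rfl ?_
        push_cast
        exact (eq_neg_of_add_eq_zero_right h4).symm
  have hP1 : W4c_P h ℓ 1 := by
    obtain ⟨N, hN, w, hw, hc⟩ := hP0
    have hun : ∀ p, (w1 p).length = ℓ ∧ IsUnit (W4c_ev1 (2 : ZMod (2 * h + 1)) (w1 p).sum) := by
      intro p
      refine ⟨(a1 p).1, ?_⟩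
      rcases (a1 p).2 with hs | hs
      · rw [hs]
        simpa [W4c_ev1] using W4c_two_unit h
      · rw [hs]
        simpa [W4c_ev1] using (W4c_two_unit h).neg
    refine ⟨N + 6, by omega, _, W4c_append (W4c_ev1 (2 : ZMod (2 * h + 1))) w w1 hw hun, ?_⟩
    refine W4c_step (W4c_ev1 (2 : ZMod (2 * h + 1))) [0, 1, -1] (by simp) (by decide)
      (W4c_S (2 * h + 1) (0 + 1)) (W4c_S (2 * h + 1) (1 + 1)) (W4c_S_zero _ _) (W4c_S_neg _ _) ?_ w w1
      (fun t d e => cw (ws (2 * h + 1) ℓ) t = d ∧ cw (ws (2 * h + 1) ℓ) (t + 1) = e) hc c1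
    rintro z ⟨i, hi, rfl⟩
    by_cases h1 : |i| ≤ ((0 + 1 : ℕ) : ℤ)
    · exact Or.inl ⟨i, h1, rfl⟩
    · right
      have h2 : i = 2 ∨ i = -2 := by
        push_cast at hi h1
        rw [abs_le] at hi h1
        omega
      rcases h2 with rfl | rfl
      · exact ⟨1, by simp, by norm_num, by simp [W4c_ev1]⟩
      · exact ⟨-1, by simp, by norm_num, by simp [W4c_ev1]⟩
  intro k
  induction k using Nat.twoStepInduction with
  | zero => exact hP0
  | one => exact hP1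
  | more k ih _ =>
    obtain ⟨N, hN, w, hw, hc⟩ := ih
    have hun : ∀ p, (w2 p).length = ℓ ∧
        IsUnit (W4c_ev ((k : ZMod (2 * h + 1)) + 3) ((k : ZMod (2 * h + 1)) + 2) (w2 p).sum) := by
      intro p
      refine ⟨(a2 p).1, ?_⟩
      rcases (a2 p).2 with hs | hs
      · rw [hs]
        have : W4c_ev ((k : ZMod (2 * h + 1)) + 3) ((k : ZMod (2 * h + 1)) + 2) (1, -1) = 1 := by
          simp only [W4c_ev, AddMonoidHom.coe_mk, ZeroHom.coe_mk]
          push_cast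
          ring
        rw [this]
        exact isUnit_one
      · rw [hs]
        have : W4c_ev ((k : ZMod (2 * h + 1)) + 3) ((k : ZMod (2 * h + 1)) + 2) (-1, 1) = -1 := by
          simp only [W4c_ev, AddMonoidHom.coe_mk, ZeroHom.coe_mk]
          push_cast
          ring
        rw [this]
        exact isUnit_one.neg
    refine ⟨N + 12, by omega, _, W4c_append (W4c_ev ((k : ZMod (2 * h + 1)) + 3) ((k : ZMod (2 * h + 1)) + 2))
      w w2 hw hun, ?_⟩
    refine W4c_step (W4c_ev ((k : ZMod (2 * h + 1)) + 3) ((k : ZMod (2 * h + 1)) + 2))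
      [(0, 0), (1, 0), (-1, 0), (0, 1), (0, -1)] (by decide) (by decide)
      (W4c_S (2 * h + 1) (k + 1)) (W4c_S (2 * h + 1) (k + 2 + 1)) (W4c_S_zero _ _) (W4c_S_neg _ _) ?_ w w2
      (fun t d e => cw (ws (2 * h + 1) ℓ) t = d ∧ cw (ws (2 * h + 1) ℓ) (t + 1) = e) hc c2
    rintro z ⟨i, hi, rfl⟩
    by_cases h1 : |i| ≤ ((k + 1 : ℕ) : ℤ)
    · exact Or.inl ⟨i, h1, rfl⟩
    · right
      have h2 : i = k + 3 ∨ i = -(k + 3) ∨ i = k + 2 ∨ i = -(k + 2) := by
        push_cast at hi h1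
        rw [abs_le] at hi h1
        omega
      rcases h2 with rfl | rfl | rfl | rfl
      · refine ⟨(1, 0), by decide, by decide, ?_⟩
        simp only [W4c_ev, AddMonoidHom.coe_mk, ZeroHom.coe_mk]
        push_cast
        ring
      · refine ⟨(-1, 0), by decide, by decide, ?_⟩
        simp only [W4c_ev, AddMonoidHom.coe_mk, ZeroHom.coe_mk]
        push_cast
        ring
      · refine ⟨(0, 1), by decide, by decide, ?_⟩
        simp only [W4c_ev, AddMonoidHom.coe_mk, ZeroHom.coe_mk]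
        push_cast
        ring
      · refine ⟨(0, -1), by decide, by decide, ?_⟩
        simp only [W4c_ev, AddMonoidHom.coe_mk, ZeroHom.coe_mk]
        push_cast
        ring

theorem W4c_S_all (h : ℕ) (z : ZMod (2 * h + 1)) : z ∈ W4c_S (2 * h + 1) h := by
  have hz := ZMod.val_lt z
  have hz' : ((z.val : ℕ) : ZMod (2 * h + 1)) = z := ZMod.natCast_zmod_val z
  by_cases h1 : z.val ≤ h
  · refine ⟨(z.val : ℤ), ?_, ?_⟩
    · rw [abs_of_nonneg (by positivity)]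
      exact_mod_cast h1
    · push_cast
      exact hz'.symm
  · refine ⟨(z.val : ℤ) - (2 * h + 1), ?_, ?_⟩
    · rw [abs_le]
      omega
    · have h2 : ((2 * h + 1 : ℕ) : ZMod (2 * h + 1)) = 0 := ZMod.natCast_self _
      push_cast at h2 ⊢
      rw [h2, sub_zero]
      exact hz'.symm

/-- The words of part 2: with `0 … 0 1 0` they have all pairs `(d, e)`, `d = 0` or `e = 0` or `d + e = 0`, at all places.

Proof.  By `exists_formal`, for `k ≥ 1` there are `6 k` words (index type `Fin (6 * k)`, or lists) with all pairs as required with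
`d, e ∈ {0, ±1, …, ±k}`: `k = 1`: the words `w0` mapped to `ZMod (2h+1)`; `k = 2`: add the words `2 * w1`; from `k` to
`k + 2`: add the images of the words `w2` under `(p, q) ↦ p (k + 2) + q (k + 1)` (a pair `(d, e)` that satisfies the condition and has a
letter outside `{0, ±1, …, ±k}` is a pair of letters `0, ±(k+2), ±(k+1)`).  The sums are `±1`, `±2`, `±2 * 1`, `±((k+2) - (k+1)) = ±1`: units, as
`2h + 1` is odd.  For `k = h` all elements of `ZMod (2h+1)` are in `{0, ±1, …, ±h}`. -/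
theorem exists_words2 (h ℓ : ℕ) (hh : 1 ≤ h) (h8 : 8 ≤ ℓ) (h3 : ¬ 3 ∣ ℓ) :
    ∃ w : Fin (6 * h) → List (ZMod (2 * h + 1)), (∀ p, (w p).length = ℓ ∧ IsUnit (w p).sum) ∧
      ∀ (t : ℕ) (d e : ZMod (2 * h + 1)), (d = 0 ∨ e = 0 ∨ d + e = 0) →
        (∃ p, cw (w p) t = d ∧ cw (w p) (t + 1) = e) ∨
          (cw (ws (2 * h + 1) ℓ) t = d ∧ cw (ws (2 * h + 1) ℓ) (t + 1) = e) := by
  obtain ⟨k, rfl⟩ := Nat.exists_eq_add_of_le hh
  rw [add_comm 1 k] at *
  obtain ⟨N, rfl, w, hw, hc⟩ := W4c_ind (k + 1) ℓ h8 h3 k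
  exact ⟨w, hw, fun t d e hde => hc t d e (W4c_S_all _ d) (W4c_S_all _ e) hde⟩

end Wr
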