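import Pool.Agent.H.MP_4bad09_co.W1

set_option autoImplicit false

/-!
# Lifting a cyclic order by a word (MP_4bad09_co, helper11)
-/

namespace Wr

theorem W5_cw_per {G : Type} [Zero G] (l : List G) (t k : ℕ) : cw l (t + k * l.length) = cw l t := by
  unfold cw
  rw [Nat.add_mul_mod_self_right]

theorem W5_sum {G : Type} [AddCommMonoid G] (l : List G) :
    ∑ i ∈ Finset.range l.length, l.getD i 0 = l.sum := by
  induction l with
  | nil => simp
  | cons a l ih =>
    rw [List.length_cons, Finset.sum_range_succ', List.sum_cons, ← ih]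
    simp only [List.getD_cons_succ, List.getD_cons_zero]
    rw [add_comm]

theorem W5_x {m : ℕ} (l : List (ZMod m)) (t : ℕ) :
    ∑ i ∈ Finset.range (t + l.length), cw l i = ∑ i ∈ Finset.range t, cw l i + l.sum := by
  induction t with
  | zero =>
    rw [Nat.zero_add, Finset.sum_range_zero, zero_add, ← W5_sum l]
    refine Finset.sum_congr rfl (fun i hi => ?_)
    unfold cw
    rw [Nat.mod_eq_of_lt (Finset.mem_range.1 hi)]
  | succ t ih =>
    rw [show t + 1 + l.length = t + l.length + 1 by omega, Finset.sum_range_succ, ih,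
      Finset.sum_range_succ]
    have := W5_cw_per l t 1
    rw [one_mul] at this
    rw [this]
    ring

theorem W5_xk {m : ℕ} (l : List (ZMod m)) (t k : ℕ) :
    ∑ i ∈ Finset.range (t + k * l.length), cw l i =
      ∑ i ∈ Finset.range t, cw l i + k * l.sum := by
  induction k with
  | zero => simp
  | succ k ih =>
    rw [show t + (k + 1) * l.length = (t + k * l.length) + l.length by ring, W5_x, ih]
    push_cast
    ring

theorem W5_hit {m : ℕ} [NeZero m] (l : List (ZMod m)) (hs : IsUnit l.sum) (t : ℕ) (a : ZMod m) :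
    ∃ k : ℕ, ∑ i ∈ Finset.range (t + k * l.length), cw l i = a := by
  obtain ⟨u, hu⟩ := hs
  refine ⟨((a - ∑ i ∈ Finset.range t, cw l i) * (↑u⁻¹ : ZMod m)).val, ?_⟩
  rw [W5_xk, ZMod.natCast_val, ZMod.cast_id', id_eq, ← hu, mul_assoc, Units.inv_mul, mul_one]
  ring

/-- The lift of a cyclic order `C` of `Y` by a word `l` whose sum is a unit.

Proof. `x t := ∑ i ∈ range t, cw l i`, `f t := (x t, C.f t)`.  As `cw l` is `ℓ`-periodic, `x (t + ℓ) = x t + l.sum`
(`∑ i ∈ range ℓ, cw l i = l.sum`), so `x (t + k * ℓ) = x t + k * l.sum`; so `f` has the period `m * ℓ`; it takes all values and for given `t`, `x0` there is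
`k` with `x t + k * l.sum = x0`.  Then the windows of `f` at `t + k * ℓ` are as required. -/
theorem exists_lift {Y : Type} {ℓ m : ℕ} [NeZero m] (C : Cyc Y ℓ) (l : List (ZMod m))
    (hl : l.length = ℓ) (hℓ : 0 < ℓ) (hs : IsUnit l.sum) :
    ∃ c : Cyc (ZMod m × Y) (m * ℓ), ∀ (t : ℕ) (x : ZMod m),
      c.Win (x, C.f t) (x + cw l t, C.f (t + 1)) (x + cw l t + cw l (t + 1), C.f (t + 2)) := by
  subst hl
  have hper : ∀ t k, C.f (t + k * l.length) = C.f t := fun t k => C.per_mul t k
  refine ⟨⟨fun t => (∑ i ∈ Finset.range t, cw l i, C.f t), ?_, ?_⟩, ?_⟩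
  · intro t
    rw [W5_xk, hper, ZMod.natCast_self, zero_mul, add_zero]
  · rintro ⟨a, y⟩
    obtain ⟨t, ht⟩ := C.surj y
    obtain ⟨k, hk⟩ := W5_hit l hs t a
    refine ⟨t + k * l.length, ?_⟩
    rw [hk, hper, ht]
  · intro t x
    obtain ⟨k, hk⟩ := W5_hit l hs t x
    have h1 : ∑ i ∈ Finset.range (t + k * l.length + 1), cw l i = x + cw l t := by
      rw [Finset.sum_range_succ, hk, W5_cw_per]
    have h2 : ∑ i ∈ Finset.range (t + k * l.length + 2), cw l i = x + cw l t + cw l (t + 1) := by
      rw [Finset.sum_range_succ, h1, show t + k * l.length + 1 = t + 1 + k * l.length by ring,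
        W5_cw_per]
    refine ⟨t + k * l.length, ?_, ?_, ?_⟩
    · show ((_, _) : ZMod m × Y) = _
      rw [hk, hper]
    · show ((_, _) : ZMod m × Y) = _
      rw [h1, show t + k * l.length + 1 = t + 1 + k * l.length by ring, hper]
    · show ((_, _) : ZMod m × Y) = _
      rw [h2, show t + k * l.length + 2 = t + 2 + k * l.length by ring, hper]

end Wr
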