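import Pool.Agent.H.MP_4bad09_co.W3
import Pool.Agent.H.MP_4bad09_co.W4c
import Pool.Agent.H.MP_4bad09_co.W5

set_option autoImplicit false

/-!
# Part 1 and part 2 (MP_4bad09_co, helper11)
-/

namespace Wr

/-- Part 1: the triples with three different `X`-coordinates.

Proof.  `TH X a` gives cyclic orders `c0 i`, `i : I0`; `exists_words1 m a` gives words `w p`; take `I = I0 × (ZMod m × ZMod m)` and the lifts of
`c0 i` by `w p` (`exists_lift`).  Given `p, q, r`, `(c0 i).Has p.2 q.2 r.2`; in each of the six cases there is `t` with, say,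
`(c0 i).f t = p.2`, `f (t + 1) = q.2`, `f (t + 2) = r.2`; take the word with the letters `q.1 - p.1`, `r.1 - q.1` at `t`, `t + 1`. -/
theorem part1 {X : Type} {a m : ℕ} [NeZero m] (hX : TH X a) (h4 : 4 ≤ a) (h3 : ¬ 3 ∣ a)
    (h5 : a ≠ 5 ∨ Odd m) :
    ∃ (I : Type) (_ : Fintype I) (c : I → Cyc (ZMod m × X) (m * a)),
      6 * Fintype.card I = (a - 1) * (a - 2) * m ^ 2 ∧
      ∀ p q r : ZMod m × X, p.2 ≠ q.2 → q.2 ≠ r.2 → p.2 ≠ r.2 → ∃ i, (c i).Has p q r := by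
  classical
  obtain ⟨_, I0, iF, c0, hcard, hcov⟩ := hX
  obtain ⟨w, hw, hw'⟩ := exists_words1 m a h4 h3 h5
  have hlift := fun (i : I0) (p : ZMod m × ZMod m) =>
    exists_lift (c0 i) (w p) (hw p).1 (by omega) (by rw [(hw p).2]; exact isUnit_one)
  choose c hc using hlift
  have hwin : ∀ (i : I0) (p q r : ZMod m × X), (c0 i).Win p.2 q.2 r.2 →
      ∃ v, (c i v).Win p q r := by
    rintro i ⟨p1, p2⟩ ⟨q1, q2⟩ ⟨r1, r2⟩ ⟨t, h1, h2, h6⟩
    obtain ⟨v, hv1, hv2⟩ := hw' t (q1 - p1) (r1 - q1)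
    have h7 := hc i v t p1
    rw [hv1, hv2] at h7
    have e1 : p1 + (q1 - p1) = q1 := by ring
    have e2 : q1 + (r1 - q1) = r1 := by ring
    rw [e1, e2] at h7
    have h1' : (c0 i).f t = p2 := h1
    have h2' : (c0 i).f (t + 1) = q2 := h2
    have h6' : (c0 i).f (t + 2) = r2 := h6
    rw [h1', h2', h6'] at h7
    exact ⟨v, h7⟩
  refine ⟨I0 × (ZMod m × ZMod m), inferInstance, fun i => c i.1 i.2, ?_, ?_⟩
  · rw [Fintype.card_prod, Fintype.card_prod, ZMod.card, ← mul_assoc, hcard]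
    ring
  · intro p q r hpq hqr hpr
    obtain ⟨i, hi⟩ := hcov p.2 q.2 r.2 hpq hqr hpr
    rcases hi with h | h | h | h | h | h
    · obtain ⟨v, hv⟩ := hwin i p q r h
      exact ⟨(i, v), Or.inl hv⟩
    · obtain ⟨v, hv⟩ := hwin i p r q h
      exact ⟨(i, v), Or.inr (Or.inl hv)⟩
    · obtain ⟨v, hv⟩ := hwin i q p r h
      exact ⟨(i, v), Or.inr (Or.inr (Or.inl hv))⟩
    · obtain ⟨v, hv⟩ := hwin i q r p h
      exact ⟨(i, v), Or.inr (Or.inr (Or.inr (Or.inl hv)))⟩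
    · obtain ⟨v, hv⟩ := hwin i r p q h
      exact ⟨(i, v), Or.inr (Or.inr (Or.inr (Or.inr (Or.inl hv))))⟩
    · obtain ⟨v, hv⟩ := hwin i r q p h
      exact ⟨(i, v), Or.inr (Or.inr (Or.inr (Or.inr (Or.inr hv))))⟩

/-- Part 2: the lifts of a cyclic order of `Y`.  Proof. `exists_words2`, `exists_lift`. -/
theorem part2 {Y : Type} (h ℓ : ℕ) (hh : 1 ≤ h) (h8 : 8 ≤ ℓ) (h3 : ¬ 3 ∣ ℓ) (C : Cyc Y ℓ) :
    ∃ c : Fin (6 * h) → Cyc (ZMod (2 * h + 1) × Y) ((2 * h + 1) * ℓ),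
      ∀ (t : ℕ) (x d e : ZMod (2 * h + 1)), (d = 0 ∨ e = 0 ∨ d + e = 0) →
        (∃ p, (c p).Win (x, C.f t) (x + d, C.f (t + 1)) (x + d + e, C.f (t + 2))) ∨
          (cw (ws (2 * h + 1) ℓ) t = d ∧ cw (ws (2 * h + 1) ℓ) (t + 1) = e) := by
  obtain ⟨w, hw, hw'⟩ := exists_words2 h ℓ hh h8 h3
  have hlift := fun p : Fin (6 * h) =>
    exists_lift (m := 2 * h + 1) C (w p) (hw p).1 (by omega) (hw p).2
  choose c hc using hlift
  refine ⟨c, fun t x d e hde => ?_⟩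
  rcases hw' t d e hde with ⟨p, h1, h2⟩ | h1
  · left
    have h4 := hc p t x
    rw [h1, h2] at h4
    exact ⟨p, h4⟩
  · exact Or.inr h1

/-- The lift by `0 … 0 1 0`.  Proof. `exists_lift`, `ws_length`, `ws_sum`. -/
theorem part2' {Y : Type} (m ℓ : ℕ) [NeZero m] (hℓ : 2 ≤ ℓ) (C : Cyc Y ℓ) :
    ∃ c : Cyc (ZMod m × Y) (m * ℓ), ∀ (t : ℕ) (x : ZMod m),
      c.Win (x, C.f t) (x + cw (ws m ℓ) t, C.f (t + 1))
        (x + cw (ws m ℓ) t + cw (ws m ℓ) (t + 1), C.f (t + 2)) := by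
  exact exists_lift C (ws m ℓ) (ws_length m ℓ hℓ) (by omega)
    (by rw [ws_sum]; exact isUnit_one)

end Wr
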