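import Pool.Agent.H.MP_4bad09_co.W1

set_option autoImplicit false

/-!
# Decompositions with two special cycles for half of the points (MP_4bad09_co, helper11)
-/

namespace Wr

/-- A decomposition for the points `Option (ZMod (2K))` with `2K` different cyclic orders `c (g (k, e))` (`k < K`, `e : Bool`)
that begin with `some k` and end with `none`. -/
def THe (K : ℕ) : Prop :=
  ∃ (I : Type) (_ : Fintype I) (c : I → Cyc (Option (ZMod (2 * K))) (2 * K + 1))
    (g : Fin K × Bool → I),
    6 * Fintype.card I = (2 * K + 1 - 1) * (2 * K + 1 - 2) ∧ Covers c ∧ Function.Injective g ∧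
    ∀ (k : Fin K) (e : Bool), (c (g (k, e))).f 0 = some ((k.val : ℕ) : ZMod (2 * K)) ∧
      (c (g (k, e))).f (2 * K) = none

/-- An injective map `u : Fin K → V` that avoids `s` extends to an equivalence.

Proof.  Both `V` and `Option (ZMod (2K))` have `2K + 1` elements.  The injective maps `Option (Fin K) → V` (`none ↦ s`, `some k ↦ u k`) and
`Option (Fin K) → Option (ZMod (2K))` (`none ↦ none`, `some k ↦ some k`; the casts of `k < K` are different, `ZMod.val_cast_of_lt`), e.g. `Equiv.ofInjective` for the two ranges and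
`Equiv.extendSubtype` after an arbitrary equivalence `V ≃ Option (ZMod (2K))` (`W1_equiv`). -/
theorem exists_equiv_fix {V : Type} {K : ℕ} (hK : 1 ≤ K) (hV : Nat.card V = 2 * K + 1) (s : V)
    (u : Fin K → V) (hu : Function.Injective u) (hus : ∀ k, u k ≠ s) :
    ∃ e : V ≃ Option (ZMod (2 * K)), e s = none ∧ ∀ k : Fin K, e (u k) = some ((k.val : ℕ) : ZMod (2 * K)) := by
  classical
  haveI : NeZero (2 * K) := ⟨by omega⟩
  have hW : Nat.card (Option (ZMod (2 * K))) = 2 * K + 1 := by
    rw [Nat.card_eq_fintype_card, Fintype.card_option, ZMod.card]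
  obtain ⟨e₀⟩ := W1_equiv hV (by omega) hW
  have hf : Function.Injective (fun x : Option (Fin K) => e₀ (x.elim s u)) := by
    intro x y h
    have h1 := e₀.injective h
    cases x with
    | none =>
      cases y with
      | none => rfl
      | some y => exact absurd h1.symm (hus y)
    | some x =>
      cases y with
      | none => exact absurd h1 (hus x)
      | some y => rw [hu h1]
  have hg : Function.Injective (fun x : Option (Fin K) =>
      x.elim (none : Option (ZMod (2 * K))) (fun k => some ((k.val : ℕ) : ZMod (2 * K)))) := by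
    intro x y h
    cases x with
    | none =>
      cases y with
      | none => rfl
      | some y => exact absurd h.symm (Option.some_ne_none _)
    | some x =>
      cases y with
      | none => exact absurd h (Option.some_ne_none _)
      | some y =>
        have h1 : ((x.val : ℕ) : ZMod (2 * K)) = ((y.val : ℕ) : ZMod (2 * K)) := Option.some.inj h
        have h2 := congrArg ZMod.val h1
        rw [ZMod.val_cast_of_lt (by omega), ZMod.val_cast_of_lt (by omega)] at h2
        rw [Fin.ext h2]
  obtain ⟨σ, hσ⟩ := Equiv.Perm.exists_extending_pair _ _ hf hg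
  refine ⟨e₀.trans σ, hσ none, fun k => hσ (some k)⟩

/-- From neighbours of `s`.

Proof. Transport with `exists_equiv_fix` (`Cyc.map`, `Cyc.map_has`) and replace the cyclic orders `c (g (k, e))` by the normalized ones (`Cyc.norm`; define the new cyclic order for `i` in the range of
`g` with `Function.Injective`, as in the proof of `THs_of_adj` in `W1.lean`). -/
theorem THe_of_adj {V : Type} {K : ℕ} (hK : 1 ≤ K) (hV : Nat.card V = 2 * K + 1) {I : Type}
    [Fintype I] (c : I → Cyc V (2 * K + 1))
    (h1 : 6 * Fintype.card I = (2 * K + 1 - 1) * (2 * K + 1 - 2)) (h2 : Covers c) (s : V)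
    (u : Fin K → V) (hu : Function.Injective u) (hus : ∀ k, u k ≠ s) (g : Fin K × Bool → I)
    (hg : Function.Injective g) (h3 : ∀ k e, (c (g (k, e))).Adj s (u k)) : THe K := by
  classical
  obtain ⟨e, he, heu⟩ := exists_equiv_fix hK hV s u hu hus
  have hN : ∀ x : Fin K × Bool, ∃ c' : Cyc V (2 * K + 1), c'.f 0 = u x.1 ∧
      c'.f (2 * K + 1 - 1) = s ∧ ∀ a b z, (c (g x)).Has a b z → c'.Has a b z :=
    fun x => (c (g x)).norm (by omega) (h3 x.1 x.2)
  choose F hF0 hF1 hF2 using hN
  have hex : ∀ i : I, ∃ ci : Cyc V (2 * K + 1), (∀ x y z, (c i).Has x y z → ci.Has x y z) ∧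
      ∀ x, g x = i → ci = F x := by
    intro i
    by_cases h : ∃ x, g x = i
    · obtain ⟨x, rfl⟩ := h
      refine ⟨F x, hF2 x, ?_⟩
      intro w hgw
      rw [hg hgw]
    · exact ⟨c i, fun _ _ _ h => h, fun x hx => absurd ⟨x, hx⟩ h⟩
  choose cc hcc hcF using hex
  refine ⟨I, inferInstance, fun i => (cc i).map e, g, h1, ?_, hg, ?_⟩
  · refine W1_covers ?_ e
    intro x y z hxy hyz hxz
    obtain ⟨i, hi⟩ := h2 x y z hxy hyz hxz
    exact ⟨i, hcc i x y z hi⟩
  · intro k b
    have h4 := hcF (g (k, b)) (k, b) rfl
    constructor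
    · change e ((cc (g (k, b))).f 0) = _
      rw [h4, hF0]
      exact heu k
    · change e ((cc (g (k, b))).f (2 * K)) = _
      rw [h4]
      have h5 := hF1 (k, b)
      rw [Nat.add_sub_cancel] at h5
      rw [h5]
      exact he

end Wr
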