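import Pool.Agent.H.MP_4bad09_co.W1

set_option autoImplicit false

/-!
# Every set of three points is a window exactly once (MP_4bad09_co, helper11)
-/

namespace Wr

variable {V : Type} {n : ℕ}

theorem Y2_key (c : Cyc V n) (hn : 0 < n) (hV : Nat.card V = n) (a i j : ℕ) (hi : i < n)
    (hj : j < n) (h : c.f (a + i) = c.f (a + j)) : i = j := by
  rw [c.eq_iff hn hV] at h
  have h1 : i ≡ j [MOD n] := Nat.ModEq.add_left_cancel' a h
  rwa [Nat.ModEq, Nat.mod_eq_of_lt hi, Nat.mod_eq_of_lt hj] at h1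

theorem Y2_choose {m : ℕ} (h : 6 * m = (n - 1) * (n - 2)) : m * n = n.choose 3 := by
  have h1 : n.descFactorial 3 = Nat.factorial 3 * n.choose 3 :=
    Nat.descFactorial_eq_factorial_mul_choose n 3
  have h2 : n.descFactorial 3 = (n - 2) * ((n - 1) * n) := by
    simp [Nat.descFactorial]
  have h3 : Nat.factorial 3 = 6 := rfl
  rw [h2, h3] at h1
  have h4 : 6 * (m * n) = (n - 2) * ((n - 1) * n) := by
    rw [← mul_assoc, h]
    ring
  omega

theorem Y2_card [DecidableEq V] (c : Cyc V n) (hn : 3 ≤ n) (hV : Nat.card V = n) (a : ℕ) :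
    ({c.f a, c.f (a + 1), c.f (a + 2)} : Finset V).card = 3 := by
  rw [Finset.card_eq_three]
  refine ⟨c.f a, c.f (a + 1), c.f (a + 2), ?_, ?_, ?_, rfl⟩
  · intro h
    exact absurd (Y2_key c (by omega) hV a 0 1 (by omega) (by omega) h) (by omega)
  · intro h
    exact absurd (Y2_key c (by omega) hV a 0 2 (by omega) (by omega) h) (by omega)
  · intro h
    exact absurd (Y2_key c (by omega) hV a 1 2 (by omega) (by omega) h) (by omega)

theorem Y2_f (c : Cyc V n) {a b : ℕ} (h : a ≡ b [MOD n]) : c.f a = c.f b := by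
  rw [← c.f_mod a, h, c.f_mod b]

/-- Every point has exactly two neighbours.

Proof. If `c.f t = s` (take `t ≥ 1`, e.g. `t + n`), the neighbours are `c.f (t + 1)` and `c.f (t + (n - 1))`; they are different as `n ≥ 3` (`Cyc.eq_iff`); the
neighbour relation at another place `t'` has `t' ≡ t` or `t' + 1 ≡ t (mod n)`. -/
theorem adj_ncard (c : Cyc V n) (hn : 3 ≤ n) (hV : Nat.card V = n) (s : V) :
    {v : V | c.Adj s v}.ncard = 2 := by
  have hn0 : 0 < n := by omega
  obtain ⟨t, rfl⟩ := c.surj s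
  have hset : {v : V | c.Adj (c.f t) v} = {c.f (t + 1), c.f (t + (n - 1))} := by
    ext v
    rw [Set.mem_ofPred_eq, Set.mem_insert_iff, Set.mem_singleton_iff]
    constructor
    · rintro ⟨t', ⟨h1, h2⟩ | ⟨h1, h2⟩⟩
      · left
        rw [c.eq_iff hn0 hV] at h1
        rw [← h2]
        have h3 : t' ≡ t [MOD n] := h1
        exact Y2_f c (h3.add_right 1)
      · right
        rw [c.eq_iff hn0 hV] at h2
        have h3 : t' + 1 ≡ t [MOD n] := h2
        have h4 : t' + 1 + (n - 1) = t' + n := by omega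
        have h5 := h3.add_right (n - 1)
        rw [h4] at h5
        rw [← h1, ← c.per t']
        exact Y2_f c h5
    · rintro (rfl | rfl)
      · exact ⟨t, Or.inl ⟨rfl, rfl⟩⟩
      · refine ⟨t + (n - 1), Or.inr ⟨rfl, ?_⟩⟩
        have h4 : t + (n - 1) + 1 = t + n := by omega
        rw [h4, c.per]
  rw [hset]
  refine Set.ncard_pair fun h => ?_
  have h1 := Y2_key c hn0 hV t 1 (n - 1) (by omega) (by omega) h
  omega

/-- By counting, no set of three points is a window twice.

Proof.  The map `(i, t) ↦ {c_i t, c_i (t+1), c_i (t+2)}` from `I × Fin n` to the `3`-subsets of `V` (three different points as `n ≥ 4`... `n ≥ 3`, `Cyc.eq_iff`) is surjective by `Covers`;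
`|I| n = n (n-1)(n-2)/6 = |V|.choose 3` (see `W14_choose` in `W14.lean`, you may copy it), so it is bijective (`Fintype.bijective_iff_surjective_and_card`).
`V` is finite as `Nat.card V = n ≠ 0` (`Nat.finite_of_card_ne_zero`, `Fintype.ofFinite`). -/
theorem win_inj {I : Type} [Fintype I] (hV : Nat.card V = n) (hn : 4 ≤ n) (c : I → Cyc V n)
    (h1 : 6 * Fintype.card I = (n - 1) * (n - 2)) (h2 : Covers c) {i j : I} {t u : ℕ}
    (h : ({(c i).f t, (c i).f (t + 1), (c i).f (t + 2)} : Set V) =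
      {(c j).f u, (c j).f (u + 1), (c j).f (u + 2)}) : i = j ∧ t % n = u % n := by
  classical
  have hn0 : 0 < n := by omega
  have : Finite V := Nat.finite_of_card_ne_zero (by omega)
  have : Fintype V := Fintype.ofFinite V
  let F : I × Fin n → Finset V := fun p =>
    {(c p.1).f p.2.val, (c p.1).f (p.2.val + 1), (c p.1).f (p.2.val + 2)}
  have hF : ∀ (i : I) (t : ℕ), F (i, ⟨t % n, Nat.mod_lt _ hn0⟩) =
      {(c i).f t, (c i).f (t + 1), (c i).f (t + 2)} := by
    intro i t
    have h0 : t % n ≡ t [MOD n] := Nat.mod_modEq t n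
    change ({(c i).f (t % n), (c i).f (t % n + 1), (c i).f (t % n + 2)} : Finset V) = _
    rw [Y2_f _ h0, Y2_f _ (h0.add_right 1), Y2_f _ (h0.add_right 2)]
  have hmaps : Set.MapsTo F (Finset.univ : Finset (I × Fin n))
      (Finset.powersetCard 3 (Finset.univ : Finset V)) := by
    intro p _
    rw [Finset.mem_coe, Finset.mem_powersetCard]
    exact ⟨Finset.subset_univ _, Y2_card _ (by omega) hV _⟩
  have hwin : ∀ (i : I) (x y z : V), (c i).Win x y z → ∃ p, F p = {x, y, z} := by
    rintro i x y z ⟨t, rfl, rfl, rfl⟩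
    exact ⟨_, hF i t⟩
  have hsurj : Set.SurjOn F (Finset.univ : Finset (I × Fin n))
      (Finset.powersetCard 3 (Finset.univ : Finset V)) := by
    intro s hs
    rw [Finset.mem_coe, Finset.mem_powersetCard] at hs
    obtain ⟨x, y, z, hxy, hxz, hyz, rfl⟩ := Finset.card_eq_three.1 hs.2
    obtain ⟨i, hi⟩ := h2 x y z hxy hyz hxz
    have s1 : ∀ a b d : V, ({a, b, d} : Finset V) = {b, a, d} := fun a b d =>
      Finset.insert_comm a b {d}
    have s2 : ∀ a b d : V, ({a, b, d} : Finset V) = {a, d, b} := fun a b d => by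
      rw [Finset.pair_comm b d]
    have hex : ∃ p, F p = {x, y, z} := by
      rcases hi with h | h | h | h | h | h
      · exact hwin i _ _ _ h
      · obtain ⟨p, hp⟩ := hwin i _ _ _ h
        exact ⟨p, by rw [hp, s2]⟩
      · obtain ⟨p, hp⟩ := hwin i _ _ _ h
        exact ⟨p, by rw [hp, s1]⟩
      · obtain ⟨p, hp⟩ := hwin i _ _ _ h
        exact ⟨p, by rw [hp, s2, s1]⟩
      · obtain ⟨p, hp⟩ := hwin i _ _ _ h
        exact ⟨p, by rw [hp, s1, s2]⟩
      · obtain ⟨p, hp⟩ := hwin i _ _ _ h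
        exact ⟨p, by rw [hp, s1, s2, s1]⟩
    obtain ⟨p, hp⟩ := hex
    exact ⟨p, Finset.mem_coe.2 (Finset.mem_univ p), hp⟩
  have hcard : (Finset.univ : Finset (I × Fin n)).card ≤
      (Finset.powersetCard 3 (Finset.univ : Finset V)).card := by
    rw [Finset.card_powersetCard, Finset.card_univ, Finset.card_univ, Fintype.card_prod,
      Fintype.card_fin, ← Nat.card_eq_fintype_card (α := V), hV]
    exact (Y2_choose h1).le
  have hinj := Finset.injOn_of_surjOn_of_card_le F hmaps hsurj hcard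
  have h3 : F (i, ⟨t % n, Nat.mod_lt _ hn0⟩) = F (j, ⟨u % n, Nat.mod_lt _ hn0⟩) := by
    rw [hF, hF]
    apply Finset.coe_injective
    rw [Finset.coe_insert, Finset.coe_insert, Finset.coe_singleton, Finset.coe_insert,
      Finset.coe_insert, Finset.coe_singleton]
    exact h
  have h4 := hinj (Finset.mem_coe.2 (Finset.mem_univ _)) (Finset.mem_coe.2 (Finset.mem_univ _)) h3
  exact ⟨congrArg Prod.fst h4, congrArg (fun p : I × Fin n => p.2.val) h4⟩

/-- Two points are neighbours in at most `(n - 2)/2` of the cyclic orders.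

Proof.  For every `i` with `(c i).Adj s v` there is `t = t_i ≥ 1` with `{c_i t, c_i (t+1)} = {s, v}` (add `n`); let `a_i = c_i (t - 1)`, `b_i = c_i (t + 2)`.  They are different from `s, v`
and `a_i ≠ b_i` (`n ≥ 4`, `Cyc.eq_iff`).  `{a_i, s, v}` and `{b_i, s, v}` are the windows at `t - 1` and `t`.  By `win_inj` the points `a_i, b_i` (`i` in the set) are all different:
the map from `{i | (c i).Adj s v} × Bool` to `V \ {s, v}` is injective, and `|V \ {s, v}| = n - 2`. -/
theorem adj_bound {I : Type} [Fintype I] (hV : Nat.card V = n) (hn : 4 ≤ n) (c : I → Cyc V n)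
    (h1 : 6 * Fintype.card I = (n - 1) * (n - 2)) (h2 : Covers c) {s v : V} (hsv : s ≠ v) :
    2 * {i : I | (c i).Adj s v}.ncard ≤ n - 2 := by
  classical
  have hn0 : 0 < n := by omega
  have : Finite V := Nat.finite_of_card_ne_zero (by omega)
  have hex : ∀ i : {i : I | (c i).Adj s v}, ∃ τ : ℕ,
      ((c i).f (τ + 1) = s ∧ (c i).f (τ + 2) = v) ∨
      ((c i).f (τ + 1) = v ∧ (c i).f (τ + 2) = s) := by
    rintro ⟨i, t, h⟩
    have h4 : t + (n - 1) + 1 = t + n := by omega
    have h5 : t + (n - 1) + 2 = t + 1 + n := by omega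
    refine ⟨t + (n - 1), ?_⟩
    rw [h4, h5, (c i).per, (c i).per]
    exact h
  choose τ hτ using hex
  let φ : {i : I | (c i).Adj s v} × Bool → V := fun p =>
    if p.2 then (c p.1).f (τ p.1 + 3) else (c p.1).f (τ p.1)
  let ν : {i : I | (c i).Adj s v} × Bool → ℕ := fun p => if p.2 then τ p.1 + 1 else τ p.1
  have hW : ∀ p, ({(c p.1).f (ν p), (c p.1).f (ν p + 1), (c p.1).f (ν p + 2)} : Set V) =
      {φ p, s, v} := by
    rintro ⟨i, e⟩
    cases e with
    | false =>
      change ({(c i).f (τ i), (c i).f (τ i + 1), (c i).f (τ i + 2)} : Set V) =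
        {(c i).f (τ i), s, v}
      rcases hτ i with ⟨h3, h4⟩ | ⟨h3, h4⟩
      · rw [h3, h4]
      · rw [h3, h4, Set.pair_comm v s]
    | true =>
      change ({(c i).f (τ i + 1), (c i).f (τ i + 2), (c i).f (τ i + 3)} : Set V) =
        {(c i).f (τ i + 3), s, v}
      rcases hτ i with ⟨h3, h4⟩ | ⟨h3, h4⟩
      · rw [h3, h4, Set.pair_comm v, Set.insert_comm]
      · rw [h3, h4, Set.insert_comm v s, Set.pair_comm v, Set.insert_comm]
  have hne : ∀ p, φ p ∈ ({s, v} : Set V)ᶜ := by
    rintro ⟨i, e⟩ hmem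
    have hk : ∀ a b : ℕ, a < n → b < n → (c i).f (τ i + a) = (c i).f (τ i + b) → a = b :=
      fun a b ha hb h => Y2_key (c i) hn0 hV (τ i) a b ha hb h
    have hk01 : (c i).f (τ i) ≠ (c i).f (τ i + 1) := fun h =>
      absurd (hk 0 1 (by omega) (by omega) h) (by omega)
    have hk02 : (c i).f (τ i) ≠ (c i).f (τ i + 2) := fun h =>
      absurd (hk 0 2 (by omega) (by omega) h) (by omega)
    have hk31 : (c i).f (τ i + 3) ≠ (c i).f (τ i + 1) := fun h =>
      absurd (hk 3 1 (by omega) (by omega) h) (by omega)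
    have hk32 : (c i).f (τ i + 3) ≠ (c i).f (τ i + 2) := fun h =>
      absurd (hk 3 2 (by omega) (by omega) h) (by omega)
    rw [Set.mem_insert_iff, Set.mem_singleton_iff] at hmem
    cases e with
    | false =>
      change (c i).f (τ i) = s ∨ (c i).f (τ i) = v at hmem
      rcases hτ i with ⟨h3, h4⟩ | ⟨h3, h4⟩ <;> rcases hmem with h5 | h5
      · exact hk01 (h5.trans h3.symm)
      · exact hk02 (h5.trans h4.symm)
      · exact hk02 (h5.trans h4.symm)
      · exact hk01 (h5.trans h3.symm)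
    | true =>
      change (c i).f (τ i + 3) = s ∨ (c i).f (τ i + 3) = v at hmem
      rcases hτ i with ⟨h3, h4⟩ | ⟨h3, h4⟩ <;> rcases hmem with h5 | h5
      · exact hk31 (h5.trans h3.symm)
      · exact hk32 (h5.trans h4.symm)
      · exact hk32 (h5.trans h4.symm)
      · exact hk31 (h5.trans h3.symm)
  let Φ : {i : I | (c i).Adj s v} × Bool → (({s, v} : Set V)ᶜ : Set V) := fun p => ⟨φ p, hne p⟩
  have hΦ : Function.Injective Φ := by
    rintro ⟨i, e⟩ ⟨j, e'⟩ h
    have h3 : φ (i, e) = φ (j, e') := congrArg Subtype.val h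
    have h4 := hW (i, e)
    rw [h3, ← hW (j, e')] at h4
    obtain ⟨h5, h6⟩ := win_inj hV hn c h1 h2 h4
    have h7 : i = j := Subtype.ext h5
    subst h7
    refine Prod.ext rfl ?_
    cases e <;> cases e'
    · rfl
    · have h8 : τ i + 0 ≡ τ i + 1 [MOD n] := h6
      have h9 := Nat.ModEq.add_left_cancel' _ h8
      rw [Nat.ModEq, Nat.mod_eq_of_lt (by omega), Nat.mod_eq_of_lt (by omega)] at h9
      omega
    · have h8 : τ i + 1 ≡ τ i + 0 [MOD n] := h6
      have h9 := Nat.ModEq.add_left_cancel' _ h8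
      rw [Nat.ModEq, Nat.mod_eq_of_lt (by omega), Nat.mod_eq_of_lt (by omega)] at h9
      omega
    · rfl
  have hle := Nat.card_le_card_of_injective Φ hΦ
  rw [Nat.card_prod, Nat.card_coe_set_eq, Nat.card_coe_set_eq] at hle
  have hb : Nat.card Bool = 2 := by
    rw [Nat.card_eq_fintype_card, Fintype.card_bool]
  have hc := Set.ncard_add_ncard_compl ({s, v} : Set V)
  rw [Set.ncard_pair hsv, hV] at hc
  rw [hb] at hle
  omega

end Wr
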