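import Pool.Agent.H.MP_4bad09_co.Y1
import Pool.Agent.H.MP_4bad09_co.Y2

set_option autoImplicit false

/-!
# Two special cycles for half of the points, by Hall's theorem (MP_4bad09_co, helper11)
-/

namespace Wr

/-- Hall's theorem for a relation in which every `i` is related to at most two `v` and the points `u k` are related to at least four `i`.

Proof.  `Finset.all_card_le_biUnion_card_iff_exists_injective` for `t (k, e) = {i | R (u k) i}`.  For `A ⊆ Fin K × Bool` let `B` be the image of `A` under `Prod.fst`, `|A| ≤ 2 |B|`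
(`A ⊆ B ×ˢ univ`).  Count the pairs `(k, i)` with `k ∈ B`, `R (u k) i`: at least `4 |B|`; and at most `2 |⋃_{k ∈ B} {i | R (u k) i}|` as for given `i` there are at most two `k` (`u` is injective and
`h1`).  So `|⋃| ≥ 2 |B| ≥ |A|`. -/
theorem hall2 {I V : Type} [Fintype I] [Finite V] (K : ℕ) (R : V → I → Prop)
    (h1 : ∀ i, {v : V | R v i}.ncard ≤ 2) (u : Fin K → V) (hu : Function.Injective u)
    (h2 : ∀ k, 4 ≤ {i : I | R (u k) i}.ncard) :
    ∃ g : Fin K × Bool → I, Function.Injective g ∧ ∀ k e, R (u k) (g (k, e)) := by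
  classical
  have hall := (Finset.all_card_le_biUnion_card_iff_exists_injective
    (fun p : Fin K × Bool => Finset.univ.filter (fun i => R (u p.1) i))).1 ?_
  · obtain ⟨g, hg, hg2⟩ := hall
    refine ⟨g, hg, fun k e => ?_⟩
    have := hg2 (k, e)
    exact (Finset.mem_filter.1 this).2
  · intro A
    have hA : A.card ≤ (A.image Prod.fst).card * 2 := by
      have h3 : A ⊆ (A.image Prod.fst) ×ˢ (Finset.univ : Finset Bool) := by
        intro p hp
        exact Finset.mem_product.2 ⟨Finset.mem_image_of_mem _ hp, Finset.mem_univ _⟩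
      have h4 := Finset.card_le_card h3
      rwa [Finset.card_product, Finset.card_univ, Fintype.card_bool] at h4
    have hB : (A.image Prod.fst).card * 4 ≤
        (A.biUnion fun p : Fin K × Bool => Finset.univ.filter (fun i => R (u p.1) i)).card * 2 := by
      refine Finset.card_mul_le_card_mul (fun k i => R (u k) i) (fun k hk => ?_) (fun i _ => ?_)
      · refine (h2 k).trans ?_
        rw [Set.ncard_eq_toFinset_card']
        refine Finset.card_le_card fun i hi => ?_
        obtain ⟨p, hp, rfl⟩ := Finset.mem_image.1 hk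
        have hi2 : R (u p.1) i := by simpa using hi
        exact Finset.mem_filter.2 ⟨Finset.mem_biUnion.2 ⟨p, hp, Finset.mem_filter.2
          ⟨Finset.mem_univ _, hi2⟩⟩, hi2⟩
      · refine le_trans ?_ (h1 i)
        rw [← Finset.card_image_of_injective _ hu, ← Set.ncard_coe_finset]
        refine Set.ncard_le_ncard ?_ (Set.toFinite _)
        intro v hv
        obtain ⟨k, hk, rfl⟩ := Finset.mem_image.1 hv
        exact (Finset.mem_filter.1 hk).2
    omega

/-- Many large numbers.

Proof.  Let `S = {v | 4 ≤ N v}`.  If `|S| ≤ K - 1` then `∑ N v ≤ |S| (K - 1) + (2K - |S|) 3 = |S| (K - 4) + 6K ≤ (K - 1)(K - 4) + 6 K = K² + K + 4`, and `3 (K² + K + 4) < 2K (2K - 1)`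
for `K ≥ 7`.  So `|S| ≥ K` and there is an injective `u : Fin K → V` into `S` (e.g. `Finset.exists_subset_card_eq`, `Finset.equivFinOfCardEq`). -/
theorem many_big {V : Type} [Fintype V] (K : ℕ) (hK : 7 ≤ K) (hV : Fintype.card V = 2 * K)
    (N : V → ℕ) (h1 : ∀ v, N v ≤ K - 1) (h2 : 2 * K * (2 * K - 1) ≤ 3 * ∑ v, N v) :
    ∃ u : Fin K → V, Function.Injective u ∧ ∀ k, 4 ≤ N (u k) := by
  classical
  have hS : K ≤ (Finset.univ.filter (fun v => 4 ≤ N v)).card := by
    by_contra hlt
    have hlt' : (Finset.univ.filter (fun v => 4 ≤ N v)).card ≤ K - 1 := by omega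
    have h3 := Finset.sum_filter_add_sum_filter_not (Finset.univ : Finset V) (fun v => 4 ≤ N v) N
    have h4 := Finset.card_filter_add_card_filter_not (s := (Finset.univ : Finset V))
      (fun v => 4 ≤ N v)
    rw [Finset.card_univ, hV] at h4
    have h5 : ∑ v ∈ Finset.univ.filter (fun v => 4 ≤ N v), N v ≤
        (Finset.univ.filter (fun v => 4 ≤ N v)).card * (K - 1) :=
      Finset.sum_le_card_nsmul _ _ _ fun v _ => h1 v
    have h6 : ∑ v ∈ Finset.univ.filter (fun v => ¬ 4 ≤ N v), N v ≤
        (Finset.univ.filter (fun v => ¬ 4 ≤ N v)).card * 3 :=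
      Finset.sum_le_card_nsmul _ _ _ fun v hv => by
        have := (Finset.mem_filter.1 hv).2
        omega
    obtain ⟨a, ha⟩ : ∃ a, a = (Finset.univ.filter (fun v => 4 ≤ N v)).card := ⟨_, rfl⟩
    obtain ⟨b, hb⟩ : ∃ b, b = (Finset.univ.filter (fun v => ¬ 4 ≤ N v)).card := ⟨_, rfl⟩
    rw [← ha] at h4 h5 hlt'
    rw [← hb] at h4 h6
    obtain ⟨M, rfl⟩ : ∃ M, K = M + 7 := ⟨K - 7, by omega⟩
    have e1 : 2 * (M + 7) - 1 = 2 * M + 13 := by omega
    have e2 : M + 7 - 1 = M + 6 := by omega
    rw [e1, ← h3] at h2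
    rw [e2] at h5 hlt'
    have h7 : a * (M + 6) + b * 3 ≤ (M + 6) * (M + 3) + 3 * (2 * (M + 7)) := by
      have h8 : a * (M + 6) + b * 3 = a * (M + 3) + (a + b) * 3 := by ring
      rw [h8, h4]
      have := Nat.mul_le_mul_right (M + 3) hlt'
      linarith
    nlinarith
  obtain ⟨T, hT, hTc⟩ := Finset.exists_subset_card_eq hS
  refine ⟨fun k => ((Finset.equivFinOfCardEq hTc).symm k).1, ?_, fun k => ?_⟩
  · intro k k' hkk
    exact (Finset.equivFinOfCardEq hTc).symm.injective (Subtype.ext hkk)
  · have := hT ((Finset.equivFinOfCardEq hTc).symm k).2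
    exact (Finset.mem_filter.1 this).2

/-- no point is a neighbour of itself -/
theorem Y3_adj {V : Type} {n : ℕ} (c : Cyc V n) (hn : 3 ≤ n) (hV : Nat.card V = n) (s : V) :
    ¬ c.Adj s s := by
  rintro ⟨t, h⟩
  have h1 : c.f t = c.f (t + 1) := by
    rcases h with h | h
    · exact h.1.trans h.2.symm
    · exact h.1.trans h.2.symm
  rw [c.eq_iff (by omega) hV] at h1
  have h2 : t ≡ t + 1 [MOD n] := h1
  have h3 : 0 ≡ 1 [MOD n] := Nat.ModEq.add_left_cancel' t h2
  have h4 : 0 % n = 1 % n := h3
  rw [Nat.zero_mod, Nat.mod_eq_of_lt (by omega)] at h4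
  omega

/-- the number of neighbours, in the complement of the point -/
theorem Y3_nb {V : Type} {n : ℕ} (c : Cyc V n) (hn : 3 ≤ n) (hV : Nat.card V = n) (s : V) :
    {v : {v : V // v ≠ s} | c.Adj s v.1}.ncard = 2 := by
  rw [← adj_ncard c hn hV s, ← Set.ncard_image_of_injective _ Subtype.val_injective]
  congr 1
  ext v
  constructor
  · rintro ⟨w, hw, rfl⟩
    exact hw
  · intro hv
    have hvs : v ≠ s := by
      rintro rfl
      exact Y3_adj c hn hV _ hv
    exact ⟨⟨v, hvs⟩, hv, rfl⟩

/-- Every decomposition for `2K + 1 ≥ 15` points has the two special cycles.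

Proof.  Let `s : V` be any point (`V` has `2K + 1 > 0` elements), `N v = {i | (c i).Adj s v}.ncard` for `v ≠ s` (a function on the subtype `{v // v ≠ s}`, which has `2K` elements).
`N v ≤ K - 1` by `adj_bound` (`2 N v ≤ 2K - 1`).  `∑_v N v = ∑_i (number of neighbours of `s` in `c i`) = 2 |I|` (`adj_ncard`; double counting, `Finset.sum_card_bipartiteAbove_eq_sum_card_bipartiteBelow`;
`¬ Adj s s` by `Cyc.eq_iff`), so `3 ∑ N v = 6 |I| = 2K (2K - 1)`.  `many_big`, `hall2` (with `R v i = (c i).Adj s v`), `THe_of_adj`. -/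
theorem TH.the {V : Type} {K : ℕ} (hK : 7 ≤ K) (h : TH V (2 * K + 1)) : THe K := by
  classical
  obtain ⟨hV, I, hI, c, h1, h2⟩ := h
  have : Finite V := Nat.finite_of_card_ne_zero (by omega)
  have : Fintype V := Fintype.ofFinite V
  have : Nonempty V := by
    rw [← not_isEmpty_iff]
    intro hE
    rw [Nat.card_of_isEmpty] at hV
    omega
  obtain ⟨s⟩ := (inferInstance : Nonempty V)
  have hcard : Fintype.card {v : V // v ≠ s} = 2 * K := by
    rw [Fintype.card_subtype_compl, Fintype.card_subtype_eq, ← Nat.card_eq_fintype_card, hV]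
    omega
  have hb : ∀ v : {v : V // v ≠ s}, {i : I | (c i).Adj s v.1}.ncard ≤ K - 1 := by
    intro v
    have h3 := adj_bound hV (by omega) c h1 h2 v.2.symm
    omega
  have hsum : ∑ v : {v : V // v ≠ s}, {i : I | (c i).Adj s v.1}.ncard = Fintype.card I * 2 := by
    have h3 := Finset.sum_card_bipartiteAbove_eq_sum_card_bipartiteBelow
      (s := (Finset.univ : Finset {v : V // v ≠ s})) (t := (Finset.univ : Finset I))
      (fun v i => (c i).Adj s v.1)
    have h4 : ∀ v : {v : V // v ≠ s}, {i : I | (c i).Adj s v.1}.ncard =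
        (Finset.bipartiteAbove (fun (v : {v : V // v ≠ s}) i => (c i).Adj s v.1)
          (Finset.univ : Finset I) v).card := by
      intro v
      rw [← Set.ncard_coe_finset]
      congr 1
      ext i
      simp [Finset.bipartiteAbove]
    have h5 : ∀ i : I, (Finset.bipartiteBelow (fun (v : {v : V // v ≠ s}) i => (c i).Adj s v.1)
          (Finset.univ : Finset {v : V // v ≠ s}) i).card = 2 := by
      intro i
      refine Eq.trans ?_ (Y3_nb (c i) (by omega) hV s)
      rw [← Set.ncard_coe_finset]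
      congr 1
      ext v
      simp [Finset.bipartiteBelow]
    rw [Finset.sum_congr rfl fun v _ => h4 v, h3, Finset.sum_congr rfl fun i _ => h5 i,
      Finset.sum_const, Finset.card_univ, smul_eq_mul]
  obtain ⟨u, hu, hu4⟩ := many_big K hK hcard (fun v => {i : I | (c i).Adj s v.1}.ncard) hb (by
    rw [hsum]
    have e1 : 2 * K + 1 - 1 = 2 * K := by omega
    have e2 : 2 * K + 1 - 2 = 2 * K - 1 := by omega
    rw [e1, e2] at h1
    omega)
  obtain ⟨g, hg, hg2⟩ := hall2 K (fun (v : {v : V // v ≠ s}) (i : I) => (c i).Adj s v.1)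
    (fun i => (Y3_nb (c i) (by omega) hV s).le) u hu hu4
  exact THe_of_adj (by omega) hV c h1 h2 s (fun k => (u k).1)
    (fun k k' h => hu (Subtype.ext h)) (fun k => (u k).2) g hg hg2

end Wr
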