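import Pool.Agent.H.MP_4bad09_co.W1
import Pool.Agent.H.MP_4bad09_co.W9

set_option autoImplicit false

/-!
# Covering the triples with two points in a row, half of the rows (MP_4bad09_co, helper11)
-/

namespace Wr

/-- the cyclic order with the labels `x` or `-x` -/
def Cyc.sg {X Y : Type} [AddCommGroup X] {n : ℕ} (e : Bool) (c : Cyc (X × Y) n) : Cyc (X × Y) n :=
  bif e then c.map (Equiv.prodCongr (Equiv.neg X) (Equiv.refl Y)) else c

theorem Cyc.sg_false {X Y : Type} [AddCommGroup X] {n : ℕ} (c : Cyc (X × Y) n) : c.sg false = c := rfl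

theorem Cyc.sg_true {X Y : Type} [AddCommGroup X] {n : ℕ} {c : Cyc (X × Y) n} {x x' x'' : X} {y y' y'' : Y}
    (h : c.Win (-x, y) (-x', y') (-x'', y'')) : (c.sg true).Win (x, y) (x', y') (x'', y'') := by
  have h1 := Cyc.map_win (Equiv.prodCongr (Equiv.neg X) (Equiv.refl Y)) h
  have h2 : ∀ (z : X) (w : Y), (Equiv.prodCongr (Equiv.neg X) (Equiv.refl Y)) (-z, w) = (z, w) := by
    intro z w
    show (-(-z), w) = (z, w)
    rw [neg_neg]
  rw [h2, h2, h2] at h1
  exact h1

theorem Y4_two (K : ℕ) : ((K : ℕ) : ZMod (2 * K)) + ((K : ℕ) : ZMod (2 * K)) = 0 := by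
  have h := ZMod.natCast_self (2 * K)
  push_cast at h
  rw [← h]
  ring

theorem zz_rev {K k : ℕ} (hk : k < 2 * K) : zz (2 * K) (2 * K - 1 - k) = zz (2 * K) k + K := by
  have h0 := Y4_two K
  unfold zz
  rcases Nat.mod_two_eq_zero_or_one k with h | h
  · obtain ⟨i, rfl⟩ : ∃ i, k = 2 * i := ⟨k / 2, by omega⟩
    have e1 : (2 * K - 1 - 2 * i) % 2 ≠ 0 := by omega
    have e2 : (2 * K - 1 - 2 * i + 1) / 2 = K - i := by omega
    have e3 : 2 * i / 2 = i := by omega
    rw [if_neg e1, if_pos h, e2, e3, Nat.cast_sub (by omega)]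
    ring
  · obtain ⟨i, rfl⟩ : ∃ i, k = 2 * i + 1 := ⟨k / 2, by omega⟩
    have e1 : (2 * K - 1 - (2 * i + 1)) % 2 = 0 := by omega
    have e2 : (2 * K - 1 - (2 * i + 1)) / 2 = K - (i + 1) := by omega
    have e3 : (2 * i + 1 + 1) / 2 = i + 1 := by omega
    have e4 : (2 * i + 1) % 2 ≠ 0 := by omega
    rw [if_pos e1, if_neg e4, e2, e3, Nat.cast_sub (by omega)]
    linear_combination (-1 : ZMod (2 * K)) * h0

/-- every element is `j` or `j + K` with `j < K` -/
theorem Y4_half {K : ℕ} (hK : 1 ≤ K) (y : ZMod (2 * K)) :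
    ∃ j : Fin K, y = ((j.val : ℕ) : ZMod (2 * K)) ∨ y = ((j.val : ℕ) : ZMod (2 * K)) + K := by
  haveI : NeZero (2 * K) := ⟨by omega⟩
  have hy := ZMod.natCast_zmod_val y
  have hlt := ZMod.val_lt y
  rcases Nat.lt_or_ge y.val K with h | h
  · exact ⟨⟨y.val, h⟩, Or.inl hy.symm⟩
  · refine ⟨⟨y.val - K, by omega⟩, Or.inr ?_⟩
    show y = ((y.val - K : ℕ) : ZMod (2 * K)) + K
    rw [Nat.cast_sub h, sub_add_cancel, hy]

/-- consecutive places, up to the order, in one of the first `K` rows -/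
theorem Y4_even {K : ℕ} (hK : 1 ≤ K) {y y' : ZMod (2 * K)} (h : y ≠ y') :
    ∃ (j : Fin K) (k : ℕ), k + 1 < 2 * K ∧
      ((((j.val : ℕ) : ZMod (2 * K)) + zz (2 * K) k = y ∧
        ((j.val : ℕ) : ZMod (2 * K)) + zz (2 * K) (k + 1) = y') ∨
      (((j.val : ℕ) : ZMod (2 * K)) + zz (2 * K) k = y' ∧
        ((j.val : ℕ) : ZMod (2 * K)) + zz (2 * K) (k + 1) = y)) := by
  obtain ⟨i, k, hk, h1, h2⟩ := zz_even hK h
  obtain ⟨j, hj | hj⟩ := Y4_half hK i
  · exact ⟨j, k, hk, Or.inl ⟨by rw [← hj]; exact h1, by rw [← hj]; exact h2⟩⟩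
  · have h0 := Y4_two K
    refine ⟨j, 2 * K - 1 - (k + 1), by omega, Or.inr ⟨?_, ?_⟩⟩
    · rw [zz_rev hk, ← h2, hj]
      ring
    · have e1 : 2 * K - 1 - (k + 1) + 1 = 2 * K - 1 - k := by omega
      rw [e1, zz_rev (by omega), ← h1, hj]
      ring

/-- The triples `{(p, y), (q, y), (p, y')}`, with the rows `Dr j`, `j = 0, …, K - 1`, and both signs. -/
theorem L_cover3 {n : ℕ} (h K : ℕ) (hh : 1 ≤ h) (hK : 1 ≤ K)
    (C : Fin K × Bool → ℕ → Option (ZMod (2 * K)))
    (c : ZMod (2 * h + 1) → Fin K × Bool → Cyc (ZMod (2 * h + 1) × Option (ZMod (2 * K))) n)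
    (hc : ∀ m j e, IsT h (2 * K) (Dr (2 * K) ((j.val : ℕ) : ZMod (2 * K))) (C (j, e)) m (c m (j, e)))
    (p q : ZMod (2 * h + 1)) (y y' : Option (ZMod (2 * K))) (hpq : p ≠ q) (hy : y ≠ y') :
    ∃ m j e, ((c m (j, e)).sg e).Has (p, y) (q, y) (p, y') := by
  have _ := hh
  have hz : zz (2 * K) (2 * K - 1) = K := by
    have h1 := zz_rev (K := K) (k := 0) (by omega)
    rw [Nat.sub_zero, W9_zz0, zero_add] at h1
    exact h1
  rcases y with _ | y0
  · rcases y' with _ | y1
    · exact absurd rfl hy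
    obtain ⟨m', δ, hδ, hp, hq⟩ := W9_half hpq
    obtain ⟨j, hj | hj⟩ := Y4_half hK y1
    · -- `Dr j 0 = y'`: the windows `s5`
      obtain ⟨t, ht1, hth, hc' | hc'⟩ := two_mul_sub_cases δ hδ
      · -- negative sign
        obtain ⟨m, rfl⟩ : ∃ m, m' = -(m + 1) := ⟨-m' - 1, by ring⟩
        refine ⟨m, j, true, Or.inr (Or.inr (Or.inl ?_))⟩
        have h1 := (hc m j true).s5 t ht1 hth
        rw [W9_DrM, W9_Dr (by omega), W9_zz0, add_zero, ← hj] at h1
        apply Cyc.sg_true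
        have e1 : -p = m + 2 - 2 * t := by rw [hp, hc']; ring
        have e2 : -q = m + 2 * t := by rw [hq, hc']; ring
        rw [e1, e2]
        exact h1
      · obtain ⟨m, rfl⟩ : ∃ m, m' = m + 1 := ⟨m' - 1, by ring⟩
        refine ⟨m, j, false, Or.inr (Or.inr (Or.inl ?_))⟩
        rw [Cyc.sg_false]
        have h1 := (hc m j false).s5 t ht1 hth
        rw [W9_DrM, W9_Dr (by omega), W9_zz0, add_zero, ← hj] at h1
        have e1 : p = m + 2 - 2 * t := by rw [hp, hc']; ring
        have e2 : q = m + 2 * t := by rw [hq, hc']; ring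
        rw [e1, e2]
        exact h1
    · -- `Dr j (2K - 1) = y'`: the windows `s4`
      obtain ⟨t, ht1, hth, hc' | hc'⟩ := two_mul_sub_cases δ hδ
      · obtain ⟨m, rfl⟩ : ∃ m, m' = m + 1 := ⟨m' - 1, by ring⟩
        refine ⟨m, j, false, Or.inr (Or.inr (Or.inr (Or.inr (Or.inl ?_))))⟩
        rw [Cyc.sg_false]
        have h1 := (hc m j false).s4 t ht1 hth
        rw [W9_DrM, W9_Dr (by omega), hz, ← hj] at h1
        have e1 : p = m + 2 * t := by rw [hp, hc']; ring
        have e2 : q = m + 2 - 2 * t := by rw [hq, hc']; ring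
        rw [e1, e2]
        exact h1
      · obtain ⟨m, rfl⟩ : ∃ m, m' = -(m + 1) := ⟨-m' - 1, by ring⟩
        refine ⟨m, j, true, Or.inr (Or.inr (Or.inr (Or.inr (Or.inl ?_))))⟩
        have h1 := (hc m j true).s4 t ht1 hth
        rw [W9_DrM, W9_Dr (by omega), hz, ← hj] at h1
        apply Cyc.sg_true
        have e1 : -p = m + 2 * t := by rw [hp, hc']; ring
        have e2 : -q = m + 2 - 2 * t := by rw [hq, hc']; ring
        rw [e1, e2]
        exact h1
  · obtain ⟨m, δ, hδ, hp, hq⟩ := W9_half hpq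
    obtain ⟨t, ht1, hth, hc' | hc'⟩ := two_mul_cases δ hδ
    · have e1 : p = m + 2 * t := by rw [hp, hc']
      have e2 : q = m - 2 * t := by rw [hq, hc']
      have f1 : -p = -m - 2 * t := by rw [hp, hc']; ring
      have f2 : -q = -m + 2 * t := by rw [hq, hc']; ring
      rcases y' with _ | y1
      · obtain ⟨j, hj | hj⟩ := Y4_half hK y0
        · refine ⟨-m, j, true, Or.inr (Or.inr (Or.inr (Or.inr (Or.inl ?_))))⟩
          have h1 := (hc (-m) j true).s6 t ht1 hth
          rw [W9_DrM, W9_Dr (by omega), W9_zz0, add_zero, ← hj] at h1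
          apply Cyc.sg_true
          rw [f1, f2]
          exact h1
        · refine ⟨m, j, false, Or.inr (Or.inr (Or.inl ?_))⟩
          rw [Cyc.sg_false, e1, e2]
          have h1 := (hc m j false).s3 t ht1 hth
          rw [W9_DrM, W9_Dr (by omega), hz, ← hj] at h1
          exact h1
      · obtain ⟨j, k, hk, ⟨hj0, hj1⟩ | ⟨hj0, hj1⟩⟩ := Y4_even hK (y := y0) (y' := y1)
          (fun h0 => hy (by rw [h0]))
        · refine ⟨-m, j, true, Or.inl ?_⟩
          have h1 := (hc (-m) j true).s1 t k ht1 hth hk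
          rw [W9_Dr hk, W9_Dr (by omega), hj0, hj1] at h1
          apply Cyc.sg_true
          rw [f1, f2]
          exact h1
        · refine ⟨m, j, false, Or.inr (Or.inr (Or.inr (Or.inr (Or.inr ?_))))⟩
          rw [Cyc.sg_false, e1, e2]
          have h1 := (hc m j false).s2 t k ht1 hth hk
          rw [W9_Dr hk, W9_Dr (by omega), hj0, hj1] at h1
          exact h1
    · have e1 : p = m - 2 * t := by rw [hp, hc']; ring
      have e2 : q = m + 2 * t := by rw [hq, hc']; ring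
      have f1 : -p = -m + 2 * t := by rw [hp, hc']; ring
      have f2 : -q = -m - 2 * t := by rw [hq, hc']; ring
      rcases y' with _ | y1
      · obtain ⟨j, hj | hj⟩ := Y4_half hK y0
        · refine ⟨m, j, false, Or.inr (Or.inr (Or.inr (Or.inr (Or.inl ?_))))⟩
          rw [Cyc.sg_false, e1, e2]
          have h1 := (hc m j false).s6 t ht1 hth
          rw [W9_DrM, W9_Dr (by omega), W9_zz0, add_zero, ← hj] at h1
          exact h1
        · refine ⟨-m, j, true, Or.inr (Or.inr (Or.inl ?_))⟩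
          have h1 := (hc (-m) j true).s3 t ht1 hth
          rw [W9_DrM, W9_Dr (by omega), hz, ← hj] at h1
          apply Cyc.sg_true
          rw [f1, f2]
          exact h1
      · obtain ⟨j, k, hk, ⟨hj0, hj1⟩ | ⟨hj0, hj1⟩⟩ := Y4_even hK (y := y0) (y' := y1)
          (fun h0 => hy (by rw [h0]))
        · refine ⟨m, j, false, Or.inl ?_⟩
          rw [Cyc.sg_false, e1, e2]
          have h1 := (hc m j false).s1 t k ht1 hth hk
          rw [W9_Dr hk, W9_Dr (by omega), hj0, hj1] at h1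
          exact h1
        · refine ⟨-m, j, true, Or.inr (Or.inr (Or.inr (Or.inr (Or.inr ?_))))⟩
          have h1 := (hc (-m) j true).s2 t k ht1 hth hk
          rw [W9_Dr hk, W9_Dr (by omega), hj0, hj1] at h1
          apply Cyc.sg_true
          rw [f1, f2]
          exact h1

end Wr
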