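import Pool.Agent.H.MP_4bad09_co.W10
import Pool.Agent.H.MP_4bad09_co.Y3
import Pool.Agent.H.MP_4bad09_co.Y4
import Pool.Agent.H.MP_4bad09_co.Y5

set_option autoImplicit false

/-!
# The product theorem without stars (MP_4bad09_co, helper11)
-/

namespace Wr

/-- signed letters -/
def sgw {X : Type} [AddCommGroup X] (e : Bool) (x : X) : X := bif e then -x else x

/-- the windows of a signed cyclic order -/
theorem Y6_sg {X Y : Type} [AddCommGroup X] {n : ℕ} {c : Cyc (X × Y) n} {x d d' : X} {y y' y'' : Y}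
    (e : Bool) (h : c.Win (sgw e x, y) (sgw e x + sgw e d, y') (sgw e x + sgw e d + sgw e d', y'')) :
    (c.sg e).Win (x, y) (x + d, y') (x + d + d', y'') := by
  cases e with
  | false => exact h
  | true =>
    apply Cyc.sg_true
    have e1 : -(x + d) = -x + -d := by abel
    have e2 : -(x + d + d') = -x + -d + -d' := by abel
    rw [e1, e2]
    exact h

theorem Y6_sgw_sgw {X : Type} [AddCommGroup X] (e : Bool) (x : X) : sgw e (sgw e x) = x := by
  cases e with
  | false => rfl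
  | true => exact neg_neg x

theorem Y6_sgw_zero {X : Type} [AddCommGroup X] (e : Bool) : sgw e (0 : X) = 0 := by
  cases e with
  | false => rfl
  | true => exact neg_zero

theorem Y6_sgw_add {X : Type} [AddCommGroup X] (e : Bool) (x y : X) :
    sgw e (x + y) = sgw e x + sgw e y := by
  cases e with
  | false => rfl
  | true => exact neg_add x y

theorem TH_prod (h K : ℕ) (hh : 2 ≤ h) (hK : 5 ≤ K) (h3a : ¬ 3 ∣ 2 * h + 1) (h3b : ¬ 3 ∣ 2 * K + 1)
    (hA : TH (ZMod (2 * h + 1)) (2 * h + 1)) (hB : THe K) :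
    TH (ZMod (2 * h + 1) × Option (ZMod (2 * K))) ((2 * h + 1) * (2 * K + 1)) := by
  classical
  have : NeZero (2 * K) := ⟨by omega⟩
  obtain ⟨I1, F1, c1, hn1, hc1⟩ := W10_part1 h K hh hK h3a hA
  obtain ⟨I0, F0, c0, g, hn0, hcov0, hginj, hg⟩ := hB
  have hg0 : ∀ k e, (c0 (g (k, e))).f 0 = some ((k.val : ℕ) : ZMod (2 * K)) := fun k e => (hg k e).1
  have hg1 : ∀ k e, (c0 (g (k, e))).f (2 * K) = none := fun k e => (hg k e).2
  -- the signs
  obtain ⟨ε, hε1, hε2⟩ : ∃ ε : I0 → Bool, (∀ k e, ε (g (k, e)) = e) ∧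
      ∀ i, (¬ ∃ q, i = g q) → ε i = false := by
    refine ⟨fun i => if ∃ k, i = g (k, true) then true else false, ?_, ?_⟩
    · intro k e
      cases e with
      | false =>
        show (if ∃ k', g (k, false) = g (k', true) then true else false) = false
        rw [if_neg]
        rintro ⟨k', hk'⟩
        have h1 := hginj hk'
        simp at h1
      | true =>
        show (if ∃ k', g (k, true) = g (k', true) then true else false) = true
        rw [if_pos ⟨k, rfl⟩]
    · intro i hi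
      show (if ∃ k, i = g (k, true) then true else false) = false
      rw [if_neg]
      rintro ⟨k, hk⟩
      exact hi ⟨(k, true), hk⟩
  -- part 2
  have hp2 := fun i : I0 => part2 h (2 * K + 1) (by omega) (by omega) h3b (c0 i)
  choose c2 hc2 using hp2
  have hp2' := fun i : I0 => part2' (2 * h + 1) (2 * K + 1) (by omega) (c0 i)
  choose c3 hc3 using hp2'
  have hp4 : ∀ (m : ZMod (2 * h + 1)) (q : Fin K × Bool),
      ∃ c : Cyc (ZMod (2 * h + 1) × Option (ZMod (2 * K))) ((2 * h + 1) * (2 * K + 1)),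
        IsT h (2 * K) (Dr (2 * K) ((q.1.val : ℕ) : ZMod (2 * K))) (c0 (g q)).f m c := by
    rintro m ⟨k0, e⟩
    refine exists_T h (2 * K) (by omega) (by omega) _ _ ?_ ?_ ?_ ?_ m
    · intro y
      rcases y with _ | y
      · exact ⟨2 * K, le_refl _, W9_DrM⟩
      · obtain ⟨k, hk, hk'⟩ := zz_surj (2 * K) (by omega) ((k0.val : ℕ) : ZMod (2 * K)) y
        exact ⟨k, hk.le, by rw [W9_Dr hk, hk']⟩
    · intro y
      obtain ⟨k, hk, hk'⟩ := (c0 (g (k0, e))).exists_lt (by omega) y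
      exact ⟨k, by omega, hk'⟩
    · rw [W9_Dr (by omega : 0 < 2 * K), W9_zz0, add_zero, hg0 k0 e]
    · rw [W9_DrM, hg1 k0 e]
  choose c4 hc4 using hp4
  let Sp : I0 → Prop := fun i => ∃ q, i = g q
  have hws : ∀ t, cw (ws (2 * h + 1) (2 * K + 1)) t =
      if t % (2 * K + 1) = 2 * K - 1 then 1 else 0 := by
    intro t
    rw [cw_ws _ _ (by omega)]
    rfl
  let cc := Sum.elim c1 (Sum.elim (fun q : I0 × Fin (6 * h) => (c2 q.1 q.2).sg (ε q.1))
    (Sum.elim (fun i : {i : I0 // ¬ Sp i} => c3 i.1)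
      (fun q : ZMod (2 * h + 1) × (Fin K × Bool) => (c4 q.1 q.2).sg q.2.2)))
  have hcov : Covers cc := by
    refine prod_covers2 c0 hcov0 (fun i t => sgw (ε i) (cw (ws (2 * h + 1) (2 * K + 1)) t)) Sp c1
      hc1 _ ?_ _ ?_ _ ?_ ?_
    · intro i t x d e hde
      have hde' : sgw (ε i) d = 0 ∨ sgw (ε i) e = 0 ∨ sgw (ε i) d + sgw (ε i) e = 0 := by
        rcases hde with h1 | h1 | h1
        · left; rw [h1, Y6_sgw_zero]
        · right; left; rw [h1, Y6_sgw_zero]
        · right; right; rw [← Y6_sgw_add, h1, Y6_sgw_zero]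
      rcases hc2 i t (sgw (ε i) x) (sgw (ε i) d) (sgw (ε i) e) hde' with ⟨p, hp⟩ | ⟨hp, hp'⟩
      · exact Or.inl ⟨p, Y6_sg (ε i) hp⟩
      · refine Or.inr ⟨?_, ?_⟩
        · show sgw (ε i) (cw (ws (2 * h + 1) (2 * K + 1)) t) = d
          rw [hp, Y6_sgw_sgw]
        · show sgw (ε i) (cw (ws (2 * h + 1) (2 * K + 1)) (t + 1)) = e
          rw [hp', Y6_sgw_sgw]
    · intro i t x
      have h1 := hε2 i.1 i.2
      show (c3 i.1).Win (x, (c0 i.1).f t)
        (x + sgw (ε i.1) (cw (ws (2 * h + 1) (2 * K + 1)) t), (c0 i.1).f (t + 1))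
        (x + sgw (ε i.1) (cw (ws (2 * h + 1) (2 * K + 1)) t) +
          sgw (ε i.1) (cw (ws (2 * h + 1) (2 * K + 1)) (t + 1)), (c0 i.1).f (t + 2))
      rw [h1]
      exact hc3 i.1 t x
    · rintro i ⟨⟨k, e⟩, rfl⟩ t x
      obtain ⟨m, hm⟩ := round_cover h (2 * K) (by omega) (Dr (2 * K) ((k.val : ℕ) : ZMod (2 * K)))
        (c0 (g (k, e))) (fun m => c4 m (k, e)) (fun m => hc4 m (k, e)) t (sgw e x)
      refine ⟨(m, (k, e)), ?_⟩
      show ((c4 m (k, e)).sg e).Win (x, (c0 (g (k, e))).f t)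
        (x + sgw (ε (g (k, e))) (cw (ws (2 * h + 1) (2 * K + 1)) t), (c0 (g (k, e))).f (t + 1))
        (x + sgw (ε (g (k, e))) (cw (ws (2 * h + 1) (2 * K + 1)) t) +
          sgw (ε (g (k, e))) (cw (ws (2 * h + 1) (2 * K + 1)) (t + 1)), (c0 (g (k, e))).f (t + 2))
      rw [hε1]
      apply Y6_sg e
      rw [Y6_sgw_sgw, Y6_sgw_sgw, hws, hws]
      exact hm
    · intro p q y y' hpq hy
      obtain ⟨m, j, e, hmj⟩ := L_cover3 h K (by omega) (by omega) (fun q => (c0 (g q)).f) c4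
        (fun m j e => hc4 m (j, e)) p q y y' hpq hy
      exact ⟨(m, (j, e)), hmj⟩
  -- the number
  have hN3 : Fintype.card {i : I0 // ¬ Sp i} + 2 * K = Fintype.card I0 := by
    have e1 : Fintype.card {i : I0 // Sp i} = 2 * K := by
      have e2 : Fintype.card (Fin K × Bool) = Fintype.card {i : I0 // Sp i} := by
        refine Fintype.card_of_bijective
          (f := fun q : Fin K × Bool => (⟨g q, q, rfl⟩ : {i : I0 // Sp i})) ⟨?_, ?_⟩
        · intro q q' hq
          exact hginj (congrArg Subtype.val hq)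
        · rintro ⟨i, q, rfl⟩
          exact ⟨q, rfl⟩
      rw [← e2, Fintype.card_prod, Fintype.card_fin, Fintype.card_bool, Nat.mul_comm]
    have e3 := Fintype.card_subtype_compl Sp
    have e4 := Fintype.card_subtype_le Sp
    omega
  have hcard : 6 * Fintype.card (I1 ⊕ (I0 × Fin (6 * h)) ⊕ {i : I0 // ¬ Sp i} ⊕
      (ZMod (2 * h + 1) × (Fin K × Bool))) =
      ((2 * h + 1) * (2 * K + 1) - 1) * ((2 * h + 1) * (2 * K + 1) - 2) := by
    rw [Fintype.card_sum, Fintype.card_sum, Fintype.card_sum, Fintype.card_prod,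
      Fintype.card_prod, Fintype.card_prod, Fintype.card_fin, Fintype.card_fin, Fintype.card_bool,
      ZMod.card, Nat.mul_comm K 2]
    exact prod_count h K _ _ _ (by omega) (by omega) hn0 hn1 hN3
  exact ⟨W10_card h K (by omega), _, inferInstance, cc, hcard, hcov⟩

/-- **The product theorem.** -/
theorem TH_mul {a b : ℕ} (ha : Odd a) (hb : Odd b) (ha5 : 5 ≤ a) (hb11 : 11 ≤ b) (h3a : ¬ 3 ∣ a)
    (h3b : ¬ 3 ∣ b) (hA : TH (Fin a) a) (hB : TH (Fin b) b) (hE : b < 15 → THe (b / 2)) :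
    TH (Fin (a * b)) (a * b) := by
  obtain ⟨h, rfl⟩ := ha
  obtain ⟨K, rfl⟩ := hb
  have hK : 5 ≤ K := by omega
  have hA' : TH (ZMod (2 * h + 1)) (2 * h + 1) := hA.congr (by omega) (Nat.card_zmod _)
  have hB' : THe K := by
    by_cases h1 : 2 * K + 1 < 15
    · have h2 := hE h1
      have h3 : (2 * K + 1) / 2 = K := by omega
      rw [h3] at h2
      exact h2
    · exact TH.the (by omega) hB
  have h1 := TH_prod h K (by omega) hK h3a h3b hA' hB'
  exact h1.congr (by positivity) (Nat.card_fin _)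

end Wr
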