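import Pool.Agent.H.MP_4bad09_co.W12
import Pool.Agent.H.MP_4bad09_co.Y1

set_option autoImplicit false

/-!
# Explicit decompositions with two special cycles (MP_4bad09_co, helper11)
-/

namespace Wr

/-- `U` is a list of `K` different nonzero points, `S` a list of `2K` different indices of lists of `L`; `0` is a neighbour of the
`k`-th point of `U` in the lists with the numbers `S_(2k)`, `S_(2k+1)`. -/
def che (K : ℕ) (L : List (List ℕ)) (U S : List ℕ) : Bool :=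
  (List.range K).all (fun k => U.getD k 0 < 2 * K + 1 && 0 < U.getD k 0 &&
    S.getD (2 * k) 0 < L.length && S.getD (2 * k + 1) 0 < L.length &&
    adjc (U.getD k 0) (L.getD (S.getD (2 * k) 0) [] ++ (L.getD (S.getD (2 * k) 0) []).take 1) &&
    adjc (U.getD k 0) (L.getD (S.getD (2 * k + 1) 0) [] ++ (L.getD (S.getD (2 * k + 1) 0) []).take 1)) &&
    decide (U.length = K) && decide U.Nodup && decide (S.length = 2 * K) && decide S.Nodup

/-- the neighbours of `0` from the check -/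
theorem Y7_adj {n : ℕ} (hn : 3 ≤ n) {L : List (List ℕ)} (h1 : ∀ l ∈ L, l.length = n ∧ msk l = 2 ^ n - 1)
    (c : Fin L.length → Cyc (Fin n) n)
    (hct : ∀ i t, (((c i).f t : Fin n) : ℕ) = (L.get i).getD (t % n) 0) {v j : ℕ} (hv : v < n)
    (hj : j < L.length) (h4 : adjc v (L.getD j [] ++ (L.getD j []).take 1) = true) :
    (c ⟨j, hj⟩).Adj ⟨0, by omega⟩ ⟨v, hv⟩ := by
  have hget : L.getD j [] = L.get ⟨j, hj⟩ := List.getD_eq_getElem L [] hj
  rw [hget] at h4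
  have hlen := (h1 _ (List.get_mem L ⟨j, hj⟩)).1
  obtain ⟨t, ht, h5⟩ := W12_adjc _ _ h4
  have ht2 : t + 1 < n + 1 := by
    rw [List.length_append, List.length_take, hlen] at ht
    omega
  rw [W12_getD hn (by omega) _ hlen (by omega), W12_getD hn (by omega) _ hlen (by omega),
    ← hct, ← hct] at h5
  refine ⟨t, ?_⟩
  rcases h5 with ⟨a, b⟩ | ⟨a, b⟩
  · exact Or.inl ⟨Fin.ext a, Fin.ext b⟩
  · exact Or.inr ⟨Fin.ext a, Fin.ext b⟩

/-- Proof. As `THs_of_chk` in `W12.lean` (`W12_cyc`, `W12_chk`, `W12_adjc`, `W12_getD`), with `THe_of_adj`, `s = 0`, `u k` the `k`-th point of `U`, `g (k, false)` the number `S_(2k)` and `g (k, true)` the number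
`S_(2k+1)`. -/
theorem THe_of_chk {K : ℕ} (hK : 1 ≤ K) (L : List (List ℕ)) (h : chk (2 * K + 1) L = true)
    (U S : List ℕ) (hS : che K L U S = true) : THe K := by
  have hn : 3 ≤ 2 * K + 1 := by omega
  obtain ⟨c, hct, hc⟩ := W12_cyc hn h
  obtain ⟨h1, h2, -⟩ := W12_chk h
  unfold che at hS
  simp only [Bool.and_eq_true, List.all_eq_true, decide_eq_true_eq, List.mem_range] at hS
  obtain ⟨⟨⟨⟨hS1, hS2⟩, hS3⟩, hS4⟩, hS5⟩ := hS
  have hg0 : ∀ p : Fin K × Bool, 2 * (p.1 : ℕ) + p.2.toNat < S.length ∧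
      S.getD (2 * (p.1 : ℕ) + p.2.toNat) 0 < L.length ∧
      adjc (U.getD p.1 0) (L.getD (S.getD (2 * (p.1 : ℕ) + p.2.toNat) 0) [] ++
        (L.getD (S.getD (2 * (p.1 : ℕ) + p.2.toNat) 0) []).take 1) = true := by
    rintro ⟨⟨k, hk⟩, e⟩
    obtain ⟨⟨⟨⟨⟨a1, a2⟩, a3⟩, a4⟩, a5⟩, a6⟩ := hS1 k hk
    cases e
    · refine ⟨?_, a3, a5⟩
      show 2 * k + 0 < S.length
      omega
    · refine ⟨?_, a4, a6⟩
      show 2 * k + 1 < S.length
      omega
  have hu0 : ∀ k : Fin K, U.getD k 0 < 2 * K + 1 ∧ 0 < U.getD k 0 := by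
    rintro ⟨k, hk⟩
    obtain ⟨⟨⟨⟨⟨a1, a2⟩, a3⟩, a4⟩, a5⟩, a6⟩ := hS1 k hk
    exact ⟨a1, a2⟩
  refine THe_of_adj hK (Nat.card_fin _) c (by rw [Fintype.card_fin]; exact h2) hc ⟨0, by omega⟩
    (fun k => ⟨U.getD k 0, (hu0 k).1⟩) ?_ ?_
    (fun p => ⟨S.getD (2 * (p.1 : ℕ) + p.2.toNat) 0, (hg0 p).2.1⟩) ?_ ?_
  · intro k k' hkk
    have h3 := congrArg Fin.val hkk
    have h4 : U.getD (k : ℕ) 0 = U.getD (k' : ℕ) 0 := h3
    have hk1 : (k : ℕ) < U.length := by
      rw [hS2]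
      exact k.2
    have hk2 : (k' : ℕ) < U.length := by
      rw [hS2]
      exact k'.2
    rw [List.getD_eq_getElem U 0 hk1, List.getD_eq_getElem U 0 hk2, hS3.getElem_inj_iff] at h4
    exact Fin.ext h4
  · intro k hk
    have h3 := congrArg Fin.val hk
    have h4 : U.getD (k : ℕ) 0 = 0 := h3
    have h5 := (hu0 k).2
    omega
  · rintro ⟨k, e⟩ ⟨k', e'⟩ hkk
    have h3 := congrArg Fin.val hkk
    have h4 : S.getD (2 * (k : ℕ) + e.toNat) 0 = S.getD (2 * (k' : ℕ) + e'.toNat) 0 := h3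
    have hk1 : 2 * (k : ℕ) + e.toNat < S.length := (hg0 (k, e)).1
    have hk2 : 2 * (k' : ℕ) + e'.toNat < S.length := (hg0 (k', e')).1
    rw [List.getD_eq_getElem S 0 hk1, List.getD_eq_getElem S 0 hk2, hS5.getElem_inj_iff] at h4
    have e1 := Bool.toNat_le e
    have e2 := Bool.toNat_le e'
    have h5 : (k : ℕ) = k' := by omega
    have h6 : e.toNat = e'.toNat := by omega
    have h7 : e = e' := by
      cases e <;> cases e' <;> simp_all
    rw [Fin.ext h5, h7]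
  · intro k e
    exact Y7_adj hn h1 c hct (hu0 k).1 (hg0 (k, e)).2.1 (hg0 (k, e)).2.2

end Wr
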