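import Pool.Agent.H.MP_4bad09_co.W14

set_option autoImplicit false

/-!
# The format of the problem: the converse, and `k = n - 3` (MP_4bad09_co, helper11)
-/

namespace Wr

theorem Y8_has {V : Type} [DecidableEq V] {n : ℕ} {c : Cyc V n} {a b d x y z : V}
    (h : ({a, b, d} : Finset V) = {x, y, z}) (hxy : x ≠ y) (hyz : y ≠ z) (hxz : x ≠ z)
    (hw : c.Win a b d) : c.Has x y z := by
  have hx : x ∈ ({a, b, d} : Finset V) := by rw [h]; simp
  have hy : y ∈ ({a, b, d} : Finset V) := by rw [h]; simp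
  have hz : z ∈ ({a, b, d} : Finset V) := by rw [h]; simp
  simp only [Finset.mem_insert, Finset.mem_singleton] at hx hy hz
  unfold Cyc.Has
  rcases hx with rfl | rfl | rfl <;> rcases hy with rfl | rfl | rfl <;>
    rcases hz with rfl | rfl | rfl <;> first
      | exact absurd rfl hxy
      | exact absurd rfl hyz
      | exact absurd rfl hxz
      | tauto

/-- the cyclic order of a permutation -/
def Y8_c {n : ℕ} (hn : 0 < n) (σ : Equiv.Perm (Fin n)) : Cyc (Fin n) n where
  f t := σ ⟨t % n, Nat.mod_lt _ hn⟩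
  per t := by
    congr 2
    exact Nat.add_mod_right t n
  surj v := by
    refine ⟨(σ.symm v).val, ?_⟩
    have h1 : (⟨(σ.symm v).val % n, Nat.mod_lt _ hn⟩ : Fin n) = σ.symm v :=
      Fin.ext (Nat.mod_eq_of_lt (σ.symm v).2)
    rw [h1, σ.apply_symm_apply]

/-- the window as a set -/
theorem Y8_img {n : ℕ} (hn : 0 < n) (σ : Equiv.Perm (Fin n)) (p : ℕ) :
    (Finset.univ : Finset (Fin 3)).image
      (fun j => σ ⟨(p * 3 + j.val) % n, Nat.mod_lt _ hn⟩) =
      {(Y8_c hn σ).f (p * 3), (Y8_c hn σ).f (p * 3 + 1), (Y8_c hn σ).f (p * 3 + 2)} := by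
  have h1 : (Finset.univ : Finset (Fin 3)) = {0, 1, 2} := rfl
  rw [h1, Finset.image_insert, Finset.image_insert, Finset.image_singleton]
  rfl

theorem Y8_count {n m : ℕ} (hn : 0 < n) (h : m * n = n.choose 3) :
    6 * m = (n - 1) * (n - 2) := by
  have h1 : n.descFactorial 3 = Nat.factorial 3 * n.choose 3 :=
    Nat.descFactorial_eq_factorial_mul_choose n 3
  have h2 : n.descFactorial 3 = (n - 2) * ((n - 1) * n) := by
    simp [Nat.descFactorial]
  have h3 : Nat.factorial 3 = 6 := rfl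
  rw [h2, h3, ← h] at h1
  refine Nat.eq_of_mul_eq_mul_right hn ?_
  rw [mul_assoc, ← h1]
  ring

theorem Y8_gcd {n : ℕ} (h3 : ¬ 3 ∣ n) : n / Nat.gcd n 3 = n := by
  have hc : Nat.gcd n 3 = 1 :=
    Nat.Coprime.symm ((Nat.Prime.coprime_iff_not_dvd Nat.prime_three).2 h3)
  rw [hc, Nat.div_one]

theorem Y8_abs {P V : Type} [Fintype P] [Fintype V] {k : ℕ} (G : P → Finset V)
    (hG : ∀ p, (G p).card = k) (h : ∀ s : Finset V, s.card = k → ∃! p, G p = s) :
    Fintype.card P = (Fintype.card V).choose k := by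
  classical
  have hbij : Function.Bijective (fun p => (⟨G p, hG p⟩ : {s : Finset V // s.card = k})) := by
    rw [Function.bijective_iff_existsUnique]
    rintro ⟨s, hs⟩
    obtain ⟨p, hp, hu⟩ := h s hs
    exact ⟨p, Subtype.ext hp, fun q hq => hu q (congrArg Subtype.val hq)⟩
  rw [Fintype.card_of_bijective hbij, Fintype.card_finset_len]

theorem Y8_abs' {P V : Type} [Fintype P] [Fintype V] {k : ℕ} (G : P → Finset V)
    (hG : ∀ p, (G p).card = k) (h : ∀ s : Finset V, s.card = k → ∃ p, G p = s)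
    (hc : Fintype.card P = (Fintype.card V).choose k) :
    ∀ s : Finset V, s.card = k → ∃! p, G p = s := by
  classical
  have hbij : Function.Bijective (fun p => (⟨G p, hG p⟩ : {s : Finset V // s.card = k})) := by
    rw [Fintype.bijective_iff_surjective_and_card, Fintype.card_finset_len]
    refine ⟨?_, hc⟩
    rintro ⟨s, hs⟩
    obtain ⟨p, hp⟩ := h s hs
    exact ⟨p, Subtype.ext hp⟩
  intro s hs
  obtain ⟨p, hp⟩ := h s hs
  exact ⟨p, hp, fun q hq => hbij.1 (Subtype.ext (hq.trans hp.symm))⟩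

/-- The converse of `TH.wreath`.

Proof. `n / gcd n 3 = n`.  `I = Fin m`, `(c i).f t = σ i (t % n)`.  By counting (the map `p ↦` image is a bijection from `Fin m × Fin n` onto the `3`-subsets; the images have three elements as `n ≥ 4`)
`m n = n.choose 3`, so `6 m = (n-1)(n-2)` (`W14_choose` and cancellation: with `6 * n.choose 3 = n (n-1)(n-2)`).  `Covers`: the set `{x, y, z}` is the image for some `p`, so `x, y, z` are, in some order,
`c.f (3p), c.f (3p+1), c.f (3p+2)`. -/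
theorem HasWreath.th {n : ℕ} (hn : 4 ≤ n) (h3 : ¬ 3 ∣ n) (h : HasWreath n 3 (by omega)) :
    TH (Fin n) n := by
  have hn0 : 0 < n := by omega
  obtain ⟨m, σ, hσ⟩ := h
  have hg := Y8_gcd h3
  simp only [Y8_img hn0] at hσ
  have hcard := Y8_abs _ (fun p : Fin m × Fin (n / Nat.gcd n 3) =>
    W14_card hn (Y8_c hn0 (σ p.1)) _) hσ
  rw [Fintype.card_prod, Fintype.card_fin, Fintype.card_fin, Fintype.card_fin, hg] at hcard
  refine ⟨Nat.card_fin n, Fin m, inferInstance, fun i => Y8_c hn0 (σ i), ?_, ?_⟩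
  · rw [Fintype.card_fin]
    exact Y8_count hn0 hcard
  · intro x y z hxy hyz hxz
    obtain ⟨p, hp, -⟩ := hσ {x, y, z} (Finset.card_eq_three.2 ⟨x, y, z, hxy, hxz, hyz, rfl⟩)
    have hw : (Y8_c hn0 (σ p.1)).Win ((Y8_c hn0 (σ p.1)).f (p.2.val * 3))
        ((Y8_c hn0 (σ p.1)).f (p.2.val * 3 + 1)) ((Y8_c hn0 (σ p.1)).f (p.2.val * 3 + 2)) :=
      ⟨p.2.val * 3, rfl, rfl, rfl⟩
    exact ⟨p.1, Y8_has hp hxy hyz hxz hw⟩

theorem Y8_coprime {n : ℕ} (hn : 4 ≤ n) (h3 : ¬ 3 ∣ n) : Nat.Coprime n (n - 3) := by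
  have hc : Nat.Coprime n 3 :=
    Nat.Coprime.symm ((Nat.Prime.coprime_iff_not_dvd Nat.prime_three).2 h3)
  have h1 : Nat.gcd (n - 3 + 3) (n - 3) = Nat.gcd 3 (n - 3) := by
    rw [Nat.gcd_comm, Nat.gcd_self_add_right, Nat.gcd_comm]
  have h2 : Nat.gcd (n - 3) 3 = Nat.gcd (n - 3 + 3) 3 := by
    rw [Nat.gcd_add_self_left]
  have h4 : n - 3 + 3 = n := by omega
  rw [h4] at h1 h2
  rw [Nat.coprime_iff_gcd_eq_one, h1, Nat.gcd_comm, h2]
  exact hc

theorem Y8_inv {n : ℕ} (hn : 4 ≤ n) (h3 : ¬ 3 ∣ n) (t : ℕ) :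
    ∃ q < n, (q * (n - 3) + (n - 3)) % n = t % n := by
  obtain ⟨r, _, hr⟩ := Nat.exists_mul_mod_eq_one_of_coprime (Y8_coprime hn h3).symm (by omega)
  refine ⟨r * (t + 3) % n, Nat.mod_lt _ (by omega), ?_⟩
  have h1 : r * (t + 3) % n * (n - 3) ≡ r * (t + 3) * (n - 3) [MOD n] :=
    (Nat.mod_modEq (r * (t + 3)) n).mul_right (n - 3)
  have h2 : (n - 3) * r ≡ 1 [MOD n] := by
    rw [Nat.ModEq, hr, Nat.mod_eq_of_lt (by omega)]
  have h4 : r * (t + 3) * (n - 3) = (n - 3) * r * (t + 3) := by ring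
  have h5 : (n - 3) * r * (t + 3) ≡ 1 * (t + 3) [MOD n] := h2.mul_right (t + 3)
  rw [one_mul] at h5
  rw [h4] at h1
  have h6 := (h1.trans h5).add_right (n - 3)
  have h7 : t + 3 + (n - 3) = t + n := by omega
  rw [h7] at h6
  have h8 : t + n ≡ t [MOD n] := by
    rw [Nat.ModEq, Nat.add_mod_right]
  exact h6.trans h8

theorem Y8_key {n : ℕ} (hn : 0 < n) (c : Cyc (Fin n) n) {a i j : ℕ} (hi : i < n) (hj : j < n)
    (h : c.f (a + i) = c.f (a + j)) : i = j := by
  rw [c.eq_iff hn (Nat.card_fin n)] at h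
  have h1 : i ≡ j [MOD n] := Nat.ModEq.add_left_cancel' a h
  rw [Nat.ModEq, Nat.mod_eq_of_lt hi, Nat.mod_eq_of_lt hj] at h1
  exact h1

theorem Y8_long {n : ℕ} (hn : 4 ≤ n) (c : Cyc (Fin n) n) (a : ℕ) :
    ((Finset.univ : Finset (Fin (n - 3))).image (fun j => c.f (a + j.val))).card = n - 3 := by
  rw [Finset.card_image_of_injective, Finset.card_univ, Fintype.card_fin]
  intro i j hij
  exact Fin.ext (Y8_key (by omega) c (by omega) (by omega) hij)

theorem Y8_compl {n : ℕ} (hn : 4 ≤ n) (c : Cyc (Fin n) n) (a : ℕ) :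
    ((Finset.univ : Finset (Fin (n - 3))).image (fun j => c.f (a + j.val)))ᶜ =
      {c.f (a + (n - 3)), c.f (a + (n - 3) + 1), c.f (a + (n - 3) + 2)} := by
  have h1 : ∀ i, i < 3 → c.f (a + (n - 3) + i) ∈
      ((Finset.univ : Finset (Fin (n - 3))).image (fun j => c.f (a + j.val)))ᶜ := by
    intro i hi
    rw [Finset.mem_compl, Finset.mem_image]
    rintro ⟨j, -, hj⟩
    rw [Nat.add_assoc] at hj
    have := Y8_key (by omega) c (by omega) (by omega) hj
    omega
  symm
  refine Finset.eq_of_subset_of_card_le ?_ ?_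
  · intro x hx
    simp only [Finset.mem_insert, Finset.mem_singleton] at hx
    rcases hx with rfl | rfl | rfl
    · exact h1 0 (by omega)
    · exact h1 1 (by omega)
    · exact h1 2 (by omega)
  · rw [W14_card hn, Finset.card_compl, Y8_long hn, Fintype.card_fin]
    omega

/-- The complements of three consecutive points are `n - 3` consecutive points.

Proof.  As `TH.wreath`.  `gcd n (n - 3) = 1`, so `n / gcd = n`; the image for the index `p` is the set of the points at the places `p (n-3), …, p (n-3) + n - 4` modulo `n`; its complement is the window at the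
places `p (n-3) - 3, p (n-3) - 2, p (n-3) - 1`, i.e. `(p + 1)(n - 3), …` modulo `n`.  So for a set `s` with `n - 3` elements the complement `{x, y, z}` is a window `c.f t, c.f (t+1), c.f (t+2)` of one of the cyclic
orders and `p` is the solution of `p (n - 3) ≡ t + 3 (mod n)`.  Surjective, and `m n = n.choose 3 = n.choose (n - 3)`, so bijective. -/
theorem TH.wreath' {n : ℕ} (hn : 4 ≤ n) (h3 : ¬ 3 ∣ n) (h : TH (Fin n) n) :
    HasWreath n (n - 3) (by omega) := by
  obtain ⟨hV, I, hI, c, hcard, hcov⟩ := h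
  have hn0 : 0 < n := by omega
  have hg : n / Nat.gcd n (n - 3) = n := by
    rw [Nat.coprime_iff_gcd_eq_one.1 (Y8_coprime hn h3), Nat.div_one]
  obtain ⟨e⟩ : Nonempty (Fin (Fintype.card I) ≃ I) := ⟨(Fintype.equivFin I).symm⟩
  refine ⟨Fintype.card I, fun i => W14_p hn0 (c (e i)), ?_⟩
  have himg : ∀ p : Fin (Fintype.card I) × Fin (n / Nat.gcd n (n - 3)),
      (Finset.univ : Finset (Fin (n - 3))).image
          (fun j => W14_p hn0 (c (e p.1)) ⟨(p.2.val * (n - 3) + j.val) % n, Nat.mod_lt _ hn0⟩) =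
      (Finset.univ : Finset (Fin (n - 3))).image
        (fun j => (c (e p.1)).f (p.2.val * (n - 3) + j.val)) := by
    intro p
    refine Finset.image_congr fun j _ => ?_
    exact W14_papp hn0 _ _
  simp only [himg]
  refine Y8_abs' _ (fun p => Y8_long hn _ _) ?_ ?_
  · intro s hs
    have hs3 : sᶜ.card = 3 := by
      rw [Finset.card_compl, hs, Fintype.card_fin]
      omega
    obtain ⟨x, y, z, hxy, hxz, hyz, hxyz⟩ := Finset.card_eq_three.1 hs3
    obtain ⟨i, hi⟩ := hcov x y z hxy hyz hxz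
    obtain ⟨p, hp, hpe⟩ := W14_has hn h3 hi
    obtain ⟨q, hq, hqe⟩ := Y8_inv hn h3 (p * 3)
    refine ⟨(e.symm i, ⟨q, by rw [hg]; exact hq⟩), ?_⟩
    simp only [e.apply_symm_apply]
    rw [← compl_inj_iff, Y8_compl hn, hxyz, ← hpe]
    have h0 : q * (n - 3) + (n - 3) ≡ p * 3 [MOD n] := hqe
    rw [W14_f (c i) h0, W14_f (c i) (h0.add_right 1), W14_f (c i) (h0.add_right 2)]
  · rw [Fintype.card_prod, Fintype.card_fin, Fintype.card_fin, Fintype.card_fin, hg,
      Nat.choose_symm (by omega : 3 ≤ n)]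
    exact W14_choose hcard

end Wr
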