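import Pool.Agent.H.MP_4bad09_co.W11
import Pool.Agent.H.MP_4bad09_co.Y6

set_option autoImplicit false

/-!
# Reduction to primes (MP_4bad09_co, helper11)
-/

namespace Wr

/-- Proof. Strong induction on `n`.
`n` even, `n = 2 m`: `m = 2`: `h4`; `m = 5`: `h10`; otherwise `m ≥ 4`, `3 ∤ m`: `TH_two_mul` and the induction hypothesis.
`n` odd (so `n ≥ 5`): if `n` is prime: `hp`.  Otherwise `a = n.minFac`, `b = n / a`, `5 ≤ a ≤ b` (as `2, 3 ∤ n`; `Nat.minFac_sq_le_self`), `TH (Fin a) a` by `hp`, `TH (Fin b) b` by the induction hypothesis.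
If `b ≥ 15` (so `b ≥ 17`): `TH_mul`.  If `b = 11, 13`: `TH_mul` with `e5`, `e6`.  If `b ≤ 10`: `b = 5, 7` and `a ≤ b`: `a b = 25, 35, 49` (`a ≥ 5` odd, `3 ∤ a`): `h25`, `h35`, `h49`. -/
theorem TH_induct (h4 : TH (Fin 4) 4) (h10 : TH (Fin 10) 10) (h25 : TH (Fin 25) 25)
    (h35 : TH (Fin 35) 35) (h49 : TH (Fin 49) 49) (e5 : THe 5) (e6 : THe 6) (n : ℕ) (hn : 4 ≤ n)
    (h3 : ¬ 3 ∣ n) (hp : ∀ p : ℕ, p.Prime → 5 ≤ p → p ∣ n → TH (Fin p) p) : TH (Fin n) n := by
  induction n using Nat.strong_induction_on with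
  | _ n ih =>
  rcases Nat.even_or_odd' n with ⟨m, rfl | rfl⟩
  · by_cases h2 : m = 2
    · subst h2
      exact h4
    by_cases h5 : m = 5
    · subst h5
      exact h10
    have hm3 : m ≠ 3 := by
      rintro rfl
      exact h3 ⟨2, rfl⟩
    have hm : ¬ 3 ∣ m := fun h => h3 (h.mul_left 2)
    exact TH_two_mul (by omega) h5 hm
      (ih m (by omega) (by omega) hm fun p hp1 hp2 hp3 => hp p hp1 hp2 (hp3.mul_left 2))
  · by_cases hprime : (2 * m + 1).Prime
    · exact hp _ hprime (by omega) (dvd_refl _)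
    have ha : (2 * m + 1).minFac.Prime := Nat.minFac_prime (by omega)
    obtain ⟨b, hb⟩ := Nat.minFac_dvd (2 * m + 1)
    have hsq := Nat.minFac_sq_le_self (by omega : 0 < 2 * m + 1) hprime
    have hda := Nat.minFac_dvd (2 * m + 1)
    generalize (2 * m + 1).minFac = a at *
    have hodd : Odd (a * b) := by
      rw [← hb]
      exact ⟨m, rfl⟩
    have hao : Odd a := Nat.Odd.of_mul_left hodd
    have hbo : Odd b := Nat.Odd.of_mul_right hodd
    have h3a : ¬ 3 ∣ a := fun h => h3 (h.trans hda)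
    have hdb : b ∣ 2 * m + 1 := ⟨a, by rw [hb, mul_comm]⟩
    have h3b : ¬ 3 ∣ b := fun h => h3 (h.trans hdb)
    have ha2 := ha.two_le
    have ha5 : 5 ≤ a := by
      obtain ⟨k, hk⟩ := hao
      have h30 : a ≠ 3 := by
        rintro rfl
        exact h3a (dvd_refl _)
      omega
    have hab : a ≤ b := by
      rw [hb, sq] at hsq
      exact Nat.le_of_mul_le_mul_left hsq (by omega)
    have hbn : b < 2 * m + 1 := by
      rw [hb]
      nlinarith
    have hA : TH (Fin a) a := hp a ha ha5 hda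
    have hB : TH (Fin b) b :=
      ih b hbn (by omega) h3b fun p hp1 hp2 hp3 => hp p hp1 hp2 (hp3.trans hdb)
    rw [hb]
    by_cases hb11 : 11 ≤ b
    · refine TH_mul hao hbo ha5 hb11 h3a h3b hA hB fun hb15 => ?_
      obtain ⟨k, hk⟩ := hbo
      have h1 : b = 11 ∨ b = 13 := by omega
      rcases h1 with rfl | rfl
      · exact e5
      · exact e6
    · obtain ⟨k, hk⟩ := hbo
      obtain ⟨l, hl⟩ := hao
      have h1 : b = 5 ∨ b = 7 := by omega
      rcases h1 with rfl | rfl
      · have h2 : a = 5 := by omega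
        subst h2
        exact h25
      · have h2 : a = 5 ∨ a = 7 := by omega
        rcases h2 with rfl | rfl
        · exact h35
        · exact h49

end Wr
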