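import Pool.Agent.H.MP_4bad09_co.R3

set_option autoImplicit false

/-!
# The windows of a tree, with the index of the window as a statistic of the word

`E h x` is the number of the proper prefixes of `x` (the empty one excluded, the word itself included) which, read from
height `h`, end at an even height `≥ 0`.
-/

namespace WrR

open BinaryTree

def E : ℤ → List Bool → ℕ
  | _, [] => 0
  | h, true :: x => (if 0 ≤ h + 1 ∧ (h + 1) % 2 = 0 then 1 else 0) + E (h + 1) x
  | h, false :: x => (if 0 ≤ h - 1 ∧ (h - 1) % 2 = 0 then 1 else 0) + E (h - 1) x

def tot (x : List Bool) : ℤ := (x.count true : ℤ) - (x.count false : ℤ)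

theorem tot_true (x : List Bool) : tot (true :: x) = tot x + 1 := by
  unfold tot
  rw [List.count_cons_self, List.count_cons_of_ne (by decide)]
  push_cast
  ring

theorem tot_false (x : List Bool) : tot (false :: x) = tot x - 1 := by
  unfold tot
  rw [List.count_cons_self, List.count_cons_of_ne (by decide)]
  push_cast
  ring

theorem E_true (h : ℤ) (x : List Bool) :
    E h (true :: x) = (if 0 ≤ h + 1 ∧ (h + 1) % 2 = 0 then 1 else 0) + E (h + 1) x := rfl

theorem E_false (h : ℤ) (x : List Bool) :
    E h (false :: x) = (if 0 ≤ h - 1 ∧ (h - 1) % 2 = 0 then 1 else 0) + E (h - 1) x := rfl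

theorem E_app (x y : List Bool) : ∀ h, E h (x ++ y) = E h x + E (h + tot x) y := by
  induction x with
  | nil => intro h; simp [E, tot]
  | cons b x ih =>
    intro h
    cases b
    · rw [List.cons_append, E_false, E_false, ih, tot_false,
        show h - 1 + tot x = h + (tot x - 1) by ring, Nat.add_assoc]
    · rw [List.cons_append, E_true, E_true, ih, tot_true,
        show h + 1 + tot x = h + (tot x + 1) by ring, Nat.add_assoc]

theorem NW.tot0 {u : List Bool} (hu : NW u) : tot u = 0 := by
  unfold tot
  rw [hu.bal, sub_self]

theorem DW.tot0 {u : List Bool} (hu : DW u) : tot u = 0 := by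
  unfold tot
  rw [hu.bal, sub_self]

theorem NW.E0 {u : List Bool} (hu : NW u) : ∀ h, h < 0 → E h u = 0 := by
  induction hu with
  | nil => intro h _; rfl
  | cons u w hu hw ihu ihw =>
    intro h hh
    rw [E_false, E_app, E_true, ihu _ (by omega), hu.tot0, ihw _ (by omega), if_neg (by omega), if_neg (by omega)]

theorem DW.E0 {u : List Bool} (hu : DW u) : ∀ h, -1 ≤ h → E h u = u.count true := by
  induction hu with
  | nil => intro h _; rfl
  | cons u w hu hw ihu ihw =>
    intro h hh
    rw [E_true, E_app, E_false, ihu _ (by omega), hu.tot0, add_zero, ihw _ (by omega), List.count_cons_self,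
      List.count_append, List.count_cons_of_ne (by decide)]
    split_ifs <;> omega

/-- `x` is the window `W_j` of a tree. -/
def WinWE (x : List Bool) : Prop :=
  ∃ (T : BinaryTree Unit) (j : ℕ), x.length = 2 * T.numNodes ∧ j + E (-1) x = T.numNodes ∧
    ∀ s, ml (ones x s) = ml ((PA T s).drop j) + ml ((PB T s).take j)

/-- `x` is the window `V_(j+1)` of a tree, `j = E 0 x`. -/
def WinVE (x : List Bool) : Prop :=
  ∃ T : BinaryTree Unit, x.length = 2 * T.numNodes ∧ E 0 x < T.numNodes ∧
    ∀ s, ml (ones x s) = ml ((PA T s).take (E 0 x)) + ml ((PB T s).drop (E 0 x + 1))

theorem main_stat : ∀ (m : ℕ) (x : List Bool), x.length ≤ m →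
    (x.count true = x.count false → WinWE x) ∧ (x.count true + 2 = x.count false → WinVE x) := by
  intro m
  induction m with
  | zero =>
    intro x hx
    have : x = [] := List.eq_nil_of_length_eq_zero (by omega)
    subst this
    refine ⟨fun _ => ⟨BinaryTree.nil, 0, rfl, rfl, fun s => rfl⟩, fun h => ?_⟩
    simp at h
  | succ m ih =>
    intro x hx
    cases x with
    | nil =>
      refine ⟨fun _ => ⟨BinaryTree.nil, 0, rfl, rfl, fun s => rfl⟩, fun h => ?_⟩
      simp at h
    | cons b x =>
      rw [List.length_cons] at hx
      cases b
      · -- the word starts with `0`
        rw [List.count_cons_self, List.count_cons_of_ne (by decide)]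
        refine ⟨fun h => ?_, fun h => ?_⟩
        · obtain ⟨u, y, rfl, hu⟩ := first_above x.length x (le_refl _) (by omega)
          have hub := hu.bal
          rw [List.count_append, List.count_append, List.count_cons_self, List.count_cons_of_ne (by decide)] at h
          rw [List.length_append, List.length_cons] at hx
          obtain ⟨r, i, hr, hi, hW⟩ := (ih y (by omega)).1 (by omega)
          obtain ⟨l, hl, hN⟩ := hu.claim
          have hE : E (-1) (false :: (u ++ true :: y)) = E (-1) y := by
            rw [E_false, E_app, E_true, hu.E0 _ (by omega), hu.tot0, if_neg (by omega), if_neg (by omega),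
              show (-1 - 1 + 0 + 1 : ℤ) = -1 by norm_num]
            omega
          refine ⟨nd l r, l.numNodes + 1 + i, ?_, ?_, ?_⟩
          · rw [nd_num, List.length_cons, List.length_append, List.length_cons]; omega
          · rw [nd_num, hE]; omega
          · intro s
            rw [PA_drop_hi, PB_take_hi, ml_ones_false, ml_ones_app, ml_ones_true, ml_cons, ml_append, ml_reverse,
              hN, hW, hl, show s + 1 + 2 * l.numNodes + 1 = s + 2 * l.numNodes + 2 by omega,
              show s + 1 + 2 * l.numNodes = s + 2 * l.numNodes + 1 by omega]
            abel
        · rcases zn_or x with ⟨i, hi⟩ | ⟨Y, p, hp, rfl⟩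
          · have := hi.total
            omega
          · have hpb := hp.bal
            rw [List.count_append, List.count_append, List.count_cons_self, List.count_cons_of_ne (by decide)] at h
            rw [List.length_append, List.length_cons] at hx
            have hY0 : Y.count true = Y.count false := by omega
            have hYt : tot Y = 0 := by unfold tot; omega
            obtain ⟨l, i, hl, hi, hW⟩ := (ih Y (by omega)).1 hY0
            obtain ⟨r, hr, hN⟩ := hp.claim
            have hE : E 0 (false :: (Y ++ false :: p)) = E (-1) Y := by
              rw [E_false, E_app, E_false, hYt, hp.E0 _ (by omega), if_neg (by omega), if_neg (by omega),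
                show (0 - 1 : ℤ) = -1 by norm_num]
              omega
            have hEi : E (-1) Y = l.numNodes - i := by omega
            refine ⟨nd l r, ?_, ?_, ?_⟩
            · rw [nd_num, List.length_cons, List.length_append, List.length_cons]; omega
            · rw [nd_num, hE]; omega
            · intro s
              rw [hE, hEi, PA_take_lo l r s i (by omega), PB_drop_lo l r s i (by omega), ml_ones_false, ml_ones_app,
                ml_ones_false, ml_append, ml_reverse, ml_reverse, hN, hW, hl,
                show s + 1 + 2 * l.numNodes + 1 = s + 2 * l.numNodes + 2 by omega]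
              abel
      · -- the word starts with `1`
        rw [List.count_cons_self, List.count_cons_of_ne (by decide)]
        refine ⟨fun h => ?_, fun h => ?_⟩
        · rcases zd_or x with ⟨i, hi⟩ | ⟨Z, p, hp, rfl⟩
          · have hi1 := hi.total
            have : i = 1 := by omega
            subst this
            cases hi with
            | step _ q y hq hy =>
              cases hy with
              | base _ hy =>
                have hD := DW.cons q y hq hy
                obtain ⟨T, hT, hT'⟩ := hD.claim
                refine ⟨T, 0, hT, ?_, fun s => by
                  rw [hT', List.drop_zero, List.take_zero, ml_nil, add_zero]⟩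
                have h1 := hD.E0 (-1) (le_refl _)
                have h2 := hD.bal
                have h3 := len_count (true :: (q ++ false :: y))
                rw [h1]
                omega
          · have hpb := hp.bal
            rw [List.count_append, List.count_append, List.count_cons_self, List.count_cons_of_ne (by decide)] at h
            rw [List.length_append, List.length_cons] at hx
            have hZ2 : Z.count true + 2 = Z.count false := by omega
            have hZt : tot Z = -2 := by unfold tot; omega
            obtain ⟨l, hl, hi, hV⟩ := (ih Z (by omega)).2 hZ2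
            obtain ⟨r, hr, hD⟩ := hp.claim
            have hpl := len_count p
            have hE : E (-1) (true :: (Z ++ true :: p)) = 1 + E 0 Z + p.count true := by
              rw [E_true, E_app, E_true, hZt, hp.E0 _ (by omega), if_pos (by omega), if_neg (by omega),
                show (-1 + 1 : ℤ) = 0 by norm_num]
              omega
            have e1 : l.numNodes - E 0 Z = l.numNodes - (E 0 Z + 1) + 1 := by omega
            refine ⟨nd l r, l.numNodes - E 0 Z, ?_, ?_, ?_⟩
            · rw [nd_num, List.length_cons, List.length_append, List.length_cons]; omega
            · rw [nd_num, hE]; omega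
            · intro s
              rw [PA_drop_lo l r s (E 0 Z) (by omega), e1, PB_take_lo l r s (E 0 Z + 1) (by omega), ml_ones_true,
                ml_ones_app, ml_ones_true, ml_append, ml_reverse, ml_cons, ml_cons, ml_reverse, hD, hV, hl,
                show s + 1 + 2 * l.numNodes + 1 = s + 2 * l.numNodes + 2 by omega,
                show s + 1 + 2 * l.numNodes = s + 2 * l.numNodes + 1 by omega]
              abel
        · obtain ⟨u, y, rfl, hu⟩ := first_below x.length x (le_refl _) (by omega)
          have hub := hu.bal
          rw [List.count_append, List.count_append, List.count_cons_self, List.count_cons_of_ne (by decide)] at h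
          rw [List.length_append, List.length_cons] at hx
          obtain ⟨r, hr, hi, hV⟩ := (ih y (by omega)).2 (by omega)
          obtain ⟨l, hl, hD⟩ := hu.claim
          have hul := len_count u
          have hE : E 0 (true :: (u ++ false :: y)) = l.numNodes + 1 + E 0 y := by
            rw [E_true, E_app, E_false, hu.E0 _ (by omega), hu.tot0, if_neg (by omega), if_pos (by omega),
              show (0 + 1 + 0 - 1 : ℤ) = 0 by norm_num]
            omega
          refine ⟨nd l r, ?_, ?_, ?_⟩
          · rw [nd_num, List.length_cons, List.length_append, List.length_cons]; omega
          · rw [nd_num, hE]; omega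
          · intro s
            rw [hE, PA_take_hi, Nat.add_assoc (l.numNodes + 1) (E 0 y) 1, PB_drop_hi, ml_ones_true, ml_ones_app,
              ml_ones_false, ml_append, ml_reverse, ml_cons, hD, hV, hl,
              show s + 1 + 2 * l.numNodes + 1 = s + 2 * l.numNodes + 2 by omega]
            abel

end WrR
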