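import Pool.Agent.H.MP_4bad09_co.Z1

set_option autoImplicit false

/-!
# The index of a point in a tree

`q J K T s x : ZMod (2 J + 1)` is the index of the pair which contains the point `x` in the wreath of the tree `T`
whose points start at `s`.  The two end points of an arc with `a` arcs below it are read at the lower side if
`a ≤ K` and at the upper side otherwise.
-/

namespace WrR

open BinaryTree

def q (J K : ℕ) : BinaryTree Unit → ℕ → ℕ → ZMod (2 * J + 1)
  | .nil, _, _ => 0
  | .node _ l r, s, x =>
    if x = s then (if l.numNodes ≤ K then (l.numNodes : ZMod (2 * J + 1)) else (J : ZMod (2 * J + 1)))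
    else if x < s + 2 * l.numNodes + 1 then (l.numNodes : ZMod (2 * J + 1)) - 1 - q J K l (s + 1) x
    else if x = s + 2 * l.numNodes + 1 then
      (if l.numNodes ≤ K then (J : ZMod (2 * J + 1)) else (l.numNodes : ZMod (2 * J + 1)))
    else (l.numNodes : ZMod (2 * J + 1)) + 1 + q J K r (s + 2 * l.numNodes + 2) x

variable {J K : ℕ}

theorem q_open (l r : BinaryTree Unit) (s : ℕ) :
    q J K (nd l r) s s = (if l.numNodes ≤ K then (l.numNodes : ZMod (2 * J + 1)) else (J : ZMod (2 * J + 1))) := by
  show (if s = s then _ else _) = _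
  rw [if_pos rfl]

theorem q_left (l r : BinaryTree Unit) (s x : ℕ) (h1 : s < x) (h2 : x < s + 2 * l.numNodes + 1) :
    q J K (nd l r) s x = (l.numNodes : ZMod (2 * J + 1)) - 1 - q J K l (s + 1) x := by
  show (if x = s then _ else if x < s + 2 * l.numNodes + 1 then _ else _) = _
  rw [if_neg (by omega), if_pos h2]

theorem q_close (l r : BinaryTree Unit) (s : ℕ) :
    q J K (nd l r) s (s + 2 * l.numNodes + 1) =
      (if l.numNodes ≤ K then (J : ZMod (2 * J + 1)) else (l.numNodes : ZMod (2 * J + 1))) := by
  show (if s + 2 * l.numNodes + 1 = s then _ else if s + 2 * l.numNodes + 1 < s + 2 * l.numNodes + 1 then _ else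
    if s + 2 * l.numNodes + 1 = s + 2 * l.numNodes + 1 then _ else _) = _
  rw [if_neg (by omega), if_neg (by omega), if_pos rfl]

theorem q_right (l r : BinaryTree Unit) (s x : ℕ) (h : s + 2 * l.numNodes + 1 < x) :
    q J K (nd l r) s x = (l.numNodes : ZMod (2 * J + 1)) + 1 + q J K r (s + 2 * l.numNodes + 2) x := by
  show (if x = s then _ else if x < s + 2 * l.numNodes + 1 then _ else
    if x = s + 2 * l.numNodes + 1 then _ else _) = _
  rw [if_neg (by omega), if_neg (by omega), if_neg (by omega)]

theorem jj : (J : ZMod (2 * J + 1)) + J + 1 = 0 := by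
  have h : ((2 * J + 1 : ℕ) : ZMod (2 * J + 1)) = 0 := ZMod.natCast_self _
  push_cast at h
  rw [← h]
  ring

theorem nd_cases (T : BinaryTree Unit) : T = .nil ∨ ∃ l r, T = nd l r := by
  cases T with
  | nil => exact Or.inl rfl
  | node u l r => exact Or.inr ⟨l, r, rfl⟩

/-- Translation. -/
theorem q_shift (d : ℕ) (T : BinaryTree Unit) : ∀ s x, q J K T (s + d) (x + d) = q J K T s x := by
  induction T with
  | nil => intro s x; rfl
  | node u l r ihl ihr =>
    intro s x
    show (if x + d = s + d then _ else if x + d < s + d + 2 * l.numNodes + 1 then _ else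
      if x + d = s + d + 2 * l.numNodes + 1 then _ else _) = (if x = s then _ else if x < s + 2 * l.numNodes + 1 then _ else
      if x = s + 2 * l.numNodes + 1 then _ else _)
    have e1 : s + d + 1 = s + 1 + d := by omega
    have e2 : s + d + 2 * l.numNodes + 2 = s + 2 * l.numNodes + 2 + d := by omega
    have c1 : (x + d = s + d) = (x = s) := by apply propext; omega
    have c2 : (x + d < s + d + 2 * l.numNodes + 1) = (x < s + 2 * l.numNodes + 1) := by apply propext; omega
    have c3 : (x + d = s + d + 2 * l.numNodes + 1) = (x = s + 2 * l.numNodes + 1) := by apply propext; omega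
    rw [e1, e2, ihl, ihr]
    simp only [c1, c2, c3]

theorem PA_mem (T : BinaryTree Unit) (s x : ℕ) (h : x ∈ PA T s ∨ x ∈ PB T s) : s ≤ x ∧ x < s + 2 * T.numNodes := by
  have h1 : x ∈ ml (PA T s) + ml (PB T s) := by
    rw [Multiset.mem_add]
    exact h
  rw [ml_AB] at h1
  have h2 : x ∈ List.range' s (2 * T.numNodes) := h1
  rw [List.mem_range'_1] at h2
  exact h2

theorem mem_AB (T : BinaryTree Unit) (s x : ℕ) (h : s ≤ x ∧ x < s + 2 * T.numNodes) : x ∈ PA T s ∨ x ∈ PB T s := by
  have h2 : x ∈ ml (List.range' s (2 * T.numNodes)) := by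
    show x ∈ List.range' s (2 * T.numNodes)
    rw [List.mem_range'_1]
    exact h
  rw [← ml_AB, Multiset.mem_add] at h2
  exact h2

theorem map_left (l r : BinaryTree Unit) (s : ℕ) (L : List ℕ)
    (hL : ∀ x ∈ L, s + 1 ≤ x ∧ x < s + 1 + 2 * l.numNodes) :
    L.map (q J K (nd l r) s) =
      (L.map (q J K l (s + 1))).map (fun z => (l.numNodes : ZMod (2 * J + 1)) - 1 - z) := by
  rw [List.map_map]
  refine List.map_congr_left ?_
  intro x hx
  have := hL x hx
  exact q_left l r s x (by omega) (by omega)

theorem map_right (l r : BinaryTree Unit) (s : ℕ) (L : List ℕ)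
    (hL : ∀ x ∈ L, s + 2 * l.numNodes + 2 ≤ x) :
    L.map (q J K (nd l r) s) =
      (L.map (q J K r (s + 2 * l.numNodes + 2))).map (fun z => (l.numNodes : ZMod (2 * J + 1)) + 1 + z) := by
  rw [List.map_map]
  refine List.map_congr_left ?_
  intro x hx
  have := hL x hx
  exact q_right l r s x (by omega)

/-- `0, 1, …, n - 1` shifted by `c`. -/
def rg (J : ℕ) (c : ZMod (2 * J + 1)) (n : ℕ) : List (ZMod (2 * J + 1)) :=
  (List.range n).map (fun i : ℕ => (i : ZMod (2 * J + 1)) + c)

theorem rg_length (c : ZMod (2 * J + 1)) (n : ℕ) : (rg J c n).length = n := by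
  simp [rg]

theorem rg_getElem (c : ZMod (2 * J + 1)) (n i : ℕ) (h : i < (rg J c n).length) :
    (rg J c n)[i] = (i : ZMod (2 * J + 1)) + c := by
  simp [rg]

theorem rg_add (c : ZMod (2 * J + 1)) (n p : ℕ) : rg J c (n + p) = rg J c n ++ rg J (n + c) p := by
  unfold rg
  rw [List.range_add, List.map_append, List.map_map]
  congr 1
  refine List.map_congr_left ?_
  intro i _
  simp only [Function.comp]
  push_cast
  ring

theorem rg_one (c : ZMod (2 * J + 1)) : rg J c 1 = [c] := by
  simp [rg]

theorem rg_rev (c d : ZMod (2 * J + 1)) (n : ℕ) :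
    ((rg J c n).map (fun z => (n : ZMod (2 * J + 1)) - 1 + d - z)).reverse = rg J (d - c) n := by
  refine List.ext_getElem ?_ ?_
  · simp [rg]
  · intro i h1 h2
    rw [rg_getElem]
    have hi : i < n := by rw [rg_length] at h2; exact h2
    rw [List.getElem_reverse, List.getElem_map, rg_getElem, List.length_map, rg_length]
    have h3 : ((n - 1 - i : ℕ) : ZMod (2 * J + 1)) = (n : ZMod (2 * J + 1)) - 1 - i := by
      rw [Nat.sub_sub, Nat.cast_sub (by omega)]
      push_cast
      ring
    rw [h3]
    ring

theorem PA_map (T : BinaryTree Unit) : ∀ s, T.numNodes ≤ K → (PA T s).map (q J K T s) = rg J 0 T.numNodes := by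
  induction T with
  | nil => intro s _; rfl
  | node u l r ihl ihr =>
    intro s hK
    have hn : (BinaryTree.node u l r).numNodes = l.numNodes + 1 + r.numNodes := by
      show l.numNodes + r.numNodes + 1 = _
      omega
    have hu : BinaryTree.node u l r = nd l r := rfl
    rw [hn] at hK
    rw [hn, hu, PA_nd, List.map_append, List.map_cons, List.map_reverse, q_open, if_pos (by omega),
      map_left l r s _ (fun x hx => by have := PA_mem l (s + 1) x (Or.inl hx); omega),
      map_right l r s _ (fun x hx => by have := PA_mem r (s + 2 * l.numNodes + 2) x (Or.inl hx); omega),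
      ihl _ (by omega), ihr _ (by omega), rg_add, rg_add, rg_one]
    have h1 := rg_rev (J := J) 0 0 l.numNodes
    simp only [add_zero, sub_zero] at h1
    rw [h1]
    have h2 : (rg J 0 r.numNodes).map (fun z => (l.numNodes : ZMod (2 * J + 1)) + 1 + z) =
        rg J (((l.numNodes + 1 : ℕ) : ZMod (2 * J + 1)) + 0) r.numNodes := by
      unfold rg
      rw [List.map_map]
      refine List.map_congr_left ?_
      intro i _
      simp only [Function.comp]
      push_cast
      ring
    rw [h2, add_zero, add_zero]
    simp

theorem PB_map (T : BinaryTree Unit) : ∀ s, T.numNodes ≤ K → (PB T s).map (q J K T s) = rg J J T.numNodes := by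
  induction T with
  | nil => intro s _; rfl
  | node u l r ihl ihr =>
    intro s hK
    have hn : (BinaryTree.node u l r).numNodes = 1 + l.numNodes + r.numNodes := by
      show l.numNodes + r.numNodes + 1 = _
      omega
    have hu : BinaryTree.node u l r = nd l r := rfl
    rw [hn] at hK
    rw [hn, hu, PB_nd, List.map_cons, List.map_append, List.map_reverse, q_close, if_pos (by omega),
      map_left l r s _ (fun x hx => by have := PA_mem l (s + 1) x (Or.inr hx); omega),
      map_right l r s _ (fun x hx => by have := PA_mem r (s + 2 * l.numNodes + 2) x (Or.inr hx); omega),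
      ihl _ (by omega), ihr _ (by omega), rg_add, rg_add, rg_one]
    have h1 := rg_rev (J := J) J 0 l.numNodes
    simp only [add_zero, zero_sub] at h1
    rw [h1]
    have h3 : (-(J : ZMod (2 * J + 1))) = ((1 : ℕ) : ZMod (2 * J + 1)) + J := by
      have := jj (J := J)
      push_cast
      linear_combination -this
    have h2 : (rg J J r.numNodes).map (fun z => (l.numNodes : ZMod (2 * J + 1)) + 1 + z) =
        rg J (((1 + l.numNodes : ℕ) : ZMod (2 * J + 1)) + J) r.numNodes := by
      unfold rg
      rw [List.map_map]
      refine List.map_congr_left ?_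
      intro i _
      simp only [Function.comp]
      push_cast
      ring
    rw [h2, h3]
    simp

/-- The window. -/
def inW {J : ℕ} (z : ZMod (2 * J + 1)) : Prop := z.val < J

theorem val_nat (i : ℕ) (h : i < 2 * J + 1) : ((i : ZMod (2 * J + 1))).val = i :=
  ZMod.val_natCast_of_lt h

theorem inW_nat (i : ℕ) (h : i < 2 * J + 1) : inW ((i : ZMod (2 * J + 1))) ↔ i < J := by
  unfold inW
  rw [val_nat i h]

theorem mem_of_map {α β : Type} {f : α → β} {L : List α} {M : List β} (h : L.map f = M) {x : α} (hx : x ∈ L) :
    f x ∈ M := by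
  rw [← h]
  exact List.mem_map_of_mem hx

theorem rg_take (c : ZMod (2 * J + 1)) (n p : ℕ) (h : p ≤ n) : (rg J c n).take p = rg J c p := by
  unfold rg
  rw [← List.map_take, List.take_range, min_eq_left h]

theorem rg_drop (c : ZMod (2 * J + 1)) (n p : ℕ) (h : p ≤ n) : (rg J c n).drop p = rg J (p + c) (n - p) := by
  have h1 : n = p + (n - p) := by omega
  have h2 : rg J c n = rg J c p ++ rg J (p + c) (n - p) := by
    rw [← rg_add, ← h1]
  have h3 : (rg J c p).length = p := rg_length c p
  rw [h2]
  nth_rewrite 1 [← h3]
  exact List.drop_left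

theorem mem_rg {c z : ZMod (2 * J + 1)} {n : ℕ} (h : z ∈ rg J c n) :
    ∃ i, i < n ∧ z = (i : ZMod (2 * J + 1)) + c := by
  unfold rg at h
  rw [List.mem_map] at h
  obtain ⟨i, hi, rfl⟩ := h
  exact ⟨i, List.mem_range.mp hi, rfl⟩

/-- The middle window of a tree with `2 J + 1` nodes. -/
theorem mid_iff (T : BinaryTree Unit) (hT : T.numNodes = 2 * J + 1) (hK : 2 * J + 1 ≤ K) (s x : ℕ)
    (h1 : s ≤ x) (h2 : x < s + 2 * T.numNodes) :
    (x ∈ (PA T s).take J ∨ x ∈ (PB T s).drop (J + 1)) ↔ inW (q J K T s x) := by
  have hA := PA_map (J := J) (K := K) T s (by omega)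
  have hB := PB_map (J := J) (K := K) T s (by omega)
  have hA1 : ((PA T s).take J).map (q J K T s) = rg J 0 J := by
    rw [List.map_take, hA, rg_take _ _ _ (by omega)]
  have hA2 : ((PA T s).drop J).map (q J K T s) = rg J (J + 0) (J + 1) := by
    rw [List.map_drop, hA, rg_drop _ _ _ (by omega), hT, show 2 * J + 1 - J = J + 1 by omega]
  have hB1 : ((PB T s).take (J + 1)).map (q J K T s) = rg J J (J + 1) := by
    rw [List.map_take, hB, rg_take _ _ _ (by omega)]
  have hB2 : ((PB T s).drop (J + 1)).map (q J K T s) = rg J 0 J := by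
    rw [List.map_drop, hB, rg_drop _ _ _ (by omega), hT, show 2 * J + 1 - (J + 1) = J by omega]
    congr 1
    have := jj (J := J)
    push_cast
    linear_combination this
  constructor
  · rintro (h | h)
    · obtain ⟨i, hi, he⟩ := mem_rg (mem_of_map hA1 h)
      rw [he, add_zero, inW_nat i (by omega)]
      exact hi
    · obtain ⟨i, hi, he⟩ := mem_rg (mem_of_map hB2 h)
      rw [he, add_zero, inW_nat i (by omega)]
      exact hi
  · intro hw
    by_contra hn
    rw [not_or] at hn
    rcases mem_AB T s x ⟨h1, h2⟩ with h | h
    · rw [← List.take_append_drop J (PA T s), List.mem_append] at h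
      rcases h with h | h
      · exact hn.1 h
      · obtain ⟨i, hi, he⟩ := mem_rg (mem_of_map hA2 h)
        rw [he, add_zero, ← Nat.cast_add, inW_nat (i + J) (by omega)] at hw
        omega
    · rw [← List.take_append_drop (J + 1) (PB T s), List.mem_append] at h
      rcases h with h | h
      · obtain ⟨i, hi, he⟩ := mem_rg (mem_of_map hB1 h)
        rw [he, ← Nat.cast_add, inW_nat (i + J) (by omega)] at hw
        omega
      · exact hn.2 h

/-- The window does not see the labels of the large arcs. -/
theorem labels (T : BinaryTree Unit) : ∀ (s o x : ℕ), s ≤ x → x < s + 2 * T.numNodes → T.numNodes ≤ K →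
    (o + T.numNodes ≤ 2 * J + 1 →
      (inW ((o : ZMod (2 * J + 1)) + q J J T s x) ↔ inW ((o : ZMod (2 * J + 1)) + q J K T s x))) ∧
    (T.numNodes ≤ o + 1 → o + 2 ≤ 2 * J + 1 →
      (inW ((o : ZMod (2 * J + 1)) - q J J T s x) ↔ inW ((o : ZMod (2 * J + 1)) - q J K T s x))) := by
  induction T with
  | nil => intro s o x h1 h2; simp only [BinaryTree.numNodes] at h2; omega
  | node u l r ihl ihr =>
    intro s o x h1 h2 hK
    have hn : (BinaryTree.node u l r).numNodes = l.numNodes + r.numNodes + 1 := rfl
    have hu : BinaryTree.node u l r = nd l r := rfl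
    rw [hn] at h2 hK
    rw [hn, hu]
    rcases Nat.lt_trichotomy x s with h | h | h
    · omega
    · subst h
      rw [q_open, q_open, if_pos (show l.numNodes ≤ K by omega)]
      by_cases hJ : l.numNodes ≤ J
      · rw [if_pos hJ]
        exact ⟨fun _ => Iff.rfl, fun _ _ => Iff.rfl⟩
      · rw [if_neg hJ]
        constructor
        · intro ho
          rw [← Nat.cast_add, ← Nat.cast_add, inW_nat _ (by omega), inW_nat _ (by omega)]
          omega
        · intro ho ho2
          rw [← Nat.cast_sub (by omega), ← Nat.cast_sub (by omega), inW_nat _ (by omega), inW_nat _ (by omega)]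
          omega
    · rcases Nat.lt_trichotomy x (s + 2 * l.numNodes + 1) with h3 | h3 | h3
      · rw [q_left l r s x h h3, q_left l r s x h h3]
        constructor
        · intro ho
          have := (ihl (s + 1) (o + l.numNodes - 1) x (by omega) (by omega) (by omega)).2 (by omega) (by omega)
          have e : ((o + l.numNodes - 1 : ℕ) : ZMod (2 * J + 1)) = (o : ZMod (2 * J + 1)) + l.numNodes - 1 := by
            rw [Nat.cast_sub (by omega)]
            push_cast
            ring
          rw [e] at this
          rw [show (o : ZMod (2 * J + 1)) + ((l.numNodes : ZMod (2 * J + 1)) - 1 - q J J l (s + 1) x) =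
              (o : ZMod (2 * J + 1)) + l.numNodes - 1 - q J J l (s + 1) x by ring,
            show (o : ZMod (2 * J + 1)) + ((l.numNodes : ZMod (2 * J + 1)) - 1 - q J K l (s + 1) x) =
              (o : ZMod (2 * J + 1)) + l.numNodes - 1 - q J K l (s + 1) x by ring]
          exact this
        · intro ho ho2
          have := (ihl (s + 1) (o + 1 - l.numNodes) x (by omega) (by omega) (by omega)).1 (by omega)
          have e : ((o + 1 - l.numNodes : ℕ) : ZMod (2 * J + 1)) = (o : ZMod (2 * J + 1)) + 1 - l.numNodes := by
            rw [Nat.cast_sub (by omega)]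
            push_cast
            ring
          rw [e] at this
          rw [show (o : ZMod (2 * J + 1)) - ((l.numNodes : ZMod (2 * J + 1)) - 1 - q J J l (s + 1) x) =
              (o : ZMod (2 * J + 1)) + 1 - l.numNodes + q J J l (s + 1) x by ring,
            show (o : ZMod (2 * J + 1)) - ((l.numNodes : ZMod (2 * J + 1)) - 1 - q J K l (s + 1) x) =
              (o : ZMod (2 * J + 1)) + 1 - l.numNodes + q J K l (s + 1) x by ring]
          exact this
      · subst h3
        rw [q_close, q_close, if_pos (show l.numNodes ≤ K by omega)]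
        by_cases hJ : l.numNodes ≤ J
        · rw [if_pos hJ]
          exact ⟨fun _ => Iff.rfl, fun _ _ => Iff.rfl⟩
        · rw [if_neg hJ]
          constructor
          · intro ho
            rw [← Nat.cast_add, ← Nat.cast_add, inW_nat _ (by omega), inW_nat _ (by omega)]
            omega
          · intro ho ho2
            rw [← Nat.cast_sub (by omega), ← Nat.cast_sub (by omega), inW_nat _ (by omega), inW_nat _ (by omega)]
            omega
      · rw [q_right l r s x h3, q_right l r s x h3]
        constructor
        · intro ho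
          have := (ihr (s + 2 * l.numNodes + 2) (o + l.numNodes + 1) x (by omega) (by omega) (by omega)).1 (by omega)
          have e : ((o + l.numNodes + 1 : ℕ) : ZMod (2 * J + 1)) = (o : ZMod (2 * J + 1)) + l.numNodes + 1 := by
            push_cast
            ring
          rw [e] at this
          rw [show (o : ZMod (2 * J + 1)) + ((l.numNodes : ZMod (2 * J + 1)) + 1 +
                q J J r (s + 2 * l.numNodes + 2) x) =
              (o : ZMod (2 * J + 1)) + l.numNodes + 1 + q J J r (s + 2 * l.numNodes + 2) x by ring,
            show (o : ZMod (2 * J + 1)) + ((l.numNodes : ZMod (2 * J + 1)) + 1 +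
                q J K r (s + 2 * l.numNodes + 2) x) =
              (o : ZMod (2 * J + 1)) + l.numNodes + 1 + q J K r (s + 2 * l.numNodes + 2) x by ring]
          exact this
        · intro ho ho2
          have := (ihr (s + 2 * l.numNodes + 2) (o - l.numNodes - 1) x (by omega) (by omega) (by omega)).2
            (by omega) (by omega)
          have e : ((o - l.numNodes - 1 : ℕ) : ZMod (2 * J + 1)) = (o : ZMod (2 * J + 1)) - l.numNodes - 1 := by
            rw [Nat.sub_sub, Nat.cast_sub (by omega)]
            push_cast
            ring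
          rw [e] at this
          rw [show (o : ZMod (2 * J + 1)) - ((l.numNodes : ZMod (2 * J + 1)) + 1 +
                q J J r (s + 2 * l.numNodes + 2) x) =
              (o : ZMod (2 * J + 1)) - l.numNodes - 1 - q J J r (s + 2 * l.numNodes + 2) x by ring,
            show (o : ZMod (2 * J + 1)) - ((l.numNodes : ZMod (2 * J + 1)) + 1 +
                q J K r (s + 2 * l.numNodes + 2) x) =
              (o : ZMod (2 * J + 1)) - l.numNodes - 1 - q J K r (s + 2 * l.numNodes + 2) x by ring]
          exact this

end WrR
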