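import Pool.Agent.H.MP_4bad09_co.Z2

set_option autoImplicit false

/-!
# Rotation of the circle
-/

namespace WrR

open BinaryTree

variable {J K : ℕ}

def app : BinaryTree Unit → BinaryTree Unit → BinaryTree Unit
  | .nil, Q => Q
  | .node u l r, Q => .node u l (app r Q)

theorem app_num (T Q : BinaryTree Unit) : (app T Q).numNodes = T.numNodes + Q.numNodes := by
  induction T with
  | nil => simp [app]
  | node u l r ihl ihr =>
    show l.numNodes + (app r Q).numNodes + 1 = l.numNodes + r.numNodes + 1 + Q.numNodes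
    rw [ihr]
    omega

theorem q_app_lo (T Q : BinaryTree Unit) : ∀ s x, s ≤ x → x < s + 2 * T.numNodes →
    q J K (app T Q) s x = q J K T s x := by
  induction T with
  | nil => intro s x h1 h2; simp only [BinaryTree.numNodes] at h2; omega
  | node u l r ihl ihr =>
    intro s x h1 h2
    have hn : (BinaryTree.node u l r).numNodes = l.numNodes + r.numNodes + 1 := rfl
    have e1 : app (BinaryTree.node u l r) Q = nd l (app r Q) := rfl
    have e2 : BinaryTree.node u l r = nd l r := rfl
    rw [hn] at h2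
    rw [e1, e2]
    rcases Nat.lt_trichotomy x s with h | h | h
    · omega
    · subst h
      rw [q_open, q_open]
    · rcases Nat.lt_trichotomy x (s + 2 * l.numNodes + 1) with h3 | h3 | h3
      · rw [q_left l _ s x h h3, q_left l r s x h h3]
      · subst h3
        rw [q_close, q_close]
      · rw [q_right l _ s x h3, q_right l r s x h3, ihr _ _ (by omega) (by omega)]

theorem q_app_hi (T Q : BinaryTree Unit) : ∀ s x, s + 2 * T.numNodes ≤ x →
    q J K (app T Q) s x = (T.numNodes : ZMod (2 * J + 1)) + q J K Q (s + 2 * T.numNodes) x := by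
  induction T with
  | nil => intro s x _; simp [app, BinaryTree.numNodes]
  | node u l r ihl ihr =>
    intro s x h1
    have hn : (BinaryTree.node u l r).numNodes = l.numNodes + r.numNodes + 1 := rfl
    have e1 : app (BinaryTree.node u l r) Q = nd l (app r Q) := rfl
    rw [hn] at h1
    rw [e1, hn, q_right l _ s x (by omega), ihr _ _ (by omega),
      show s + 2 * l.numNodes + 2 + 2 * r.numNodes = s + 2 * (l.numNodes + r.numNodes + 1) by omega]
    push_cast
    ring

theorem inW_refl (z : ZMod (2 * J + 1)) : inW z ↔ inW ((J : ZMod (2 * J + 1)) - 1 - z) := by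
  have hz : ((z.val : ℕ) : ZMod (2 * J + 1)) = z := ZMod.natCast_zmod_val z
  have hlt : z.val < 2 * J + 1 := ZMod.val_lt z
  rw [← hz]
  rw [inW_nat z.val hlt]
  by_cases h : z.val < J
  · have e : (J : ZMod (2 * J + 1)) - 1 - (z.val : ZMod (2 * J + 1)) =
        ((J - 1 - z.val : ℕ) : ZMod (2 * J + 1)) := by
      rw [Nat.sub_sub, Nat.cast_sub (by omega)]
      push_cast
      ring
    rw [e, inW_nat _ (by omega)]
    omega
  · have e : (J : ZMod (2 * J + 1)) - 1 - (z.val : ZMod (2 * J + 1)) =
        ((3 * J - z.val : ℕ) : ZMod (2 * J + 1)) := by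
      rw [Nat.cast_sub (by omega)]
      push_cast
      have := jj (J := J)
      linear_combination -this
    rw [e, inW_nat _ (by omega)]
    omega

/-- `f` is a window of `T`, whose points start at `s`. -/
def Cov (J : ℕ) (f : ℕ → Prop) (T : BinaryTree Unit) (s : ℕ) : Prop :=
  ∃ t : ZMod (2 * J + 1), ∀ x, s ≤ x → x < s + 2 * (2 * J + 1) → (f x ↔ inW (q J J T s x + t))

theorem rot_q (l r : BinaryTree Unit) (hn : l.numNodes + r.numNodes + 1 = 2 * J + 1) (s x : ℕ)
    (h1 : s + 1 ≤ x) (h2 : x < s + 2 * (2 * J + 1)) :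
    q J J (app l (nd r .nil)) (s + 1) x = (l.numNodes : ZMod (2 * J + 1)) - 1 - q J J (nd l r) s x := by
  have hj := jj (J := J)
  have hab : (l.numNodes : ZMod (2 * J + 1)) + r.numNodes + 1 = 0 := by
    have h : ((l.numNodes + r.numNodes + 1 : ℕ) : ZMod (2 * J + 1)) = ((2 * J + 1 : ℕ) : ZMod (2 * J + 1)) := by
      rw [hn]
    push_cast at h
    rw [h]
    linear_combination hj
  rcases Nat.lt_trichotomy x (s + 2 * l.numNodes + 1) with h3 | h3 | h3
  · rw [q_app_lo l _ (s + 1) x (by omega) (by omega), q_left l r s x (by omega) h3]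
    ring
  · subst h3
    rw [q_app_hi l _ (s + 1) _ (by omega), show s + 1 + 2 * l.numNodes = s + 2 * l.numNodes + 1 by omega,
      q_open, q_close]
    by_cases ha : l.numNodes ≤ J
    · rw [if_pos ha]
      by_cases hb : r.numNodes ≤ J
      · have ha' : l.numNodes = J := by omega
        rw [if_pos hb]
        rw [ha'] at hab ⊢
        linear_combination hab
      · rw [if_neg hb]
        linear_combination hj
    · rw [if_neg ha, if_pos (by omega)]
      linear_combination hab
  · rw [q_app_hi l _ (s + 1) _ (by omega), q_right l r s x h3,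
      show s + 1 + 2 * l.numNodes = s + 2 * l.numNodes + 1 by omega,
      q_left r _ (s + 2 * l.numNodes + 1) x h3 (by omega),
      show s + 2 * l.numNodes + 1 + 1 = s + 2 * l.numNodes + 2 by omega]
    linear_combination hab

theorem rot_q_last (l r : BinaryTree Unit) (hn : l.numNodes + r.numNodes + 1 = 2 * J + 1) (s : ℕ) :
    q J J (app l (nd r .nil)) (s + 1) (s + 2 * (2 * J + 1)) =
      (l.numNodes : ZMod (2 * J + 1)) - 1 - q J J (nd l r) s s := by
  have hj := jj (J := J)
  have hab : (l.numNodes : ZMod (2 * J + 1)) + r.numNodes + 1 = 0 := by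
    have h : ((l.numNodes + r.numNodes + 1 : ℕ) : ZMod (2 * J + 1)) = ((2 * J + 1 : ℕ) : ZMod (2 * J + 1)) := by
      rw [hn]
    push_cast at h
    rw [h]
    linear_combination hj
  rw [q_app_hi l _ (s + 1) _ (by omega), show s + 1 + 2 * l.numNodes = s + 2 * l.numNodes + 1 by omega,
    show s + 2 * (2 * J + 1) = s + 2 * l.numNodes + 1 + 2 * r.numNodes + 1 by omega, q_close, q_open]
  by_cases ha : l.numNodes ≤ J
  · rw [if_pos ha]
    by_cases hb : r.numNodes ≤ J
    · have ha' : l.numNodes = J := by omega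
      rw [if_pos hb, ha']
      linear_combination hj
    · rw [if_neg hb]
      linear_combination hab
  · rw [if_neg ha, if_pos (by omega)]
    linear_combination hj

theorem cov_rot (f : ℕ → Prop) (hf : ∀ x, f (x + 2 * (2 * J + 1)) ↔ f x) (l r : BinaryTree Unit)
    (hn : l.numNodes + r.numNodes + 1 = 2 * J + 1) (s : ℕ) (h : Cov J f (nd l r) s) :
    Cov J f (app l (nd r .nil)) (s + 1) := by
  obtain ⟨t, ht⟩ := h
  refine ⟨(J : ZMod (2 * J + 1)) - l.numNodes - t, ?_⟩
  intro x h1 h2
  by_cases hx : x < s + 2 * (2 * J + 1)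
  · rw [ht x (by omega) hx, rot_q l r hn s x h1 hx, inW_refl]
    have e : (J : ZMod (2 * J + 1)) - 1 - (q J J (nd l r) s x + t) =
        (l.numNodes : ZMod (2 * J + 1)) - 1 - q J J (nd l r) s x + ((J : ZMod (2 * J + 1)) - l.numNodes - t) := by
      ring
    rw [e]
  · have hx' : x = s + 2 * (2 * J + 1) := by omega
    subst hx'
    rw [hf, ht s (le_refl _) (by omega), rot_q_last l r hn s, inW_refl]
    have e : (J : ZMod (2 * J + 1)) - 1 - (q J J (nd l r) s s + t) =
        (l.numNodes : ZMod (2 * J + 1)) - 1 - q J J (nd l r) s s + ((J : ZMod (2 * J + 1)) - l.numNodes - t) := by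
      ring
    rw [e]

theorem cov_rots (f : ℕ → Prop) (hf : ∀ x, f (x + 2 * (2 * J + 1)) ↔ f x) :
    ∀ (d s : ℕ) (T : BinaryTree Unit), T.numNodes = 2 * J + 1 → Cov J f T s →
      ∃ T' : BinaryTree Unit, T'.numNodes = 2 * J + 1 ∧ Cov J f T' (s + d) := by
  intro d
  induction d with
  | zero => intro s T hT h; exact ⟨T, hT, h⟩
  | succ d ih =>
    intro s T hT h
    rcases nd_cases T with rfl | ⟨l, r, rfl⟩
    · simp only [BinaryTree.numNodes] at hT
      omega
    · rw [nd_num] at hT
      have h1 := cov_rot f hf l r hT s h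
      have h2 : (app l (nd r .nil)).numNodes = 2 * J + 1 := by
        rw [app_num, nd_num]
        show l.numNodes + (r.numNodes + 0 + 1) = _
        omega
      obtain ⟨T', hT', h3⟩ := ih (s + 1) _ h2 h1
      refine ⟨T', hT', ?_⟩
      rw [show s + (d + 1) = s + 1 + d by omega]
      exact h3

theorem cov_zero (f : ℕ → Prop) (hf : ∀ x, f (x + 2 * (2 * J + 1)) ↔ f x) (T : BinaryTree Unit)
    (h : Cov J f T (2 * (2 * J + 1))) : Cov J f T 0 := by
  obtain ⟨t, ht⟩ := h
  refine ⟨t, ?_⟩
  intro x _ hx
  have h1 := ht (x + 2 * (2 * J + 1)) (by omega) (by omega)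
  have h2 := q_shift (J := J) (K := J) (2 * (2 * J + 1)) T 0 x
  rw [Nat.zero_add] at h2
  rw [hf, h2] at h1
  exact h1

end WrR
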