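import Pool.Agent.H.MP_4bad09_co.Z3

set_option autoImplicit false

/-!
# The starting point of the middle window
-/

namespace WrR

open Finset

/-- The height. -/
def Hh (f : ℕ → Bool) (n : ℕ) : ℤ := ∑ i ∈ range n, (if f i = true then 1 else -1)

theorem Hh_succ (f : ℕ → Bool) (n : ℕ) : Hh f (n + 1) = Hh f n + (if f n = true then 1 else -1) := by
  unfold Hh
  rw [sum_range_succ]

theorem Hh_parity (f : ℕ → Bool) (n : ℕ) : (Hh f n + n) % 2 = 0 := by
  induction n with
  | zero => simp [Hh]
  | succ n ih =>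
    rw [Hh_succ]
    split_ifs <;> push_cast <;> omega

theorem E_sum (f : ℕ → Bool) : ∀ (n s : ℕ) (h : ℤ), E h ((List.range' s n).map f) =
    ∑ p ∈ range n, (if 0 ≤ h + (Hh f (s + p + 1) - Hh f s) ∧ (h + (Hh f (s + p + 1) - Hh f s)) % 2 = 0
      then 1 else 0) := by
  intro n
  induction n with
  | zero => intro s h; simp [E]
  | succ n ih =>
    intro s h
    rw [List.range'_succ, List.map_cons, sum_range_succ']
    have hs := Hh_succ f s
    have key : ∀ p, h + (Hh f (s + 1) - Hh f s) + (Hh f (s + 1 + p + 1) - Hh f (s + 1)) =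
        h + (Hh f (s + (p + 1) + 1) - Hh f s) := by
      intro p
      rw [show s + 1 + p + 1 = s + (p + 1) + 1 by omega]
      ring
    cases hb : f s
    · rw [hb] at hs
      simp only [Bool.false_eq_true, if_false] at hs
      have e : h - 1 = h + (Hh f (s + 1) - Hh f s) := by rw [hs]; ring
      rw [E_false, e, ih]
      simp only [key, add_zero]
      rw [Nat.add_comm]
    · rw [hb] at hs
      simp only [if_true] at hs
      have e : h + 1 = h + (Hh f (s + 1) - Hh f s) := by rw [hs]; ring
      rw [E_true, e, ih]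
      simp only [key, add_zero]
      rw [Nat.add_comm]

theorem tot_Hh (f : ℕ → Bool) : ∀ (n s : ℕ), tot ((List.range' s n).map f) = Hh f (s + n) - Hh f s := by
  intro n
  induction n with
  | zero => intro s; simp [tot]
  | succ n ih =>
    intro s
    rw [List.range'_succ, List.map_cons]
    have hs := Hh_succ f s
    have e2 : s + 1 + n = s + (n + 1) := by omega
    cases hb : f s
    · rw [hb] at hs
      simp only [Bool.false_eq_true, if_false] at hs
      rw [tot_false, ih, hs, e2]
      ring
    · rw [hb] at hs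
      simp only [if_true] at hs
      rw [tot_true, ih, hs, e2]
      ring

theorem Hh_period (f : ℕ → Bool) (N : ℕ) (hf : ∀ x, f (x + N) = f x) (n : ℕ) :
    Hh f (n + N) = Hh f n + Hh f N := by
  induction n with
  | zero => simp [Hh]
  | succ n ih =>
    rw [show n + 1 + N = n + N + 1 by omega, Hh_succ, Hh_succ, ih, hf]
    ring

theorem sum_pairs (g : ℕ → ℕ) (m : ℕ) : ∑ p ∈ range (2 * m), g p = ∑ c ∈ range m, (g (2 * c) + g (2 * c + 1)) := by
  induction m with
  | zero => simp
  | succ m ih =>
    rw [show 2 * (m + 1) = 2 * m + 1 + 1 by omega, sum_range_succ, sum_range_succ, ih, sum_range_succ]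
    omega

theorem exists_rank {m : ℕ} (key : Fin m → ℤ) (hk : Function.Injective key) (j : ℕ) (hj : j < m) :
    ∃ a : Fin m, ((univ : Finset (Fin m)).filter (fun b => key a < key b)).card = j := by
  classical
  have hlt : ∀ a : Fin m, ((univ : Finset (Fin m)).filter (fun b => key a < key b)).card < m := by
    intro a
    have h1 : (univ : Finset (Fin m)).filter (fun b => key a < key b) ⊂ (univ : Finset (Fin m)) := by
      rw [Finset.ssubset_univ_iff]
      intro h
      have : a ∈ (univ : Finset (Fin m)).filter (fun b => key a < key b) := by rw [h]; exact mem_univ a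
      rw [mem_filter] at this
      exact lt_irrefl _ this.2
    have h2 := card_lt_card h1
    rwa [card_univ, Fintype.card_fin] at h2
  have hstep : ∀ a b : Fin m, key a < key b →
      ((univ : Finset (Fin m)).filter (fun c => key b < key c)).card <
        ((univ : Finset (Fin m)).filter (fun c => key a < key c)).card := by
    intro a b hab
    refine card_lt_card ?_
    rw [Finset.ssubset_iff_of_subset]
    · refine ⟨b, ?_, ?_⟩
      · rw [mem_filter]; exact ⟨mem_univ _, hab⟩
      · rw [mem_filter]; exact fun h => lt_irrefl _ h.2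
    · intro c hc
      rw [mem_filter] at hc ⊢
      exact ⟨hc.1, lt_trans hab hc.2⟩
  let r : Fin m → Fin m := fun a => ⟨((univ : Finset (Fin m)).filter (fun b => key a < key b)).card, hlt a⟩
  have hr : Function.Injective r := by
    intro a b h
    have h' : ((univ : Finset (Fin m)).filter (fun c => key a < key c)).card =
      ((univ : Finset (Fin m)).filter (fun c => key b < key c)).card := congrArg Fin.val h
    rcases lt_trichotomy (key a) (key b) with h1 | h1 | h1
    · have := hstep a b h1; omega
    · exact hk h1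
    · have := hstep b a h1; omega
  obtain ⟨a, ha⟩ := Finite.surjective_of_injective hr ⟨j, hj⟩
  exact ⟨a, congrArg Fin.val ha⟩

theorem int_cmp (m d w : ℤ) (h1 : -m < d) (h2 : d < m) : 0 < d + m * w ↔ (1 ≤ w ∨ (w = 0 ∧ 0 < d)) := by
  constructor
  · intro h
    by_contra hn
    push Not at hn
    obtain ⟨hw, hd⟩ := hn
    rcases lt_or_eq_of_le (show w ≤ 0 by omega) with h3 | h3
    · nlinarith
    · have := hd h3
      rw [h3] at h
      omega
  · rintro (h | ⟨h, h'⟩)
    · nlinarith
    · rw [h]; omega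

/-- The key of the even corner `2 b`. -/
def key (f : ℕ → Bool) (m b : ℕ) : ℤ := b + m * (Hh f (2 * b) / 2)

theorem key_lt (f : ℕ → Bool) (m a b : ℕ) (ha : a < m) (hb : b < m) :
    key f m a < key f m b ↔
      ((a < b ∧ Hh f (2 * a) ≤ Hh f (2 * b)) ∨ (b ≤ a ∧ Hh f (2 * a) + 2 ≤ Hh f (2 * b))) := by
  have pa := Hh_parity f (2 * a)
  have pb := Hh_parity f (2 * b)
  push_cast at pa pb
  have h := int_cmp m ((b : ℤ) - a) (Hh f (2 * b) / 2 - Hh f (2 * a) / 2) (by omega) (by omega)
  have e : (0 < (b : ℤ) - a + m * (Hh f (2 * b) / 2 - Hh f (2 * a) / 2)) ↔ key f m a < key f m b := by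
    unfold key
    rw [mul_sub]
    constructor <;> intro h <;> linarith
  rw [← e, h]
  omega

theorem key_inj (f : ℕ → Bool) (m : ℕ) : Function.Injective (fun b : Fin m => key f m b.val) := by
  intro a b h
  have h1 := key_lt f m a.val b.val a.isLt b.isLt
  have h2 := key_lt f m b.val a.val b.isLt a.isLt
  have h' : key f m a.val = key f m b.val := h
  rw [h'] at h1 h2
  simp only [lt_irrefl, false_iff, not_or, not_and, not_le] at h1 h2
  have pa := Hh_parity f (2 * a.val)
  have pb := Hh_parity f (2 * b.val)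
  push_cast at pa pb
  apply Fin.ext
  omega

theorem E_key (f : ℕ → Bool) (m a : ℕ) (ha : a < m) (hf : ∀ x, f (x + 2 * m) = f x) (hN : Hh f (2 * m) = -2) :
    E 0 ((List.range' (2 * a) (2 * m)).map f) =
      ((univ : Finset (Fin m)).filter (fun b => key f m a < key f m b.val)).card := by
  have hper := Hh_period f (2 * m) hf
  rw [E_sum, sum_pairs]
  have h1 : ∀ c ∈ range m,
      ((if 0 ≤ (0 : ℤ) + (Hh f (2 * a + 2 * c + 1) - Hh f (2 * a)) ∧
          (0 + (Hh f (2 * a + 2 * c + 1) - Hh f (2 * a))) % 2 = 0 then 1 else 0) +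
        (if 0 ≤ (0 : ℤ) + (Hh f (2 * a + (2 * c + 1) + 1) - Hh f (2 * a)) ∧
          (0 + (Hh f (2 * a + (2 * c + 1) + 1) - Hh f (2 * a))) % 2 = 0 then 1 else 0)) =
      (if Hh f (2 * a) ≤ Hh f (2 * (a + 1 + c)) then 1 else 0) := by
    intro c _
    have p0 := Hh_parity f (2 * a)
    have p1 := Hh_parity f (2 * a + 2 * c + 1)
    have p2 := Hh_parity f (2 * (a + 1 + c))
    push_cast at p0 p1 p2
    rw [show 2 * a + (2 * c + 1) + 1 = 2 * (a + 1 + c) by ring]
    split_ifs <;> omega
  rw [sum_congr rfl h1, card_filter]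
  have h2 : ∀ b : Fin m, (if key f m a < key f m b.val then 1 else 0) =
      (fun b : ℕ => if key f m a < key f m b then (1 : ℕ) else 0) b.val := fun b => rfl
  rw [sum_congr rfl (fun b _ => h2 b), ← sum_range (fun b : ℕ => if key f m a < key f m b then (1 : ℕ) else 0)]
  have e1 : m = (m - a - 1) + (a + 1) := by omega
  have e2 : m = (a + 1) + (m - a - 1) := by omega
  have h3 : ∑ c ∈ range m, (if Hh f (2 * a) ≤ Hh f (2 * (a + 1 + c)) then 1 else 0) =
      ∑ c ∈ range (m - a - 1), (if Hh f (2 * a) ≤ Hh f (2 * (a + 1 + c)) then 1 else 0) +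
      ∑ c ∈ range (a + 1), (if Hh f (2 * a) ≤ Hh f (2 * (a + 1 + ((m - a - 1) + c))) then 1 else 0) := by
    rw [← sum_range_add (fun c => if Hh f (2 * a) ≤ Hh f (2 * (a + 1 + c)) then 1 else 0), ← e1]
  have h4 : ∑ b ∈ range m, (if key f m a < key f m b then (1 : ℕ) else 0) =
      ∑ b ∈ range (a + 1), (if key f m a < key f m b then (1 : ℕ) else 0) +
      ∑ c ∈ range (m - a - 1), (if key f m a < key f m (a + 1 + c) then (1 : ℕ) else 0) := by
    rw [← sum_range_add (fun b => if key f m a < key f m b then (1 : ℕ) else 0), ← e2]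
  rw [h3, h4, Nat.add_comm]
  congr 1
  · refine sum_congr rfl ?_
    intro b hb
    rw [mem_range] at hb
    have h5 := key_lt f m a b ha (by omega)
    have h6 : Hh f (2 * (a + 1 + ((m - a - 1) + b))) = Hh f (2 * b) - 2 := by
      rw [show 2 * (a + 1 + ((m - a - 1) + b)) = 2 * b + 2 * m by omega, hper, hN]
      ring
    rw [h6]
    have h7 : (Hh f (2 * a) ≤ Hh f (2 * b) - 2) ↔ (key f m a < key f m b) := by
      rw [h5]
      omega
    simp only [h7]
  · refine sum_congr rfl ?_
    intro c hc
    rw [mem_range] at hc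
    have h5 := key_lt f m a (a + 1 + c) ha (by omega)
    have h7 : (Hh f (2 * a) ≤ Hh f (2 * (a + 1 + c))) ↔ (key f m a < key f m (a + 1 + c)) := by
      rw [h5]
      omega
    simp only [h7]

theorem exists_start (f : ℕ → Bool) (m j : ℕ) (hj : j < m) (hf : ∀ x, f (x + 2 * m) = f x)
    (hN : Hh f (2 * m) = -2) : ∃ a, a < m ∧ E 0 ((List.range' (2 * a) (2 * m)).map f) = j := by
  obtain ⟨a, ha⟩ := exists_rank (fun b : Fin m => key f m b.val) (key_inj f m) j hj
  exact ⟨a.val, a.isLt, by rw [E_key f m a.val a.isLt hf hN]; exact ha⟩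

end WrR
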