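import Pool.Agent.H.MP_4bad09_co.Z4
import Pool.Agent.H.MP_4bad09_co.R4

set_option autoImplicit false

/-!
# Every set is a window; the permutations of the trees
-/

namespace WrR

open BinaryTree

variable {J K : ℕ}

theorem cover_ev (f : ℕ → Bool) (hf : ∀ x, f (x + 2 * (2 * J + 1)) = f x) (hN : Hh f (2 * (2 * J + 1)) = -2) :
    ∃ T : BinaryTree Unit, T.numNodes = 2 * J + 1 ∧ Cov J (fun x => f x = true) T 0 := by
  obtain ⟨a, ha, hE⟩ := exists_start f (2 * J + 1) J (by omega) hf hN
  have ht : tot ((List.range' (2 * a) (2 * (2 * J + 1))).map f) = -2 := by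
    rw [tot_Hh, Hh_period f _ hf, hN]
    ring
  have hc : ((List.range' (2 * a) (2 * (2 * J + 1))).map f).count true + 2 =
      ((List.range' (2 * a) (2 * (2 * J + 1))).map f).count false := by
    unfold tot at ht
    omega
  obtain ⟨T, hT, _, hW⟩ := (main_stat _ _ (le_refl _)).2 hc
  rw [List.length_map, List.length_range'] at hT
  have hT' : T.numNodes = 2 * J + 1 := by omega
  have hml := hW (2 * a)
  rw [ones_map, hE] at hml
  have hcov : Cov J (fun x => f x = true) T (2 * a) := by
    refine ⟨0, ?_⟩
    intro x h1 h2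
    have hm := mid_iff (J := J) (K := 2 * J + 1) T hT' (le_refl _) (2 * a) x h1 (by omega)
    have hl := (labels (J := J) (K := 2 * J + 1) T (2 * a) 0 x h1 (by omega) (by omega)).1 (by omega)
    rw [Nat.cast_zero, zero_add, zero_add] at hl
    have h3 : x ∈ ml ((List.range' (2 * a) (2 * (2 * J + 1))).filter f) ↔
        (x ∈ (PA T (2 * a)).take J ∨ x ∈ (PB T (2 * a)).drop (J + 1)) := by
      rw [hml, Multiset.mem_add]
      rfl
    have h4 : x ∈ ml ((List.range' (2 * a) (2 * (2 * J + 1))).filter f) ↔ f x = true := by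
      show x ∈ (List.range' (2 * a) (2 * (2 * J + 1))).filter f ↔ f x = true
      rw [List.mem_filter, List.mem_range'_1]
      exact ⟨fun h => h.2, fun h => ⟨⟨h1, h2⟩, h⟩⟩
    show f x = true ↔ inW (q J J T (2 * a) x + 0)
    rw [add_zero, hl, ← hm, ← h3, h4]
  obtain ⟨T', hT1, hT2⟩ := cov_rots (J := J) (fun x => f x = true) (fun x => by rw [hf]) (2 * (2 * J + 1) - 2 * a)
    (2 * a) T hT' hcov
  rw [show 2 * a + (2 * (2 * J + 1) - 2 * a) = 2 * (2 * J + 1) by omega] at hT2
  exact ⟨T', hT1, cov_zero (fun x => f x = true) (fun x => by rw [hf]) T' hT2⟩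

/-- The multiset of a list. -/
def mz (L : List (ZMod (2 * J + 1))) : Multiset (ZMod (2 * J + 1)) := (L : Multiset (ZMod (2 * J + 1)))

theorem mz_app (L M : List (ZMod (2 * J + 1))) : mz (L ++ M) = mz L + mz M := rfl

theorem mz_cons (z : ZMod (2 * J + 1)) (L : List (ZMod (2 * J + 1))) : mz (z :: L) = {z} + mz L := rfl

theorem mz_rev (L : List (ZMod (2 * J + 1))) : mz L.reverse = mz L := by
  unfold mz
  rw [Multiset.coe_eq_coe]
  exact List.reverse_perm L

theorem mz_map (f : ZMod (2 * J + 1) → ZMod (2 * J + 1)) (L : List (ZMod (2 * J + 1))) :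
    mz (L.map f) = Multiset.map f (mz L) := rfl

theorem q_mset (T : BinaryTree Unit) : ∀ s,
    mz ((List.range' s (2 * T.numNodes)).map (q J K T s)) = mz (rg J 0 T.numNodes) + mz (rg J J T.numNodes) := by
  induction T with
  | nil => intro s; rfl
  | node u l r ihl ihr =>
    intro s
    have hn : (BinaryTree.node u l r).numNodes = l.numNodes + r.numNodes + 1 := rfl
    have hu : BinaryTree.node u l r = nd l r := rfl
    have h1 : List.range' s (2 * (l.numNodes + r.numNodes + 1)) =
        s :: (List.range' (s + 1) (2 * l.numNodes) ++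
          (s + 2 * l.numNodes + 1) :: List.range' (s + 2 * l.numNodes + 2) (2 * r.numNodes)) := by
      rw [show 2 * (l.numNodes + r.numNodes + 1) = (2 * l.numNodes + (2 * r.numNodes + 1)) + 1 by omega]
      rw [List.range'_succ, ← List.range'_append_1, List.range'_succ]
      rw [show s + 1 + 2 * l.numNodes = s + 2 * l.numNodes + 1 by omega]
    rw [hn, h1, hu, List.map_cons, List.map_append, List.map_cons,
      map_left l r s _ (fun x hx => by rw [List.mem_range'_1] at hx; omega),
      map_right l r s _ (fun x hx => by rw [List.mem_range'_1] at hx; omega),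
      mz_cons, mz_app, mz_cons, mz_map, mz_map, ihl, ihr, Multiset.map_add, Multiset.map_add,
      ← mz_map, ← mz_map, ← mz_map, ← mz_map]
    have e1 : mz ((rg J 0 l.numNodes).map (fun z => (l.numNodes : ZMod (2 * J + 1)) - 1 - z)) =
        mz (rg J 0 l.numNodes) := by
      have h := rg_rev (J := J) 0 0 l.numNodes
      simp only [add_zero, sub_zero] at h
      rw [← mz_rev, h]
    have e2 : mz ((rg J J l.numNodes).map (fun z => (l.numNodes : ZMod (2 * J + 1)) - 1 - z)) =
        mz (rg J (1 + J) l.numNodes) := by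
      have h := rg_rev (J := J) J 0 l.numNodes
      simp only [add_zero, zero_sub] at h
      have h3 : (-(J : ZMod (2 * J + 1))) = 1 + J := by
        have := jj (J := J)
        linear_combination -this
      rw [← mz_rev, h, h3]
    have e3 : ∀ c : ZMod (2 * J + 1),
        (rg J c r.numNodes).map (fun z => (l.numNodes : ZMod (2 * J + 1)) + 1 + z) =
          rg J ((l.numNodes : ZMod (2 * J + 1)) + 1 + c) r.numNodes := by
      intro c
      unfold rg
      rw [List.map_map]
      refine List.map_congr_left ?_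
      intro i _
      simp only [Function.comp]
      ring
    have f1 : mz (rg J 0 (l.numNodes + r.numNodes + 1)) =
        mz (rg J 0 l.numNodes) + ({(l.numNodes : ZMod (2 * J + 1))} +
          mz (rg J ((l.numNodes : ZMod (2 * J + 1)) + 1 + 0) r.numNodes)) := by
      rw [show l.numNodes + r.numNodes + 1 = l.numNodes + (1 + r.numNodes) by omega, rg_add, rg_add, rg_one,
        mz_app, mz_app]
      have g1 : (((1 : ℕ) : ZMod (2 * J + 1)) + ((l.numNodes : ZMod (2 * J + 1)) + 0)) =
          (l.numNodes : ZMod (2 * J + 1)) + 1 + 0 := by push_cast; ring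
      have g2 : (l.numNodes : ZMod (2 * J + 1)) + 0 = l.numNodes := by ring
      rw [g1, g2]
      rfl
    have f2 : mz (rg J J (l.numNodes + r.numNodes + 1)) =
        {(J : ZMod (2 * J + 1))} + (mz (rg J (1 + J) l.numNodes) +
          mz (rg J ((l.numNodes : ZMod (2 * J + 1)) + 1 + J) r.numNodes)) := by
      rw [show l.numNodes + r.numNodes + 1 = 1 + (l.numNodes + r.numNodes) by omega, rg_add, rg_add, rg_one,
        mz_app, mz_app]
      have g1 : ((l.numNodes : ZMod (2 * J + 1)) + (((1 : ℕ) : ZMod (2 * J + 1)) + J)) =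
          (l.numNodes : ZMod (2 * J + 1)) + 1 + J := by push_cast; ring
      have g2 : (((1 : ℕ) : ZMod (2 * J + 1)) + J) = 1 + J := by push_cast; ring
      rw [g1, g2]
      rfl
    have g : ({q J K (nd l r) s s} : Multiset (ZMod (2 * J + 1))) + {q J K (nd l r) s (s + 2 * l.numNodes + 1)} =
        {(l.numNodes : ZMod (2 * J + 1))} + {(J : ZMod (2 * J + 1))} := by
      rw [q_open, q_close]
      by_cases h : l.numNodes ≤ K
      · rw [if_pos h, if_pos h]
      · rw [if_neg h, if_neg h]
        exact add_comm _ _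
    rw [e1, e2, e3, e3, f1, f2]
    have g' : ∀ (A B C D : Multiset (ZMod (2 * J + 1))),
        ({q J K (nd l r) s s} : Multiset (ZMod (2 * J + 1))) +
          (A + B + ({q J K (nd l r) s (s + 2 * l.numNodes + 1)} + (C + D))) =
        A + ({(l.numNodes : ZMod (2 * J + 1))} + C) + ({(J : ZMod (2 * J + 1))} + (B + D)) := by
      intro A B C D
      have h2 : ({q J K (nd l r) s s} : Multiset (ZMod (2 * J + 1))) +
          (A + B + ({q J K (nd l r) s (s + 2 * l.numNodes + 1)} + (C + D))) =
          ({q J K (nd l r) s s} + {q J K (nd l r) s (s + 2 * l.numNodes + 1)}) + (A + B + (C + D)) := by abel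
      rw [h2, g]
      abel
    exact g' _ _ _ _

theorem rg_count (c z : ZMod (2 * J + 1)) : Multiset.count z (mz (rg J c (2 * J + 1))) = 1 := by
  unfold mz
  rw [Multiset.coe_count]
  refine List.count_eq_one_of_mem ?_ ?_
  · unfold rg
    refine List.Nodup.map_on ?_ List.nodup_range
    intro i hi j hj h
    have h1 : (i : ZMod (2 * J + 1)) = j := add_right_cancel h
    have h2 := congrArg ZMod.val h1
    rw [val_nat i (List.mem_range.mp hi), val_nat j (List.mem_range.mp hj)] at h2
    exact h2
  · unfold rg
    rw [List.mem_map]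
    refine ⟨(z - c).val, List.mem_range.mpr (ZMod.val_lt _), ?_⟩
    rw [ZMod.natCast_zmod_val]
    ring

/-- Every pair has two points. -/
theorem fiber_card (T : BinaryTree Unit) (hT : T.numNodes = 2 * J + 1) (z : ZMod (2 * J + 1)) :
    ((Finset.range (2 * (2 * J + 1))).filter (fun x => z = q J J T 0 x)).card = 2 := by
  have h := q_mset (J := J) (K := J) T 0
  rw [hT, ← List.range_eq_range'] at h
  have h1 : Multiset.count z (mz ((List.range (2 * (2 * J + 1))).map (q J J T 0))) = 2 := by
    rw [h, Multiset.count_add, rg_count, rg_count]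
  have h2 : mz ((List.range (2 * (2 * J + 1))).map (q J J T 0)) =
      Multiset.map (q J J T 0) (Multiset.range (2 * (2 * J + 1))) := rfl
  rw [h2, Multiset.count_map] at h1
  exact h1

end WrR
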