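import Pool.Agent.H.MP_4bad09_co.Z5

set_option autoImplicit false

/-!
# The permutations of the trees and their windows
-/

namespace WrR

open BinaryTree

variable {J : ℕ}

def qF (J : ℕ) (T : BinaryTree Unit) (n : ℕ) (x : Fin n) : ZMod (2 * J + 1) := q J J T 0 x.val

def hF (J n : ℕ) (y : Fin n) : ZMod (2 * J + 1) := ((y.val / 2 : ℕ) : ZMod (2 * J + 1))

theorem card_fin_filter (n : ℕ) (F : ℕ → ZMod (2 * J + 1)) (z : ZMod (2 * J + 1)) :
    Fintype.card {x : Fin n // F x.val = z} = ((Finset.range n).filter (fun x => z = F x)).card := by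
  rw [Fintype.card_subtype, Finset.card_filter, Finset.card_filter,
    Finset.sum_range (fun x => if z = F x then 1 else 0)]
  refine Finset.sum_congr rfl ?_
  intro x _
  by_cases h : F x.val = z
  · rw [if_pos h, if_pos h.symm]
  · rw [if_neg h, if_neg (fun h' => h h'.symm)]

theorem card_qF (T : BinaryTree Unit) (hT : T.numNodes = 2 * J + 1) (n : ℕ) (hn : n = 2 * (2 * J + 1))
    (z : ZMod (2 * J + 1)) : Fintype.card {x : Fin n // qF J T n x = z} = 2 := by
  subst hn
  have h := card_fin_filter (2 * (2 * J + 1)) (fun x => q J J T 0 x) z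
  exact h.trans (fiber_card T hT z)

theorem card_hF (n : ℕ) (hn : n = 2 * (2 * J + 1)) (z : ZMod (2 * J + 1)) :
    Fintype.card {y : Fin n // hF J n y = z} = 2 := by
  subst hn
  have h := card_fin_filter (2 * (2 * J + 1)) (fun y => ((y / 2 : ℕ) : ZMod (2 * J + 1))) z
  have h0 : Fintype.card {y : Fin (2 * (2 * J + 1)) // hF J (2 * (2 * J + 1)) y = z} =
      Fintype.card {y : Fin (2 * (2 * J + 1)) // (fun y : ℕ => ((y / 2 : ℕ) : ZMod (2 * J + 1))) y.val = z} := rfl
  rw [h0, h, Finset.card_filter, sum_pairs]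
  have h1 : ∀ c ∈ Finset.range (2 * J + 1),
      ((if z = ((2 * c / 2 : ℕ) : ZMod (2 * J + 1)) then 1 else 0) +
        (if z = (((2 * c + 1) / 2 : ℕ) : ZMod (2 * J + 1)) then 1 else 0)) =
      2 * (if z = (c : ZMod (2 * J + 1)) then 1 else 0) := by
    intro c _
    rw [show 2 * c / 2 = c by omega, show (2 * c + 1) / 2 = c by omega]
    omega
  rw [Finset.sum_congr rfl h1, ← Finset.mul_sum]
  have h2 : ∑ c ∈ Finset.range (2 * J + 1), (if z = (c : ZMod (2 * J + 1)) then 1 else 0) = 1 := by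
    rw [Finset.sum_eq_single z.val]
    · rw [ZMod.natCast_zmod_val, if_pos rfl]
    · intro c hc hne
      rw [if_neg]
      intro h3
      apply hne
      rw [h3, val_nat c (Finset.mem_range.mp hc)]
    · intro h3
      exact absurd (Finset.mem_range.mpr (ZMod.val_lt z)) h3
  rw [h2, Nat.mul_one]

/-- The permutation of a tree with `2 J + 1` nodes. -/
noncomputable def sge (T : BinaryTree Unit) (hT : T.numNodes = 2 * J + 1) (n : ℕ) (hn : n = 2 * (2 * J + 1)) :
    Equiv.Perm (Fin n) :=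
  Equiv.ofFiberEquiv (f := hF J n) (g := qF J T n)
    (fun z => Fintype.equivOfCardEq (by rw [card_hF n hn, card_qF T hT n hn]))

theorem sge_map (T : BinaryTree Unit) (hT : T.numNodes = 2 * J + 1) (n : ℕ) (hn : n = 2 * (2 * J + 1))
    (y : Fin n) : qF J T n (sge T hT n hn y) = hF J n y := by
  unfold sge
  exact Equiv.ofFiberEquiv_map _ y

theorem win_ev (T : BinaryTree Unit) (hT : T.numNodes = 2 * J + 1) (n : ℕ) (h0 : 0 < n) (hn : n = 2 * (2 * J + 1))
    (s : Finset (Fin n)) (hs : s.card = 2 * J) (t : ZMod (2 * J + 1))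
    (h : ∀ x : Fin n, x ∈ s ↔ inW (qF J T n x + t)) :
    win h0 (2 * J) (sge T hT n hn) ((2 * t).val * (2 * J)) = s := by
  unfold win
  refine Finset.eq_of_subset_of_card_le ?_ ?_
  · intro x hx
    rw [Finset.mem_image] at hx
    obtain ⟨j, _, rfl⟩ := hx
    have hj := j.isLt
    rw [h, sge_map]
    unfold hF
    have e1 : ((2 * t).val * (2 * J) + j.val) % n / 2 = ((2 * t).val * J + j.val / 2) % (2 * J + 1) := by
      rw [hn, Nat.mod_mul_right_div_self,
        show (2 * t).val * (2 * J) + j.val = 2 * ((2 * t).val * J) + j.val by ring]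
      congr 1
      omega
    have e2 : ((((2 * t).val * (2 * J) + j.val) % n / 2 : ℕ) : ZMod (2 * J + 1)) + t =
        ((j.val / 2 : ℕ) : ZMod (2 * J + 1)) := by
      rw [e1, ZMod.natCast_mod, Nat.cast_add, Nat.cast_mul, ZMod.natCast_zmod_val]
      have := jj (J := J)
      linear_combination t * this
    show inW (((((2 * t).val * (2 * J) + j.val) % n / 2 : ℕ) : ZMod (2 * J + 1)) + t)
    rw [e2, inW_nat _ (by omega)]
    omega
  · rw [hs, Finset.card_image_of_injective, Finset.card_univ, Fintype.card_fin]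
    intro i j hij
    have h1 := (sge T hT n hn).injective hij
    have h2 : ((2 * t).val * (2 * J) + i.val) % n = ((2 * t).val * (2 * J) + j.val) % n := congrArg Fin.val h1
    have h3 : i.val % n = j.val % n := Nat.ModEq.add_left_cancel' _ h2
    have hi := i.isLt
    have hj := j.isLt
    rw [Nat.mod_eq_of_lt (by omega), Nat.mod_eq_of_lt (by omega)] at h3
    exact Fin.ext h3

/-- The cyclic orderings, one for each tree. -/
noncomputable def sges (J n : ℕ) (hn : n = 2 * (2 * J + 1)) (i : Fin (treesOfNumNodesEq (2 * J + 1)).card) :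
    Equiv.Perm (Fin n) :=
  sge ((treesOfNumNodesEq (2 * J + 1)).equivFin.symm i).val
    (mem_treesOfNumNodesEq.mp ((treesOfNumNodesEq (2 * J + 1)).equivFin.symm i).property) n hn

theorem cover_fin_ev (J n : ℕ) (h0 : 0 < n) (hn : n = 2 * (2 * J + 1)) (s : Finset (Fin n)) (hs : s.card = 2 * J) :
    ∃ (i : Fin (treesOfNumNodesEq (2 * J + 1)).card) (p : ℕ), p < 2 * J + 1 ∧
      win h0 (2 * J) (sges J n hn i) (p * (2 * J)) = s := by
  classical
  let f : ℕ → Bool := fun x => decide ((⟨x % n, Nat.mod_lt _ h0⟩ : Fin n) ∈ s)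
  have hfx : ∀ x : Fin n, f x.val = decide (x ∈ s) := by
    intro x
    show decide ((⟨x.val % n, Nat.mod_lt _ h0⟩ : Fin n) ∈ s) = decide (x ∈ s)
    have : (⟨x.val % n, Nat.mod_lt _ h0⟩ : Fin n) = x := Fin.ext (Nat.mod_eq_of_lt x.isLt)
    rw [this]
  have hf : ∀ x, f (x + 2 * (2 * J + 1)) = f x := by
    intro x
    show decide ((⟨(x + 2 * (2 * J + 1)) % n, Nat.mod_lt _ h0⟩ : Fin n) ∈ s) =
      decide ((⟨x % n, Nat.mod_lt _ h0⟩ : Fin n) ∈ s)
    have : (⟨(x + 2 * (2 * J + 1)) % n, Nat.mod_lt _ h0⟩ : Fin n) = ⟨x % n, Nat.mod_lt _ h0⟩ := by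
      apply Fin.ext
      show (x + 2 * (2 * J + 1)) % n = x % n
      rw [← hn, Nat.add_mod_right]
    rw [this]
  have hN : Hh f (2 * (2 * J + 1)) = -2 := by
    unfold Hh
    rw [← hn, Finset.sum_range]
    have h1 : ∀ i ∈ (Finset.univ : Finset (Fin n)), (if f i.val = true then (1 : ℤ) else -1) =
        2 * (if i ∈ s then 1 else 0) - 1 := by
      intro i _
      rw [hfx]
      by_cases h : i ∈ s
      · simp [h]
      · simp [h]
    rw [Finset.sum_congr rfl h1, Finset.sum_sub_distrib, ← Finset.mul_sum, Finset.sum_boole]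
    simp only [Finset.filter_mem_eq_inter, Finset.univ_inter, Finset.sum_const, Finset.card_univ, Fintype.card_fin,
      nsmul_eq_mul, mul_one]
    rw [hs, hn]
    push_cast
    ring
  obtain ⟨T, hT, t, ht⟩ := cover_ev f hf hN
  have hw := win_ev T hT n h0 hn s hs t (by
    intro x
    have := ht x.val (Nat.zero_le _) (by rw [Nat.zero_add, ← hn]; exact x.isLt)
    rw [show (x ∈ s) ↔ (f x.val = true) by rw [hfx]; simp]
    exact this)
  refine ⟨(treesOfNumNodesEq (2 * J + 1)).equivFin ⟨T, mem_treesOfNumNodesEq.mpr hT⟩, (2 * t).val,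
    ZMod.val_lt _, ?_⟩
  unfold sges
  simpa using hw

theorem catalan_mul_ev (n : ℕ) (hn : 0 < n) : catalan n * n = (2 * n).choose (n - 1) := by
  obtain ⟨m, rfl⟩ : ∃ m, n = m + 1 := ⟨n - 1, by omega⟩
  have h1 := succ_mul_catalan_eq_centralBinom (m + 1)
  have h2 := Nat.choose_succ_right_eq (2 * (m + 1)) m
  rw [Nat.centralBinom_eq_two_mul_choose] at h1
  rw [← h1] at h2
  rw [show 2 * (m + 1) - m = m + 2 by omega] at h2
  rw [Nat.add_sub_cancel]
  have h4 : (m + 2) * (catalan (m + 1) * (m + 1)) = (m + 2) * ((2 * (m + 1)).choose m) := by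
    rw [Nat.mul_comm (m + 2) ((2 * (m + 1)).choose m), ← h2]
    ring
  exact Nat.eq_of_mul_eq_mul_left (by omega) h4

end WrR
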